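import Mathlib
import Pool.Agent.H27.Fib.Final

/-!
# Polynomial chirps: basic definitions and calculus
-/

namespace Pool.Agent.Chirp

open MeasureTheory Set Filter
open scoped ENNReal NNReal

/-- Partial derivative in the first variable. -/
noncomputable def d1 (f : ℝ × ℝ → ℝ) (x : ℝ × ℝ) : ℝ := deriv (fun s => f (s, x.2)) x.1

/-- Partial derivative in the second variable. -/
noncomputable def d2 (f : ℝ × ℝ → ℝ) (x : ℝ × ℝ) : ℝ := deriv (fun s => f (x.1, s)) x.2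

/-- Exponents of total degree at most `d`. -/
def SD (d : ℕ) : Finset (ℕ × ℕ) :=
  (Finset.range (d + 1) ×ˢ Finset.range (d + 1)).filter fun p => p.1 + p.2 ≤ d

theorem mem_SD {d : ℕ} {p : ℕ × ℕ} : p ∈ SD d ↔ p.1 + p.2 ≤ d := by
  unfold SD
  simp only [Finset.mem_filter, Finset.mem_product, Finset.mem_range]
  omega

/-- Real polynomial functions on the plane of total degree at most `d`. -/
def IsPol (d : ℕ) (f : ℝ × ℝ → ℝ) : Prop :=
  ∃ c : ℕ × ℕ → ℝ, ∀ x, f x = ∑ p ∈ SD d, c p * (x.1 ^ p.1 * x.2 ^ p.2)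

theorem IsPol.mono {d e : ℕ} {f : ℝ × ℝ → ℝ} (h : IsPol d f) (hde : d ≤ e) : IsPol e f := by
  obtain ⟨c, hc⟩ := h
  refine ⟨fun p => if p.1 + p.2 ≤ d then c p else 0, fun x => ?_⟩
  rw [hc]
  have hsub : SD d ⊆ SD e := fun p hp => by
    rw [mem_SD] at hp ⊢
    omega
  rw [← Finset.sum_subset hsub]
  · refine Finset.sum_congr rfl fun p hp => ?_
    beta_reduce
    rw [if_pos (mem_SD.1 hp)]
  · intro p _ hp
    rw [mem_SD] at hp
    beta_reduce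
    rw [if_neg hp, zero_mul]

theorem IsPol.add {d : ℕ} {f g : ℝ × ℝ → ℝ} (hf : IsPol d f) (hg : IsPol d g) :
    IsPol d (fun x => f x + g x) := by
  obtain ⟨c, hc⟩ := hf
  obtain ⟨e, he⟩ := hg
  refine ⟨fun p => c p + e p, fun x => ?_⟩
  beta_reduce
  rw [hc, he, ← Finset.sum_add_distrib]
  exact Finset.sum_congr rfl fun p _ => by ring

theorem IsPol.smul {d : ℕ} {f : ℝ × ℝ → ℝ} (r : ℝ) (hf : IsPol d f) :
    IsPol d (fun x => r * f x) := by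
  obtain ⟨c, hc⟩ := hf
  refine ⟨fun p => r * c p, fun x => ?_⟩
  beta_reduce
  rw [hc, Finset.mul_sum]
  exact Finset.sum_congr rfl fun p _ => by ring

theorem IsPol.neg {d : ℕ} {f : ℝ × ℝ → ℝ} (hf : IsPol d f) : IsPol d (fun x => -f x) := by
  have h := hf.smul (-1)
  simpa using h

theorem IsPol.sub {d : ℕ} {f g : ℝ × ℝ → ℝ} (hf : IsPol d f) (hg : IsPol d g) :
    IsPol d (fun x => f x - g x) := by
  have h := hf.add hg.neg
  simpa [sub_eq_add_neg] using h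

theorem isPol_mono (i j : ℕ) : IsPol (i + j) (fun x => x.1 ^ i * x.2 ^ j) := by
  refine ⟨fun p => if p = (i, j) then 1 else 0, fun x => ?_⟩
  have h : (i, j) ∈ SD (i + j) := mem_SD.2 le_rfl
  rw [Finset.sum_eq_single_of_mem _ h]
  · simp
  · intro p _ hp
    beta_reduce
    rw [if_neg hp, zero_mul]

theorem isPol_sum {ι : Type*} (s : Finset ι) {d : ℕ} {f : ι → ℝ × ℝ → ℝ}
    (h : ∀ i ∈ s, IsPol d (f i)) : IsPol d (fun x => ∑ i ∈ s, f i x) := by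
  classical
  induction s using Finset.induction_on with
  | empty => exact ⟨fun _ => 0, fun x => by simp⟩
  | insert a s ha ih =>
    have h1 := (h a (Finset.mem_insert_self a s)).add
      (ih fun i hi => h i (Finset.mem_insert_of_mem hi))
    refine ⟨h1.choose, fun x => ?_⟩
    beta_reduce
    rw [Finset.sum_insert ha]
    exact h1.choose_spec x

theorem IsPol.mul {d e : ℕ} {f g : ℝ × ℝ → ℝ} (hf : IsPol d f) (hg : IsPol e g) :
    IsPol (d + e) (fun x => f x * g x) := by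
  obtain ⟨c, hc⟩ := hf
  obtain ⟨b, hb⟩ := hg
  have h : (fun x => f x * g x) = fun x => ∑ p ∈ SD d, ∑ r ∈ SD e,
      c p * b r * (x.1 ^ (p.1 + r.1) * x.2 ^ (p.2 + r.2)) := by
    funext x
    rw [hc, hb, Finset.sum_mul]
    refine Finset.sum_congr rfl fun p _ => ?_
    rw [Finset.mul_sum]
    refine Finset.sum_congr rfl fun r _ => ?_
    rw [pow_add, pow_add]
    ring
  rw [h]
  refine isPol_sum _ fun p hp => isPol_sum _ fun r hr => ?_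
  rw [mem_SD] at hp hr
  exact ((isPol_mono (p.1 + r.1) (p.2 + r.2)).mono (by omega)).smul (c p * b r)

theorem isPol_const (r : ℝ) (d : ℕ) : IsPol d (fun _ => r) := by
  have h := ((isPol_mono 0 0).mono (Nat.zero_le d)).smul r
  simpa using h

theorem isPol_fst {d : ℕ} (hd : 1 ≤ d) : IsPol d (fun x => x.1) := by
  have h := (isPol_mono 1 0).mono (show 1 + 0 ≤ d by omega)
  simpa using h

theorem isPol_snd {d : ℕ} (hd : 1 ≤ d) : IsPol d (fun x => x.2) := by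
  have h := (isPol_mono 0 1).mono (show 0 + 1 ≤ d by omega)
  simpa using h

theorem IsPol.contDiff {d : ℕ} {f : ℝ × ℝ → ℝ} (hf : IsPol d f) {k : WithTop ℕ∞} :
    ContDiff ℝ k f := by
  obtain ⟨c, hc⟩ := hf
  have h : f = fun x : ℝ × ℝ => ∑ p ∈ SD d, c p * (x.1 ^ p.1 * x.2 ^ p.2) := funext hc
  rw [h]
  exact ContDiff.sum fun p _ => contDiff_const.mul
    ((contDiff_fst.pow _).mul (contDiff_snd.pow _))

theorem IsPol.continuous {d : ℕ} {f : ℝ × ℝ → ℝ} (hf : IsPol d f) : Continuous f :=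
  (hf.contDiff (k := 0)).continuous

/-! ### Partial derivatives of differentiable functions -/

theorem hasDerivAt_line1 {f : ℝ × ℝ → ℝ} {x : ℝ × ℝ} (hf : DifferentiableAt ℝ f x) :
    HasDerivAt (fun s => f (s, x.2)) (fderiv ℝ f x (1, 0)) x.1 := by
  have h1 : HasDerivAt (fun s : ℝ => (s, x.2)) ((1 : ℝ), (0 : ℝ)) x.1 :=
    (hasDerivAt_id x.1).prodMk (hasDerivAt_const x.1 x.2)
  have h2 : HasFDerivAt f (fderiv ℝ f x) ((fun s : ℝ => (s, x.2)) x.1) := hf.hasFDerivAt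
  exact h2.comp_hasDerivAt x.1 h1

theorem hasDerivAt_line2 {f : ℝ × ℝ → ℝ} {x : ℝ × ℝ} (hf : DifferentiableAt ℝ f x) :
    HasDerivAt (fun s => f (x.1, s)) (fderiv ℝ f x (0, 1)) x.2 := by
  have h1 : HasDerivAt (fun s : ℝ => (x.1, s)) ((0 : ℝ), (1 : ℝ)) x.2 :=
    (hasDerivAt_const x.2 x.1).prodMk (hasDerivAt_id x.2)
  have h2 : HasFDerivAt f (fderiv ℝ f x) ((fun s : ℝ => (x.1, s)) x.2) := hf.hasFDerivAt
  exact h2.comp_hasDerivAt x.2 h1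

theorem d1_eq {f : ℝ × ℝ → ℝ} {x : ℝ × ℝ} (hf : DifferentiableAt ℝ f x) :
    d1 f x = fderiv ℝ f x (1, 0) := (hasDerivAt_line1 hf).deriv

theorem d2_eq {f : ℝ × ℝ → ℝ} {x : ℝ × ℝ} (hf : DifferentiableAt ℝ f x) :
    d2 f x = fderiv ℝ f x (0, 1) := (hasDerivAt_line2 hf).deriv

/-- Derivative along a horizontal line. -/
theorem hasDerivAt_d1 {f : ℝ × ℝ → ℝ} {x : ℝ × ℝ} (hf : DifferentiableAt ℝ f x) :
    HasDerivAt (fun s => f (s, x.2)) (d1 f x) x.1 := by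
  rw [d1_eq hf]
  exact hasDerivAt_line1 hf

/-- Derivative along a vertical line. -/
theorem hasDerivAt_d2 {f : ℝ × ℝ → ℝ} {x : ℝ × ℝ} (hf : DifferentiableAt ℝ f x) :
    HasDerivAt (fun s => f (x.1, s)) (d2 f x) x.2 := by
  rw [d2_eq hf]
  exact hasDerivAt_line2 hf

theorem hasFDerivAt_d {f : ℝ × ℝ → ℝ} {x : ℝ × ℝ} (hf : DifferentiableAt ℝ f x) :
    HasFDerivAt f (d1 f x • ContinuousLinearMap.fst ℝ ℝ ℝ +
      d2 f x • ContinuousLinearMap.snd ℝ ℝ ℝ) x := by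
  have h := hf.hasFDerivAt
  convert h using 1
  ext
  · simp [d1_eq hf]
  · simp [d2_eq hf]

theorem contDiff_d1 {f : ℝ × ℝ → ℝ} {k : ℕ} (hf : ContDiff ℝ (k + 1 : ℕ) f) :
    ContDiff ℝ k (d1 f) := by
  have h : d1 f = fun x => fderiv ℝ f x (1, 0) := by
    funext x
    exact d1_eq ((hf.differentiable (by simp)) x)
  rw [h]
  exact (hf.fderiv_right (m := k) (by norm_cast)).clm_apply contDiff_const

theorem contDiff_d2 {f : ℝ × ℝ → ℝ} {k : ℕ} (hf : ContDiff ℝ (k + 1 : ℕ) f) :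
    ContDiff ℝ k (d2 f) := by
  have h : d2 f = fun x => fderiv ℝ f x (0, 1) := by
    funext x
    exact d2_eq ((hf.differentiable (by simp)) x)
  rw [h]
  exact (hf.fderiv_right (m := k) (by norm_cast)).clm_apply contDiff_const

theorem differentiableAt_of {f : ℝ × ℝ → ℝ} {k : WithTop ℕ∞} (hf : ContDiff ℝ k f) (hk : k ≠ 0)
    (x : ℝ × ℝ) : DifferentiableAt ℝ f x := (hf.differentiable hk) x

theorem IsPol.differentiableAt {d : ℕ} {f : ℝ × ℝ → ℝ} (hf : IsPol d f) (x : ℝ × ℝ) :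
    DifferentiableAt ℝ f x := (hf.contDiff (k := 1)).differentiable (by simp) x

theorem IsPol.d1 {d : ℕ} {f : ℝ × ℝ → ℝ} (hf : IsPol d f) : IsPol d (d1 f) := by
  obtain ⟨c, hc⟩ := hf
  have h : Chirp.d1 f = fun x => ∑ p ∈ SD d, (c p * p.1) * (x.1 ^ (p.1 - 1) * x.2 ^ p.2) := by
    funext x
    have h1 : HasDerivAt (fun s => f (s, x.2))
        (∑ p ∈ SD d, (c p * p.1) * (x.1 ^ (p.1 - 1) * x.2 ^ p.2)) x.1 := by
      have e : (fun s => f (s, x.2)) = fun s => ∑ p ∈ SD d, c p * (s ^ p.1 * x.2 ^ p.2) :=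
        funext fun s => hc (s, x.2)
      rw [e]
      refine HasDerivAt.fun_sum fun p _ => ?_
      have h2 := ((hasDerivAt_pow p.1 x.1).mul_const (x.2 ^ p.2)).const_mul (c p)
      refine h2.congr_deriv ?_
      ring
    exact h1.deriv
  rw [h]
  refine isPol_sum _ fun p hp => ?_
  rw [mem_SD] at hp
  exact ((isPol_mono (p.1 - 1) p.2).mono (by omega)).smul _

theorem IsPol.d2 {d : ℕ} {f : ℝ × ℝ → ℝ} (hf : IsPol d f) : IsPol d (d2 f) := by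
  obtain ⟨c, hc⟩ := hf
  have h : Chirp.d2 f = fun x => ∑ p ∈ SD d, (c p * p.2) * (x.1 ^ p.1 * x.2 ^ (p.2 - 1)) := by
    funext x
    have h1 : HasDerivAt (fun s => f (x.1, s))
        (∑ p ∈ SD d, (c p * p.2) * (x.1 ^ p.1 * x.2 ^ (p.2 - 1))) x.2 := by
      have e : (fun s => f (x.1, s)) = fun s => ∑ p ∈ SD d, c p * (x.1 ^ p.1 * s ^ p.2) :=
        funext fun s => hc (x.1, s)
      rw [e]
      refine HasDerivAt.fun_sum fun p _ => ?_
      have h2 := ((hasDerivAt_pow p.2 x.2).const_mul (x.1 ^ p.1)).const_mul (c p)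
      refine h2.congr_deriv ?_
      ring
    exact h1.deriv
  rw [h]
  refine isPol_sum _ fun p hp => ?_
  rw [mem_SD] at hp
  exact ((isPol_mono p.1 (p.2 - 1)).mono (by omega)).smul _

theorem d_comm {f : ℝ × ℝ → ℝ} (hf : ContDiff ℝ 2 f) : d1 (d2 f) = d2 (d1 f) := by
  have h1 : ∀ x, d1 f x = fderiv ℝ f x (1, 0) := fun x =>
    d1_eq (hf.differentiable (by simp) x)
  have h2 : ∀ x, d2 f x = fderiv ℝ f x (0, 1) := fun x =>
    d2_eq (hf.differentiable (by simp) x)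
  have hd : Differentiable ℝ (fderiv ℝ f) :=
    (hf.fderiv_right (m := 1) (by norm_num)).differentiable (by simp)
  have e1 : d1 f = fun x => fderiv ℝ f x (1, 0) := funext h1
  have e2 : d2 f = fun x => fderiv ℝ f x (0, 1) := funext h2
  have g : ∀ v w : ℝ × ℝ, ∀ x, fderiv ℝ (fun y => fderiv ℝ f y v) x w =
      fderiv ℝ (fderiv ℝ f) x w v := by
    intro v w x
    have h3 : HasFDerivAt (fun y => fderiv ℝ f y v)
        ((fderiv ℝ (fderiv ℝ f) x).flip v) x := by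
      have h4 := (hd x).hasFDerivAt.clm_apply (hasFDerivAt_const v x)
      refine h4.congr_fderiv ?_
      ext <;> simp
    rw [h3.fderiv]
    rfl
  have hdv : ∀ v : ℝ × ℝ, ∀ x, DifferentiableAt ℝ (fun y => fderiv ℝ f y v) x := fun v x =>
    (hd x).clm_apply (differentiableAt_const v)
  funext x
  rw [e1, e2, d1_eq (hdv _ x), d2_eq (hdv _ x), g, g]
  exact ((hf.contDiffAt (x := x)).isSymmSndFDerivAt (by simp)).eq _ _

/-! ### The Hessian -/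

/-- Entries of the Hessian. -/
noncomputable def aa (F : ℝ × ℝ → ℝ) : ℝ × ℝ → ℝ := d1 (d1 F)
noncomputable def bb (F : ℝ × ℝ → ℝ) : ℝ × ℝ → ℝ := d1 (d2 F)
noncomputable def cc (F : ℝ × ℝ → ℝ) : ℝ × ℝ → ℝ := d2 (d2 F)

/-- Determinant of the Hessian. -/
noncomputable def dt (F : ℝ × ℝ → ℝ) (x : ℝ × ℝ) : ℝ := aa F x * cc F x - bb F x ^ 2

/-- Squared Hilbert-Schmidt norm of the Hessian. -/
noncomputable def n2 (F : ℝ × ℝ → ℝ) (x : ℝ × ℝ) : ℝ := aa F x ^ 2 + 2 * bb F x ^ 2 + cc F x ^ 2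

/-- Smooth substitute of the square of the smallest singular value of the Hessian. -/
noncomputable def qF (F : ℝ × ℝ → ℝ) (x : ℝ × ℝ) : ℝ := dt F x ^ 2 / n2 F x

theorem IsPol.aa {d : ℕ} {f : ℝ × ℝ → ℝ} (hf : IsPol d f) : IsPol d (aa f) := hf.d1.d1
theorem IsPol.bb {d : ℕ} {f : ℝ × ℝ → ℝ} (hf : IsPol d f) : IsPol d (bb f) := hf.d2.d1
theorem IsPol.cc {d : ℕ} {f : ℝ × ℝ → ℝ} (hf : IsPol d f) : IsPol d (cc f) := hf.d2.d2

theorem IsPol.bb' {d : ℕ} {f : ℝ × ℝ → ℝ} (hf : IsPol d f) : Chirp.d2 (Chirp.d1 f) = Chirp.bb f :=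
  (d_comm hf.contDiff).symm

theorem IsPol.congr {d : ℕ} {f g : ℝ × ℝ → ℝ} (hf : IsPol d f) (h : ∀ x, g x = f x) :
    IsPol d g := by
  obtain ⟨c, hc⟩ := hf
  exact ⟨c, fun x => (h x).trans (hc x)⟩

theorem IsPol.dt {d : ℕ} {f : ℝ × ℝ → ℝ} (hf : IsPol d f) : IsPol (2 * d) (dt f) := by
  have h1 := hf.aa.mul hf.cc
  have h2 := hf.bb.mul hf.bb
  refine ((h1.sub h2).mono (show d + d ≤ 2 * d by omega)).congr fun x => ?_
  unfold Chirp.dt
  ring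

theorem IsPol.n2 {d : ℕ} {f : ℝ × ℝ → ℝ} (hf : IsPol d f) : IsPol (2 * d) (n2 f) := by
  have h1 := hf.aa.mul hf.aa
  have h2 := (hf.bb.mul hf.bb).smul 2
  have h3 := hf.cc.mul hf.cc
  refine (((h1.add h2).add h3).mono (show d + d ≤ 2 * d by omega)).congr fun x => ?_
  unfold Chirp.n2
  ring

theorem n2_nonneg (F : ℝ × ℝ → ℝ) (x : ℝ × ℝ) : 0 ≤ n2 F x := by
  unfold n2
  positivity

theorem qF_nonneg (F : ℝ × ℝ → ℝ) (x : ℝ × ℝ) : 0 ≤ qF F x :=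
  div_nonneg (sq_nonneg _) (n2_nonneg F x)

/-- Where the second derivatives do not all vanish, `qF F` is as smooth as one likes. -/
theorem contDiffAt_qF {d : ℕ} {F : ℝ × ℝ → ℝ} (hF : IsPol d F) {k : WithTop ℕ∞} {x : ℝ × ℝ}
    (hx : n2 F x ≠ 0) : ContDiffAt ℝ k (qF F) x :=
  ((hF.dt.contDiff.pow 2).contDiffAt).div hF.n2.contDiff.contDiffAt hx

/-! ### Exchange of the coordinates -/

/-- Exchange of the coordinates. -/
def sw (x : ℝ × ℝ) : ℝ × ℝ := (x.2, x.1)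

theorem sw_sw (x : ℝ × ℝ) : sw (sw x) = x := rfl

theorem d1_sw (f : ℝ × ℝ → ℝ) : d1 (fun x => f (sw x)) = fun x => d2 f (sw x) := rfl

theorem d2_sw (f : ℝ × ℝ → ℝ) : d2 (fun x => f (sw x)) = fun x => d1 f (sw x) := rfl

theorem IsPol.sw {d : ℕ} {f : ℝ × ℝ → ℝ} (hf : IsPol d f) : IsPol d (fun x => f (sw x)) := by
  obtain ⟨c, hc⟩ := hf
  have h : (fun x => f (Chirp.sw x)) = fun x => ∑ p ∈ SD d, c p * (x.1 ^ p.2 * x.2 ^ p.1) := by
    funext x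
    rw [hc]
    refine Finset.sum_congr rfl fun p _ => ?_
    unfold Chirp.sw
    ring
  rw [h]
  refine isPol_sum _ fun p hp => ?_
  rw [mem_SD] at hp
  exact ((isPol_mono p.2 p.1).mono (by omega)).smul _

theorem aa_sw (F : ℝ × ℝ → ℝ) : aa (fun x => F (sw x)) = fun x => cc F (sw x) := rfl

theorem cc_sw (F : ℝ × ℝ → ℝ) : cc (fun x => F (sw x)) = fun x => aa F (sw x) := rfl

theorem IsPol.bb_sw {d : ℕ} {F : ℝ × ℝ → ℝ} (hF : IsPol d F) :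
    Chirp.bb (fun x => F (Chirp.sw x)) = fun x => Chirp.bb F (Chirp.sw x) := by
  have h : Chirp.bb (fun x => F (Chirp.sw x)) = fun x => Chirp.d2 (Chirp.d1 F) (Chirp.sw x) := rfl
  rw [h, hF.bb']

theorem IsPol.dt_sw {d : ℕ} {F : ℝ × ℝ → ℝ} (hF : IsPol d F) :
    Chirp.dt (fun x => F (Chirp.sw x)) = fun x => Chirp.dt F (Chirp.sw x) := by
  funext x
  unfold Chirp.dt
  rw [aa_sw, cc_sw, hF.bb_sw]
  ring

theorem IsPol.n2_sw {d : ℕ} {F : ℝ × ℝ → ℝ} (hF : IsPol d F) :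
    Chirp.n2 (fun x => F (Chirp.sw x)) = fun x => Chirp.n2 F (Chirp.sw x) := by
  funext x
  unfold Chirp.n2
  rw [aa_sw, cc_sw, hF.bb_sw]
  ring

theorem IsPol.qF_sw {d : ℕ} {F : ℝ × ℝ → ℝ} (hF : IsPol d F) :
    qF (fun x => F (Chirp.sw x)) = fun x => qF F (Chirp.sw x) := by
  funext x
  unfold qF
  rw [hF.dt_sw, hF.n2_sw]

theorem mp_sw : MeasurePreserving sw (volume : Measure (ℝ × ℝ)) volume :=
  Measure.measurePreserving_swap

/-! ### Rules for partial derivatives -/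

theorem d1_add {f g : ℝ × ℝ → ℝ} {x : ℝ × ℝ} (hf : DifferentiableAt ℝ f x)
    (hg : DifferentiableAt ℝ g x) : d1 (fun y => f y + g y) x = d1 f x + d1 g x :=
  ((hasDerivAt_d1 hf).add (hasDerivAt_d1 hg)).deriv

theorem d1_sub {f g : ℝ × ℝ → ℝ} {x : ℝ × ℝ} (hf : DifferentiableAt ℝ f x)
    (hg : DifferentiableAt ℝ g x) : d1 (fun y => f y - g y) x = d1 f x - d1 g x :=
  ((hasDerivAt_d1 hf).sub (hasDerivAt_d1 hg)).deriv

theorem d2_add {f g : ℝ × ℝ → ℝ} {x : ℝ × ℝ} (hf : DifferentiableAt ℝ f x)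
    (hg : DifferentiableAt ℝ g x) : d2 (fun y => f y + g y) x = d2 f x + d2 g x :=
  ((hasDerivAt_d2 hf).add (hasDerivAt_d2 hg)).deriv

theorem d2_sub {f g : ℝ × ℝ → ℝ} {x : ℝ × ℝ} (hf : DifferentiableAt ℝ f x)
    (hg : DifferentiableAt ℝ g x) : d2 (fun y => f y - g y) x = d2 f x - d2 g x :=
  ((hasDerivAt_d2 hf).sub (hasDerivAt_d2 hg)).deriv

theorem d1_mul {f g : ℝ × ℝ → ℝ} {x : ℝ × ℝ} (hf : DifferentiableAt ℝ f x)
    (hg : DifferentiableAt ℝ g x) :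
    d1 (fun y => f y * g y) x = d1 f x * g x + f x * d1 g x :=
  ((hasDerivAt_d1 hf).mul (hasDerivAt_d1 hg)).deriv

theorem d1_comp {β : ℝ → ℝ} {f : ℝ × ℝ → ℝ} {x : ℝ × ℝ} (hβ : DifferentiableAt ℝ β (f x))
    (hf : DifferentiableAt ℝ f x) : d1 (fun y => β (f y)) x = deriv β (f x) * d1 f x := by
  have h : HasDerivAt (fun s => β (f (s, x.2))) (deriv β (f x) * d1 f x) x.1 :=
    HasDerivAt.comp (h₂ := β) x.1 (show HasDerivAt β (deriv β (f x)) (f (x.1, x.2)) from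
      hβ.hasDerivAt) (hasDerivAt_d1 hf)
  exact h.deriv

theorem d1_div_const (f : ℝ × ℝ → ℝ) (r : ℝ) (x : ℝ × ℝ) :
    d1 (fun y => f y / r) x = d1 f x / r := deriv_div_const r

/-! ### The phase -/

/-- The phase of the extension of `exp (i P)` at the point `ξ`. -/
def Ph (P : ℝ × ℝ → ℝ) (ξ : ℝ × ℝ × ℝ) (x : ℝ × ℝ) : ℝ :=
  P x - (ξ.1 * x.1 + (ξ.2.1 * x.2 + ξ.2.2 * (x.1 ^ 2 + x.2 ^ 2)))

theorem isPol_quad (ξ : ℝ × ℝ × ℝ) :
    IsPol 2 (fun x => ξ.1 * x.1 + (ξ.2.1 * x.2 + ξ.2.2 * (x.1 ^ 2 + x.2 ^ 2))) := by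
  have h1 := (isPol_fst (d := 2) (by norm_num)).smul ξ.1
  have h2 := (isPol_snd (d := 2) (by norm_num)).smul ξ.2.1
  have h3 := (((isPol_fst (d := 1) le_rfl).mul (isPol_fst (d := 1) le_rfl)).add
    ((isPol_snd (d := 1) le_rfl).mul (isPol_snd (d := 1) le_rfl))).smul ξ.2.2
  refine (h1.add (h2.add h3)).congr fun x => ?_
  ring

theorem IsPol.Ph {n : ℕ} {P : ℝ × ℝ → ℝ} (hP : IsPol n P) (hn : 2 ≤ n) (ξ : ℝ × ℝ × ℝ) :
    IsPol n (Ph P ξ) := hP.sub ((isPol_quad ξ).mono hn)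

theorem d1_Ph {P : ℝ × ℝ → ℝ} {x : ℝ × ℝ} (hP : DifferentiableAt ℝ P x) (ξ : ℝ × ℝ × ℝ) :
    d1 (Ph P ξ) x = d1 P x - (ξ.1 + ξ.2.2 * (2 * x.1)) := by
  have h2 : HasDerivAt (fun s : ℝ => ξ.1 * s + (ξ.2.1 * x.2 + ξ.2.2 * (s ^ 2 + x.2 ^ 2)))
      (ξ.1 + ξ.2.2 * (2 * x.1)) x.1 := by
    have h3 := ((hasDerivAt_id x.1).const_mul ξ.1).add
      ((((hasDerivAt_pow 2 x.1).add_const (x.2 ^ 2)).const_mul ξ.2.2).const_add (ξ.2.1 * x.2))
    refine h3.congr_deriv ?_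
    norm_num
  exact ((hasDerivAt_d1 hP).sub h2).deriv

theorem d2_Ph {P : ℝ × ℝ → ℝ} {x : ℝ × ℝ} (hP : DifferentiableAt ℝ P x) (ξ : ℝ × ℝ × ℝ) :
    d2 (Ph P ξ) x = d2 P x - (ξ.2.1 + ξ.2.2 * (2 * x.2)) := by
  have h2 : HasDerivAt (fun s : ℝ => ξ.1 * x.1 + (ξ.2.1 * s + ξ.2.2 * (x.1 ^ 2 + s ^ 2)))
      (ξ.2.1 + ξ.2.2 * (2 * x.2)) x.2 := by
    have h3 := (((hasDerivAt_id x.2).const_mul ξ.2.1).add
      (((hasDerivAt_pow 2 x.2).const_add (x.1 ^ 2)).const_mul ξ.2.2)).const_add (ξ.1 * x.1)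
    refine h3.congr_deriv ?_
    norm_num
  exact ((hasDerivAt_d2 hP).sub h2).deriv

theorem IsPol.aa_Ph {n : ℕ} {P : ℝ × ℝ → ℝ} (hP : IsPol n P) (ξ : ℝ × ℝ × ℝ) (x : ℝ × ℝ) :
    Chirp.aa (Chirp.Ph P ξ) x = Chirp.aa P x - 2 * ξ.2.2 := by
  have e : Chirp.d1 (Chirp.Ph P ξ) = fun y => Chirp.d1 P y - (ξ.1 + ξ.2.2 * (2 * y.1)) :=
    funext fun y => d1_Ph (hP.differentiableAt y) ξ
  unfold Chirp.aa
  rw [e]
  have h2 : HasDerivAt (fun s : ℝ => ξ.1 + ξ.2.2 * (2 * s)) (2 * ξ.2.2) x.1 := by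
    refine (((hasDerivAt_id x.1).const_mul 2).const_mul ξ.2.2).const_add ξ.1 |>.congr_deriv ?_
    ring
  exact ((hasDerivAt_d1 (hP.d1.differentiableAt x)).sub h2).deriv

theorem IsPol.cc_Ph {n : ℕ} {P : ℝ × ℝ → ℝ} (hP : IsPol n P) (ξ : ℝ × ℝ × ℝ) (x : ℝ × ℝ) :
    Chirp.cc (Chirp.Ph P ξ) x = Chirp.cc P x - 2 * ξ.2.2 := by
  have e : Chirp.d2 (Chirp.Ph P ξ) = fun y => Chirp.d2 P y - (ξ.2.1 + ξ.2.2 * (2 * y.2)) :=
    funext fun y => d2_Ph (hP.differentiableAt y) ξ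
  unfold Chirp.cc
  rw [e]
  have h2 : HasDerivAt (fun s : ℝ => ξ.2.1 + ξ.2.2 * (2 * s)) (2 * ξ.2.2) x.2 := by
    refine (((hasDerivAt_id x.2).const_mul 2).const_mul ξ.2.2).const_add ξ.2.1 |>.congr_deriv ?_
    ring
  exact ((hasDerivAt_d2 (hP.d2.differentiableAt x)).sub h2).deriv

theorem IsPol.bb_Ph {n : ℕ} {P : ℝ × ℝ → ℝ} (hP : IsPol n P) (ξ : ℝ × ℝ × ℝ) (x : ℝ × ℝ) :
    Chirp.bb (Chirp.Ph P ξ) x = Chirp.bb P x := by
  have e : Chirp.d2 (Chirp.Ph P ξ) = fun y => Chirp.d2 P y - (ξ.2.1 + ξ.2.2 * (2 * y.2)) :=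
    funext fun y => d2_Ph (hP.differentiableAt y) ξ
  unfold Chirp.bb
  rw [e]
  have h := ((hasDerivAt_d1 (hP.d2.differentiableAt x)).sub_const
    (ξ.2.1 + ξ.2.2 * (2 * x.2))).deriv
  exact h

/-- The value of `qF (Ph P ξ)` in terms of the Hessian of `P` and the time. -/
noncomputable def qv (A B C t : ℝ) : ℝ :=
  ((A - 2 * t) * (C - 2 * t) - B ^ 2) ^ 2 / ((A - 2 * t) ^ 2 + 2 * B ^ 2 + (C - 2 * t) ^ 2)

theorem IsPol.qF_Ph {n : ℕ} {P : ℝ × ℝ → ℝ} (hP : IsPol n P) (ξ : ℝ × ℝ × ℝ) (x : ℝ × ℝ) :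
    qF (Chirp.Ph P ξ) x = qv (Chirp.aa P x) (Chirp.bb P x) (Chirp.cc P x) ξ.2.2 := by
  unfold qF Chirp.dt Chirp.n2 qv
  rw [hP.aa_Ph, hP.bb_Ph, hP.cc_Ph]

/-! ### Cut-off functions -/

/-- `1` for `r ≤ 1`, `0` for `r ≥ 2`. -/
noncomputable def hh (r : ℝ) : ℝ := Real.smoothTransition (2 - r)

/-- Supported in `1/4 ≤ r ≤ 2`. -/
noncomputable def eta (r : ℝ) : ℝ := hh r - hh (4 * r)

/-- `1` for `|r| ≤ 1`, `0` for `r² ≥ 2`. -/
noncomputable def kap (r : ℝ) : ℝ := Real.smoothTransition (2 - r ^ 2)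

/-- Smooth version of `1 / r` away from `0`. -/
noncomputable def rho (r : ℝ) : ℝ := (1 - kap r) / r

theorem hh_contDiff {k : ℕ∞} : ContDiff ℝ k hh :=
  Real.smoothTransition.contDiff.comp (contDiff_const.sub contDiff_id)

theorem eta_contDiff {k : ℕ∞} : ContDiff ℝ k eta :=
  hh_contDiff.sub (hh_contDiff.comp (contDiff_const.mul contDiff_id))

theorem kap_contDiff {k : ℕ∞} : ContDiff ℝ k kap :=
  Real.smoothTransition.contDiff.comp (contDiff_const.sub (contDiff_id.pow 2))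

theorem hh_nonneg (r : ℝ) : 0 ≤ hh r := Real.smoothTransition.nonneg _
theorem hh_le_one (r : ℝ) : hh r ≤ 1 := Real.smoothTransition.le_one _
theorem hh_of_le {r : ℝ} (h : r ≤ 1) : hh r = 1 := Real.smoothTransition.one_of_one_le (by linarith)
theorem hh_of_ge {r : ℝ} (h : 2 ≤ r) : hh r = 0 :=
  Real.smoothTransition.zero_of_nonpos (by linarith)

theorem kap_nonneg (r : ℝ) : 0 ≤ kap r := Real.smoothTransition.nonneg _
theorem kap_le_one (r : ℝ) : kap r ≤ 1 := Real.smoothTransition.le_one _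
theorem kap_of_le {r : ℝ} (h : |r| ≤ 1) : kap r = 1 := by
  refine Real.smoothTransition.one_of_one_le ?_
  have := sq_abs r
  nlinarith [abs_nonneg r]
theorem kap_of_ge {r : ℝ} (h : 2 ≤ |r|) : kap r = 0 := by
  refine Real.smoothTransition.zero_of_nonpos ?_
  have := sq_abs r
  nlinarith [abs_nonneg r]

theorem eta_of_le {r : ℝ} (h : r ≤ 1 / 4) : eta r = 0 := by
  unfold eta
  rw [hh_of_le (by linarith), hh_of_le (by linarith), sub_self]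

theorem eta_of_ge {r : ℝ} (h : 2 ≤ r) : eta r = 0 := by
  unfold eta
  rw [hh_of_ge h, hh_of_ge (by linarith), sub_self]

theorem abs_eta_le (r : ℝ) : |eta r| ≤ 1 := by
  unfold eta
  rw [abs_le]
  have h1 := hh_nonneg r
  have h2 := hh_le_one r
  have h3 := hh_nonneg (4 * r)
  have h4 := hh_le_one (4 * r)
  constructor <;> linarith

/-- The piece of the Hessian scale `s`. -/
def U (F : ℝ × ℝ → ℝ) (s : ℝ) : Set (ℝ × ℝ) := {x | s ^ 2 / 4 ≤ qF F x ∧ qF F x ≤ 2 * s ^ 2}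

/-- The region where the gradient is at most `2 s`. -/
def BX (F : ℝ × ℝ → ℝ) (s : ℝ) : Set (ℝ × ℝ) := {x | |d1 F x| ≤ 2 * s ∧ |d2 F x| ≤ 2 * s}

/-- The weight `1 / (1 + |∇F|² / s)`. -/
noncomputable def ww (F : ℝ × ℝ → ℝ) (s : ℝ) (x : ℝ × ℝ) : ℝ :=
  s / (s + (d1 F x ^ 2 + d2 F x ^ 2))

/-- The square `[-1, 1]²`. -/
def Sq : Set (ℝ × ℝ) := Icc (-1) 1 ×ˢ Icc (-1) 1

/-- Scale cut-off. -/
noncomputable def ec (F : ℝ × ℝ → ℝ) (s : ℝ) (x : ℝ × ℝ) : ℝ := eta (qF F x / s ^ 2)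

/-- Near part, zeroth amplitude. -/
noncomputable def nr (F : ℝ × ℝ → ℝ) (s : ℝ) (x : ℝ × ℝ) : ℝ :=
  ec F s x * (kap (d1 F x / s) * kap (d2 F x / s)) * ww F s x

/-- Near part, amplitudes for the integration by parts in direction 1 and 2. -/
noncomputable def kn1 (F : ℝ × ℝ → ℝ) (s : ℝ) (x : ℝ × ℝ) : ℝ := nr F s x * d1 F x
noncomputable def kn2 (F : ℝ × ℝ → ℝ) (s : ℝ) (x : ℝ × ℝ) : ℝ := nr F s x * d2 F x

/-- Far part, amplitudes for the integration by parts in direction 1 (`kf`, `kg`) and 2 (`kg2`). -/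
noncomputable def kf (F : ℝ × ℝ → ℝ) (s : ℝ) (x : ℝ × ℝ) : ℝ := ec F s x * (rho (d1 F x / s) / s)
noncomputable def kg (F : ℝ × ℝ → ℝ) (s : ℝ) (x : ℝ × ℝ) : ℝ :=
  ec F s x * kap (d2 F x / s) * (rho (d1 F x / s) / s)
noncomputable def kg2 (F : ℝ × ℝ → ℝ) (s : ℝ) (x : ℝ × ℝ) : ℝ :=
  ec F s x * kap (d1 F x / s) * (rho (d2 F x / s) / s)

/-- `A` meets almost every line parallel to the axes in at most `m` intervals. -/
def AxFew (m : ℕ) (A : Set (ℝ × ℝ)) : Prop :=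
  (∀ᵐ y : ℝ, Pool.Agent.H27.Fib.Few m {x : ℝ | (x, y) ∈ A}) ∧
    ∀ᵐ x : ℝ, Pool.Agent.H27.Fib.Few m {y : ℝ | (x, y) ∈ A}

/-- Cut-off to the `b`-th dyadic scale of the Hessian. -/
noncomputable def chi (b : ℕ) (r : ℝ) : ℝ := if b = 0 then hh r else eta (r / (2 ^ b) ^ 2)

/-- The `b`-th piece of the extension of `exp (i (P + θ)) 1_A`. -/
noncomputable def Eb (P θ : ℝ × ℝ → ℝ) (A : Set (ℝ × ℝ)) (b : ℕ) (ξ : ℝ × ℝ × ℝ) : ℂ :=
  ∫ x in A, ((chi b (qF (Ph P ξ) x) : ℝ) : ℂ) *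
    Complex.exp (Complex.I * ((Ph P ξ x + θ x : ℝ) : ℂ))

/-- The chirp `exp (i (P + θ))`. -/
noncomputable def ch (P θ : ℝ × ℝ → ℝ) (x : ℝ × ℝ) : ℂ :=
  Complex.exp (Complex.I * ((P x + θ x : ℝ) : ℂ))

end Pool.Agent.Chirp
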