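import Mathlib
import Pool.Agent.Chirp.Base

/-!
# Polynomial chirps: targets
-/

namespace Pool.Agent.Chirp

open MeasureTheory Set Filter
open scoped ENNReal NNReal
open Pool.Agent.Restr (E QQ)
open Pool.Agent.H27.Fib (Few ind vr)

/-- Area formula with multiplicity, as an inequality. -/
def T_AREA0 : Prop :=
  ∀ (F : ℝ × ℝ → ℝ × ℝ) (F' : ℝ × ℝ → (ℝ × ℝ) →L[ℝ] (ℝ × ℝ)) (S : Set (ℝ × ℝ)) (N : ℕ)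
    (g : ℝ × ℝ → ℝ≥0∞), MeasurableSet S → (∀ x ∈ S, HasFDerivAt F (F' x) x) →
    (∀ x ∈ S, (F' x).det ≠ 0) → (∀ y, {x | x ∈ S ∧ F x = y}.encard ≤ N) → Measurable g →
    ∫⁻ x in S, ENNReal.ofReal |(F' x).det| * g (F x) ≤ N * ∫⁻ y, g y

/-- The same with two real functions. -/
def T_AREA2 : Prop :=
  ∀ (u v : ℝ × ℝ → ℝ) (S : Set (ℝ × ℝ)) (N : ℕ) (g : ℝ × ℝ → ℝ≥0∞), MeasurableSet S →
    (∀ x ∈ S, DifferentiableAt ℝ u x ∧ DifferentiableAt ℝ v x) →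
    (∀ x ∈ S, d1 u x * d2 v x - d2 u x * d1 v x ≠ 0) →
    (∀ a b : ℝ, {x | x ∈ S ∧ u x = a ∧ v x = b}.encard ≤ N) → Measurable g →
    ∫⁻ x in S, ENNReal.ofReal |d1 u x * d2 v x - d2 u x * d1 v x| * g (u x, v x) ≤
      N * ∫⁻ y, g y

/-- One-dimensional version. -/
def T_AREA1 : Prop :=
  ∀ (u u' : ℝ → ℝ) (S : Set ℝ) (N : ℕ) (g : ℝ → ℝ≥0∞), MeasurableSet S →
    (∀ s ∈ S, HasDerivAt u (u' s) s) → (∀ s ∈ S, u' s ≠ 0) →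
    (∀ a : ℝ, {s | s ∈ S ∧ u s = a}.encard ≤ N) → Measurable g →
    ∫⁻ s in S, ENNReal.ofReal |u' s| * g (u s) ≤ N * ∫⁻ y, g y

/-- Bezout: at most `d * e` nondegenerate common zeros. -/
def T_BEZ : Prop :=
  ∀ (d e : ℕ) (f g : ℝ × ℝ → ℝ), IsPol d f → IsPol e g →
    {x | f x = 0 ∧ g x = 0 ∧ d1 f x * d2 g x - d2 f x * d1 g x ≠ 0}.encard ≤ ((d * e : ℕ) : ℕ∞)

/-- Zeros on a horizontal line. -/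
def T_LINE : Prop :=
  ∀ (d : ℕ) (f : ℝ × ℝ → ℝ) (y : ℝ), IsPol d f →
    (∀ s, f (s, y) = 0) ∨ {s | f (s, y) = 0}.encard ≤ (d : ℕ∞)

/-- Change of variables by the gradient. -/
def T_AY : Prop :=
  ∀ (n : ℕ) (F : ℝ × ℝ → ℝ) (g : ℝ × ℝ → ℝ≥0∞), IsPol n F → Measurable g →
    ∫⁻ x, ENNReal.ofReal |dt F x| * g (d1 F x, d2 F x) ≤ (n * n : ℕ) * ∫⁻ y, g y

/-- Change of variables by `(qF F, ∂₁F)` and `(qF F, ∂₂F)`. -/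
def T_AQ : Prop :=
  ∀ (n : ℕ) (F : ℝ × ℝ → ℝ) (g : ℝ × ℝ → ℝ≥0∞), IsPol n F → Measurable g →
    (∫⁻ x in {x | n2 F x ≠ 0}, ENNReal.ofReal |d1 (qF F) x * bb F x - d2 (qF F) x * aa F x| *
        g (qF F x, d1 F x) ≤ (4 * n * n : ℕ) * ∫⁻ y, g y) ∧
    (∫⁻ x in {x | n2 F x ≠ 0}, ENNReal.ofReal |d1 (qF F) x * cc F x - d2 (qF F) x * bb F x| *
        g (qF F x, d2 F x) ≤ (4 * n * n : ℕ) * ∫⁻ y, g y)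

/-- Change of variables on a horizontal line by a polynomial. -/
def T_LP : Prop :=
  ∀ (n : ℕ) (f : ℝ × ℝ → ℝ) (y : ℝ) (g : ℝ → ℝ≥0∞), IsPol n f → Measurable g →
    ∫⁻ s, ENNReal.ofReal |d1 f (s, y)| * g (f (s, y)) ≤ n * ∫⁻ v, g v

/-- Change of variables on a horizontal line by `qF F`. -/
def T_LQ : Prop :=
  ∀ (n : ℕ) (F : ℝ × ℝ → ℝ) (y : ℝ) (g : ℝ → ℝ≥0∞), IsPol n F → Measurable g →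
    ∫⁻ s in {s | n2 F (s, y) ≠ 0}, ENNReal.ofReal |d1 (qF F) (s, y)| * g (qF F (s, y)) ≤
      (4 * n : ℕ) * ∫⁻ v, g v

/-- Linear algebra of the Hessian. -/
def T_LIN : Prop :=
  ∀ (F : ℝ × ℝ → ℝ) (x : ℝ × ℝ) (s : ℝ), 0 < s → x ∈ U F s →
    n2 F x ≠ 0 ∧ s ^ 2 / 2 ≤ |dt F x| ∧ √(n2 F x) ≤ 2 / s * |dt F x| ∧
    ∀ v w : ℝ, |v| ≤ 2 / s * (|v * bb F x - w * aa F x| + |v * cc F x - w * bb F x|)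

/-- Elementary integrals. -/
def T_G : Prop :=
  ∃ C : ℝ, 0 < C ∧ ∀ s : ℝ, 1 ≤ s →
    (∫⁻ y in {y : ℝ × ℝ | |y.1| ≤ 2 * s ∧ |y.2| ≤ 2 * s},
      ENNReal.ofReal (s / (s + (y.1 ^ 2 + y.2 ^ 2))) ≤ ENNReal.ofReal (C * s * (1 + Real.log s))) ∧
    (∫⁻ y in {y : ℝ × ℝ | |y.1| ≤ 2 * s ∧ |y.2| ≤ 2 * s},
      ENNReal.ofReal (s / (s + (y.1 ^ 2 + y.2 ^ 2)) * |y.1|) ≤ ENNReal.ofReal (C * s ^ 2)) ∧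
    (∫⁻ v in {v : ℝ | |v| ≤ 2 * s}, ENNReal.ofReal (min (√s) (s / |v|)) ≤
      ENNReal.ofReal (C * s * (1 + Real.log s)))

/-- Weighted integrals over the region `U ∩ BX`, first group. -/
def T_W : Prop :=
  ∃ C : ℝ, 0 < C ∧ ∀ (n : ℕ) (F : ℝ × ℝ → ℝ) (s : ℝ), IsPol n F → 1 ≤ s →
    (∫⁻ x in U F s ∩ BX F s, ENNReal.ofReal (ww F s x) ≤
      ENNReal.ofReal (C * n ^ 2 * (1 + Real.log s) / s)) ∧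
    (∫⁻ x in U F s ∩ BX F s, ENNReal.ofReal (ww F s x * |d1 F x|) ≤
      ENNReal.ofReal (C * n ^ 2)) ∧
    (∫⁻ x in U F s ∩ BX F s, ENNReal.ofReal (ww F s x * √(n2 F x)) ≤
      ENNReal.ofReal (C * n ^ 2 * (1 + Real.log s))) ∧
    (∫⁻ x in U F s ∩ BX F s, ENNReal.ofReal (√(n2 F x)) ≤
      ENNReal.ofReal (C * n ^ 2 * s))

/-- Weighted integral over the region `U ∩ BX`, with the derivative of `qF F`. -/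
def T_W4 : Prop :=
  ∃ C : ℝ, 0 < C ∧ ∀ (n : ℕ) (F : ℝ × ℝ → ℝ) (s : ℝ), IsPol n F → 1 ≤ s →
    ∫⁻ x in U F s ∩ BX F s, ENNReal.ofReal (ww F s x * |d1 F x| * (|d1 (qF F) x| / s ^ 2)) ≤
      ENNReal.ofReal (C * n ^ 2 * (1 + Real.log s))

/-- The cut-off functions. -/
def T_BUMP : Prop :=
  ContDiff ℝ 1 rho ∧ (∀ r, |rho r| ≤ 1) ∧
  (∀ r, deriv eta r ≠ 0 → 1 / 4 ≤ r ∧ r ≤ 2) ∧ (∀ r, deriv kap r ≠ 0 → 1 ≤ |r| ∧ |r| ≤ 2) ∧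
  ∃ C : ℝ, 0 < C ∧ (∀ r, |deriv eta r| ≤ C) ∧ (∀ r, |deriv kap r| ≤ C) ∧
    (∀ r, |deriv rho r| ≤ C) ∧
    (∫⁻ r, ENNReal.ofReal |deriv eta r| ≤ ENNReal.ofReal C) ∧
    (∫⁻ r, ENNReal.ofReal |deriv kap r| ≤ ENNReal.ofReal C) ∧
    (∫⁻ r, ENNReal.ofReal |deriv rho r| ≤ ENNReal.ofReal C)

/-- The scale cut-off is `C¹`. -/
def T_EC : Prop :=
  ∀ (n : ℕ) (F : ℝ × ℝ → ℝ) (s : ℝ), IsPol n F → 0 < s →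
    ContDiff ℝ 1 (ec F s) ∧
    (∀ x, ec F s x ≠ 0 → x ∈ U F s) ∧
    (∀ x, d1 (ec F s) x ≠ 0 → x ∈ U F s) ∧
    (∀ x, n2 F x ≠ 0 → d1 (ec F s) x = deriv eta (qF F x / s ^ 2) * (d1 (qF F) x / s ^ 2)) ∧
    (∀ x, n2 F x = 0 → d1 (ec F s) x = 0)

/-- Near part, zeroth amplitude. -/
def T_NEAR0 : Prop :=
  ∃ C : ℝ, 0 < C ∧ ∀ (n : ℕ) (F : ℝ × ℝ → ℝ) (s : ℝ), 1 ≤ n → IsPol n F → 1 ≤ s →
    ∫⁻ x, ENNReal.ofReal |nr F s x| ≤ ENNReal.ofReal (C * n ^ 2 * (1 + Real.log s) / s)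

/-- Near part, first amplitude. -/
def T_NEAR : Prop :=
  ∃ C : ℝ, 0 < C ∧ ∀ (n : ℕ) (F : ℝ × ℝ → ℝ) (s : ℝ), 1 ≤ n → IsPol n F → 1 ≤ s →
    ContDiff ℝ 1 (kn1 F s) ∧
    ∫⁻ x, ENNReal.ofReal (|kn1 F s x| + |d1 (kn1 F s) x|) ≤
      ENNReal.ofReal (C * n ^ 2 * (1 + Real.log s))

/-- Total variation of the cut-offs on horizontal lines. -/
def T_TV : Prop :=
  ∃ C : ℝ, 0 < C ∧ ∀ (n : ℕ) (F : ℝ × ℝ → ℝ) (s y : ℝ), IsPol n F → 1 ≤ s →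
    (∫⁻ r, ENNReal.ofReal |d1 (ec F s) (r, y)| ≤ ENNReal.ofReal (C * n)) ∧
    (∫⁻ r, ENNReal.ofReal |d1 (fun x => kap (d2 F x / s)) (r, y)| ≤ ENNReal.ofReal (C * n)) ∧
    (∫⁻ r, ENNReal.ofReal |d1 (fun x => rho (d1 F x / s)) (r, y)| ≤ ENNReal.ofReal (C * n))

/-- Far part. -/
def T_FAR : Prop :=
  ∃ C : ℝ, 0 < C ∧ ∀ (n : ℕ) (F : ℝ × ℝ → ℝ) (s : ℝ), 1 ≤ n → IsPol n F → 1 ≤ s →
    ContDiff ℝ 1 (kf F s) ∧ ContDiff ℝ 1 (kg F s) ∧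
    (∫⁻ x in Sq, ENNReal.ofReal (|kf F s x| + |d1 (kf F s) x|) ≤ ENNReal.ofReal (C * n / s)) ∧
    (∫⁻ x in Sq, ENNReal.ofReal (|kg F s x| + |d1 (kg F s) x|) ≤ ENNReal.ofReal (C * n / s))

/-- Integration by parts on a union of few intervals. -/
def T_IBP1 : Prop :=
  ∀ (m : ℕ) (J : Set ℝ) (k φ θ : ℝ → ℝ) (V : ℝ), Few m J → J ⊆ Icc (-(1 / 2)) (1 / 2) →
    ContDiff ℝ 1 k → ContDiff ℝ 1 φ → ContDiff ℝ 1 θ → 0 ≤ V → (∀ s ∈ J, |deriv θ s| ≤ V) →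
    ‖∫ s in J, ((k s * deriv φ s : ℝ) : ℂ) * Complex.exp (Complex.I * ((φ s + θ s : ℝ) : ℂ))‖ₑ ≤
      ENNReal.ofReal ((2 * m + 1) * (1 + V)) *
        ∫⁻ s in Icc (-1) 1, ENNReal.ofReal (|k s| + |deriv k s|)

/-- Integration by parts in direction 1. -/
def T_IBP2 : Prop :=
  ∀ (m : ℕ) (A : Set (ℝ × ℝ)) (k F θ : ℝ × ℝ → ℝ) (V : ℝ), MeasurableSet A → A ⊆ QQ →
    (∀ᵐ y : ℝ, Few m {x : ℝ | (x, y) ∈ A}) →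
    ContDiff ℝ 1 k → ContDiff ℝ 1 F → ContDiff ℝ 1 θ → 0 ≤ V → (∀ x ∈ A, |d1 θ x| ≤ V) →
    ‖∫ x in A, ((k x * d1 F x : ℝ) : ℂ) * Complex.exp (Complex.I * ((F x + θ x : ℝ) : ℂ))‖ₑ ≤
      ENNReal.ofReal ((2 * m + 1) * (1 + V)) *
        ∫⁻ x in Sq, ENNReal.ofReal (|k x| + |d1 k x|)

/-- The supremum bound at scale `s`. -/
def T_SUP : Prop :=
  ∃ C : ℝ, 0 < C ∧ ∀ (n m : ℕ) (F θ : ℝ × ℝ → ℝ) (V : ℝ) (A : Set (ℝ × ℝ)) (s : ℝ),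
    1 ≤ n → 1 ≤ m → IsPol n F → ContDiff ℝ 1 θ → 0 ≤ V → MeasurableSet A → A ⊆ QQ →
    AxFew m A → (∀ x ∈ A, |d1 θ x| ≤ V ∧ |d2 θ x| ≤ V) → 1 ≤ s →
    ‖∫ x in A, ((ec F s x : ℝ) : ℂ) * Complex.exp (Complex.I * ((F x + θ x : ℝ) : ℂ))‖ ≤
      C * n ^ 2 * m * (1 + V) * (1 + Real.log s) / s

/-- For a symmetric matrix, the times at which it is nearly singular. -/
def T_EIG : Prop :=
  ∀ A B C s : ℝ, 0 < s → volume {t : ℝ | qv A B C t ≤ 2 * s ^ 2} ≤ ENNReal.ofReal (4 * s)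

/-- The extension is the sum of its pieces. -/
def T_SUM : Prop :=
  ∀ (n : ℕ) (P θ : ℝ × ℝ → ℝ) (A : Set (ℝ × ℝ)) (ξ : ℝ × ℝ × ℝ), 2 ≤ n → IsPol n P →
    ContDiff ℝ 1 θ → MeasurableSet A → A ⊆ QQ →
    ‖E (fun x => ch P θ x * ind A x) ξ‖ₑ ≤ ∑' b : ℕ, ‖Eb P θ A b ξ‖ₑ

/-- The `L²` norm of a piece. -/
def T_TL2 : Prop :=
  ∀ (n : ℕ) (P θ : ℝ × ℝ → ℝ) (A : Set (ℝ × ℝ)) (b : ℕ), 2 ≤ n → IsPol n P →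
    ContDiff ℝ 1 θ → MeasurableSet A → A ⊆ QQ →
    ∫⁻ ξ, ‖Eb P θ A b ξ‖ₑ ^ 2 ≤ ENNReal.ofReal (4 * Real.pi ^ 2 * (4 * 2 ^ b)) * volume A

/-- Hoelder with a small exponential loss. -/
def T_HOL : Prop :=
  ∀ q η : ℝ, 1 ≤ q → 0 < η → ∃ C : ℝ≥0, ∀ z : ℕ → ℝ≥0∞,
    (∑' b, z b) ^ q ≤ C * ∑' b : ℕ, ENNReal.ofReal ((2 : ℝ) ^ (η * b)) * z b ^ q

/-- The restricted estimate. -/
def T_RE : Prop :=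
  ∀ q δ : ℝ, 3 < q → 0 < δ → δ ≤ (q - 3) / 3 → ∃ C : ℝ≥0,
    ∀ (n m : ℕ) (P θ : ℝ × ℝ → ℝ) (V : ℝ) (A : Set (ℝ × ℝ)),
    2 ≤ n → 1 ≤ m → IsPol n P → ContDiff ℝ 1 θ → 0 ≤ V → MeasurableSet A → A ⊆ QQ →
    AxFew m A → (∀ x ∈ A, |d1 θ x| ≤ V ∧ |d2 θ x| ≤ V) →
    ∫⁻ ξ, ‖E (fun x => ch P θ x * ind A x) ξ‖ₑ ^ q ≤
      C * ENNReal.ofReal (((n : ℝ) ^ 2 * m * (1 + V)) ^ (q / 3) * vr A ^ (q - 2 - δ))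

/-- Taylor polynomials on squares. -/
def T_TAY : Prop :=
  ∀ (k : ℕ) (ψ : ℝ × ℝ → ℝ) (a b r M : ℝ), ContDiff ℝ (k + 1 : ℕ) ψ → 0 ≤ r → 0 ≤ M →
    (∀ i j : ℕ, i + j = k + 1 → ∀ x : ℝ × ℝ, |x.1 - a| ≤ r → |x.2 - b| ≤ r →
      |(d1^[i] (d2^[j] ψ)) x| ≤ M) →
    ∃ P : ℝ × ℝ → ℝ, IsPol k P ∧ ∀ x : ℝ × ℝ, |x.1 - a| ≤ r → |x.2 - b| ≤ r →
      |d1 (fun y => ψ y - P y) x| ≤ (2 * r) ^ k * M ∧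
      |d2 (fun y => ψ y - P y) x| ≤ (2 * r) ^ k * M

/-- Partial derivatives and iterated derivatives. -/
def T_ITER : Prop :=
  ∀ (k : ℕ) (ψ : ℝ × ℝ → ℝ) (i j : ℕ), ContDiff ℝ k ψ → i + j = k →
    ∀ x, |(d1^[i] (d2^[j] ψ)) x| ≤ ‖iteratedFDeriv ℝ k ψ x‖

end Pool.Agent.Chirp
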