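import Mathlib
import Pool.Agent.Chirp.Targets

/-!
# Polynomial chirps: from sets to functions
-/

namespace Pool.Agent.Chirp

open MeasureTheory Set Filter
open scoped ENNReal NNReal
open Pool.Agent.Restr (u norm_u measurable_u E QQ measurable_E eLpNorm_le_one
  support_QQ vol_QQ)
open Pool.Agent.H27.Fib (Few ind vr Ls measurableSet_Ls cheb mink vr_nonneg ofReal_vr pp Ls_pp
  measurable_pp E_add E_const_mul four_parts)

/-- Layers. -/
theorem layerH {H : ℝ × ℝ → ℂ} (hH : Measurable H) (hH1 : ∀ x, ‖H x‖ = 1)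
    {G : ℝ × ℝ → ℝ} (hG : Measurable G) (hi : Integrable G) (h0 : ∀ x, 0 ≤ G x)
    (ξ : ℝ × ℝ × ℝ) :
    ‖E (fun x => H x * ((G x : ℝ) : ℂ)) ξ‖ₑ ≤
      ∫⁻ l in Ioi (0 : ℝ), ‖E (fun x => H x * ind (Ls G l) x) ξ‖ₑ := by
  set ph : ℝ × ℝ → ℂ := fun x =>
    u (ξ.1 * x.1 + (ξ.2.1 * x.2 + ξ.2.2 * (x.1 ^ 2 + x.2 ^ 2))) * H x with hph
  have hphm : Measurable ph := (measurable_u.comp (by fun_prop)).mul hH
  have hnph : ∀ x, ‖ph x‖ = 1 := fun x => by
    rw [hph]
    simp only [norm_mul, norm_u, hH1, mul_one]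
  set f : ℝ × ℝ → ℝ → ℂ := fun x l => ph x * ind (Ls G l) x with hf
  have hfm : Measurable (Function.uncurry f) := by
    have hs : MeasurableSet {z : (ℝ × ℝ) × ℝ | z.2 < G z.1} :=
      measurableSet_lt measurable_snd (hG.comp measurable_fst)
    have e : Function.uncurry f = fun z : (ℝ × ℝ) × ℝ => ph z.1 *
        {z : (ℝ × ℝ) × ℝ | z.2 < G z.1}.indicator (fun _ => (1 : ℂ)) z := by
      funext z
      rfl
    rw [e]
    exact (hphm.comp measurable_fst).mul (measurable_const.indicator hs)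
  have hint1 : ∀ x, IntegrableOn (fun l => f x l) (Ioi (0 : ℝ)) := by
    intro x
    have h1 : IntegrableOn (fun l => f x l) (Ioc 0 (G x)) :=
      Measure.integrableOn_of_bounded (M := 1) (by
        rw [Real.volume_Ioc]; exact ENNReal.ofReal_ne_top)
        (hfm.comp measurable_prodMk_left).aestronglyMeasurable
        (Eventually.of_forall fun l => by
          change ‖ph x * ind (Ls G l) x‖ ≤ 1
          rw [norm_mul, hnph, one_mul]
          unfold ind
          by_cases hx : x ∈ Ls G l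
          · rw [indicator_of_mem hx]; simp
          · rw [indicator_of_notMem hx]; simp)
    refine h1.of_forall_sdiff_eq_zero measurableSet_Ioi fun l hl => ?_
    change ph x * ind (Ls G l) x = 0
    unfold ind
    rw [indicator_of_notMem, mul_zero]
    intro hx
    exact hl.2 ⟨hl.1, le_of_lt hx⟩
  have hval : ∀ x, ∫ l in Ioi (0 : ℝ), ‖f x l‖ = G x := by
    intro x
    have e : ∀ l ∈ Ioi (0 : ℝ), ‖f x l‖ = (Iio (G x)).indicator (fun _ => (1 : ℝ)) l := by
      intro l _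
      change ‖ph x * ind (Ls G l) x‖ = _
      rw [norm_mul, hnph, one_mul]
      unfold ind
      by_cases hx : l < G x
      · rw [indicator_of_mem (show x ∈ Ls G l from hx), indicator_of_mem (show l ∈ Iio (G x) from hx)]
        simp
      · rw [indicator_of_notMem (show x ∉ Ls G l from hx),
          indicator_of_notMem (show l ∉ Iio (G x) from hx)]
        simp
    rw [setIntegral_congr_fun measurableSet_Ioi e, setIntegral_indicator measurableSet_Iio,
      setIntegral_const, smul_eq_mul, mul_one, Measure.real, Ioi_inter_Iio, Real.volume_Ioo,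
      sub_zero, ENNReal.toReal_ofReal (h0 x)]
  have hval2 : ∀ x, ∫ l in Ioi (0 : ℝ), f x l = ph x * ((G x : ℝ) : ℂ) := by
    intro x
    have e : ∀ l ∈ Ioi (0 : ℝ), f x l = ph x * (((Iio (G x)).indicator (fun _ => (1 : ℝ)) l : ℝ) : ℂ) := by
      intro l _
      change ph x * ind (Ls G l) x = _
      unfold ind
      by_cases hx : l < G x
      · rw [indicator_of_mem (show x ∈ Ls G l from hx), indicator_of_mem (show l ∈ Iio (G x) from hx)]
        simp
      · rw [indicator_of_notMem (show x ∉ Ls G l from hx),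
          indicator_of_notMem (show l ∉ Iio (G x) from hx)]
        simp
    rw [setIntegral_congr_fun measurableSet_Ioi e, integral_const_mul, integral_complex_ofReal,
      setIntegral_indicator measurableSet_Iio,
      setIntegral_const, smul_eq_mul, mul_one, Measure.real, Ioi_inter_Iio, Real.volume_Ioo,
      sub_zero, ENNReal.toReal_ofReal (h0 x)]
  have hint : Integrable (Function.uncurry f) ((volume : Measure (ℝ × ℝ)).prod
      (volume.restrict (Ioi (0 : ℝ)))) := by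
    rw [integrable_prod_iff hfm.aestronglyMeasurable]
    refine ⟨Eventually.of_forall fun x => hint1 x, ?_⟩
    refine hi.congr (Eventually.of_forall fun x => ?_)
    exact (hval x).symm
  have key : E (fun x => H x * ((G x : ℝ) : ℂ)) ξ =
      ∫ l in Ioi (0 : ℝ), E (fun x => H x * ind (Ls G l) x) ξ := by
    calc E (fun x => H x * ((G x : ℝ) : ℂ)) ξ = ∫ x, ∫ l in Ioi (0 : ℝ), f x l := by
          unfold E
          refine integral_congr_ae (Eventually.of_forall fun x => ?_)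
          simp only [hval2]
          rw [hph]
          ring
      _ = ∫ l in Ioi (0 : ℝ), ∫ x, f x l := integral_integral_swap hint
      _ = _ := by
          refine setIntegral_congr_fun measurableSet_Ioi fun l _ => ?_
          unfold E
          refine integral_congr_ae (Eventually.of_forall fun x => ?_)
          simp only [hf, hph]
          ring
  rw [key]
  exact enorm_integral_le_lintegral_enorm _

theorem measurable_layerH {H : ℝ × ℝ → ℂ} (hH : Measurable H) {G : ℝ × ℝ → ℝ}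
    (hG : Measurable G) :
    Measurable (Function.uncurry fun (ξ : ℝ × ℝ × ℝ) (l : ℝ) =>
      ‖E (fun x => H x * ind (Ls G l) x) ξ‖ₑ) := by
  have h1 : StronglyMeasurable fun z : (ℝ × ℝ × ℝ) × ℝ => ∫ x : ℝ × ℝ,
      u (z.1.1 * x.1 + (z.1.2.1 * x.2 + z.1.2.2 * (x.1 ^ 2 + x.2 ^ 2))) *
        (H x * ind (Ls G z.2) x) := by
    apply StronglyMeasurable.integral_prod_right
      (f := fun (z : (ℝ × ℝ × ℝ) × ℝ) (x : ℝ × ℝ) =>
      u (z.1.1 * x.1 + (z.1.2.1 * x.2 + z.1.2.2 * (x.1 ^ 2 + x.2 ^ 2))) *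
        (H x * ind (Ls G z.2) x))
    apply Measurable.stronglyMeasurable
    have hs : MeasurableSet {y : ((ℝ × ℝ × ℝ) × ℝ) × (ℝ × ℝ) | y.1.2 < G y.2} :=
      measurableSet_lt (measurable_snd.comp measurable_fst) (hG.comp measurable_snd)
    have h2 : Measurable fun y : ((ℝ × ℝ × ℝ) × ℝ) × (ℝ × ℝ) =>
        u (y.1.1.1 * y.2.1 + (y.1.1.2.1 * y.2.2 + y.1.1.2.2 * (y.2.1 ^ 2 + y.2.2 ^ 2))) :=
      measurable_u.comp (by fun_prop)
    have h3 : Measurable ({y : ((ℝ × ℝ × ℝ) × ℝ) × (ℝ × ℝ) | y.1.2 < G y.2}.indicator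
        fun _ => (1 : ℂ)) := measurable_const.indicator hs
    exact h2.mul ((hH.comp measurable_snd).mul h3)
  exact h1.measurable.enorm

/-- From level sets to non-negative functions. -/
theorem nonneg_caseH {q p : ℝ} (hq : 3 < q) (hp : q / (q - 2) < p) :
    ∃ δ : ℝ, 0 < δ ∧ δ ≤ (q - 3) / 3 ∧ ∃ K : ℝ, 0 < K ∧
    ∀ (C : ℝ≥0) (B : ℝ) (H : ℝ × ℝ → ℂ) (G : ℝ × ℝ → ℝ), 1 ≤ B → Measurable H →
      (∀ x, ‖H x‖ = 1) → Measurable G →
      (∀ x, x ∉ QQ → G x = 0) → (∀ x, 0 ≤ G x) →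
      (∀ l, 0 < l → ∫⁻ ξ, ‖E (fun x => H x * ind (Ls G l) x) ξ‖ₑ ^ q ≤
        C * ENNReal.ofReal (B ^ q * vr (Ls G l) ^ (q - 2 - δ))) →
      eLpNorm (E fun x => H x * ((G x : ℝ) : ℂ)) (ENNReal.ofReal q) volume ≤
        ((C : ℝ≥0∞) ^ (1 / q) * ENNReal.ofReal K + 1) * ENNReal.ofReal B *
          eLpNorm G (ENNReal.ofReal p) volume := by
  have hq0 : 0 < q := by linarith
  have hq2 : 0 < q - 2 := by linarith
  have hp1 : 1 < p := by
    refine lt_of_le_of_lt ?_ hp
    rw [le_div_iff₀ hq2]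
    linarith
  have hp0 : 0 < p := by linarith
  have hqp : q / p < q - 2 := by
    rw [div_lt_iff₀ hp0]
    rw [div_lt_iff₀ hq2] at hp
    linarith
  set δ : ℝ := min ((q - 3) / 3) ((q - 2 - q / p) / 2) with hδdef
  have hδ : 0 < δ := lt_min (by linarith) (by linarith)
  have hδ1 : δ ≤ (q - 3) / 3 := min_le_left _ _
  have hδ3 : δ ≤ (q - 2 - q / p) / 2 := min_le_right _ _
  clear_value δ
  set s : ℝ := (q - 2 - δ) / q with hs
  have hs0 : 0 < s := div_pos (by linarith) hq0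
  have hps : 1 < p * s := by
    rw [hs, mul_div_assoc', lt_div_iff₀ hq0]
    have h1 : q / p < q - 2 - δ := by linarith
    rw [div_lt_iff₀ hp0] at h1
    linarith
  set K : ℝ := 1 + 1 / (p * s - 1) with hK
  have hK0 : 0 < K := by
    have : 0 < p * s - 1 := by linarith
    positivity
  refine ⟨δ, hδ, hδ1, K, hK0, fun C B H G hB hH hH1 hG hG0 hGn hC => ?_⟩
  have hB0 : 0 < B := by linarith
  have h1p : (1 : ℝ≥0∞) ≤ ENNReal.ofReal p := by
    rw [← ENNReal.ofReal_one]
    exact ENNReal.ofReal_le_ofReal (by linarith)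
  rcases eq_or_ne (eLpNorm G (ENNReal.ofReal p) volume) 0 with hz | hz
  · have hG0' : G =ᵐ[volume] 0 := by
      rwa [eLpNorm_eq_zero_iff hG.aestronglyMeasurable (by simpa using hp0)] at hz
    have hE0 : (E fun x => H x * ((G x : ℝ) : ℂ)) = 0 := by
      funext ξ
      unfold E
      rw [Pi.zero_apply]
      refine integral_eq_zero_of_ae ?_
      filter_upwards [hG0'] with x hx
      rw [hx]
      simp
    rw [hE0, eLpNorm_zero]
    exact bot_le
  rcases eq_or_ne (eLpNorm G (ENNReal.ofReal p) volume) ⊤ with htop | htop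
  · rw [htop, ENNReal.mul_top]
    · exact le_top
    · refine mul_ne_zero ?_ ?_
      · simp
      · simpa using hB0
  have hL1 : eLpNorm G 1 volume ≤ eLpNorm G (ENNReal.ofReal p) volume := by
    refine eLpNorm_le_one (s := QQ) ?_ h1p hG.aestronglyMeasurable vol_QQ
    intro x hx
    by_contra hn
    exact hx (hG0 x hn)
  have hint : Integrable G := by
    rw [← memLp_one_iff_integrable]
    exact ⟨hG.aestronglyMeasurable, lt_of_le_of_lt hL1 (lt_top_iff_ne_top.2 htop)⟩
  have hGc : Measurable fun x => ((G x : ℝ) : ℂ) := Complex.measurable_ofReal.comp hG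
  have hqq : (ENNReal.ofReal q).toReal = q := ENNReal.toReal_ofReal hq0.le
  have hform : ∀ f : ℝ × ℝ × ℝ → ℂ, eLpNorm f (ENNReal.ofReal q) volume =
      (∫⁻ ξ, ‖f ξ‖ₑ ^ q) ^ (1 / q) := by
    intro f
    rw [eLpNorm_eq_lintegral_rpow_enorm_toReal (by simpa using hq0) ENNReal.ofReal_ne_top, hqq]
  set N : ℝ := (eLpNorm G (ENNReal.ofReal p) volume).toReal with hN
  have hN0 : 0 < N := ENNReal.toReal_pos hz htop
  have hGN : eLpNorm G (ENNReal.ofReal p) volume = ENNReal.ofReal N :=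
    (ENNReal.ofReal_toReal htop).symm
  have hBd : ∫⁻ x, ‖((G x : ℝ) : ℂ)‖ₑ ≠ ⊤ := by
    have h1 := hint.ofReal (𝕜 := ℂ)
    exact h1.2.ne
  have hle1 : ∀ ξ, ‖E (fun x => H x * ((G x : ℝ) : ℂ)) ξ‖ₑ ≤ ∫⁻ x, ‖((G x : ℝ) : ℂ)‖ₑ := by
    intro ξ
    refine (Pool.Agent.H27.Fib.enorm_E_le _ ξ).trans (le_of_eq ?_)
    refine lintegral_congr fun x => ?_
    rw [enorm_mul, ← ofReal_norm, hH1, ENNReal.ofReal_one, one_mul]
  have hmink := mink (μ := (volume : Measure (ℝ × ℝ × ℝ)))
    (ν := (volume.restrict (Ioi (0 : ℝ)))) (q := q) (by linarith)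
    (F := fun ξ l => ‖E (fun x => H x * ind (Ls G l) x) ξ‖ₑ) (measurable_layerH hH hG)
    (Φ := fun ξ => ‖E (fun x => H x * ((G x : ℝ) : ℂ)) ξ‖ₑ) (measurable_E (hH.mul hGc)).enorm
    (fun ξ => layerH hH hH1 hG hint hGn ξ) hBd hle1
  have hlev : ∀ l ∈ Ioi (0 : ℝ), (∫⁻ ξ, ‖E (fun x => H x * ind (Ls G l) x) ξ‖ₑ ^ q) ^ (1 / q) ≤
      ((C : ℝ≥0∞) ^ (1 / q) * ENNReal.ofReal B) * ENNReal.ofReal (vr (Ls G l) ^ s) := by
    intro l hl
    have h1 := hC l hl
    have hv := vr_nonneg (Ls G l)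
    calc (∫⁻ ξ, ‖E (fun x => H x * ind (Ls G l) x) ξ‖ₑ ^ q) ^ (1 / q)
        ≤ (C * ENNReal.ofReal (B ^ q * vr (Ls G l) ^ (q - 2 - δ))) ^ (1 / q) := by gcongr
      _ = _ := by
          rw [ENNReal.mul_rpow_of_nonneg _ _ (by positivity),
            ENNReal.ofReal_rpow_of_nonneg (by positivity) (by positivity),
            Real.mul_rpow (by positivity) (by positivity), ← Real.rpow_mul hB0.le,
            ← Real.rpow_mul hv, mul_one_div_cancel hq0.ne', Real.rpow_one, mul_one_div, ← hs,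
            ENNReal.ofReal_mul hB0.le, mul_assoc]
  have hint2 : ∫⁻ l in Ioi (0 : ℝ), (∫⁻ ξ, ‖E (fun x => H x * ind (Ls G l) x) ξ‖ₑ ^ q) ^ (1 / q) ≤
      ((C : ℝ≥0∞) ^ (1 / q) * ENNReal.ofReal B) * ENNReal.ofReal (K * N) := by
    calc ∫⁻ l in Ioi (0 : ℝ), (∫⁻ ξ, ‖E (fun x => H x * ind (Ls G l) x) ξ‖ₑ ^ q) ^ (1 / q)
        ≤ ∫⁻ l in Ioi (0 : ℝ),
            ((C : ℝ≥0∞) ^ (1 / q) * ENNReal.ofReal B) * ENNReal.ofReal (vr (Ls G l) ^ s) :=
          setLIntegral_mono' measurableSet_Ioi hlev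
      _ = ((C : ℝ≥0∞) ^ (1 / q) * ENNReal.ofReal B) *
            ∫⁻ l in Ioi (0 : ℝ), ENNReal.ofReal (vr (Ls G l) ^ s) := by
          refine lintegral_const_mul' _ _ (ENNReal.mul_ne_top ?_ ENNReal.ofReal_ne_top)
          exact ENNReal.rpow_ne_top_of_nonneg (by positivity) ENNReal.coe_ne_top
      _ ≤ _ := by
          gcongr
          exact cheb hG hG0 hp0 hs0 hps hN0 hGN.le
  rw [hform]
  calc (∫⁻ ξ, ‖E (fun x => H x * ((G x : ℝ) : ℂ)) ξ‖ₑ ^ q) ^ (1 / q)
      ≤ ((∫⁻ l in Ioi (0 : ℝ),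
          (∫⁻ ξ, ‖E (fun x => H x * ind (Ls G l) x) ξ‖ₑ ^ q) ^ (1 / q)) ^ q) ^ (1 / q) := by
        gcongr
    _ = ∫⁻ l in Ioi (0 : ℝ), (∫⁻ ξ, ‖E (fun x => H x * ind (Ls G l) x) ξ‖ₑ ^ q) ^ (1 / q) := by
        rw [← ENNReal.rpow_mul, mul_one_div_cancel hq0.ne', ENNReal.rpow_one]
    _ ≤ ((C : ℝ≥0∞) ^ (1 / q) * ENNReal.ofReal B) * ENNReal.ofReal (K * N) := hint2
    _ = ((C : ℝ≥0∞) ^ (1 / q) * ENNReal.ofReal K) * ENNReal.ofReal B * ENNReal.ofReal N := by
        rw [ENNReal.ofReal_mul hK0.le]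
        ring
    _ ≤ _ := by
        rw [hGN]
        gcongr
        exact le_self_add

theorem norm_ch (P θ : ℝ × ℝ → ℝ) (x : ℝ × ℝ) : ‖ch P θ x‖ = 1 := by
  unfold ch
  rw [mul_comm, Complex.norm_exp_ofReal_mul_I]

theorem measurable_ch {P θ : ℝ × ℝ → ℝ} (hP : Measurable P) (hθ : Measurable θ) :
    Measurable (ch P θ) := by
  unfold ch
  exact Complex.measurable_exp.comp (measurable_const.mul
    (Complex.measurable_ofReal.comp (hP.add hθ)))

/-- The estimate for complex functions, lines parallel to the axes. -/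
theorem chirp_axes (hRE : T_RE) {q p : ℝ} (hq : 3 < q) (hp : q / (q - 2) < p) : ∃ C : ℝ≥0,
    ∀ (n m : ℕ) (P θ : ℝ × ℝ → ℝ) (V : ℝ) (f : ℝ × ℝ → ℂ), 2 ≤ n → 1 ≤ m → IsPol n P →
      ContDiff ℝ 1 θ → 0 ≤ V → Measurable f → (∀ x, x ∉ QQ → f x = 0) →
      (∀ l, 0 < l → AxFew m (Ls (fun y => (f y).re) l) ∧ AxFew m (Ls (fun y => -(f y).re) l) ∧
        AxFew m (Ls (fun y => (f y).im) l) ∧ AxFew m (Ls (fun y => -(f y).im) l)) →
      (∀ x, f x ≠ 0 → |d1 θ x| ≤ V ∧ |d2 θ x| ≤ V) →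
      eLpNorm (E fun x => ch P θ x * f x) (ENNReal.ofReal q) volume ≤
        C * ENNReal.ofReal (((n : ℝ) ^ 2 * m * (1 + V)) ^ (1 / 3 : ℝ)) *
          eLpNorm f (ENNReal.ofReal p) volume := by
  obtain ⟨δ, hδ, hδ1, K, hK, hN⟩ := nonneg_caseH hq hp
  obtain ⟨C, hC⟩ := hRE q δ hq hδ hδ1
  have hq0 : 0 < q := by linarith
  have hq2 : 0 < q - 2 := by linarith
  have hp1 : 1 < p := by
    refine lt_of_le_of_lt ?_ hp
    rw [le_div_iff₀ hq2]
    linarith
  have h1q : (1 : ℝ≥0∞) ≤ ENNReal.ofReal q := by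
    rw [← ENNReal.ofReal_one]
    exact ENNReal.ofReal_le_ofReal (by linarith)
  have h1p : (1 : ℝ≥0∞) ≤ ENNReal.ofReal p := by
    rw [← ENNReal.ofReal_one]
    exact ENNReal.ofReal_le_ofReal (by linarith)
  have hCt : ((C : ℝ≥0∞) ^ (1 / q) * ENNReal.ofReal K + 1) ≠ ⊤ := by
    refine ENNReal.add_ne_top.2 ⟨ENNReal.mul_ne_top ?_ ENNReal.ofReal_ne_top, ENNReal.one_ne_top⟩
    exact ENNReal.rpow_ne_top_of_nonneg (by positivity) ENNReal.coe_ne_top
  obtain ⟨C1, hC1⟩ : ∃ C1 : ℝ≥0, (C1 : ℝ≥0∞) = (C : ℝ≥0∞) ^ (1 / q) * ENNReal.ofReal K + 1 :=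
    ⟨_, ENNReal.coe_toNNReal hCt⟩
  refine ⟨4 * C1 + 1, fun n m P θ V f hn hm hP hθ hV hf hf0 hfew hV' => ?_⟩
  have hb1 : 1 ≤ (n : ℝ) ^ 2 * m * (1 + V) := by
    have h1 : (2 : ℝ) ≤ n := by exact_mod_cast hn
    have h2 : (1 : ℝ) ≤ m := by exact_mod_cast hm
    have h3 : 1 ≤ (n : ℝ) ^ 2 := by nlinarith
    have h4 : 1 ≤ (n : ℝ) ^ 2 * m := by nlinarith
    nlinarith
  set B : ℝ := ((n : ℝ) ^ 2 * m * (1 + V)) ^ (1 / 3 : ℝ) with hB
  have hB1 : 1 ≤ B := Real.one_le_rpow hb1 (by norm_num)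
  have hB0 : 0 < B := by linarith
  have hBq : B ^ q = ((n : ℝ) ^ 2 * m * (1 + V)) ^ (q / 3) := by
    rw [hB, ← Real.rpow_mul (by linarith)]
    congr 1
    ring
  have hHm : Measurable (ch P θ) := measurable_ch hP.continuous.measurable
    (hθ.continuous.measurable)
  rcases eq_or_ne (eLpNorm f (ENNReal.ofReal p) volume) ⊤ with htop | htop
  · rw [htop, ENNReal.mul_top]
    · exact le_top
    · refine mul_ne_zero ?_ ?_
      · simp
      · simpa using hB0
  have hL1 : eLpNorm f 1 volume ≤ eLpNorm f (ENNReal.ofReal p) volume :=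
    eLpNorm_le_one (support_QQ hf0) h1p hf.aestronglyMeasurable vol_QQ
  have hint : Integrable f := by
    rw [← memLp_one_iff_integrable]
    exact ⟨hf.aestronglyMeasurable, lt_of_le_of_lt hL1 (lt_top_iff_ne_top.2 htop)⟩
  -- a single part
  have part : ∀ g : ℝ × ℝ → ℝ, Measurable g → (∀ x, |g x| ≤ ‖f x‖) →
      (∀ l, 0 < l → AxFew m (Ls g l)) →
      Integrable (fun x => ch P θ x * ((pp g x : ℝ) : ℂ)) ∧
      eLpNorm (E fun x => ch P θ x * ((pp g x : ℝ) : ℂ)) (ENNReal.ofReal q) volume ≤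
        C1 * ENNReal.ofReal B * eLpNorm f (ENNReal.ofReal p) volume := by
    intro g hg hgf hgfew
    have hle : ∀ x, ‖pp g x‖ ≤ ‖f x‖ := by
      intro x
      unfold pp
      rw [Real.norm_of_nonneg (le_max_right _ _)]
      exact max_le ((le_abs_self _).trans (hgf x)) (norm_nonneg _)
    have hpp0 : ∀ x, x ∉ QQ → pp g x = 0 := by
      intro x hx
      have h1 := hle x
      rw [hf0 x hx, norm_zero] at h1
      exact norm_le_zero_iff.1 h1
    constructor
    · have h1 : Integrable (fun x => ((pp g x : ℝ) : ℂ)) :=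
        (hint.mono (measurable_pp hg).aestronglyMeasurable (Eventually.of_forall hle)).ofReal
      exact h1.bdd_mul (c := 1) hHm.aestronglyMeasurable
        (Eventually.of_forall fun x => (norm_ch P θ x).le)
    · refine (hN C B (ch P θ) (pp g) hB1 hHm (norm_ch P θ) (measurable_pp hg) hpp0
        (fun x => le_max_right _ _) (fun l hl => ?_)).trans ?_
      · rw [Ls_pp g hl, hBq]
        have hsub : Ls g l ⊆ QQ := by
          intro x hx
          by_contra hn'
          have h1 : l < g x := hx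
          have h2 := hgf x
          rw [hf0 x hn', norm_zero] at h2
          have h3 := le_abs_self (g x)
          linarith
        refine hC n m P θ V (Ls g l) hn hm hP hθ hV (measurableSet_Ls hg l) hsub (hgfew l hl)
          fun x hx => hV' x fun h0 => ?_
        have h1 : l < g x := hx
        have h2 := hgf x
        rw [h0, norm_zero] at h2
        have h3 := le_abs_self (g x)
        linarith
      · rw [hC1]
        gcongr
        exact eLpNorm_mono hle
  have hre : Measurable fun y => (f y).re := Complex.measurable_re.comp hf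
  have him : Measurable fun y => (f y).im := Complex.measurable_im.comp hf
  obtain ⟨i1, b1⟩ := part (fun y => (f y).re) hre (fun x => Complex.abs_re_le_norm _)
    (fun l hl => (hfew l hl).1)
  obtain ⟨i2, b2⟩ := part (fun y => -(f y).re) hre.neg (fun x => by
    rw [abs_neg]; exact Complex.abs_re_le_norm _) (fun l hl => (hfew l hl).2.1)
  obtain ⟨i3, b3⟩ := part (fun y => (f y).im) him (fun x => Complex.abs_im_le_norm _)
    (fun l hl => (hfew l hl).2.2.1)
  obtain ⟨i4, b4⟩ := part (fun y => -(f y).im) him.neg (fun x => by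
    rw [abs_neg]; exact Complex.abs_im_le_norm _) (fun l hl => (hfew l hl).2.2.2)
  set G1 : ℝ × ℝ → ℂ := fun x => ch P θ x * ((pp (fun y => (f y).re) x : ℝ) : ℂ) with hG1
  set G2 : ℝ × ℝ → ℂ := fun x => ch P θ x * ((pp (fun y => -(f y).re) x : ℝ) : ℂ) with hG2
  set G3 : ℝ × ℝ → ℂ := fun x => ch P θ x * ((pp (fun y => (f y).im) x : ℝ) : ℂ) with hG3
  set G4 : ℝ × ℝ → ℂ := fun x => ch P θ x * ((pp (fun y => -(f y).im) x : ℝ) : ℂ) with hG4
  have m1 : Measurable (E G1) :=
    measurable_E (hHm.mul (Complex.measurable_ofReal.comp (measurable_pp hre)))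
  have m2 : Measurable (E G2) :=
    measurable_E (hHm.mul (Complex.measurable_ofReal.comp (measurable_pp hre.neg)))
  have m3 : Measurable (E G3) :=
    measurable_E (hHm.mul (Complex.measurable_ofReal.comp (measurable_pp him)))
  have m4 : Measurable (E G4) :=
    measurable_E (hHm.mul (Complex.measurable_ofReal.comp (measurable_pp him.neg)))
  have hfE : (E fun x => ch P θ x * f x) = fun ξ => (E G1 ξ + (-1) * E G2 ξ) +
      (Complex.I * E G3 ξ + (-Complex.I) * E G4 ξ) := by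
    funext ξ
    have e1 : (fun x => ch P θ x * f x) =
        fun x => (G1 x + (-1) * G2 x) + (Complex.I * G3 x + (-Complex.I) * G4 x) := by
      funext x
      simp only [hG1, hG2, hG3, hG4]
      conv_lhs => rw [four_parts (f x)]
      unfold pp
      ring
    conv_lhs => rw [e1]
    rw [E_add (f := fun x => G1 x + (-1) * G2 x)
      (g := fun x => Complex.I * G3 x + (-Complex.I) * G4 x)
      (i1.add (i2.const_mul _)) ((i3.const_mul _).add (i4.const_mul _)),
      E_add i1 (i2.const_mul _), E_add (i3.const_mul _) (i4.const_mul _), E_const_mul,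
      E_const_mul, E_const_mul]
  have hmono : ∀ (c : ℂ) (g : ℝ × ℝ × ℝ → ℂ), ‖c‖ = 1 →
      eLpNorm (fun ξ => c * g ξ) (ENNReal.ofReal q) volume =
        eLpNorm g (ENNReal.ofReal q) volume := by
    intro c g hc
    refine eLpNorm_congr_norm_ae (Eventually.of_forall fun ξ => ?_)
    rw [norm_mul, hc, one_mul]
  rw [hfE]
  calc eLpNorm (fun ξ => (E G1 ξ + (-1) * E G2 ξ) +
        (Complex.I * E G3 ξ + (-Complex.I) * E G4 ξ)) (ENNReal.ofReal q) volume
      ≤ eLpNorm (fun ξ => E G1 ξ + (-1) * E G2 ξ) (ENNReal.ofReal q) volume +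
        eLpNorm (fun ξ => Complex.I * E G3 ξ + (-Complex.I) * E G4 ξ)
          (ENNReal.ofReal q) volume :=
        eLpNorm_add_le (m1.add (m2.const_mul _)).aestronglyMeasurable
          ((m3.const_mul _).add (m4.const_mul _)).aestronglyMeasurable h1q
    _ ≤ (eLpNorm (E G1) (ENNReal.ofReal q) volume +
          eLpNorm (fun ξ => (-1) * E G2 ξ) (ENNReal.ofReal q) volume) +
        (eLpNorm (fun ξ => Complex.I * E G3 ξ) (ENNReal.ofReal q) volume +
          eLpNorm (fun ξ => (-Complex.I) * E G4 ξ) (ENNReal.ofReal q) volume) := by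
        gcongr
        · exact eLpNorm_add_le m1.aestronglyMeasurable (m2.const_mul _).aestronglyMeasurable h1q
        · exact eLpNorm_add_le (m3.const_mul _).aestronglyMeasurable
            (m4.const_mul _).aestronglyMeasurable h1q
    _ ≤ (C1 * ENNReal.ofReal B * eLpNorm f (ENNReal.ofReal p) volume +
          C1 * ENNReal.ofReal B * eLpNorm f (ENNReal.ofReal p) volume) +
        (C1 * ENNReal.ofReal B * eLpNorm f (ENNReal.ofReal p) volume +
          C1 * ENNReal.ofReal B * eLpNorm f (ENNReal.ofReal p) volume) := by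
        rw [hmono _ _ (by simp), hmono _ _ (by simp), hmono _ _ (by simp)]
        gcongr
    _ = (4 * C1 : ℝ≥0) * ENNReal.ofReal B * eLpNorm f (ENNReal.ofReal p) volume := by
        push_cast
        ring
    _ ≤ _ := by
        gcongr
        exact_mod_cast le_self_add

end Pool.Agent.Chirp
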