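import Mathlib
import Pool.Agent.Chirp.Lay

/-!
# Polynomial chirps: rotation of the frame
-/

namespace Pool.Agent.Chirp

open MeasureTheory Set Filter
open scoped ENNReal NNReal
open Pool.Agent.Restr (u E QQ rot rot_apply mp_rot continuous_rot eLpNorm_E_rot rot_supp)
open Pool.Agent.H27.Fib (Few ind vr Ls LineFew)

theorem IsPol.pow {d : ℕ} {f : ℝ × ℝ → ℝ} (hf : IsPol d f) (k : ℕ) :
    IsPol (k * d) (fun x => f x ^ k) := by
  induction k with
  | zero => simpa using isPol_const 1 0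
  | succ k ih =>
    have h := ih.mul hf
    refine (h.mono (by rw [Nat.succ_mul])).congr fun x => ?_
    rw [pow_succ]

theorem isPol_rot {n : ℕ} {P : ℝ × ℝ → ℝ} (hP : IsPol n P) (e : ℝ × ℝ) :
    IsPol n (fun x => P (rot e x)) := by
  obtain ⟨c, hc⟩ := hP
  have h1 : IsPol 1 (fun x : ℝ × ℝ => e.2 * x.1 + e.1 * x.2) :=
    ((isPol_fst le_rfl).smul e.2).add ((isPol_snd le_rfl).smul e.1)
  have h2 : IsPol 1 (fun x : ℝ × ℝ => -e.1 * x.1 + e.2 * x.2) :=
    ((isPol_fst le_rfl).smul (-e.1)).add ((isPol_snd le_rfl).smul e.2)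
  have h : (fun x => P (rot e x)) = fun x => ∑ p ∈ SD n,
      c p * ((e.2 * x.1 + e.1 * x.2) ^ p.1 * (-e.1 * x.1 + e.2 * x.2) ^ p.2) := by
    funext x
    rw [hc, rot_apply]
  rw [h]
  refine isPol_sum _ fun p hp => ?_
  rw [mem_SD] at hp
  exact (((h1.pow p.1).mul (h2.pow p.2)).mono (by omega)).smul _

theorem isPol_eval {D : ℕ} {p : MvPolynomial (Fin 2) ℝ} (hp : p.totalDegree ≤ D) :
    IsPol D (fun x => MvPolynomial.eval ![x.1, x.2] p) := by
  have h : (fun x : ℝ × ℝ => MvPolynomial.eval ![x.1, x.2] p) = fun x => ∑ m ∈ p.support,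
      p.coeff m * (x.1 ^ (m 0) * x.2 ^ (m 1)) := by
    funext x
    rw [MvPolynomial.eval_eq']
    refine Finset.sum_congr rfl fun m _ => ?_
    rw [Fin.prod_univ_two]
    rfl
  rw [h]
  refine isPol_sum _ fun m hm => ?_
  have h1 := MvPolynomial.le_totalDegree hm
  rw [Finsupp.sum_fintype _ _ (by simp), Fin.sum_univ_two] at h1
  exact ((isPol_mono (m 0) (m 1)).mono (h1.trans hp)).smul _

theorem fderiv_rot {θ : ℝ × ℝ → ℝ} (hθ : ContDiff ℝ 1 θ) {e : ℝ × ℝ}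
    (he : e.1 ^ 2 + e.2 ^ 2 = 1) {V : ℝ} {x : ℝ × ℝ} (hV : ‖fderiv ℝ θ (rot e x)‖ ≤ V) :
    |d1 (fun y => θ (rot e y)) x| ≤ V ∧ |d2 (fun y => θ (rot e y)) x| ≤ V := by
  have ha : |e.1| ≤ 1 := by
    rw [← sq_le_one_iff_abs_le_one]
    nlinarith [sq_nonneg e.2]
  have hb : |e.2| ≤ 1 := by
    rw [← sq_le_one_iff_abs_le_one]
    nlinarith [sq_nonneg e.1]
  have hd : DifferentiableAt ℝ θ (rot e x) := hθ.differentiable (by simp) _
  have hl : HasFDerivAt (rot e : ℝ × ℝ → ℝ × ℝ) (LinearMap.toContinuousLinearMap (rot e)) x :=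
    (LinearMap.toContinuousLinearMap (rot e)).hasFDerivAt
  have hc : HasFDerivAt (fun y => θ (rot e y))
      ((fderiv ℝ θ (rot e x)).comp (LinearMap.toContinuousLinearMap (rot e))) x :=
    hd.hasFDerivAt.comp x hl
  have key : ∀ v : ℝ × ℝ, ‖v‖ ≤ 1 → |fderiv ℝ θ (rot e x) v| ≤ V := by
    intro v hv
    have h1 := (fderiv ℝ θ (rot e x)).le_opNorm v
    rw [Real.norm_eq_abs] at h1
    calc |fderiv ℝ θ (rot e x) v| ≤ ‖fderiv ℝ θ (rot e x)‖ * ‖v‖ := h1
      _ ≤ ‖fderiv ℝ θ (rot e x)‖ * 1 := by gcongr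
      _ ≤ V := by rw [mul_one]; exact hV
  constructor
  · rw [d1_eq hc.differentiableAt, hc.fderiv]
    change |fderiv ℝ θ (rot e x) (rot e (1, 0))| ≤ V
    apply key
    rw [rot_apply, Prod.norm_def]
    simp only [mul_one, mul_zero, add_zero, Real.norm_eq_abs, abs_neg]
    exact max_le hb ha
  · rw [d2_eq hc.differentiableAt, hc.fderiv]
    change |fderiv ℝ θ (rot e x) (rot e (0, 1))| ≤ V
    apply key
    rw [rot_apply, Prod.norm_def]
    simp only [mul_one, mul_zero, zero_add, Real.norm_eq_abs]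
    exact max_le ha hb

theorem axFew_rot {m : ℕ} {g : ℂ → ℝ} {f : ℝ × ℝ → ℂ} {e : ℝ × ℝ} {l : ℝ}
    (h1 : ∀ᵐ s : ℝ, Few m {r : ℝ | l < g (f (s * e.2 + r * e.1, -(s * e.1) + r * e.2))})
    (h2 : ∀ᵐ s : ℝ, Few m {r : ℝ | l < g (f (s * e.1 + r * -e.2, -(s * -e.2) + r * e.1))}) :
    AxFew m (Ls (fun y => g (f (rot e y))) l) := by
  constructor
  · filter_upwards [h2] with y hy
    have h := hy.preimage (g := fun x : ℝ => -x) (Or.inr fun a b hab => neg_le_neg hab)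
    convert h using 1
    ext x
    simp only [Ls, mem_ofPred_eq, mem_preimage, rot_apply]
    have e1 : ((e.2 * x + e.1 * y, -e.1 * x + e.2 * y) : ℝ × ℝ) =
        (y * e.1 + -x * -e.2, -(y * -e.2) + -x * e.1) := by
      ext <;> simp <;> ring
    rw [e1]
  · filter_upwards [h1] with x hx
    convert hx using 1
    ext y
    simp only [Ls, mem_ofPred_eq, rot_apply]
    have e1 : ((e.2 * x + e.1 * y, -e.1 * x + e.2 * y) : ℝ × ℝ) =
        (x * e.2 + y * e.1, -(x * e.1) + y * e.2) := by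
      ext <;> simp <;> ring
    rw [e1]

/-- The chirp theorem in an arbitrary orthonormal frame. -/
theorem chirp_frame (hRE : T_RE) {q p : ℝ} (hq : 3 < q) (hp : q / (q - 2) < p) : ∃ C : ℝ≥0,
    ∀ (n m : ℕ) (P θ : ℝ × ℝ → ℝ) (V : ℝ) (f : ℝ × ℝ → ℂ) (e : ℝ × ℝ), 2 ≤ n → 1 ≤ m →
      IsPol n P → ContDiff ℝ 1 θ → 0 ≤ V → Measurable f →
      (∀ x : ℝ × ℝ, 1 / 4 < x.1 ^ 2 + x.2 ^ 2 → f x = 0) → e.1 ^ 2 + e.2 ^ 2 = 1 →
      (∀ᵐ s : ℝ, LineFew m f e s) → (∀ᵐ s : ℝ, LineFew m f (-e.2, e.1) s) →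
      (∀ x, f x ≠ 0 → ‖fderiv ℝ θ x‖ ≤ V) →
      eLpNorm (E fun x => ch P θ x * f x) (ENNReal.ofReal q) volume ≤
        C * ENNReal.ofReal (((n : ℝ) ^ 2 * m * (1 + V)) ^ (1 / 3 : ℝ)) *
          eLpNorm f (ENNReal.ofReal p) volume := by
  have hq0 : 0 < q := by linarith
  obtain ⟨C, hC⟩ := chirp_axes hRE hq hp
  refine ⟨C, fun n m P θ V f e hn hm hP hθ hV hf hs he hf1 hf2 hV' => ?_⟩
  have hcm : Measurable fun x => ch P θ x * f x :=
    (measurable_ch hP.continuous.measurable hθ.continuous.measurable).mul hf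
  have hgm : Measurable fun x => f (rot e x) := hf.comp (continuous_rot e).measurable
  have hNg : eLpNorm (fun x => f (rot e x)) (ENNReal.ofReal p) volume =
      eLpNorm f (ENNReal.ofReal p) volume :=
    eLpNorm_comp_measurePreserving hf.aestronglyMeasurable (mp_rot he)
  have hθr : ContDiff ℝ 1 fun x => θ (rot e x) :=
    hθ.comp (LinearMap.toContinuousLinearMap (rot e)).contDiff
  rw [eLpNorm_E_rot he hcm hq0, ← hNg]
  have hch : (fun x => ch P θ (rot e x) * f (rot e x)) = fun x =>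
      ch (fun y => P (rot e y)) (fun y => θ (rot e y)) x * f (rot e x) := rfl
  rw [hch]
  refine hC n m _ _ V _ hn hm (isPol_rot hP e) hθr hV hgm (fun x hx => rot_supp he hs x hx)
    (fun l hl => ⟨?_, ?_, ?_, ?_⟩) (fun x hx => fderiv_rot hθ he (hV' _ hx))
  · exact axFew_rot (g := fun z => z.re) (hf1.mono fun s h => (h l hl).1)
      (hf2.mono fun s h => (h l hl).1)
  · exact axFew_rot (g := fun z => -z.re) (hf1.mono fun s h => (h l hl).2.1)
      (hf2.mono fun s h => (h l hl).2.1)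
  · exact axFew_rot (g := fun z => z.im) (hf1.mono fun s h => (h l hl).2.2.1)
      (hf2.mono fun s h => (h l hl).2.2.1)
  · exact axFew_rot (g := fun z => -z.im) (hf1.mono fun s h => (h l hl).2.2.2)
      (hf2.mono fun s h => (h l hl).2.2.2)

end Pool.Agent.Chirp
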