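import Mathlib
import Pool.Agent.Chirp.Final1

/-!
# Polynomial chirps: smooth phases
-/

namespace Pool.Agent.Chirp

open MeasureTheory Set Filter
open scoped ENNReal NNReal
open Pool.Agent.Restr (u E QQ rot rot_apply mp_rot continuous_rot eLpNorm_E_rot rot_supp
  measurable_E eLpNorm_le_one support_QQ vol_QQ)
open Pool.Agent.H27.Fib (Few ind vr Ls LineFew E_add few_empty)

/-- One of the `N²` squares. -/
def Qs (N : ℕ) (ij : ℕ × ℕ) : Set (ℝ × ℝ) :=
  {x | ((ij.1 : ℝ) / N ≤ x.1 + 1 / 2 ∧ x.1 + 1 / 2 < (ij.1 + 1) / N) ∧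
    ((ij.2 : ℝ) / N ≤ x.2 + 1 / 2 ∧ x.2 + 1 / 2 < (ij.2 + 1) / N)}

theorem measurableSet_Qs (N : ℕ) (ij : ℕ × ℕ) : MeasurableSet (Qs N ij) := by
  have h1 : Measurable fun x : ℝ × ℝ => x.1 + 1 / 2 := by fun_prop
  have h2 : Measurable fun x : ℝ × ℝ => x.2 + 1 / 2 := by fun_prop
  exact ((measurableSet_le measurable_const h1).inter (measurableSet_lt h1 measurable_const)).inter
    ((measurableSet_le measurable_const h2).inter (measurableSet_lt h2 measurable_const))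

theorem Qs_center {N : ℕ} (hN : 1 ≤ N) {ij : ℕ × ℕ} {x : ℝ × ℝ} (hx : x ∈ Qs N ij) :
    |x.1 - (-(1 / 2) + (ij.1 + 1 / 2) / N)| ≤ 1 / (2 * N) ∧
      |x.2 - (-(1 / 2) + (ij.2 + 1 / 2) / N)| ≤ 1 / (2 * N) := by
  have hN0 : (0 : ℝ) < N := by exact_mod_cast hN
  obtain ⟨⟨h1, h2⟩, h3, h4⟩ := hx
  have key : ∀ (i : ℕ) (y : ℝ), (i : ℝ) / N ≤ y + 1 / 2 → y + 1 / 2 < (i + 1) / N →
      |y - (-(1 / 2) + (i + 1 / 2) / N)| ≤ 1 / (2 * N) := by
    intro i y k1 k2
    have e1 : ((i : ℝ) + 1 / 2) / N = i / N + 1 / (2 * N) := by field_simp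
    have e2 : ((i : ℝ) + 1) / N = i / N + 2 * (1 / (2 * N)) := by field_simp
    rw [e2] at k2
    rw [e1, abs_le]
    constructor <;> linarith
  exact ⟨key _ _ h1 h2, key _ _ h3 h4⟩

/-- A point of the closed little square lies in the unit disc (and in the closed square `QQ`). -/
theorem square_sub {N : ℕ} (hN : 1 ≤ N) {i : ℕ} (hi : i < N) {y : ℝ}
    (hy : |y - (-(1 / 2) + (i + 1 / 2) / N)| ≤ 1 / (2 * N)) : |y| ≤ 1 / 2 := by
  have hN0 : (0 : ℝ) < N := by exact_mod_cast hN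
  have hi' : (i : ℝ) + 1 ≤ N := by exact_mod_cast hi
  have e1 : ((i : ℝ) + 1 / 2) / N = i / N + 1 / (2 * N) := by field_simp
  have e2 : ((i : ℝ) + 1) / N = i / N + 2 * (1 / (2 * N)) := by field_simp
  have e3 : ((i : ℝ) + 1) / N ≤ 1 := by rw [div_le_one hN0]; exact hi'
  have e4 : 0 ≤ (i : ℝ) / N := by positivity
  rw [e1, abs_le] at hy
  rw [abs_le]
  constructor <;> linarith [hy.1, hy.2]

theorem exists_idx {N : ℕ} (hN : 1 ≤ N) {y : ℝ} (h1 : -(1 / 2) ≤ y) (h2 : y < 1 / 2) :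
    ∃ i < N, (i : ℝ) / N ≤ y + 1 / 2 ∧ y + 1 / 2 < (i + 1) / N := by
  have hN0 : (0 : ℝ) < N := by exact_mod_cast hN
  have h0 : 0 ≤ (y + 1 / 2) * N := mul_nonneg (by linarith) hN0.le
  refine ⟨⌊(y + 1 / 2) * N⌋₊, ?_, ?_, ?_⟩
  · rw [Nat.floor_lt h0]
    nlinarith
  · rw [div_le_iff₀ hN0]
    exact Nat.floor_le h0
  · rw [lt_div_iff₀ hN0]
    exact Nat.lt_floor_add_one _

theorem idx_unique {N : ℕ} (hN : 1 ≤ N) {y : ℝ} {i j : ℕ} (h1 : (i : ℝ) / N ≤ y)
    (h2 : y < (i + 1) / N) (h3 : (j : ℝ) / N ≤ y) (h4 : y < (j + 1) / N) : i = j := by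
  have hN0 : (0 : ℝ) < N := by exact_mod_cast hN
  rw [div_le_iff₀ hN0] at h1 h3
  rw [lt_div_iff₀ hN0] at h2 h4
  have h5 : (i : ℝ) < j + 1 := by linarith
  have h6 : (j : ℝ) < i + 1 := by linarith
  have h7 : i < j + 1 := by exact_mod_cast h5
  have h8 : j < i + 1 := by exact_mod_cast h6
  omega

/-- Restriction to a little square does not increase the number of intervals. -/
theorem axFew_Qs {m : ℕ} {A : Set (ℝ × ℝ)} (hA : AxFew m A) (N : ℕ) (ij : ℕ × ℕ) :
    AxFew m (A ∩ Qs N ij) := by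
  have ho : ∀ i : ℕ, OrdConnected {x : ℝ | (i : ℝ) / N ≤ x + 1 / 2 ∧ x + 1 / 2 < (i + 1) / N} := by
    intro i
    refine ⟨fun a ha b hb c hc => ⟨?_, ?_⟩⟩
    · linarith [ha.1, hc.1]
    · linarith [hb.2, hc.2]
  constructor
  · filter_upwards [hA.1] with y hy
    by_cases h : (ij.2 : ℝ) / N ≤ y + 1 / 2 ∧ y + 1 / 2 < (ij.2 + 1) / N
    · have h1 := hy.inter_ordConnected (ho ij.1)
      convert h1 using 1
      ext x
      constructor
      · rintro ⟨h2, h3, h4⟩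
        exact ⟨h2, h3⟩
      · rintro ⟨h2, h3⟩
        exact ⟨h2, h3, h⟩
    · convert few_empty m using 1
      ext x
      simp only [mem_empty_iff_false, iff_false]
      rintro ⟨_, _, h4⟩
      exact h h4
  · filter_upwards [hA.2] with x hx
    by_cases h : (ij.1 : ℝ) / N ≤ x + 1 / 2 ∧ x + 1 / 2 < (ij.1 + 1) / N
    · have h1 := hx.inter_ordConnected (ho ij.2)
      convert h1 using 1
      ext y
      constructor
      · rintro ⟨h2, h3, h4⟩
        exact ⟨h2, h4⟩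
      · rintro ⟨h2, h3⟩
        exact ⟨h2, h, h3⟩
    · convert few_empty m using 1
      ext y
      simp only [mem_empty_iff_false, iff_false]
      rintro ⟨_, h4, _⟩
      exact h h4

theorem Ls_indicator {Q : Set (ℝ × ℝ)} {f : ℝ × ℝ → ℂ} {g : ℂ → ℝ} (hg : g 0 = 0) {l : ℝ}
    (hl : 0 < l) : Ls (fun y => g (Q.indicator f y)) l = Ls (fun y => g (f y)) l ∩ Q := by
  ext x
  by_cases hx : x ∈ Q
  · simp only [Ls, mem_ofPred_eq, indicator_of_mem hx, mem_inter_iff, hx, and_true]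
  · simp only [Ls, mem_ofPred_eq, indicator_of_notMem hx, mem_inter_iff, hx, and_false, hg,
      iff_false]
    linarith

theorem E_finset_sum {ι : Type*} (s : Finset ι) (f : ι → ℝ × ℝ → ℂ)
    (hf : ∀ i ∈ s, Integrable (f i)) (ξ : ℝ × ℝ × ℝ) :
    E (fun x => ∑ i ∈ s, f i x) ξ = ∑ i ∈ s, E (f i) ξ := by
  classical
  induction s using Finset.induction_on with
  | empty =>
    simp [E]
  | insert a s ha ih =>
    have h1 : Integrable (fun x => ∑ i ∈ s, f i x) :=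
      integrable_finsetSum _ fun i hi => hf i (Finset.mem_insert_of_mem hi)
    have e : (fun x => ∑ i ∈ insert a s, f i x) = fun x => f a x + ∑ i ∈ s, f i x := by
      funext x
      rw [Finset.sum_insert ha]
    rw [e, E_add (hf a (Finset.mem_insert_self a s)) h1, Finset.sum_insert ha,
      ih fun i hi => hf i (Finset.mem_insert_of_mem hi)]

/-- Smooth phases, lines parallel to the axes. -/
theorem smooth_axes (hRE : T_RE) (hTAY : T_TAY) {q p : ℝ} (hq : 3 < q) (hp : q / (q - 2) < p) :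
    ∃ C : ℝ≥0,
    ∀ (k m : ℕ) (ψ : ℝ × ℝ → ℝ) (M : ℝ) (f : ℝ × ℝ → ℂ), 1 ≤ k → 1 ≤ m →
      ContDiff ℝ (k + 1 : ℕ) ψ → 1 ≤ M →
      (∀ i j : ℕ, i + j = k + 1 → ∀ x : ℝ × ℝ, |x.1| ≤ 1 / 2 → |x.2| ≤ 1 / 2 →
        |(d1^[i] (d2^[j] ψ)) x| ≤ M) →
      Measurable f → (∀ x, x ∉ QQ → f x = 0) →
      (∀ l, 0 < l → AxFew m (Ls (fun y => (f y).re) l) ∧ AxFew m (Ls (fun y => -(f y).re) l) ∧
        AxFew m (Ls (fun y => (f y).im) l) ∧ AxFew m (Ls (fun y => -(f y).im) l)) →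
      eLpNorm (E fun x => ch ψ (fun _ => 0) x * f x) (ENNReal.ofReal q) volume ≤
        C * ENNReal.ofReal ((((k : ℝ) + 1) ^ 2 * m) ^ (1 / 3 : ℝ) * M ^ (2 / k : ℝ)) *
          eLpNorm f (ENNReal.ofReal p) volume := by
  obtain ⟨C, hC⟩ := chirp_axes hRE hq hp
  have hq0 : 0 < q := by linarith
  have hq2 : 0 < q - 2 := by linarith
  have hp1 : 1 < p := by
    refine lt_of_le_of_lt ?_ hp
    rw [le_div_iff₀ hq2]
    linarith
  have h1q : (1 : ℝ≥0∞) ≤ ENNReal.ofReal q := by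
    rw [← ENNReal.ofReal_one]
    exact ENNReal.ofReal_le_ofReal (by linarith)
  have h1p : (1 : ℝ≥0∞) ≤ ENNReal.ofReal p := by
    rw [← ENNReal.ofReal_one]
    exact ENNReal.ofReal_le_ofReal (by linarith)
  refine ⟨C * 8 + 1, fun k m ψ M f hk hm hψ hM hder hf hf0 hfew => ?_⟩
  have hk0 : (0 : ℝ) < k := by exact_mod_cast hk
  set n : ℕ := max k 2 with hn
  have hn2 : 2 ≤ n := le_max_right _ _
  have hnk : (n : ℝ) ≤ 2 * ((k : ℝ) + 1) := by
    rw [hn, Nat.cast_max]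
    refine max_le (by linarith) ?_
    push_cast
    linarith
  have hm0 : (0 : ℝ) < m := by exact_mod_cast hm
  have hM0 : 0 < M := by linarith
  rcases eq_or_ne (eLpNorm f (ENNReal.ofReal p) volume) ⊤ with htop | htop
  · rw [htop, ENNReal.mul_top]
    · exact le_top
    · refine mul_ne_zero ?_ ?_
      · simp
      · simp only [ne_eq, ENNReal.ofReal_eq_zero, not_le]
        positivity
  have hL1 : eLpNorm f 1 volume ≤ eLpNorm f (ENNReal.ofReal p) volume :=
    eLpNorm_le_one (support_QQ hf0) h1p hf.aestronglyMeasurable vol_QQ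
  have hint : Integrable f := by
    rw [← memLp_one_iff_integrable]
    exact ⟨hf.aestronglyMeasurable, lt_of_le_of_lt hL1 (lt_top_iff_ne_top.2 htop)⟩
  -- the number of squares
  set N : ℕ := ⌈M ^ (1 / k : ℝ)⌉₊ with hN
  have hMk : 1 ≤ M ^ (1 / k : ℝ) := Real.one_le_rpow hM (by positivity)
  have hNge : M ^ (1 / k : ℝ) ≤ N := Nat.le_ceil _
  have hN1 : 1 ≤ N := by
    have : (1 : ℝ) ≤ N := hMk.trans hNge
    exact_mod_cast this
  have hN0 : (0 : ℝ) < N := by exact_mod_cast hN1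
  have hNle : (N : ℝ) ≤ 2 * M ^ (1 / k : ℝ) := by
    have := (Nat.ceil_lt_add_one (by linarith : 0 ≤ M ^ (1 / k : ℝ))).le
    linarith
  have hMN : M ≤ (N : ℝ) ^ k := by
    calc M = (M ^ (1 / k : ℝ)) ^ k := by
          rw [← Real.rpow_natCast, ← Real.rpow_mul hM0.le, one_div_mul_cancel hk0.ne',
            Real.rpow_one]
      _ ≤ _ := by gcongr
  set I : Finset (ℕ × ℕ) := Finset.range N ×ˢ Finset.range N with hI
  -- Taylor polynomials
  have htay : ∀ ij ∈ I, ∃ P : ℝ × ℝ → ℝ, IsPol k P ∧ ∀ x ∈ Qs N ij,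
      |d1 (fun y => ψ y - P y) x| ≤ 1 ∧ |d2 (fun y => ψ y - P y) x| ≤ 1 := by
    intro ij hij
    rw [hI, Finset.mem_product, Finset.mem_range, Finset.mem_range] at hij
    obtain ⟨P, hP, hP2⟩ := hTAY k ψ (-(1 / 2) + (ij.1 + 1 / 2) / N) (-(1 / 2) + (ij.2 + 1 / 2) / N)
      (1 / (2 * N)) M hψ (by positivity) hM0.le (fun i j hij' x h1 h2 =>
        hder i j hij' x (square_sub hN1 hij.1 h1) (square_sub hN1 hij.2 h2))
    have hle : (2 * (1 / (2 * (N : ℝ)))) ^ k * M ≤ 1 := by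
      have e : 2 * (1 / (2 * (N : ℝ))) = 1 / N := by field_simp
      rw [e, one_div, inv_pow]
      rw [inv_mul_le_iff₀ (by positivity), mul_one]
      exact hMN
    refine ⟨P, hP, fun x hx => ?_⟩
    obtain ⟨h1, h2⟩ := Qs_center hN1 hx
    obtain ⟨h3, h4⟩ := hP2 x h1 h2
    exact ⟨h3.trans hle, h4.trans hle⟩
  set h : ℝ × ℝ → ℂ := ch ψ (fun _ => 0) with hh'
  have hhm : Measurable h := measurable_ch hψ.continuous.measurable measurable_const
  have hh1 : ∀ x, ‖h x‖ = 1 := norm_ch _ _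
  -- each piece
  have hpiece : ∀ ij ∈ I, eLpNorm (E fun x => h x * (Qs N ij).indicator f x)
      (ENNReal.ofReal q) volume ≤
      C * ENNReal.ofReal (((n : ℝ) ^ 2 * m * (1 + 1)) ^ (1 / 3 : ℝ)) *
        eLpNorm f (ENNReal.ofReal p) volume := by
    intro ij hij
    obtain ⟨P, hP, hP2⟩ := htay ij hij
    have hθ : ContDiff ℝ 1 (fun y => ψ y - P y) :=
      (hψ.of_le (by exact_mod_cast Nat.le_add_left 1 k)).sub hP.contDiff
    have hfun : (fun x => h x * (Qs N ij).indicator f x) =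
        fun x => ch P (fun y => ψ y - P y) x * (Qs N ij).indicator f x := by
      funext x
      rw [hh']
      unfold ch
      congr 4
      ring
    rw [hfun]
    refine (hC n m P (fun y => ψ y - P y) 1 ((Qs N ij).indicator f) hn2 hm
      (hP.mono (le_max_left _ _)) hθ zero_le_one (hf.indicator (measurableSet_Qs N ij))
      (fun x hx => ?_) (fun l hl => ?_) (fun x hx => ?_)).trans ?_
    · by_cases hxq : x ∈ Qs N ij
      · rw [indicator_of_mem hxq, hf0 x hx]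
      · rw [indicator_of_notMem hxq]
    · obtain ⟨h1, h2, h3, h4⟩ := hfew l hl
      refine ⟨?_, ?_, ?_, ?_⟩
      · rw [Ls_indicator (g := fun z => z.re) Complex.zero_re hl]
        exact axFew_Qs h1 N ij
      · rw [Ls_indicator (g := fun z => -z.re) (by simp) hl]
        exact axFew_Qs h2 N ij
      · rw [Ls_indicator (g := fun z => z.im) Complex.zero_im hl]
        exact axFew_Qs h3 N ij
      · rw [Ls_indicator (g := fun z => -z.im) (by simp) hl]
        exact axFew_Qs h4 N ij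
    · refine hP2 x ?_
      by_contra hn'
      exact hx (indicator_of_notMem hn' f)
    · gcongr
      exact eLpNorm_indicator_le f
  -- integrability of the pieces
  have hpi : ∀ ij ∈ I, Integrable (fun x => h x * (Qs N ij).indicator f x) := fun ij _ =>
    (hint.indicator (measurableSet_Qs N ij)).bdd_mul (c := 1) hhm.aestronglyMeasurable
      (Eventually.of_forall fun x => (hh1 x).le)
  -- the sum of the pieces
  have hae : ∀ᵐ x : ℝ × ℝ, h x * f x = ∑ ij ∈ I, h x * (Qs N ij).indicator f x := by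
    have hz1 : ∀ᵐ x : ℝ × ℝ, x.1 ≠ 1 / 2 := by
      rw [ae_iff]
      have e : {x : ℝ × ℝ | ¬ x.1 ≠ 1 / 2} = {(1 / 2 : ℝ)} ×ˢ univ := by
        ext x
        simp
      rw [e, Measure.volume_eq_prod, Measure.prod_prod]
      simp
    have hz2 : ∀ᵐ x : ℝ × ℝ, x.2 ≠ 1 / 2 := by
      rw [ae_iff]
      have e : {x : ℝ × ℝ | ¬ x.2 ≠ 1 / 2} = univ ×ˢ {(1 / 2 : ℝ)} := by
        ext x
        simp
      rw [e, Measure.volume_eq_prod, Measure.prod_prod]
      simp
    filter_upwards [hz1, hz2] with x h1 h2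
    by_cases hx : x ∈ QQ
    · have hx1 : -(1 / 2) ≤ x.1 ∧ x.1 ≤ 1 / 2 := hx.1
      have hx2 : -(1 / 2) ≤ x.2 ∧ x.2 ≤ 1 / 2 := hx.2
      obtain ⟨i, hi, hi1, hi2⟩ := exists_idx hN1 hx1.1 (lt_of_le_of_ne hx1.2 h1)
      obtain ⟨j, hj, hj1, hj2⟩ := exists_idx hN1 hx2.1 (lt_of_le_of_ne hx2.2 h2)
      have hmem : (i, j) ∈ I := by
        rw [hI, Finset.mem_product, Finset.mem_range, Finset.mem_range]
        exact ⟨hi, hj⟩
      rw [Finset.sum_eq_single_of_mem (i, j) hmem]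
      · rw [indicator_of_mem (show x ∈ Qs N (i, j) from ⟨⟨hi1, hi2⟩, hj1, hj2⟩)]
      · rintro ⟨i', j'⟩ _ hne
        rw [indicator_of_notMem, mul_zero]
        rintro ⟨⟨g1, g2⟩, g3, g4⟩
        apply hne
        exact Prod.ext (idx_unique hN1 g1 g2 hi1 hi2) (idx_unique hN1 g3 g4 hj1 hj2)
    · rw [hf0 x hx, mul_zero]
      symm
      refine Finset.sum_eq_zero fun ij _ => ?_
      by_cases hxq : x ∈ Qs N ij
      · rw [indicator_of_mem hxq, hf0 x hx, mul_zero]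
      · rw [indicator_of_notMem hxq, mul_zero]
  have hE : (E fun x => h x * f x) = fun ξ => ∑ ij ∈ I, E (fun x => h x * (Qs N ij).indicator f x) ξ := by
    funext ξ
    rw [← E_finset_sum I _ hpi ξ]
    unfold E
    refine integral_congr_ae ?_
    filter_upwards [hae] with x hx
    rw [hx]
  have hEm : ∀ ij ∈ I, AEStronglyMeasurable (E fun x => h x * (Qs N ij).indicator f x) volume :=
    fun ij _ => (measurable_E (hhm.mul (hf.indicator (measurableSet_Qs N ij)))).aestronglyMeasurable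
  have hsum : eLpNorm (E fun x => h x * f x) (ENNReal.ofReal q) volume ≤
      ∑ ij ∈ I, eLpNorm (E fun x => h x * (Qs N ij).indicator f x) (ENNReal.ofReal q) volume := by
    rw [hE]
    have h3 := eLpNorm_sum_le (f := fun ij => E fun x => h x * (Qs N ij).indicator f x) hEm h1q
    have h4 : (fun ξ => ∑ ij ∈ I, E (fun x => h x * (Qs N ij).indicator f x) ξ) =
        ∑ ij ∈ I, E (fun x => h x * (Qs N ij).indicator f x) := by
      funext ξ
      rw [Finset.sum_apply]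
    rw [h4]
    exact h3
  refine hsum.trans ?_
  calc ∑ ij ∈ I, eLpNorm (E fun x => h x * (Qs N ij).indicator f x) (ENNReal.ofReal q) volume
      ≤ ∑ _ij ∈ I, C * ENNReal.ofReal (((n : ℝ) ^ 2 * m * (1 + 1)) ^ (1 / 3 : ℝ)) *
        eLpNorm f (ENNReal.ofReal p) volume := Finset.sum_le_sum hpiece
    _ = ENNReal.ofReal ((N : ℝ) ^ 2) * (C * ENNReal.ofReal (((n : ℝ) ^ 2 * m * (1 + 1)) ^ (1 / 3 : ℝ)) *
        eLpNorm f (ENNReal.ofReal p) volume) := by
        rw [Finset.sum_const, nsmul_eq_mul]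
        congr 1
        rw [hI, Finset.card_product, Finset.card_range, ← sq, ENNReal.ofReal_pow hN0.le,
          ENNReal.ofReal_natCast]
        push_cast
        rfl
    _ = C * ENNReal.ofReal ((N : ℝ) ^ 2 * ((n : ℝ) ^ 2 * m * (1 + 1)) ^ (1 / 3 : ℝ)) *
        eLpNorm f (ENNReal.ofReal p) volume := by
        rw [ENNReal.ofReal_mul (by positivity)]
        ring
    _ ≤ C * ENNReal.ofReal (8 * ((((k : ℝ) + 1) ^ 2 * m) ^ (1 / 3 : ℝ) * M ^ (2 / k : ℝ))) *
        eLpNorm f (ENNReal.ofReal p) volume := by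
        refine mul_le_mul' (mul_le_mul' le_rfl (ENNReal.ofReal_le_ofReal ?_)) le_rfl
        have h1 : (N : ℝ) ^ 2 ≤ 4 * M ^ (2 / k : ℝ) := by
          calc (N : ℝ) ^ 2 ≤ (2 * M ^ (1 / k : ℝ)) ^ 2 := by gcongr
            _ = 4 * (M ^ (1 / k : ℝ)) ^ 2 := by ring
            _ = _ := by
                rw [← Real.rpow_natCast (M ^ (1 / k : ℝ)), ← Real.rpow_mul hM0.le]
                congr 2
                push_cast
                ring
        have h2 : ((n : ℝ) ^ 2 * m * (1 + 1)) ^ (1 / 3 : ℝ) ≤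
            2 * (((k : ℝ) + 1) ^ 2 * m) ^ (1 / 3 : ℝ) := by
          have h3 : (n : ℝ) ^ 2 * m * (1 + 1) ≤ 2 ^ 3 * (((k : ℝ) + 1) ^ 2 * m) := by
            have h4 : (n : ℝ) ^ 2 ≤ (2 * ((k : ℝ) + 1)) ^ 2 := by gcongr
            calc (n : ℝ) ^ 2 * m * (1 + 1) ≤ (2 * ((k : ℝ) + 1)) ^ 2 * m * (1 + 1) := by gcongr
              _ = _ := by ring
          calc ((n : ℝ) ^ 2 * m * (1 + 1)) ^ (1 / 3 : ℝ)
              ≤ (2 ^ 3 * (((k : ℝ) + 1) ^ 2 * m)) ^ (1 / 3 : ℝ) := by gcongr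
            _ = (2 ^ 3 : ℝ) ^ (1 / 3 : ℝ) * (((k : ℝ) + 1) ^ 2 * m) ^ (1 / 3 : ℝ) :=
                Real.mul_rpow (by positivity) (by positivity)
            _ = _ := by
                congr 1
                rw [← Real.rpow_natCast, ← Real.rpow_mul (by norm_num)]
                norm_num
        calc (N : ℝ) ^ 2 * ((n : ℝ) ^ 2 * m * (1 + 1)) ^ (1 / 3 : ℝ)
            ≤ (4 * M ^ (2 / k : ℝ)) * (2 * (((k : ℝ) + 1) ^ 2 * m) ^ (1 / 3 : ℝ)) := by
              gcongr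
          _ = _ := by ring
    _ = ((C * 8 : ℝ≥0) : ℝ≥0∞) *
        ENNReal.ofReal ((((k : ℝ) + 1) ^ 2 * m) ^ (1 / 3 : ℝ) * M ^ (2 / k : ℝ)) *
        eLpNorm f (ENNReal.ofReal p) volume := by
        rw [ENNReal.ofReal_mul (by norm_num)]
        push_cast
        rw [ENNReal.ofReal_ofNat]
        ring
    _ ≤ _ := by
        gcongr
        exact le_self_add

end Pool.Agent.Chirp
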