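import Mathlib
import Pool.Agent.Chirp.Final2

/-!
# Polynomial chirps: smooth phases in an arbitrary frame
-/

namespace Pool.Agent.Chirp

open MeasureTheory Set Filter
open scoped ENNReal NNReal
open Pool.Agent.Restr (u E QQ rot rot_apply mp_rot continuous_rot eLpNorm_E_rot rot_supp)
open Pool.Agent.H27.Fib (Few ind vr Ls LineFew)

/-- The rotation as a continuous linear map. -/
noncomputable def rotL (e : ℝ × ℝ) : (ℝ × ℝ) →L[ℝ] (ℝ × ℝ) := LinearMap.toContinuousLinearMap (rot e)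

theorem norm_rotL_le {e : ℝ × ℝ} (he : e.1 ^ 2 + e.2 ^ 2 = 1) : ‖rotL e‖ ≤ 2 := by
  have ha : |e.1| ≤ 1 := by
    rw [← sq_le_one_iff_abs_le_one]
    nlinarith [sq_nonneg e.2]
  have hb : |e.2| ≤ 1 := by
    rw [← sq_le_one_iff_abs_le_one]
    nlinarith [sq_nonneg e.1]
  refine ContinuousLinearMap.opNorm_le_bound _ (by norm_num) fun v => ?_
  change ‖rot e v‖ ≤ 2 * ‖v‖
  have h1 : |v.1| ≤ ‖v‖ := norm_fst_le v
  have h2 : |v.2| ≤ ‖v‖ := norm_snd_le v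
  have h3 : ∀ a b : ℝ, |a| ≤ 1 → |b| ≤ 1 → |a * v.1 + b * v.2| ≤ 2 * ‖v‖ := by
    intro a b ha hb
    calc |a * v.1 + b * v.2| ≤ |a * v.1| + |b * v.2| := abs_add_le _ _
      _ = |a| * |v.1| + |b| * |v.2| := by rw [abs_mul, abs_mul]
      _ ≤ 1 * ‖v‖ + 1 * ‖v‖ := by gcongr
      _ = _ := by ring
  rw [rot_apply, Prod.norm_def]
  refine max_le ?_ ?_
  · exact h3 e.2 e.1 hb ha
  · exact h3 (-e.1) e.2 (by rwa [abs_neg]) hb

theorem rot_norm {e : ℝ × ℝ} (he : e.1 ^ 2 + e.2 ^ 2 = 1) (x : ℝ × ℝ) :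
    (rot e x).1 ^ 2 + (rot e x).2 ^ 2 = x.1 ^ 2 + x.2 ^ 2 := by
  rw [rot_apply]
  calc (e.2 * x.1 + e.1 * x.2) ^ 2 + (-e.1 * x.1 + e.2 * x.2) ^ 2
      = (e.1 ^ 2 + e.2 ^ 2) * (x.1 ^ 2 + x.2 ^ 2) := by ring
    _ = _ := by rw [he, one_mul]

/-- Smooth phases in an arbitrary orthonormal frame. -/
theorem smooth_frame (hRE : T_RE) (hTAY : T_TAY) (hITER : T_ITER) {q p : ℝ} (hq : 3 < q)
    (hp : q / (q - 2) < p) : ∃ C : ℝ≥0,
    ∀ (k m : ℕ) (ψ : ℝ × ℝ → ℝ) (M : ℝ) (f : ℝ × ℝ → ℂ) (e : ℝ × ℝ), 1 ≤ k → 1 ≤ m →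
      ContDiff ℝ (k + 1 : ℕ) ψ → 1 ≤ M →
      (∀ x : ℝ × ℝ, x.1 ^ 2 + x.2 ^ 2 ≤ 1 → ‖iteratedFDeriv ℝ (k + 1) ψ x‖ ≤ M) →
      Measurable f → (∀ x : ℝ × ℝ, 1 / 4 < x.1 ^ 2 + x.2 ^ 2 → f x = 0) →
      e.1 ^ 2 + e.2 ^ 2 = 1 →
      (∀ᵐ s : ℝ, LineFew m f e s) → (∀ᵐ s : ℝ, LineFew m f (-e.2, e.1) s) →
      eLpNorm (E fun x => ch ψ (fun _ => 0) x * f x) (ENNReal.ofReal q) volume ≤
        C * ENNReal.ofReal ((((k : ℝ) + 1) ^ 2 * m) ^ (1 / 3 : ℝ) * M ^ (2 / k : ℝ)) *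
          eLpNorm f (ENNReal.ofReal p) volume := by
  have hq0 : 0 < q := by linarith
  obtain ⟨C, hC⟩ := smooth_axes hRE hTAY hq hp
  refine ⟨C * 16, fun k m ψ M f e hk hm hψ hM hder hf hs he hf1 hf2 => ?_⟩
  have hk0 : (0 : ℝ) < k := by exact_mod_cast hk
  have hM0 : 0 < M := by linarith
  have hcm : Measurable fun x => ch ψ (fun _ => 0) x * f x :=
    (measurable_ch hψ.continuous.measurable measurable_const).mul hf
  have hgm : Measurable fun x => f (rot e x) := hf.comp (continuous_rot e).measurable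
  have hNg : eLpNorm (fun x => f (rot e x)) (ENNReal.ofReal p) volume =
      eLpNorm f (ENNReal.ofReal p) volume :=
    eLpNorm_comp_measurePreserving hf.aestronglyMeasurable (mp_rot he)
  have hψr : ContDiff ℝ (k + 1 : ℕ) fun x => ψ (rot e x) :=
    hψ.comp (rotL e).contDiff
  have hM' : 1 ≤ 2 ^ (k + 1) * M := by
    have h1 : (1 : ℝ) ≤ 2 ^ (k + 1) := one_le_pow₀ (by norm_num)
    nlinarith
  rw [eLpNorm_E_rot he hcm hq0, ← hNg]
  have hch : (fun x => ch ψ (fun _ => 0) (rot e x) * f (rot e x)) = fun x =>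
      ch (fun y => ψ (rot e y)) (fun _ => 0) x * f (rot e x) := rfl
  rw [hch]
  have hbound : ∀ i j : ℕ, i + j = k + 1 → ∀ x : ℝ × ℝ, |x.1| ≤ 1 / 2 → |x.2| ≤ 1 / 2 →
      |(d1^[i] (d2^[j] fun y => ψ (rot e y))) x| ≤ 2 ^ (k + 1) * M := by
    intro i j hij x h1 h2
    refine (hITER (k + 1) _ i j hψr hij x).trans ?_
    have e1 : (fun y => ψ (rot e y)) = ψ ∘ (rotL e) := rfl
    rw [e1, ContinuousLinearMap.iteratedFDeriv_comp_right (rotL e) hψ x le_rfl]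
    refine (ContinuousMultilinearMap.norm_compContinuousLinearMap_le _ _).trans ?_
    rw [Finset.prod_const, Finset.card_univ, Fintype.card_fin, mul_comm]
    have h3 : (rot e x).1 ^ 2 + (rot e x).2 ^ 2 ≤ 1 := by
      rw [rot_norm he]
      have h4 : x.1 ^ 2 ≤ (1 / 2) ^ 2 := sq_le_sq' (by linarith [(abs_le.1 h1).1]) (abs_le.1 h1).2
      have h5 : x.2 ^ 2 ≤ (1 / 2) ^ 2 := sq_le_sq' (by linarith [(abs_le.1 h2).1]) (abs_le.1 h2).2
      linarith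
    have h6 := hder (rot e x) h3
    have h7 : ‖rotL e‖ ^ (k + 1) ≤ 2 ^ (k + 1) := by
      gcongr
      exact norm_rotL_le he
    exact mul_le_mul h7 h6 (norm_nonneg _) (by positivity)
  refine (hC k m _ (2 ^ (k + 1) * M) _ hk hm hψr hM' hbound hgm (fun x hx => rot_supp he hs x hx)
    (fun l hl => ⟨?_, ?_, ?_, ?_⟩)).trans ?_
  · exact axFew_rot (g := fun z => z.re) (hf1.mono fun s h => (h l hl).1)
      (hf2.mono fun s h => (h l hl).1)
  · exact axFew_rot (g := fun z => -z.re) (hf1.mono fun s h => (h l hl).2.1)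
      (hf2.mono fun s h => (h l hl).2.1)
  · exact axFew_rot (g := fun z => z.im) (hf1.mono fun s h => (h l hl).2.2.1)
      (hf2.mono fun s h => (h l hl).2.2.1)
  · exact axFew_rot (g := fun z => -z.im) (hf1.mono fun s h => (h l hl).2.2.2)
      (hf2.mono fun s h => (h l hl).2.2.2)
  · refine mul_le_mul' ?_ le_rfl
    have h1 : (2 ^ (k + 1) * M) ^ (2 / k : ℝ) ≤ 16 * M ^ (2 / k : ℝ) := by
      rw [Real.mul_rpow (by positivity) hM0.le]
      refine mul_le_mul_of_nonneg_right ?_ (by positivity)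
      rw [← Real.rpow_natCast 2 (k + 1), ← Real.rpow_mul (by norm_num)]
      have h2 : (16 : ℝ) = 2 ^ (4 : ℝ) := by norm_num
      rw [h2]
      refine Real.rpow_le_rpow_of_exponent_le (by norm_num) ?_
      push_cast
      rw [mul_div_assoc', div_le_iff₀ hk0]
      have : (1 : ℝ) ≤ k := by exact_mod_cast hk
      linarith
    calc (C : ℝ≥0∞) * ENNReal.ofReal
          ((((k : ℝ) + 1) ^ 2 * m) ^ (1 / 3 : ℝ) * (2 ^ (k + 1) * M) ^ (2 / k : ℝ))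
        ≤ C * ENNReal.ofReal
          (16 * ((((k : ℝ) + 1) ^ 2 * m) ^ (1 / 3 : ℝ) * M ^ (2 / k : ℝ))) := by
          refine mul_le_mul' le_rfl (ENNReal.ofReal_le_ofReal ?_)
          calc (((k : ℝ) + 1) ^ 2 * m) ^ (1 / 3 : ℝ) * (2 ^ (k + 1) * M) ^ (2 / k : ℝ)
              ≤ (((k : ℝ) + 1) ^ 2 * m) ^ (1 / 3 : ℝ) * (16 * M ^ (2 / k : ℝ)) := by gcongr
            _ = _ := by ring
      _ = _ := by
          rw [ENNReal.ofReal_mul (by norm_num)]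
          push_cast
          rw [ENNReal.ofReal_ofNat]
          ring

end Pool.Agent.Chirp
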