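import Mathlib
import Pool.Agent.Chirp.Targets

/-!
# Change of variables by `qF F` and a partial derivative
-/

set_option autoImplicit false

namespace Pool.Agent.Chirp

open MeasureTheory Set Filter
open scoped ENNReal NNReal Topology

namespace AQ_

/-- derivative of `qF` -/
theorem d1_qF {n : ℕ} {F : ℝ × ℝ → ℝ} (hF : IsPol n F) {x : ℝ × ℝ} (hx : n2 F x ≠ 0) :
    n2 F x * d1 (qF F) x = 2 * dt F x * d1 (dt F) x - qF F x * d1 (n2 F) x := by
  have h1 := hasDerivAt_d1 (hF.dt.differentiableAt x)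
  have h2 := hasDerivAt_d1 (hF.n2.differentiableAt x)
  have h3 := (h1.pow 2).div h2 hx
  have h4 : d1 (qF F) x = _ := h3.deriv
  rw [h4]
  unfold qF
  field_simp
  norm_num
  ring

theorem d2_qF {n : ℕ} {F : ℝ × ℝ → ℝ} (hF : IsPol n F) {x : ℝ × ℝ} (hx : n2 F x ≠ 0) :
    n2 F x * d2 (qF F) x = 2 * dt F x * d2 (dt F) x - qF F x * d2 (n2 F) x := by
  have h1 := hasDerivAt_d2 (hF.dt.differentiableAt x)
  have h2 := hasDerivAt_d2 (hF.n2.differentiableAt x)
  have h3 := (h1.pow 2).div h2 hx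
  have h4 : d2 (qF F) x = _ := h3.deriv
  rw [h4]
  unfold qF
  field_simp
  norm_num
  ring

theorem core (hA : T_AREA2) (hB : T_BEZ) {n : ℕ} {F v : ℝ × ℝ → ℝ} (hF : IsPol n F)
    (hv : IsPol n v) (g : ℝ × ℝ → ℝ≥0∞) (hg : Measurable g) :
    ∫⁻ x in {x | n2 F x ≠ 0}, ENNReal.ofReal |d1 (qF F) x * d2 v x - d2 (qF F) x * d1 v x| *
        g (qF F x, v x) ≤ (4 * n * n : ℕ) * ∫⁻ y, g y := by
  -- the Jacobian times `n2` is a polynomial divided by `n2`
  set G : ℝ × ℝ → ℝ := fun x =>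
    (2 * dt F x * d1 (dt F) x * n2 F x - dt F x ^ 2 * d1 (n2 F) x) * d2 v x
    - (2 * dt F x * d2 (dt F) x * n2 F x - dt F x ^ 2 * d2 (n2 F) x) * d1 v x with hG
  have hGc : Continuous G := by
    have c1 := hF.dt.continuous
    have c2 := hF.n2.continuous
    have c3 := hF.dt.d1.continuous
    have c4 := hF.dt.d2.continuous
    have c5 := hF.n2.d1.continuous
    have c6 := hF.n2.d2.continuous
    have c7 := hv.d1.continuous
    have c8 := hv.d2.continuous
    fun_prop
  have hGJ : ∀ x, n2 F x ≠ 0 → n2 F x ^ 2 * (d1 (qF F) x * d2 v x - d2 (qF F) x * d1 v x)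
      = G x := by
    intro x hx
    have e1 := d1_qF hF hx
    have e2 := d2_qF hF hx
    have e3 : n2 F x * qF F x = dt F x ^ 2 := by
      unfold qF
      field_simp
    have e4 : n2 F x ^ 2 * d1 (qF F) x = 2 * dt F x * d1 (dt F) x * n2 F x
        - dt F x ^ 2 * d1 (n2 F) x := by
      calc n2 F x ^ 2 * d1 (qF F) x = n2 F x * (n2 F x * d1 (qF F) x) := by ring
        _ = 2 * dt F x * d1 (dt F) x * n2 F x - (n2 F x * qF F x) * d1 (n2 F) x := by
            rw [e1]; ring
        _ = _ := by rw [e3]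
    have e5 : n2 F x ^ 2 * d2 (qF F) x = 2 * dt F x * d2 (dt F) x * n2 F x
        - dt F x ^ 2 * d2 (n2 F) x := by
      calc n2 F x ^ 2 * d2 (qF F) x = n2 F x * (n2 F x * d2 (qF F) x) := by ring
        _ = 2 * dt F x * d2 (dt F) x * n2 F x - (n2 F x * qF F x) * d2 (n2 F) x := by
            rw [e2]; ring
        _ = _ := by rw [e3]
    rw [hG]
    beta_reduce
    rw [← e4, ← e5]
    ring
  set S : Set (ℝ × ℝ) := {x | n2 F x ≠ 0 ∧ G x ≠ 0} with hS
  have hSm : MeasurableSet S :=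
    (((isOpen_ne).preimage hF.n2.continuous).inter ((isOpen_ne).preimage hGc)).measurableSet
  have hN : MeasurableSet {x | n2 F x ≠ 0} :=
    ((isOpen_ne).preimage hF.n2.continuous).measurableSet
  have hJS : ∀ x, x ∈ S ↔ n2 F x ≠ 0 ∧ d1 (qF F) x * d2 v x - d2 (qF F) x * d1 v x ≠ 0 := by
    intro x
    constructor
    · rintro ⟨h1, h2⟩
      refine ⟨h1, fun h3 => h2 ?_⟩
      rw [← hGJ x h1, h3, mul_zero]
    · rintro ⟨h1, h2⟩
      refine ⟨h1, ?_⟩
      rw [← hGJ x h1]
      exact mul_ne_zero (pow_ne_zero 2 h1) h2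
  have key := hA (qF F) v S (4 * n * n) g hSm
    (fun x hx => ⟨(contDiffAt_qF (k := 1) hF hx.1).differentiableAt (by simp),
      hv.differentiableAt x⟩)
    (fun x hx => ((hJS x).1 hx).2) (fun a b => ?_) hg
  · refine le_trans ?_ key
    rw [← lintegral_indicator hN, ← lintegral_indicator hSm]
    refine lintegral_mono fun x => ?_
    by_cases h1 : n2 F x ≠ 0
    · by_cases h2 : x ∈ S
      · rw [indicator_of_mem (show x ∈ {x | n2 F x ≠ 0} from h1), indicator_of_mem h2]
      · rw [indicator_of_mem (show x ∈ {x | n2 F x ≠ 0} from h1), indicator_of_notMem h2]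
        have h3 : d1 (qF F) x * d2 v x - d2 (qF F) x * d1 v x = 0 := by
          by_contra hne
          exact h2 ((hJS x).2 ⟨h1, hne⟩)
        rw [h3]
        simp
    · rw [indicator_of_notMem (show x ∉ {x | n2 F x ≠ 0} from h1)]
      exact bot_le
  · -- the fibres
    have hR : IsPol (4 * n) (fun x => dt F x ^ 2 - a * n2 F x) := by
      have h1 := (hF.dt.mul hF.dt).mono (show 2 * n + 2 * n ≤ 4 * n by omega)
      have h2 := (hF.n2.smul a).mono (show 2 * n ≤ 4 * n by omega)
      exact (h1.sub h2).congr fun x => by ring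
    have hW : IsPol n (fun x => v x - b) := hv.sub (isPol_const b n)
    refine le_trans (encard_le_encard ?_) (hB (4 * n) n _ _ hR hW)
    rintro x ⟨hxS, hxa, hxb⟩
    obtain ⟨hx1, hx2⟩ := (hJS x).1 hxS
    have e0 : dt F x ^ 2 - a * n2 F x = 0 := by
      rw [← hxa]
      unfold qF
      field_simp
      ring
    have hRd1 : d1 (fun x => dt F x ^ 2 - a * n2 F x) x = n2 F x * d1 (qF F) x := by
      rw [d1_qF hF hx1, hxa]
      have h1 := hasDerivAt_d1 (hF.dt.differentiableAt x)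
      have h2 := hasDerivAt_d1 (hF.n2.differentiableAt x)
      have h3 := ((h1.pow 2).sub (h2.const_mul a)).deriv
      refine Eq.trans h3 ?_
      norm_num
    have hRd2 : d2 (fun x => dt F x ^ 2 - a * n2 F x) x = n2 F x * d2 (qF F) x := by
      rw [d2_qF hF hx1, hxa]
      have h1 := hasDerivAt_d2 (hF.dt.differentiableAt x)
      have h2 := hasDerivAt_d2 (hF.n2.differentiableAt x)
      have h3 := ((h1.pow 2).sub (h2.const_mul a)).deriv
      refine Eq.trans h3 ?_
      norm_num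
    have hWd1 : d1 (fun x => v x - b) x = d1 v x :=
      ((hasDerivAt_d1 (hv.differentiableAt x)).sub_const b).deriv
    have hWd2 : d2 (fun x => v x - b) x = d2 v x :=
      ((hasDerivAt_d2 (hv.differentiableAt x)).sub_const b).deriv
    refine ⟨e0, by show v x - b = 0; rw [hxb, sub_self], ?_⟩
    rw [hRd1, hRd2, hWd1, hWd2]
    have e1 : n2 F x * d1 (qF F) x * d2 v x - n2 F x * d2 (qF F) x * d1 v x
        = n2 F x * (d1 (qF F) x * d2 v x - d2 (qF F) x * d1 v x) := by ring
    rw [e1]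
    exact mul_ne_zero hx1 hx2

end AQ_

theorem t_aq (h1 : T_AREA2) (h2 : T_BEZ) : T_AQ := by
  intro n F g hF hg
  constructor
  · have h := AQ_.core h1 h2 hF hF.d1 g hg
    rw [hF.bb'] at h
    exact h
  · exact AQ_.core h1 h2 hF hF.d2 g hg

end Pool.Agent.Chirp
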