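import Mathlib
import Pool.Agent.Chirp.Targets

/-!
# Polynomial chirps: the area formula with multiplicity
-/

namespace Pool.Agent.Chirp

open MeasureTheory Set Filter
open scoped ENNReal NNReal

namespace AREA0_

theorem exists_delta {V : Type*} [NormedAddCommGroup V] [NormedSpace ℝ V] [FiniteDimensional ℝ V]
    (A : V →L[ℝ] V) :
    ∃ δ : ℝ≥0, δ ≠ 0 ∧ (A.det ≠ 0 → ∀ (f : V → V) (s : Set V),
      ApproximatesLinearOn f A s δ → InjOn f s) := by
  by_cases hA : A.det = 0
  · exact ⟨1, one_ne_zero, fun h => absurd hA h⟩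
  · let B := A.toContinuousLinearEquivOfDetNeZero hA
    have hB : (B : V →L[ℝ] V) = A := A.coe_toContinuousLinearEquivOfDetNeZero hA
    rcases B.subsingleton_or_nnnorm_symm_pos with h1 | h1
    · refine ⟨1, one_ne_zero, fun _ f s hf => ?_⟩
      exact fun x _ y _ _ => Subsingleton.elim x y
    · refine ⟨‖(B.symm : V →L[ℝ] V)‖₊⁻¹ / 2, ?_, fun _ f s hf => ?_⟩
      · exact (div_pos (inv_pos.mpr h1) two_pos).ne'
      · rw [← hB] at hf
        exact hf.injOn (Or.inr (half_lt_self (inv_pos.mpr h1)))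

theorem area_gen {V : Type*} [NormedAddCommGroup V] [NormedSpace ℝ V] [FiniteDimensional ℝ V]
    [MeasurableSpace V] [BorelSpace V] (μ : Measure V) [μ.IsAddHaarMeasure]
    (F : V → V) (F' : V → V →L[ℝ] V) (S : Set V) (N : ℕ) (g : V → ℝ≥0∞) (hS : MeasurableSet S)
    (hF : ∀ x ∈ S, HasFDerivAt F (F' x) x) (hdet : ∀ x ∈ S, (F' x).det ≠ 0)
    (hN : ∀ y, {x | x ∈ S ∧ F x = y}.encard ≤ N) (hg : Measurable g) :
    ∫⁻ x in S, ENNReal.ofReal |(F' x).det| * g (F x) ∂μ ≤ N * ∫⁻ y, g y ∂μ := by
  classical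
  choose r hr hr2 using fun A : V →L[ℝ] V => exists_delta A
  rcases S.eq_empty_or_nonempty with rfl | hne
  · simp
  obtain ⟨t, A, ht1, ht2, ht3, ht4, ht5⟩ :=
    exists_partition_approximatesLinearOn_of_hasFDerivWithinAt F S F'
      (fun x hx => (hF x hx).hasFDerivWithinAt) r hr
  have hinj : ∀ k, InjOn F (S ∩ t k) := by
    intro k
    obtain ⟨y, hy, hAy⟩ := ht5 hne k
    exact hr2 (A k) (by rw [hAy]; exact hdet y hy) F _ (ht4 k)
  have hmeas : ∀ k, MeasurableSet (S ∩ t k) := fun k => hS.inter (ht2 k)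
  have hder : ∀ k, ∀ x ∈ S ∩ t k, HasFDerivWithinAt F (F' x) (S ∩ t k) x :=
    fun k x hx => (hF x hx.1).hasFDerivWithinAt
  have himg : ∀ k, MeasurableSet (F '' (S ∩ t k)) := fun k =>
    measurable_image_of_fderivWithin (hmeas k) (hder k) (hinj k)
  have hdisj : Pairwise (Function.onFun Disjoint fun k => S ∩ t k) := by
    intro i j hij
    exact (ht1 hij).mono inter_subset_right inter_subset_right
  have hcover : S = ⋃ k, (S ∩ t k) := by
    rw [← inter_iUnion, inter_eq_left.mpr ht3]
  calc ∫⁻ x in S, ENNReal.ofReal |(F' x).det| * g (F x) ∂μ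
      = ∫⁻ x in ⋃ k, (S ∩ t k), ENNReal.ofReal |(F' x).det| * g (F x) ∂μ := by
        rw [← hcover]
    _ = ∑' k, ∫⁻ x in S ∩ t k, ENNReal.ofReal |(F' x).det| * g (F x) ∂μ :=
        lintegral_iUnion hmeas hdisj _
    _ = ∑' k, ∫⁻ y in F '' (S ∩ t k), g y ∂μ := by
        refine tsum_congr fun k => ?_
        rw [lintegral_image_eq_lintegral_abs_det_fderiv_mul μ (hmeas k) (hder k) (hinj k)]
    _ = ∑' k, ∫⁻ y, (F '' (S ∩ t k)).indicator g y ∂μ := by
        refine tsum_congr fun k => ?_
        rw [lintegral_indicator (himg k)]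
    _ = ∫⁻ y, ∑' k, (F '' (S ∩ t k)).indicator g y ∂μ := by
        rw [lintegral_tsum]
        exact fun k => (hg.indicator (himg k)).aemeasurable
    _ ≤ ∫⁻ y, N * g y ∂μ := by
        refine lintegral_mono fun y => ?_
        beta_reduce
        rw [ENNReal.tsum_eq_iSup_sum]
        refine iSup_le fun I => ?_
        -- the indices that contribute
        have hI : ∑ k ∈ I, (F '' (S ∩ t k)).indicator g y =
            ∑ k ∈ I.filter (fun k => y ∈ F '' (S ∩ t k)), g y := by
          rw [Finset.sum_filter]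
          exact Finset.sum_congr rfl fun k _ => by rw [indicator_apply]
        rw [hI, Finset.sum_const, nsmul_eq_mul]
        refine mul_le_mul_left ?_ _
        have hcard : ((I.filter (fun k => y ∈ F '' (S ∩ t k))).card : ℕ∞) ≤ N := by
          refine le_trans ?_ (hN y)
          have hch : ∀ k ∈ I.filter (fun k => y ∈ F '' (S ∩ t k)), ∃ x, x ∈ S ∩ t k ∧ F x = y := by
            intro k hk
            obtain ⟨x, hx, hxy⟩ := (Finset.mem_filter.mp hk).2
            exact ⟨x, hx, hxy⟩
          choose! x hx1 hx2 using hch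
          rw [← Set.encard_coe_eq_coe_finsetCard]
          have hxi : InjOn x ((I.filter (fun k => y ∈ F '' (S ∩ t k)) : Finset ℕ) : Set ℕ) := by
            intro i hi j hj hij
            by_contra hne'
            have h1 := (hx1 i hi).2
            have h2 := (hx1 j hj).2
            rw [hij] at h1
            exact Set.disjoint_left.mp (ht1 hne') h1 h2
          rw [← hxi.encard_image]
          refine Set.encard_le_encard ?_
          rintro z ⟨k, hk, rfl⟩
          exact ⟨(hx1 k hk).1, hx2 k hk⟩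
        exact_mod_cast hcard
    _ = N * ∫⁻ y, g y ∂μ := by
        rw [lintegral_const_mul _ hg]

end AREA0_

theorem t_area0 : T_AREA0 := by
  intro F F' S N g hS hF hdet hN hg
  exact AREA0_.area_gen volume F F' S N g hS hF hdet hN hg

end Pool.Agent.Chirp
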