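import Mathlib
import Pool.Agent.Chirp.Targets
import Pool.Agent.Chirp.J_AREA0

/-!
# Polynomial chirps: the area formula with multiplicity, one-dimensional version
-/

namespace Pool.Agent.Chirp

open MeasureTheory Set Filter
open scoped ENNReal NNReal

theorem t_area1 : T_AREA1 := by
  intro u u' S N g hS hu hne hN hg
  have h := AREA0_.area_gen (volume : Measure ℝ) u
    (fun s => ContinuousLinearMap.toSpanSingleton ℝ (u' s)) S N g hS
    (fun s hs => (hu s hs).hasFDerivAt)
    (fun s hs => by rw [ContinuousLinearMap.det_toSpanSingleton]; exact hne s hs) hN hg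
  simpa [ContinuousLinearMap.det_toSpanSingleton] using h

end Pool.Agent.Chirp
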