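import Mathlib
import Pool.Agent.Chirp.Targets

/-!
# Polynomial chirps: the area formula for two real functions
-/

namespace Pool.Agent.Chirp

open MeasureTheory Set Filter
open scoped ENNReal NNReal

namespace AREA2_

theorem det_prod (a b c d : ℝ) :
    ((a • ContinuousLinearMap.fst ℝ ℝ ℝ + b • ContinuousLinearMap.snd ℝ ℝ ℝ).prod
      (c • ContinuousLinearMap.fst ℝ ℝ ℝ + d • ContinuousLinearMap.snd ℝ ℝ ℝ)).det =
      a * d - b * c := by
  have h : ((a • ContinuousLinearMap.fst ℝ ℝ ℝ + b • ContinuousLinearMap.snd ℝ ℝ ℝ).prod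
      (c • ContinuousLinearMap.fst ℝ ℝ ℝ + d • ContinuousLinearMap.snd ℝ ℝ ℝ)) =
      LinearMap.toContinuousLinearMap (Matrix.toLin (Module.Basis.finTwoProd ℝ)
        (Module.Basis.finTwoProd ℝ) !![a, b; c, d]) := by
    rw [Matrix.toLin_finTwoProd_toContinuousLinearMap]
  rw [h, LinearMap.det_toContinuousLinearMap, LinearMap.det_toLin, Matrix.det_fin_two_of]

end AREA2_

theorem t_area2 (h : T_AREA0) : T_AREA2 := by
  intro u v S N g hS huv hne hN hg
  have h1 := h (fun x => (u x, v x))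
    (fun x => (d1 u x • ContinuousLinearMap.fst ℝ ℝ ℝ + d2 u x • ContinuousLinearMap.snd ℝ ℝ ℝ).prod
      (d1 v x • ContinuousLinearMap.fst ℝ ℝ ℝ + d2 v x • ContinuousLinearMap.snd ℝ ℝ ℝ))
    S N g hS
    (fun x hx => (hasFDerivAt_d (huv x hx).1).prodMk (hasFDerivAt_d (huv x hx).2))
    (fun x hx => by rw [AREA2_.det_prod]; exact hne x hx)
    (fun y => by
      refine le_trans (le_of_eq ?_) (hN y.1 y.2)
      congr 1
      ext x
      simp only [Set.mem_ofPred_eq, Prod.ext_iff])
    hg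
  simpa only [AREA2_.det_prod] using h1

end Pool.Agent.Chirp
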