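import Mathlib
import Pool.Agent.Chirp.Targets

/-!
# Chirp: change of variables by the gradient
-/

namespace Pool.Agent.Chirp

open MeasureTheory Set Filter
open scoped ENNReal NNReal

namespace AY_

theorem d1_const (a : ℝ) (x : ℝ × ℝ) : d1 (fun _ => a) x = 0 := by
  unfold d1
  exact deriv_const _ _

theorem d2_const (a : ℝ) (x : ℝ × ℝ) : d2 (fun _ => a) x = 0 := by
  unfold d2
  exact deriv_const _ _

theorem jac {n : ℕ} {F : ℝ × ℝ → ℝ} (hF : IsPol n F) (x : ℝ × ℝ) :
    d1 (d1 F) x * d2 (d2 F) x - d2 (d1 F) x * d1 (d2 F) x = dt F x := by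
  rw [hF.bb']
  unfold dt aa bb cc
  ring

theorem fibre (h2 : T_BEZ) {n : ℕ} {F : ℝ × ℝ → ℝ} (hF : IsPol n F) (a b : ℝ) :
    {x | x ∈ {x | dt F x ≠ 0} ∧ d1 F x = a ∧ d2 F x = b}.encard ≤ ((n * n : ℕ) : ℕ∞) := by
  have hf : IsPol n (fun x => d1 F x - a) := hF.d1.sub (isPol_const a n)
  have hg : IsPol n (fun x => d2 F x - b) := hF.d2.sub (isPol_const b n)
  refine le_trans (Set.encard_le_encard ?_) (h2 n n _ _ hf hg)
  rintro x ⟨hx, ha, hb⟩
  refine ⟨by simp [ha], by simp [hb], ?_⟩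
  have e1 : d1 (fun x => d1 F x - a) x = d1 (d1 F) x := by
    rw [d1_sub (hF.d1.differentiableAt x) (differentiableAt_const a), d1_const, sub_zero]
  have e2 : d2 (fun x => d1 F x - a) x = d2 (d1 F) x := by
    rw [d2_sub (hF.d1.differentiableAt x) (differentiableAt_const a), d2_const, sub_zero]
  have e3 : d1 (fun x => d2 F x - b) x = d1 (d2 F) x := by
    rw [d1_sub (hF.d2.differentiableAt x) (differentiableAt_const b), d1_const, sub_zero]
  have e4 : d2 (fun x => d2 F x - b) x = d2 (d2 F) x := by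
    rw [d2_sub (hF.d2.differentiableAt x) (differentiableAt_const b), d2_const, sub_zero]
  rw [e1, e2, e3, e4, jac hF]
  exact hx

end AY_

open AY_ in
theorem t_ay (h1 : T_AREA2) (h2 : T_BEZ) : T_AY := by
  intro n F g hF hg
  have hS : MeasurableSet {x : ℝ × ℝ | dt F x ≠ 0} :=
    (isOpen_ne_fun hF.dt.continuous continuous_const).measurableSet
  have h3 := h1 (d1 F) (d2 F) {x : ℝ × ℝ | dt F x ≠ 0} (n * n) g hS
    (fun x _ => ⟨hF.d1.differentiableAt x, hF.d2.differentiableAt x⟩)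
    (fun x hx => by rw [jac hF]; exact hx) (fun a b => fibre h2 hF a b) hg
  have h4 : ∫⁻ x, ENNReal.ofReal |dt F x| * g (d1 F x, d2 F x) =
      ∫⁻ x in {x : ℝ × ℝ | dt F x ≠ 0},
        ENNReal.ofReal |d1 (d1 F) x * d2 (d2 F) x - d2 (d1 F) x * d1 (d2 F) x| *
          g (d1 F x, d2 F x) := by
    rw [← lintegral_indicator hS]
    refine lintegral_congr fun x => ?_
    by_cases hx : dt F x = 0
    · rw [Set.indicator_of_notMem (by simpa using hx), hx]
      simp
    · rw [Set.indicator_of_mem (by exact hx), jac hF]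
  rw [h4]
  exact h3

end Pool.Agent.Chirp
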