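import Mathlib
import Pool.Agent.Chirp.Targets
import Pool.Agent.Lib.QMBezout

/-!
# Chirp: at most `d * e` nondegenerate real common zeros
-/

namespace Pool.Agent.Chirp

open Pool.Agent.QMVal

namespace BEZ_

/-- evaluation at `(x, y)` -/
noncomputable def ev (x y : ℂ) : Polynomial (Polynomial ℂ) →+* ℂ :=
  (Polynomial.evalRingHom x).comp (Polynomial.evalRingHom (Polynomial.C y))

theorem ev_apply (x y : ℂ) (G : Polynomial (Polynomial ℂ)) :
    ev x y G = (G.eval (Polynomial.C y)).eval x := rfl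

theorem ev_eq_map (x y : ℂ) (G : Polynomial (Polynomial ℂ)) :
    ev x y G = (G.map (Polynomial.evalRingHom x)).eval y := by
  have h : ev x y = (Polynomial.evalRingHom y).comp
      (Polynomial.mapRingHom (Polynomial.evalRingHom x)) := by
    apply Polynomial.ringHom_ext
    · intro a
      simp [ev]
    · simp [ev]
  rw [h]
  rfl

theorem smul_eq (c : ℂ) (G : Polynomial (Polynomial ℂ)) :
    c • G = Polynomial.C (Polynomial.C c) * G := by
  ext k l
  simp

theorem ev_smul (x y c : ℂ) (G : Polynomial (Polynomial ℂ)) : ev x y (c • G) = c * ev x y G := by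
  rw [smul_eq, map_mul]
  congr 1
  simp [ev]

/-- linear form which vanishes at `q` and not at `p` -/
noncomputable def lf (p q : ℂ × ℂ) : Polynomial (Polynomial ℂ) :=
  if p.1 = q.1 then Polynomial.X - Polynomial.C (Polynomial.C q.2)
  else Polynomial.C (Polynomial.X - Polynomial.C q.1)

theorem lf_zero (p q : ℂ × ℂ) : ev q.1 q.2 (lf p q) = 0 := by
  unfold lf
  split_ifs <;> simp [ev]

theorem lf_ne (p q : ℂ × ℂ) (h : p ≠ q) : ev p.1 p.2 (lf p q) ≠ 0 := by
  unfold lf
  split_ifs with h1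
  · have h2 : p.2 ≠ q.2 := fun h2 => h (Prod.ext h1 h2)
    simpa [ev, sub_eq_zero] using h2
  · simpa [ev, sub_eq_zero] using h1

open Classical in
/-- evaluation at finitely many points -/
noncomputable def evT (T : Finset (ℂ × ℂ)) : Polynomial (Polynomial ℂ) →ₗ[ℂ] (T → ℂ) where
  toFun G := fun p => ev p.1.1 p.1.2 G
  map_add' F G := by
    funext p
    simp
  map_smul' c G := by
    funext p
    simp only [RingHom.id_apply, Pi.smul_apply, smul_eq_mul]
    exact ev_smul _ _ _ _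

open Classical in
theorem evT_surj (T : Finset (ℂ × ℂ)) : LinearMap.range (evT T) = ⊤ := by
  rw [eq_top_iff]
  intro v _
  set g : T → Polynomial (Polynomial ℂ) := fun p => ∏ q ∈ T.erase p.1, lf p.1 q with hg
  have h1 : ∀ p : T, ev p.1.1 p.1.2 (g p) ≠ 0 := by
    intro p
    rw [hg]
    simp only
    rw [map_prod, Finset.prod_ne_zero_iff]
    intro q hq
    exact lf_ne _ _ (Finset.ne_of_mem_erase hq).symm
  have h2 : ∀ p q : T, q ≠ p → ev q.1.1 q.1.2 (g p) = 0 := by
    intro p q hqp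
    rw [hg]
    simp only
    rw [map_prod]
    refine Finset.prod_eq_zero (i := q.1) (Finset.mem_erase.2 ⟨?_, q.2⟩) (lf_zero _ _)
    intro h
    exact hqp (Subtype.ext h)
  refine ⟨∑ p : T, (v p * (ev p.1.1 p.1.2 (g p))⁻¹) • g p, ?_⟩
  rw [map_sum]
  funext q
  rw [Finset.sum_apply, Finset.sum_eq_single q]
  · rw [map_smul, Pi.smul_apply, smul_eq_mul]
    show v q * (ev q.1.1 q.1.2 (g q))⁻¹ * ev q.1.1 q.1.2 (g q) = v q
    rw [mul_assoc, inv_mul_cancel₀ (h1 q), mul_one]
  · intro p _ hp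
    rw [map_smul, Pi.smul_apply, smul_eq_mul]
    show v p * (ev p.1.1 p.1.2 (g p))⁻¹ * ev q.1.1 q.1.2 (g p) = 0
    rw [h2 p q (Ne.symm hp), mul_zero]
  · intro h
    exact absurd (Finset.mem_univ q) h

/-- the number of common zeros of coprime polynomials -/
theorem card_le {d1 d2 : ℕ} {A B : Polynomial (Polynomial ℂ)} (hA : HasTD d1 A) (hB : HasTD d2 B)
    (hrel : IsRelPrime A B) (T : Finset (ℂ × ℂ)) (hT : ∀ p ∈ T, ev p.1 p.2 A = 0 ∧
      ev p.1 p.2 B = 0) : T.card ≤ d1 * d2 := by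
  classical
  obtain ⟨S, hfin, hfr, htop⟩ := exists_compl hA hB hrel
  have hmap : S.map (evT T) = ⊤ := by
    rw [eq_top_iff]
    intro v _
    have hv : v ∈ LinearMap.range (evT T) := by rw [evT_surj]; trivial
    obtain ⟨G, rfl⟩ := hv
    have hG : G ∈ S ⊔ II A B := by rw [htop]; trivial
    rw [Submodule.mem_sup] at hG
    obtain ⟨s, hs, y, hy, rfl⟩ := hG
    refine ⟨s, hs, ?_⟩
    have hy0 : evT T y = 0 := by
      rw [II, Submodule.restrictScalars_mem, Ideal.mem_span_pair] at hy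
      obtain ⟨b, c, rfl⟩ := hy
      funext p
      show ev p.1.1 p.1.2 (b * A + c * B) = 0
      rw [map_add, map_mul, map_mul, (hT p.1 p.2).1, (hT p.1 p.2).2, mul_zero, mul_zero, add_zero]
    rw [map_add, hy0, add_zero]
  have e1 : Module.finrank ℂ (S.map (evT T)) ≤ Module.finrank ℂ S :=
    Submodule.finrank_map_le _ _
  rw [hmap, finrank_top, Module.finrank_fintype_fun_eq_card, Fintype.card_coe] at e1
  exact e1.trans hfr

/-- the polynomial with given coefficients -/
noncomputable def gp (d : ℕ) (c : ℕ × ℕ → ℝ) : Polynomial (Polynomial ℂ) :=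
  ∑ p ∈ SD d, Polynomial.monomial p.2 (Polynomial.monomial p.1 (c p : ℂ))

theorem gp_TD (d : ℕ) (c : ℕ × ℕ → ℝ) : TD d (gp d c) := by
  intro i j h
  unfold pc gp at h
  rw [Polynomial.finsetSum_coeff, Polynomial.finsetSum_coeff] at h
  obtain ⟨p, hp, h⟩ := Finset.exists_ne_zero_of_sum_ne_zero h
  rw [Polynomial.coeff_monomial] at h
  split_ifs at h with h1
  · rw [Polynomial.coeff_monomial] at h
    split_ifs at h with h2
    · rw [← h1, ← h2]
      exact mem_SD.1 hp
    · exact absurd rfl h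
  · exact absurd (Polynomial.coeff_zero _) h

theorem ev_gp {d : ℕ} {c : ℕ × ℕ → ℝ} {f : ℝ × ℝ → ℝ}
    (hc : ∀ x, f x = ∑ p ∈ SD d, c p * (x.1 ^ p.1 * x.2 ^ p.2)) (x : ℝ × ℝ) :
    ev x.1 x.2 (gp d c) = (f x : ℂ) := by
  rw [hc, gp, map_sum]
  push_cast
  refine Finset.sum_congr rfl fun p _ => ?_
  rw [ev_apply, Polynomial.eval_monomial, Polynomial.eval_mul, Polynomial.eval_monomial,
    Polynomial.eval_pow, Polynomial.eval_C]
  ring

theorem deriv1 {f : ℝ × ℝ → ℝ} {G : Polynomial (Polynomial ℂ)}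
    (hG : ∀ x : ℝ × ℝ, ev x.1 x.2 G = (f x : ℂ)) {x : ℝ × ℝ} (hf : DifferentiableAt ℝ f x) :
    ((d1 f x : ℝ) : ℂ) =
      (Polynomial.derivative (G.eval (Polynomial.C (x.2 : ℂ)))).eval (x.1 : ℂ) := by
  have h1 := (hasDerivAt_d1 hf).ofReal_comp
  have h2 := ((G.eval (Polynomial.C (x.2 : ℂ))).hasDerivAt (x.1 : ℂ)).comp_ofReal
  have h3 : (fun s : ℝ => (G.eval (Polynomial.C (x.2 : ℂ))).eval (s : ℂ)) =
      fun s : ℝ => ((f (s, x.2) : ℝ) : ℂ) := by
    funext s
    exact hG (s, x.2)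
  rw [h3] at h2
  exact h1.unique h2

theorem deriv2 {f : ℝ × ℝ → ℝ} {G : Polynomial (Polynomial ℂ)}
    (hG : ∀ x : ℝ × ℝ, ev x.1 x.2 G = (f x : ℂ)) {x : ℝ × ℝ} (hf : DifferentiableAt ℝ f x) :
    ((d2 f x : ℝ) : ℂ) =
      (Polynomial.derivative (G.map (Polynomial.evalRingHom (x.1 : ℂ)))).eval (x.2 : ℂ) := by
  have h1 := (hasDerivAt_d2 hf).ofReal_comp
  have h2 := ((G.map (Polynomial.evalRingHom (x.1 : ℂ))).hasDerivAt (x.2 : ℂ)).comp_ofReal
  have h3 : (fun s : ℝ => (G.map (Polynomial.evalRingHom (x.1 : ℂ))).eval (s : ℂ)) =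
      fun s : ℝ => ((f (x.1, s) : ℝ) : ℂ) := by
    funext s
    rw [← ev_eq_map]
    exact hG (x.1, s)
  rw [h3] at h2
  exact h1.unique h2

theorem encard_le {α : Type*} {s : Set α} {n : ℕ}
    (h : ∀ T : Finset α, (T : Set α) ⊆ s → T.card ≤ n) : s.encard ≤ (n : ℕ∞) := by
  by_contra hcon
  push Not at hcon
  have h1 : ((n + 1 : ℕ) : ℕ∞) ≤ s.encard := by
    rw [Nat.cast_add, Nat.cast_one]
    exact Order.add_one_le_of_lt hcon
  obtain ⟨t, hts, ht⟩ := Set.exists_subset_encard_eq h1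
  have hfin : t.Finite := Set.finite_of_encard_eq_coe ht
  have h2 := h hfin.toFinset (by rw [hfin.coe_toFinset]; exact hts)
  rw [hfin.encard_eq_coe_toFinset_card] at ht
  have h3 : hfin.toFinset.card = n + 1 := by exact_mod_cast ht
  omega

end BEZ_

open BEZ_ in
theorem t_bez : T_BEZ := by
  classical
  intro d e f g hf hg
  obtain ⟨c, hc⟩ := hf
  obtain ⟨c', hc'⟩ := hg
  have hf : IsPol d f := ⟨c, hc⟩
  have hg : IsPol e g := ⟨c', hc'⟩
  set G1 := gp d c with hG1
  set G2 := gp e c' with hG2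
  have e1 : ∀ x : ℝ × ℝ, ev x.1 x.2 G1 = (f x : ℂ) := ev_gp hc
  have e2 : ∀ x : ℝ × ℝ, ev x.1 x.2 G2 = (g x : ℂ) := ev_gp hc'
  apply encard_le
  intro T hT
  rcases Finset.eq_empty_or_nonempty T with h0 | ⟨x0, hx0⟩
  · rw [h0, Finset.card_empty]
    exact Nat.zero_le _
  have hne1 : G1 ≠ 0 := by
    intro h
    have a1 := deriv1 e1 (hf.differentiableAt x0)
    have a2 := deriv2 e1 (hf.differentiableAt x0)
    rw [h] at a1 a2
    simp only [Polynomial.eval_zero, Polynomial.map_zero, Polynomial.derivative_zero,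
      Complex.ofReal_eq_zero] at a1 a2
    have := (hT hx0).2.2
    rw [a1, a2] at this
    simp at this
  have hne2 : G2 ≠ 0 := by
    intro h
    have a1 := deriv1 e2 (hg.differentiableAt x0)
    have a2 := deriv2 e2 (hg.differentiableAt x0)
    rw [h] at a1 a2
    simp only [Polynomial.eval_zero, Polynomial.map_zero, Polynomial.derivative_zero,
      Complex.ofReal_eq_zero] at a1 a2
    have := (hT hx0).2.2
    rw [a1, a2] at this
    simp at this
  obtain ⟨A, B, H, hrel, hHA, hHB⟩ :=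
    UniqueFactorizationMonoid.exists_reduced_factors G1 hne1 G2
  have hH0 : H ≠ 0 := by
    rintro rfl
    exact hne1 (by rw [← hHA, zero_mul])
  have hA0 : A ≠ 0 := by
    rintro rfl
    exact hne1 (by rw [← hHA, mul_zero])
  have hB0 : B ≠ 0 := by
    rintro rfl
    exact hne2 (by rw [← hHB, mul_zero])
  obtain ⟨nH, hnH⟩ := exists_hasTD hH0
  obtain ⟨nA, hnA⟩ := exists_hasTD hA0
  obtain ⟨nB, hnB⟩ := exists_hasTD hB0
  have hA : nA ≤ d := by
    have h1 := hnH.mul hnA
    rw [hHA] at h1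
    have := h1.le (gp_TD d c)
    omega
  have hB : nB ≤ e := by
    have h1 := hnH.mul hnB
    rw [hHB] at h1
    have := h1.le (gp_TD e c')
    omega
  have key : ∀ x ∈ T, ev x.1 x.2 A = 0 ∧ ev x.1 x.2 B = 0 := by
    intro x hx
    obtain ⟨hfx, hgx, hJ⟩ := hT hx
    have hHx : ev x.1 x.2 H ≠ 0 := by
      intro hH
      apply hJ
      have a1 := deriv1 e1 (hf.differentiableAt x)
      have a2 := deriv2 e1 (hf.differentiableAt x)
      have b1 := deriv1 e2 (hg.differentiableAt x)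
      have b2 := deriv2 e2 (hg.differentiableAt x)
      have hH1 : (H.eval (Polynomial.C (x.2 : ℂ))).eval (x.1 : ℂ) = 0 := hH
      have hH2 : (H.map (Polynomial.evalRingHom (x.1 : ℂ))).eval (x.2 : ℂ) = 0 := by
        rw [← ev_eq_map]; exact hH
      have hA2 : (A.map (Polynomial.evalRingHom (x.1 : ℂ))).eval (x.2 : ℂ) =
        (A.eval (Polynomial.C (x.2 : ℂ))).eval (x.1 : ℂ) := by rw [← ev_eq_map, ev_apply]
      have hB2 : (B.map (Polynomial.evalRingHom (x.1 : ℂ))).eval (x.2 : ℂ) =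
        (B.eval (Polynomial.C (x.2 : ℂ))).eval (x.1 : ℂ) := by rw [← ev_eq_map, ev_apply]
      rw [← hHA] at a1 a2
      rw [← hHB] at b1 b2
      simp only [Polynomial.eval_mul, Polynomial.derivative_mul, Polynomial.eval_add, hH1,
        zero_mul, add_zero] at a1 b1
      simp only [Polynomial.map_mul, Polynomial.eval_mul, Polynomial.derivative_mul,
        Polynomial.eval_add, hH2, zero_mul, add_zero, hA2, hB2] at a2 b2
      have h5 : ((d1 f x * d2 g x - d2 f x * d1 g x : ℝ) : ℂ) = 0 := by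
        push_cast
        rw [a1, a2, b1, b2]
        ring
      exact_mod_cast h5
    constructor
    · have h1 := e1 x
      rw [hfx, ← hHA, map_mul, Complex.ofReal_zero] at h1
      exact (mul_eq_zero.1 h1).resolve_left hHx
    · have h1 := e2 x
      rw [hgx, ← hHB, map_mul, Complex.ofReal_zero] at h1
      exact (mul_eq_zero.1 h1).resolve_left hHx
  set ι : ℝ × ℝ → ℂ × ℂ := fun x => ((x.1 : ℂ), (x.2 : ℂ)) with hι
  have hinj : Function.Injective ι := by
    intro x y hxy
    rw [hι] at hxy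
    simp only [Prod.mk.injEq, Complex.ofReal_inj] at hxy
    exact Prod.ext hxy.1 hxy.2
  have hcard := card_le hnA hnB hrel (T.image ι) (by
    intro p hp
    obtain ⟨x, hx, rfl⟩ := Finset.mem_image.1 hp
    exact key x hx)
  rw [Finset.card_image_of_injective _ hinj] at hcard
  exact hcard.trans (Nat.mul_le_mul hA hB)

end Pool.Agent.Chirp
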