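import Mathlib
import Pool.Agent.Chirp.Targets

/-!
# Polynomial chirps: the cut-off functions
-/

namespace Pool.Agent.Chirp

open MeasureTheory Set Filter
open scoped ENNReal NNReal Topology

namespace BUMP_

theorem kap_abs (r : ℝ) : |1 - kap r| ≤ 1 := by
  rw [abs_le]
  constructor
  · linarith [kap_le_one r]
  · linarith [kap_nonneg r]

theorem rho_contDiff : ContDiff ℝ 1 rho := by
  rw [contDiff_iff_contDiffAt]
  intro r
  by_cases hr : r = 0
  · subst hr
    have h : rho =ᶠ[𝓝 0] fun _ => (0 : ℝ) := by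
      have h1 : ∀ᶠ x : ℝ in 𝓝 0, x ∈ Ioo (-1 : ℝ) 1 := Ioo_mem_nhds (by norm_num) (by norm_num)
      filter_upwards [h1] with x hx
      unfold rho
      rw [kap_of_le (abs_le.2 ⟨hx.1.le, hx.2.le⟩), sub_self, zero_div]
    exact contDiffAt_const.congr_of_eventuallyEq h
  · exact ((contDiff_const.sub (kap_contDiff (k := 1))).contDiffAt).div contDiffAt_id hr

theorem abs_rho_le (r : ℝ) : |rho r| ≤ 1 := by
  unfold rho
  rcases le_or_gt |r| 1 with h | h
  · rw [kap_of_le h, sub_self, zero_div, abs_zero]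
    exact zero_le_one
  · rw [abs_div, div_le_one (by linarith)]
    exact (kap_abs r).trans h.le

theorem deriv_eta_supp (r : ℝ) (h : deriv eta r ≠ 0) : 1 / 4 ≤ r ∧ r ≤ 2 := by
  constructor
  · by_contra hc
    push Not at hc
    apply h
    have h1 : eta =ᶠ[𝓝 r] fun _ => (0 : ℝ) := by
      filter_upwards [Iio_mem_nhds hc] with x hx
      exact eta_of_le (le_of_lt hx)
    rw [h1.deriv_eq]
    exact deriv_const _ _
  · by_contra hc
    push Not at hc
    apply h
    have h1 : eta =ᶠ[𝓝 r] fun _ => (0 : ℝ) := by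
      filter_upwards [Ioi_mem_nhds hc] with x hx
      exact eta_of_ge (le_of_lt hx)
    rw [h1.deriv_eq]
    exact deriv_const _ _

theorem deriv_kap_supp (r : ℝ) (h : deriv kap r ≠ 0) : 1 ≤ |r| ∧ |r| ≤ 2 := by
  constructor
  · by_contra hc
    push Not at hc
    apply h
    have h1 : kap =ᶠ[𝓝 r] fun _ => (1 : ℝ) := by
      have h2 : ∀ᶠ x in 𝓝 r, |x| < 1 := (continuous_abs.tendsto r).eventually (Iio_mem_nhds hc)
      filter_upwards [h2] with x hx
      exact kap_of_le hx.le
    rw [h1.deriv_eq]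
    exact deriv_const _ _
  · by_contra hc
    push Not at hc
    apply h
    have h1 : kap =ᶠ[𝓝 r] fun _ => (0 : ℝ) := by
      have h2 : ∀ᶠ x in 𝓝 r, 2 < |x| := (continuous_abs.tendsto r).eventually (Ioi_mem_nhds hc)
      filter_upwards [h2] with x hx
      exact kap_of_ge hx.le
    rw [h1.deriv_eq]
    exact deriv_const _ _

theorem deriv_rho_far (r : ℝ) (hr : 2 < |r|) : |deriv rho r| ≤ 1 / r ^ 2 := by
  have h0 : r ≠ 0 := by
    intro h
    rw [h, abs_zero] at hr
    linarith
  have h1 : rho =ᶠ[𝓝 r] fun x => x⁻¹ := by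
    have h2 : ∀ᶠ x in 𝓝 r, 2 < |x| := (continuous_abs.tendsto r).eventually (Ioi_mem_nhds hr)
    filter_upwards [h2] with x hx
    unfold rho
    rw [kap_of_ge hx.le, sub_zero, one_div]
  rw [h1.deriv_eq, deriv_inv, abs_neg, abs_inv, abs_of_nonneg (sq_nonneg r), one_div]

theorem bd {g : ℝ → ℝ} (hg : Continuous g) (hfar : ∀ r, 2 < |r| → |g r| ≤ 1 / r ^ 2) :
    ∃ K : ℝ, 0 < K ∧ ∀ r, |g r| ≤ K * (1 + r ^ 2)⁻¹ := by
  obtain ⟨M, hM⟩ := (isCompact_Icc (a := (-2 : ℝ)) (b := 2)).exists_bound_of_continuousOn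
    hg.continuousOn
  have hM1 : 1 ≤ max M 1 := le_max_right _ _
  refine ⟨5 * max M 1, by linarith, fun r => ?_⟩
  have hpos : 0 < 1 + r ^ 2 := by positivity
  rw [← div_eq_mul_inv, le_div_iff₀ hpos]
  rcases le_or_gt |r| 2 with h | h
  · have h1 : |g r| ≤ max M 1 := (hM r (abs_le.1 h)).trans (le_max_left _ _)
    have h2 : r ^ 2 ≤ 4 := by
      have := sq_abs r
      nlinarith [abs_nonneg r]
    have h3 : 0 ≤ |g r| := abs_nonneg _
    nlinarith
  · have h1 := hfar r h
    have h2 : 4 ≤ r ^ 2 := by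
      have := sq_abs r
      nlinarith [abs_nonneg r]
    have h3 : |g r| * r ^ 2 ≤ 1 := by
      rw [le_div_iff₀ (by linarith)] at h1
      exact h1
    have h4 : 0 ≤ |g r| := abs_nonneg _
    nlinarith

theorem bd2 {g : ℝ → ℝ} (hg : Continuous g) (hfar : ∀ r, 2 < |r| → |g r| ≤ 1 / r ^ 2) :
    ∃ K : ℝ, 0 < K ∧ (∀ r, |g r| ≤ K) ∧ ∫⁻ r, ENNReal.ofReal |g r| ≤ ENNReal.ofReal K := by
  obtain ⟨K, hK, h⟩ := bd hg hfar
  refine ⟨4 * K, by linarith, fun r => ?_, ?_⟩
  · have h1 : (1 + r ^ 2)⁻¹ ≤ 1 := inv_le_one_of_one_le₀ (by nlinarith [sq_nonneg r])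
    have h2 := h r
    nlinarith
  · have hint : Integrable (fun r : ℝ => K * (1 + r ^ 2)⁻¹) := integrable_inv_one_add_sq.const_mul K
    calc ∫⁻ r, ENNReal.ofReal |g r| ≤ ∫⁻ r, ENNReal.ofReal (K * (1 + r ^ 2)⁻¹) :=
          lintegral_mono fun r => ENNReal.ofReal_le_ofReal (h r)
      _ = ENNReal.ofReal (∫ r, K * (1 + r ^ 2)⁻¹) := by
          rw [ofReal_integral_eq_lintegral_ofReal hint]
          exact Filter.Eventually.of_forall fun r => by positivity
      _ ≤ ENNReal.ofReal (4 * K) := by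
          apply ENNReal.ofReal_le_ofReal
          rw [integral_const_mul, integral_univ_inv_one_add_sq]
          have := Real.pi_le_four
          nlinarith

end BUMP_

open BUMP_ in
theorem t_bump : T_BUMP := by
  have he : Continuous (deriv eta) := (eta_contDiff (k := 1)).continuous_deriv (by norm_num)
  have hk : Continuous (deriv kap) := (kap_contDiff (k := 1)).continuous_deriv (by norm_num)
  have hr : Continuous (deriv rho) := rho_contDiff.continuous_deriv (by norm_num)
  obtain ⟨K1, hK1, a1, b1⟩ := bd2 he (fun r h => by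
    have : deriv eta r = 0 := by
      by_contra hc
      have h1 := deriv_eta_supp r hc
      rw [abs_of_nonneg (by linarith)] at h
      linarith
    rw [this, abs_zero]
    positivity)
  obtain ⟨K2, hK2, a2, b2⟩ := bd2 hk (fun r h => by
    have : deriv kap r = 0 := by
      by_contra hc
      have h1 := (deriv_kap_supp r hc).2
      linarith
    rw [this, abs_zero]
    positivity)
  obtain ⟨K3, hK3, a3, b3⟩ := bd2 hr deriv_rho_far
  refine ⟨rho_contDiff, abs_rho_le, deriv_eta_supp, deriv_kap_supp, K1 + K2 + K3, by linarith,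
    fun r => (a1 r).trans (by linarith), fun r => (a2 r).trans (by linarith),
    fun r => (a3 r).trans (by linarith), b1.trans (ENNReal.ofReal_le_ofReal (by linarith)),
    b2.trans (ENNReal.ofReal_le_ofReal (by linarith)),
    b3.trans (ENNReal.ofReal_le_ofReal (by linarith))⟩

end Pool.Agent.Chirp
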