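import Mathlib
import Pool.Agent.Chirp.Targets

/-!
# The scale cut-off
-/

set_option autoImplicit false

namespace Pool.Agent.Chirp

open MeasureTheory Set Filter
open scoped ENNReal NNReal Topology

namespace EC_

/-- the derivative of `eta` vanishes outside `[1/4, 2]` -/
theorem deriv_eta {r : ℝ} (h : deriv eta r ≠ 0) : 1 / 4 ≤ r ∧ r ≤ 2 := by
  constructor
  · by_contra hcon
    push Not at hcon
    apply h
    have h1 : eta =ᶠ[𝓝 r] fun _ => 0 := by
      filter_upwards [Iio_mem_nhds hcon] with y hy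
      exact eta_of_le (le_of_lt hy)
    rw [h1.deriv_eq, deriv_const]
  · by_contra hcon
    push Not at hcon
    apply h
    have h1 : eta =ᶠ[𝓝 r] fun _ => 0 := by
      filter_upwards [Ioi_mem_nhds hcon] with y hy
      exact eta_of_ge (le_of_lt hy)
    rw [h1.deriv_eq, deriv_const]

theorem abs_dt_le (F : ℝ × ℝ → ℝ) (x : ℝ × ℝ) : |dt F x| ≤ n2 F x / 2 := by
  unfold dt n2
  rw [abs_le]
  constructor <;> nlinarith [sq_nonneg (aa F x - cc F x), sq_nonneg (aa F x + cc F x),
    sq_nonneg (bb F x)]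

theorem qF_le (F : ℝ × ℝ → ℝ) (x : ℝ × ℝ) : qF F x ≤ n2 F x / 4 := by
  have h1 := abs_dt_le F x
  have h2 := n2_nonneg F x
  unfold qF
  rcases h2.eq_or_lt with h3 | h3
  · rw [← h3]
    simp
  · rw [div_le_iff₀ h3]
    have h4 : dt F x ^ 2 ≤ (n2 F x / 2) ^ 2 := by
      rw [← sq_abs]
      exact pow_le_pow_left₀ (abs_nonneg _) h1 2
    nlinarith

/-- `ec` vanishes near the points where the second derivatives vanish -/
theorem ec_local {n : ℕ} {F : ℝ × ℝ → ℝ} {s : ℝ} (hF : IsPol n F) (hs : 0 < s) {x : ℝ × ℝ}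
    (hx : n2 F x = 0) : ec F s =ᶠ[𝓝 x] fun _ => 0 := by
  have h1 : {y | n2 F y < s ^ 2} ∈ 𝓝 x := by
    apply (isOpen_lt hF.n2.continuous continuous_const).mem_nhds
    show n2 F x < s ^ 2
    rw [hx]
    positivity
  filter_upwards [h1] with y hy
  have hy' : n2 F y < s ^ 2 := hy
  unfold ec
  apply eta_of_le
  have h2 := qF_le F y
  rw [div_le_iff₀ (by positivity)]
  linarith

end EC_

open EC_ in
theorem t_ec : T_EC := by
  intro n F s hF hs
  have hs2 : 0 < s ^ 2 := by positivity
  have hcd : ContDiff ℝ 1 (ec F s) := by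
    rw [contDiff_iff_contDiffAt]
    intro x
    by_cases hx : n2 F x = 0
    · exact contDiffAt_const.congr_of_eventuallyEq (ec_local hF hs hx)
    · have h1 : ContDiffAt ℝ 1 (fun y => qF F y / s ^ 2) x := (contDiffAt_qF hF hx).div_const _
      exact (eta_contDiff (k := 1)).contDiffAt.comp x h1
  have hU : ∀ x, 1 / 4 ≤ qF F x / s ^ 2 → qF F x / s ^ 2 ≤ 2 → x ∈ U F s := by
    intro x h1 h2
    rw [le_div_iff₀ hs2] at h1
    rw [div_le_iff₀ hs2] at h2
    exact ⟨by linarith, by linarith⟩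
  have hd0 : ∀ x, n2 F x = 0 → d1 (ec F s) x = 0 := by
    intro x hx
    rw [d1_eq (hcd.differentiable (by simp) x), (ec_local hF hs hx).fderiv_eq]
    simp
  have hd1 : ∀ x, n2 F x ≠ 0 → d1 (ec F s) x
      = deriv eta (qF F x / s ^ 2) * (d1 (qF F) x / s ^ 2) := by
    intro x hx
    have h1 : DifferentiableAt ℝ (fun y => qF F y / s ^ 2) x :=
      ((contDiffAt_qF (k := 1) hF hx).div_const _).differentiableAt (by simp)
    have h2 : DifferentiableAt ℝ eta (qF F x / s ^ 2) :=
      (eta_contDiff (k := 1)).differentiable (by simp) _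
    have h3 := d1_comp (β := eta) (f := fun y => qF F y / s ^ 2) (x := x) h2 h1
    rw [d1_div_const] at h3
    exact h3
  refine ⟨hcd, ?_, ?_, hd1, hd0⟩
  · intro x hx
    apply hU
    · by_contra hcon
      push Not at hcon
      exact hx (eta_of_le hcon.le)
    · by_contra hcon
      push Not at hcon
      exact hx (eta_of_ge hcon.le)
  · intro x hx
    by_cases hn : n2 F x = 0
    · exact absurd (hd0 x hn) hx
    · rw [hd1 x hn] at hx
      have h1 := deriv_eta (left_ne_zero_of_mul hx)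
      exact hU x h1.1 h1.2

end Pool.Agent.Chirp
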