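import Mathlib
import Pool.Agent.Chirp.Targets

/-!
# CHP-EIG: the set where the squared smaller eigenvalue is small is short
-/

namespace Pool.Agent.Chirp

open MeasureTheory Set

namespace EIG_

/-- The key pointwise inequality. -/
theorem key (A B C s t : ℝ) (hs : 0 < s) (h : qv A B C t ≤ 2 * s ^ 2) :
    |(|(A + C) / 2 - 2 * t| - Real.sqrt (((A - C) / 2) ^ 2 + B ^ 2))| ≤ 2 * s := by
  set u : ℝ := (A + C) / 2 - 2 * t with hu
  set δ : ℝ := Real.sqrt (((A - C) / 2) ^ 2 + B ^ 2) with hδ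
  have hδ0 : 0 ≤ δ := Real.sqrt_nonneg _
  have hδ2 : δ ^ 2 = ((A - C) / 2) ^ 2 + B ^ 2 := Real.sq_sqrt (by positivity)
  have hnum : (A - 2 * t) * (C - 2 * t) - B ^ 2 = u ^ 2 - δ ^ 2 := by
    rw [hδ2, hu]; ring
  have hden : (A - 2 * t) ^ 2 + 2 * B ^ 2 + (C - 2 * t) ^ 2 = 2 * (u ^ 2 + δ ^ 2) := by
    rw [hδ2, hu]; ring
  have hu2 : |u| ^ 2 = u ^ 2 := sq_abs u
  have hu0 : 0 ≤ |u| := abs_nonneg u
  have hq : qv A B C t = (u ^ 2 - δ ^ 2) ^ 2 / (2 * (u ^ 2 + δ ^ 2)) := by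
    unfold qv
    rw [hnum, hden]
  rw [hq] at h
  rcases eq_or_lt_of_le (show 0 ≤ u ^ 2 + δ ^ 2 by positivity) with h0 | h0
  · have h1 : u ^ 2 = 0 := by nlinarith [sq_nonneg u, sq_nonneg δ]
    have h2 : δ ^ 2 = 0 := by nlinarith [sq_nonneg u, sq_nonneg δ]
    have h3 : u = 0 := by simpa using h1
    have h4 : δ = 0 := by simpa using h2
    rw [h3, h4]
    simp
    exact hs.le
  · rw [div_le_iff₀ (by linarith)] at h
    have h5 : (|u| - δ) ^ 2 * (|u| + δ) ^ 2 ≤ 4 * s ^ 2 * (u ^ 2 + δ ^ 2) := by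
      have : (|u| - δ) ^ 2 * (|u| + δ) ^ 2 = (u ^ 2 - δ ^ 2) ^ 2 := by
        rw [← hu2]; ring
      rw [this]
      linarith
    have h6 : u ^ 2 + δ ^ 2 ≤ (|u| + δ) ^ 2 := by
      rw [← hu2]
      nlinarith [mul_nonneg hu0 hδ0]
    have h7 : (|u| - δ) ^ 2 * (u ^ 2 + δ ^ 2) ≤ 4 * s ^ 2 * (u ^ 2 + δ ^ 2) :=
      le_trans (mul_le_mul_of_nonneg_left h6 (sq_nonneg _)) h5
    have h8 : (|u| - δ) ^ 2 ≤ (2 * s) ^ 2 := by
      have := le_of_mul_le_mul_right h7 h0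
      linarith
    exact abs_le_of_sq_le_sq h8 (by linarith)

end EIG_

open EIG_ in
theorem t_eig : T_EIG := by
  intro A B C s hs
  set m : ℝ := (A + C) / 4 with hm
  set δ : ℝ := Real.sqrt (((A - C) / 2) ^ 2 + B ^ 2) with hδ
  have hsub : {t : ℝ | qv A B C t ≤ 2 * s ^ 2} ⊆
      Icc (m - δ / 2 - s) (m - δ / 2 + s) ∪ Icc (m + δ / 2 - s) (m + δ / 2 + s) := by
    intro t ht
    have h := key A B C s t hs ht
    rw [← hδ] at h
    rw [abs_le] at h
    obtain ⟨h1, h2⟩ := h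
    rcases le_total 0 ((A + C) / 2 - 2 * t) with h3 | h3
    · rw [abs_of_nonneg h3] at h1 h2
      left
      constructor <;> linarith
    · rw [abs_of_nonpos h3] at h1 h2
      right
      constructor <;> linarith
  refine le_trans (measure_mono hsub) (le_trans (measure_union_le _ _) ?_)
  rw [Real.volume_Icc, Real.volume_Icc, ← ENNReal.ofReal_add (by linarith) (by linarith)]
  apply ENNReal.ofReal_le_ofReal
  linarith

end Pool.Agent.Chirp
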