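import Mathlib
import Pool.Agent.Chirp.Targets

/-!
# Polynomial chirps: the far part (CHP-FAR)
-/

namespace Pool.Agent.Chirp

open MeasureTheory Set Filter
open scoped ENNReal NNReal

namespace FAR_

theorem tonelli (g : ℝ × ℝ → ℝ) (hg : Measurable g) (B : ℝ≥0∞)
    (h : ∀ y, ∫⁻ r, ENNReal.ofReal |g (r, y)| ≤ B) :
    ∫⁻ x in Sq, ENNReal.ofReal |g x| ≤ 2 * B := by
  have hm : Measurable fun x => ENNReal.ofReal |g x| := by fun_prop
  have e : (volume : Measure (ℝ × ℝ)).restrict Sq =
      (volume.restrict (Icc (-1 : ℝ) 1)).prod (volume.restrict (Icc (-1 : ℝ) 1)) := by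
    rw [Measure.prod_restrict, ← Measure.volume_eq_prod]
    rfl
  rw [e, lintegral_prod_symm _ hm.aemeasurable]
  calc ∫⁻ y in Icc (-1 : ℝ) 1, ∫⁻ r in Icc (-1 : ℝ) 1, ENNReal.ofReal |g (r, y)|
      ≤ ∫⁻ y in Icc (-1 : ℝ) 1, B :=
        lintegral_mono fun y => (setLIntegral_le_lintegral _ _).trans (h y)
    _ = 2 * B := by
        rw [lintegral_const, Measure.restrict_apply_univ, Real.volume_Icc, mul_comm]
        norm_num

theorem vol_Sq : (volume : Measure (ℝ × ℝ)) Sq = 4 := by
  unfold Sq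
  rw [Measure.volume_eq_prod, Measure.prod_prod, Real.volume_Icc]
  rw [← ENNReal.ofReal_mul (by norm_num)]
  norm_num

theorem meas_d1 {f : ℝ × ℝ → ℝ} (hf : ContDiff ℝ 1 f) : Measurable (d1 f) := by
  have h : ContDiff ℝ (0 : ℕ) (d1 f) := contDiff_d1 (k := 0) (by simpa using hf)
  exact h.continuous.measurable

/-- the general estimate -/
theorem main (k a b c : ℝ × ℝ → ℝ) (s D : ℝ) (hs : 0 < s) (hD : 0 ≤ D)
    (ha : Measurable a) (hb : Measurable b) (hc : Measurable c)
    (h : ∀ x, |k x| + |d1 k x| ≤ 1 / s * (1 + |a x| + |b x| + |c x|))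
    (ia : ∀ y, ∫⁻ r, ENNReal.ofReal |a (r, y)| ≤ ENNReal.ofReal D)
    (ib : ∀ y, ∫⁻ r, ENNReal.ofReal |b (r, y)| ≤ ENNReal.ofReal D)
    (ic : ∀ y, ∫⁻ r, ENNReal.ofReal |c (r, y)| ≤ ENNReal.ofReal D) :
    ∫⁻ x in Sq, ENNReal.ofReal (|k x| + |d1 k x|) ≤ ENNReal.ofReal ((4 + 6 * D) / s) := by
  have m1 : Measurable fun x => ENNReal.ofReal |a x| := by fun_prop
  have m2 : Measurable fun x => ENNReal.ofReal |b x| := by fun_prop
  have m3 : Measurable fun x => ENNReal.ofReal |c x| := by fun_prop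
  calc ∫⁻ x in Sq, ENNReal.ofReal (|k x| + |d1 k x|)
      ≤ ∫⁻ x in Sq, ENNReal.ofReal (1 / s) * (((1 + ENNReal.ofReal |a x|) + ENNReal.ofReal |b x|)
          + ENNReal.ofReal |c x|) := by
        refine lintegral_mono fun x => ?_
        refine (ENNReal.ofReal_le_ofReal (h x)).trans (le_of_eq ?_)
        rw [ENNReal.ofReal_mul (by positivity), ENNReal.ofReal_add (by positivity) (by positivity),
          ENNReal.ofReal_add (by positivity) (by positivity),
          ENNReal.ofReal_add (by positivity) (by positivity), ENNReal.ofReal_one]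
    _ = ENNReal.ofReal (1 / s) * (((volume Sq + ∫⁻ x in Sq, ENNReal.ofReal |a x|) +
          ∫⁻ x in Sq, ENNReal.ofReal |b x|) + ∫⁻ x in Sq, ENNReal.ofReal |c x|) := by
        rw [lintegral_const_mul _ (by fun_prop), lintegral_add_right _ m3,
          lintegral_add_right _ m2, lintegral_add_right _ m1, lintegral_const,
          Measure.restrict_apply_univ, one_mul]
    _ ≤ ENNReal.ofReal (1 / s) * (((4 + 2 * ENNReal.ofReal D) + 2 * ENNReal.ofReal D) +
          2 * ENNReal.ofReal D) := by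
        rw [vol_Sq]
        gcongr
        · exact tonelli a ha _ ia
        · exact tonelli b hb _ ib
        · exact tonelli c hc _ ic
    _ = ENNReal.ofReal ((4 + 6 * D) / s) := by
        have e2 : (2 : ℝ≥0∞) * ENNReal.ofReal D = ENNReal.ofReal (2 * D) := by
          rw [ENNReal.ofReal_mul (by norm_num)]
          norm_num
        have e4 : (4 : ℝ≥0∞) = ENNReal.ofReal 4 := by norm_num
        rw [e2, e4, ← ENNReal.ofReal_add (by positivity) (by positivity),
          ← ENNReal.ofReal_add (by positivity) (by positivity),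
          ← ENNReal.ofReal_add (by positivity) (by positivity),
          ← ENNReal.ofReal_mul (by positivity)]
        congr 1
        ring

theorem abs_kap_le (r : ℝ) : |kap r| ≤ 1 := by
  rw [abs_of_nonneg (kap_nonneg r)]
  exact kap_le_one r

end FAR_

open FAR_

theorem t_far (h1 : T_TV) (h2 : T_BUMP) (h3 : T_EC) : T_FAR := by
  obtain ⟨C0, hC0, hTV⟩ := h1
  obtain ⟨hrho, hrho1, -⟩ := h2
  refine ⟨4 + 6 * C0, by positivity, ?_⟩
  intro n F s hn hF hs
  have hs0 : 0 < s := by linarith
  have hn1 : (1 : ℝ) ≤ n := by exact_mod_cast hn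
  obtain ⟨hec, -, -, -, -⟩ := h3 n F s hF hs0
  have hR : ContDiff ℝ 1 (fun x => rho (d1 F x / s)) :=
    hrho.comp ((hF.d1.contDiff).div_const s)
  have hK : ContDiff ℝ 1 (fun x => kap (d2 F x / s)) :=
    (kap_contDiff (k := 1)).comp ((hF.d2.contDiff).div_const s)
  have dec : ∀ x, DifferentiableAt ℝ (ec F s) x := fun x => hec.differentiable (by simp) x
  have dR : ∀ x, DifferentiableAt ℝ (fun x => rho (d1 F x / s)) x :=
    fun x => hR.differentiable (by simp) x
  have dK : ∀ x, DifferentiableAt ℝ (fun x => kap (d2 F x / s)) x :=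
    fun x => hK.differentiable (by simp) x
  have dRs : ∀ x, DifferentiableAt ℝ (fun x => rho (d1 F x / s) / s) x :=
    fun x => (hR.div_const s).differentiable (by simp) x
  have aec : ∀ x, |ec F s x| ≤ 1 := fun x => abs_eta_le _
  have hkf : ContDiff ℝ 1 (kf F s) := hec.mul (hR.div_const s)
  have hkg : ContDiff ℝ 1 (kg F s) := (hec.mul hK).mul (hR.div_const s)
  have hfin : ∀ D : ℝ, D = C0 * n → (4 + 6 * D) / s ≤ (4 + 6 * C0) * n / s := by
    intro D hD
    rw [hD]
    apply div_le_div_of_nonneg_right _ hs0.le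
    nlinarith
  have hTVy : ∀ y, _ := fun y => hTV n F s y hF hs
  have hrs : ∀ x, |rho (d1 F x / s) / s| ≤ 1 / s := by
    intro x
    rw [abs_div, abs_of_pos hs0]
    exact div_le_div_of_nonneg_right (hrho1 _) hs0.le
  have hdr : ∀ x, |d1 (fun x => rho (d1 F x / s) / s) x| =
      1 / s * |d1 (fun x => rho (d1 F x / s)) x| := by
    intro x
    rw [d1_div_const (fun x => rho (d1 F x / s)) s x, abs_div, abs_of_pos hs0]
    ring
  have hs1 : 0 < 1 / s := by positivity
  refine ⟨hkf, hkg, ?_, ?_⟩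
  · refine (main (kf F s) (d1 (ec F s)) (d1 (fun x => kap (d2 F x / s)))
      (d1 (fun x => rho (d1 F x / s))) s (C0 * n) hs0 (by positivity) (meas_d1 hec) (meas_d1 hK)
      (meas_d1 hR) ?_ (fun y => (hTVy y).1) (fun y => (hTVy y).2.1)
      (fun y => (hTVy y).2.2)).trans (ENNReal.ofReal_le_ofReal (hfin _ rfl))
    intro x
    have e1 : |kf F s x| ≤ 1 / s := by
      unfold kf
      rw [abs_mul]
      calc _ ≤ 1 * (1 / s) := mul_le_mul (aec x) (hrs x) (abs_nonneg _) zero_le_one
        _ = 1 / s := one_mul _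
    have e2 : |d1 (kf F s) x| ≤ |d1 (ec F s) x| * (1 / s) +
        1 * (1 / s * |d1 (fun x => rho (d1 F x / s)) x|) := by
      have e3 : d1 (kf F s) x = d1 (ec F s) x * (rho (d1 F x / s) / s) +
          ec F s x * d1 (fun x => rho (d1 F x / s) / s) x := d1_mul (dec x) (dRs x)
      rw [e3]
      refine (abs_add_le _ _).trans (add_le_add ?_ ?_)
      · rw [abs_mul]
        exact mul_le_mul_of_nonneg_left (hrs x) (abs_nonneg _)
      · rw [abs_mul, hdr x]
        exact mul_le_mul_of_nonneg_right (aec x) (by positivity)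
    have e4 : 0 ≤ 1 / s * |d1 (fun x => kap (d2 F x / s)) x| := by positivity
    linarith
  · refine (main (kg F s) (d1 (ec F s)) (d1 (fun x => kap (d2 F x / s)))
      (d1 (fun x => rho (d1 F x / s))) s (C0 * n) hs0 (by positivity) (meas_d1 hec) (meas_d1 hK)
      (meas_d1 hR) ?_ (fun y => (hTVy y).1) (fun y => (hTVy y).2.1)
      (fun y => (hTVy y).2.2)).trans (ENNReal.ofReal_le_ofReal (hfin _ rfl))
    intro x
    have a1 : |ec F s x * kap (d2 F x / s)| ≤ 1 := by
      rw [abs_mul]
      calc _ ≤ 1 * 1 := mul_le_mul (aec x) (abs_kap_le _) (abs_nonneg _) zero_le_one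
        _ = 1 := one_mul _
    have e1 : |kg F s x| ≤ 1 / s := by
      unfold kg
      rw [abs_mul]
      calc _ ≤ 1 * (1 / s) := mul_le_mul a1 (hrs x) (abs_nonneg _) zero_le_one
        _ = 1 / s := one_mul _
    have a2 : |d1 (fun x => ec F s x * kap (d2 F x / s)) x| ≤
        |d1 (ec F s) x| + |d1 (fun x => kap (d2 F x / s)) x| := by
      rw [d1_mul (dec x) (dK x)]
      refine (abs_add_le _ _).trans (add_le_add ?_ ?_)
      · rw [abs_mul]
        calc _ ≤ |d1 (ec F s) x| * 1 :=
              mul_le_mul_of_nonneg_left (abs_kap_le _) (abs_nonneg _)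
          _ = _ := mul_one _
      · rw [abs_mul]
        calc _ ≤ 1 * |d1 (fun x => kap (d2 F x / s)) x| :=
              mul_le_mul_of_nonneg_right (aec x) (abs_nonneg _)
          _ = _ := one_mul _
    have e2 : |d1 (kg F s) x| ≤
        (|d1 (ec F s) x| + |d1 (fun x => kap (d2 F x / s)) x|) * (1 / s) +
        1 * (1 / s * |d1 (fun x => rho (d1 F x / s)) x|) := by
      have e3 : d1 (kg F s) x = d1 (fun x => ec F s x * kap (d2 F x / s)) x *
          (rho (d1 F x / s) / s) + (ec F s x * kap (d2 F x / s)) *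
          d1 (fun x => rho (d1 F x / s) / s) x :=
        d1_mul ((dec x).mul (dK x)) (dRs x)
      rw [e3]
      refine (abs_add_le _ _).trans (add_le_add ?_ ?_)
      · rw [abs_mul]
        exact mul_le_mul a2 (hrs x) (abs_nonneg _) (by positivity)
      · rw [abs_mul, hdr x]
        exact mul_le_mul_of_nonneg_right a1 (by positivity)
    linarith

end Pool.Agent.Chirp
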