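import Mathlib
import Pool.Agent.Chirp.Targets

/-!
# Three elementary integrals
-/

set_option autoImplicit false

namespace Pool.Agent.Chirp

open MeasureTheory Set Filter
open scoped ENNReal NNReal

namespace G_

/-- The integral of an even function. -/
theorem half {a : ℝ} {f : ℝ → ℝ≥0∞} (hf : Measurable f) (he : ∀ v, f (-v) = f v) :
    ∫⁻ v in Icc (-a) a, f v ≤ 2 * ∫⁻ v in Icc 0 a, f v := by
  have h1 : Icc (-a) a ⊆ Icc 0 a ∪ Icc (-a) 0 := by
    intro v hv
    rcases le_total 0 v with h | h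
    · exact Or.inl ⟨h, hv.2⟩
    · exact Or.inr ⟨hv.1, h⟩
  have h2 : ∫⁻ v in Icc (-a) 0, f v = ∫⁻ v in Icc 0 a, f v := by
    have h3 := (Measure.measurePreserving_neg (volume : Measure ℝ)).setLIntegral_comp_preimage
      (s := Icc 0 a) measurableSet_Icc hf
    have h4 : Neg.neg ⁻¹' Icc (0 : ℝ) a = Icc (-a) 0 := by
      ext v
      simp only [Set.mem_preimage, Set.mem_Icc]
      constructor
      · rintro ⟨h5, h6⟩
        exact ⟨by linarith, by linarith⟩
      · rintro ⟨h5, h6⟩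
        exact ⟨by linarith, by linarith⟩
    rw [h4] at h3
    rw [← h3]
    exact lintegral_congr fun v => (he v).symm
  calc ∫⁻ v in Icc (-a) a, f v ≤ ∫⁻ v in Icc 0 a ∪ Icc (-a) 0, f v := lintegral_mono_set h1
    _ ≤ (∫⁻ v in Icc 0 a, f v) + ∫⁻ v in Icc (-a) 0, f v := lintegral_union_le _ _ _
    _ = 2 * ∫⁻ v in Icc 0 a, f v := by rw [h2, two_mul]

/-- The third integral. -/
theorem int3 {s : ℝ} (hs : 1 ≤ s) :
    ∫⁻ v in Icc (-(2 * s)) (2 * s), ENNReal.ofReal (min (√s) (s / |v|)) ≤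
      ENNReal.ofReal (4 * s * (1 + Real.log s)) := by
  have hs0 : 0 < s := by linarith
  have hq : 0 < √s := Real.sqrt_pos.2 hs0
  have hqs : √s * √s = s := Real.mul_self_sqrt hs0.le
  have hq1 : 1 ≤ √s := by
    rw [Real.one_le_sqrt]
    exact hs
  have hq2 : √s ≤ 2 * s := by nlinarith
  have hm : Measurable fun v : ℝ => ENNReal.ofReal (min (√s) (s / |v|)) :=
    (measurable_const.min (measurable_const.div measurable_norm)).ennreal_ofReal
  refine (half hm fun v => by rw [abs_neg]).trans ?_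
  have h1 : ∫⁻ v in Icc 0 (2 * s), ENNReal.ofReal (min (√s) (s / |v|)) ≤
      ENNReal.ofReal s + ENNReal.ofReal (s * Real.log (2 * √s)) := by
    have hsub : Icc 0 (2 * s) ⊆ Icc 0 (√s) ∪ Ioc (√s) (2 * s) := by
      intro v hv
      rcases le_or_gt v (√s) with h | h
      · exact Or.inl ⟨hv.1, h⟩
      · exact Or.inr ⟨h, hv.2⟩
    refine (lintegral_mono_set hsub).trans ((lintegral_union_le _ _ _).trans (add_le_add ?_ ?_))
    · calc ∫⁻ v in Icc 0 (√s), ENNReal.ofReal (min (√s) (s / |v|)) ≤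
          ∫⁻ _ in Icc 0 (√s), ENNReal.ofReal (√s) :=
            lintegral_mono fun v => ENNReal.ofReal_le_ofReal (min_le_left _ _)
        _ = ENNReal.ofReal s := by
            rw [setLIntegral_const, Real.volume_Icc, sub_zero, ← ENNReal.ofReal_mul hq.le, hqs]
    · have hc : ContinuousOn (fun v : ℝ => s * v⁻¹) (Icc (√s) (2 * s)) := by
        refine continuousOn_const.mul (continuousOn_inv₀.mono fun v hv => ?_)
        exact (lt_of_lt_of_le hq hv.1).ne'
      have hi : IntegrableOn (fun v : ℝ => s * v⁻¹) (Ioc (√s) (2 * s)) :=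
        (hc.integrableOn_compact isCompact_Icc).mono_set Ioc_subset_Icc_self
      have hn : 0 ≤ᵐ[volume.restrict (Ioc (√s) (2 * s))] fun v : ℝ => s * v⁻¹ := by
        refine (ae_restrict_iff' measurableSet_Ioc).2 (ae_of_all _ fun v hv => ?_)
        have hv0 : 0 < v := hq.trans hv.1
        exact (by positivity : 0 ≤ s * v⁻¹)
      calc ∫⁻ v in Ioc (√s) (2 * s), ENNReal.ofReal (min (√s) (s / |v|)) ≤
          ∫⁻ v in Ioc (√s) (2 * s), ENNReal.ofReal (s * v⁻¹) := by
            refine setLIntegral_mono' measurableSet_Ioc fun v hv => ENNReal.ofReal_le_ofReal ?_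
            have hv0 : 0 < v := hq.trans hv.1
            rw [abs_of_pos hv0, div_eq_mul_inv]
            exact min_le_right _ _
        _ = ENNReal.ofReal (∫ v in Ioc (√s) (2 * s), s * v⁻¹) :=
            (ofReal_integral_eq_lintegral_ofReal hi hn).symm
        _ = ENNReal.ofReal (s * Real.log (2 * √s)) := by
            rw [← intervalIntegral.integral_of_le hq2, intervalIntegral.integral_const_mul,
              integral_inv_of_pos hq (by linarith)]
            congr 3
            rw [div_eq_iff hq.ne']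
            nlinarith
  have hl : Real.log (2 * √s) = Real.log 2 + Real.log s / 2 := by
    rw [Real.log_mul (by norm_num) hq.ne', Real.log_sqrt hs0.le]
  have hl0 : 0 ≤ Real.log s := Real.log_nonneg hs
  have hl2 : Real.log 2 ≤ 1 := by
    have := Real.log_two_lt_d9
    linarith
  have hl20 : 0 ≤ Real.log 2 := Real.log_nonneg (by norm_num)
  calc 2 * ∫⁻ v in Icc 0 (2 * s), ENNReal.ofReal (min (√s) (s / |v|)) ≤
      2 * (ENNReal.ofReal s + ENNReal.ofReal (s * Real.log (2 * √s))) := by gcongr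
    _ = ENNReal.ofReal (2 * (s + s * Real.log (2 * √s))) := by
        rw [ENNReal.ofReal_mul (p := 2) (by norm_num), ENNReal.ofReal_add hs0.le ?_,
          ENNReal.ofReal_ofNat]
        rw [hl]
        positivity
    _ ≤ ENNReal.ofReal (4 * s * (1 + Real.log s)) := by
        refine ENNReal.ofReal_le_ofReal ?_
        rw [hl]
        nlinarith [mul_nonneg hs0.le hl0, mul_le_mul_of_nonneg_left hl2 hs0.le]

/-- The Cauchy integral. -/
theorem cauchy {s A : ℝ} (hs : 0 ≤ s) (hA : 0 < A) :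
    ∫⁻ y : ℝ, ENNReal.ofReal (s / (A + y ^ 2)) = ENNReal.ofReal (Real.pi * (s / √A)) := by
  have hq : 0 < √A := Real.sqrt_pos.2 hA
  have hqq : √A * √A = A := Real.mul_self_sqrt hA.le
  have e1 : (fun y : ℝ => s / (A + y ^ 2)) = fun y => s / A * (1 + (y / √A) ^ 2)⁻¹ := by
    funext y
    rw [div_pow, Real.sq_sqrt hA.le]
    field_simp
  have i1 : Integrable fun y : ℝ => (1 + (y / √A) ^ 2)⁻¹ :=
    integrable_inv_one_add_sq.comp_div hq.ne'
  have i2 : Integrable fun y : ℝ => s / (A + y ^ 2) := by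
    rw [e1]
    exact i1.const_mul _
  have hn : 0 ≤ᵐ[volume] fun y : ℝ => s / (A + y ^ 2) :=
    ae_of_all _ fun y => (by positivity : (0 : ℝ) ≤ s / (A + y ^ 2))
  rw [← ofReal_integral_eq_lintegral_ofReal i2 hn, e1]
  congr 1
  rw [integral_const_mul, Measure.integral_comp_div (fun y : ℝ => (1 + y ^ 2)⁻¹) (√A),
    integral_univ_inv_one_add_sq, smul_eq_mul, abs_of_pos hq]
  have h2 : s / A * √A = s / √A := by
    rw [div_mul_eq_mul_div, div_eq_div_iff hA.ne' hq.ne', mul_assoc, hqq]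
  rw [← mul_assoc, h2, mul_comm]

/-- The region of integration. -/
theorem region (s : ℝ) : {y : ℝ × ℝ | |y.1| ≤ 2 * s ∧ |y.2| ≤ 2 * s} ⊆
    Icc (-(2 * s)) (2 * s) ×ˢ univ := by
  rintro ⟨x, y⟩ ⟨h1, _⟩
  exact ⟨abs_le.1 h1, mem_univ _⟩

/-- Tonelli on the region. -/
theorem tonelli {s : ℝ} {f : ℝ × ℝ → ℝ≥0∞} (hf : Measurable f) :
    ∫⁻ y in {y : ℝ × ℝ | |y.1| ≤ 2 * s ∧ |y.2| ≤ 2 * s}, f y ≤
      ∫⁻ x in Icc (-(2 * s)) (2 * s), ∫⁻ y, f (x, y) := by
  refine (lintegral_mono_set (region s)).trans ?_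
  rw [Measure.volume_eq_prod, ← Measure.prod_restrict, Measure.restrict_univ,
    lintegral_prod _ hf.aemeasurable]

end G_

/-- Elementary integrals. -/
theorem t_g : T_G := by
  refine ⟨16, by norm_num, fun s hs => ?_⟩
  have hs0 : 0 < s := by linarith
  have hl0 : 0 ≤ Real.log s := Real.log_nonneg hs
  have hpi : Real.pi ≤ 4 := Real.pi_le_four
  have hp0 : 0 < Real.pi := Real.pi_pos
  refine ⟨?_, ?_, ?_⟩
  · refine (G_.tonelli (by fun_prop)).trans ?_
    have h0 : ∀ᵐ x : ℝ ∂volume.restrict (Icc (-(2 * s)) (2 * s)), x ≠ 0 :=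
      ae_restrict_of_ae (compl_mem_ae_iff.2 (measure_singleton (0 : ℝ)))
    have h1 : ∀ x : ℝ, x ≠ 0 → ∫⁻ y : ℝ, ENNReal.ofReal (s / (s + (x ^ 2 + y ^ 2))) ≤
        ENNReal.ofReal Real.pi * ENNReal.ofReal (min (√s) (s / |x|)) := by
      intro x hx
      have h2 : ∀ y : ℝ, s / (s + (x ^ 2 + y ^ 2)) = s / ((s + x ^ 2) + y ^ 2) := fun y => by
        rw [add_assoc]
      simp only [h2]
      have hA : 0 < s + x ^ 2 := by positivity
      rw [G_.cauchy hs0.le hA, ← ENNReal.ofReal_mul hp0.le]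
      refine ENNReal.ofReal_le_ofReal (mul_le_mul_of_nonneg_left (le_min ?_ ?_) hp0.le)
      · rw [div_le_iff₀ (Real.sqrt_pos.2 hA), ← Real.sqrt_mul hs0.le]
        exact Real.le_sqrt_of_sq_le (by nlinarith [sq_nonneg x])
      · refine div_le_div_of_nonneg_left hs0.le (abs_pos.2 hx) ?_
        exact Real.le_sqrt_of_sq_le (by rw [sq_abs]; linarith)
    refine (lintegral_mono_ae (h0.mono fun x hx => h1 x hx)).trans ?_
    rw [lintegral_const_mul]
    · refine (mul_le_mul_right (G_.int3 hs) (ENNReal.ofReal Real.pi)).trans ?_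
      rw [← ENNReal.ofReal_mul hp0.le]
      refine ENNReal.ofReal_le_ofReal ?_
      have := mul_le_mul_of_nonneg_right hpi (show 0 ≤ 4 * s * (1 + Real.log s) by positivity)
      linarith
    · exact (measurable_const.min (measurable_const.div measurable_norm)).ennreal_ofReal
  · refine (G_.tonelli (by fun_prop)).trans ?_
    have h1 : ∀ x : ℝ, ∫⁻ y : ℝ, ENNReal.ofReal (s / (s + (x ^ 2 + y ^ 2)) * |x|) ≤
        ENNReal.ofReal (Real.pi * s) := by
      intro x
      have h2 : ∀ y : ℝ, s / (s + (x ^ 2 + y ^ 2)) * |x| = (s * |x|) / ((s + x ^ 2) + y ^ 2) :=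
        fun y => by
          rw [add_assoc, div_mul_eq_mul_div]
      simp only [h2]
      have hA : 0 < s + x ^ 2 := by positivity
      rw [G_.cauchy (by positivity) hA]
      refine ENNReal.ofReal_le_ofReal (mul_le_mul_of_nonneg_left ?_ hp0.le)
      rw [div_le_iff₀ (Real.sqrt_pos.2 hA)]
      refine mul_le_mul_of_nonneg_left ?_ hs0.le
      exact Real.le_sqrt_of_sq_le (by rw [sq_abs]; linarith)
    refine (lintegral_mono fun x => h1 x).trans ?_
    rw [setLIntegral_const, Real.volume_Icc, ← ENNReal.ofReal_mul (by positivity)]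
    refine ENNReal.ofReal_le_ofReal ?_
    nlinarith [mul_le_mul_of_nonneg_right hpi (show 0 ≤ 4 * s ^ 2 by positivity)]
  · have h1 : {v : ℝ | |v| ≤ 2 * s} = Icc (-(2 * s)) (2 * s) := by
      ext v
      rw [Set.mem_setOf_eq, Set.mem_Icc]
      exact abs_le
    rw [h1]
    refine (G_.int3 hs).trans (ENNReal.ofReal_le_ofReal ?_)
    nlinarith [show 0 ≤ s * (1 + Real.log s) by positivity]

end Pool.Agent.Chirp
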