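import Mathlib
import Pool.Agent.Chirp.Targets

/-!
# HOL: Hoelder for series with a small exponential loss
-/

namespace Pool.Agent.Chirp

open MeasureTheory Set Filter
open scoped ENNReal NNReal

theorem t_hol : T_HOL := by
  intro q η hq hη
  rcases eq_or_lt_of_le hq with rfl | hq1
  · refine ⟨1, fun z => ?_⟩
    rw [ENNReal.rpow_one, ENNReal.coe_one, one_mul]
    refine ENNReal.tsum_le_tsum fun b => ?_
    rw [ENNReal.rpow_one]
    have h1 : (1 : ℝ≥0∞) ≤ ENNReal.ofReal ((2 : ℝ) ^ (η * b)) := by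
      rw [← ENNReal.ofReal_one]
      exact ENNReal.ofReal_le_ofReal (Real.one_le_rpow (by norm_num) (by positivity))
    calc z b = 1 * z b := (one_mul _).symm
      _ ≤ _ := mul_le_mul_left h1 _
  · set p : ℝ := q / (q - 1) with hp
    have hpq : p.HolderConjugate q := (Real.HolderConjugate.conjExponent hq1).symm
    have hq0 : 0 < q := by linarith
    have hp0 : 0 < p := div_pos hq0 (by linarith)
    set w : ℕ → ℝ≥0∞ := fun b => ENNReal.ofReal ((2 : ℝ) ^ (-(η * b / q))) with hw
    set u : ℕ → ℝ≥0∞ := fun b => ENNReal.ofReal ((2 : ℝ) ^ (η * b / q)) with hu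
    -- the series of the weights
    have hwp : ∀ b, w b ^ p = ENNReal.ofReal (((2 : ℝ) ^ (-(η * p / q))) ^ b) := by
      intro b
      rw [hw]
      beta_reduce
      rw [ENNReal.ofReal_rpow_of_nonneg (by positivity) hp0.le, ← Real.rpow_mul (by norm_num),
        ← Real.rpow_natCast, ← Real.rpow_mul (by norm_num)]
      congr 2
      ring
    have hr0 : 0 ≤ (2 : ℝ) ^ (-(η * p / q)) := by positivity
    have hr1 : (2 : ℝ) ^ (-(η * p / q)) < 1 :=
      Real.rpow_lt_one_of_one_lt_of_neg (by norm_num) (by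
        have : 0 < η * p / q := by positivity
        linarith)
    have hsum : ∑' b, w b ^ p ≠ ∞ := by
      simp only [hwp]
      rw [← ENNReal.ofReal_tsum_of_nonneg (fun b => pow_nonneg hr0 b)
        (summable_geometric_of_lt_one hr0 hr1)]
      exact ENNReal.ofReal_ne_top
    set K : ℝ≥0∞ := (∑' b, w b ^ p) ^ (q / p) with hK
    have hKtop : K ≠ ∞ := ENNReal.rpow_ne_top_of_nonneg (by positivity) hsum
    refine ⟨K.toNNReal, fun z => ?_⟩
    rw [ENNReal.coe_toNNReal hKtop]
    have hz : ∀ b, z b = w b * (u b * z b) := by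
      intro b
      rw [← mul_assoc, hw, hu]
      beta_reduce
      rw [← ENNReal.ofReal_mul (by positivity), ← Real.rpow_add (by norm_num), neg_add_cancel,
        Real.rpow_zero, ENNReal.ofReal_one, one_mul]
    have hfin : ∀ s : Finset ℕ, (∑ b ∈ s, z b) ^ q ≤
        K * ∑' b : ℕ, ENNReal.ofReal ((2 : ℝ) ^ (η * b)) * z b ^ q := by
      intro s
      have h1 := ENNReal.inner_le_Lp_mul_Lq s w (fun b => u b * z b) hpq
      have h2 : ∑ b ∈ s, z b = ∑ b ∈ s, w b * (u b * z b) :=
        Finset.sum_congr rfl fun b _ => hz b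
      rw [h2]
      refine (ENNReal.rpow_le_rpow h1 hq0.le).trans ?_
      rw [ENNReal.mul_rpow_of_nonneg _ _ hq0.le, ← ENNReal.rpow_mul, ← ENNReal.rpow_mul,
        one_div_mul_cancel hq0.ne', ENNReal.rpow_one]
      refine mul_le_mul' ?_ ?_
      · rw [hK, one_div, inv_mul_eq_div]
        exact ENNReal.rpow_le_rpow (ENNReal.sum_le_tsum s) (by positivity)
      · refine (ENNReal.sum_le_tsum s).trans (ENNReal.tsum_le_tsum fun b => ?_)
        rw [ENNReal.mul_rpow_of_nonneg _ _ hq0.le, hu]
        beta_reduce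
        rw [ENNReal.ofReal_rpow_of_nonneg (by positivity) hq0.le, ← Real.rpow_mul (by norm_num),
          div_mul_cancel₀ _ hq0.ne']
    have hlim : Tendsto (fun s : Finset ℕ => (∑ b ∈ s, z b) ^ q) atTop (nhds ((∑' b, z b) ^ q)) :=
      (ENNReal.continuous_rpow_const.tendsto _).comp ENNReal.summable.hasSum
    exact le_of_tendsto' hlim hfin

end Pool.Agent.Chirp
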