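import Mathlib
import Pool.Agent.Chirp.Targets

/-!
# Integration by parts on a union of few intervals
-/

set_option autoImplicit false

namespace Pool.Agent.Chirp

open MeasureTheory Set Filter
open scoped ENNReal NNReal
open Pool.Agent.H27.Fib (Few)

namespace IBP1_

/-- The union of an interval with intervals that meet it is an interval. -/
theorem ordConnected_union {I : Set ℝ} (hI : I.OrdConnected) (C : Set (Set ℝ))
    (hC : ∀ s ∈ C, s.OrdConnected ∧ (s ∩ I).Nonempty) : (I ∪ ⋃ s ∈ C, s).OrdConnected := by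
  rw [← isPreconnected_iff_ordConnected]
  rcases I.eq_empty_or_nonempty with h0 | ⟨x, hx⟩
  · have h1 : I ∪ ⋃ s ∈ C, s = ∅ := by
      rw [h0, Set.empty_union, Set.eq_empty_iff_forall_notMem]
      intro x hx
      obtain ⟨s, hs, _⟩ := Set.mem_iUnion₂.1 hx
      have h2 := (hC s hs).2
      rw [h0, Set.inter_empty] at h2
      exact absurd h2 Set.not_nonempty_empty
    rw [h1]
    exact isPreconnected_empty
  · refine isPreconnected_of_forall x fun y hy => ?_
    rcases hy with hy | hy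
    · exact ⟨I, Set.subset_union_left, hx, hy, isPreconnected_iff_ordConnected.2 hI⟩
    · rw [Set.mem_iUnion₂] at hy
      obtain ⟨s, hs, hys⟩ := hy
      refine ⟨s ∪ I, ?_, Or.inr hx, Or.inl hys, IsPreconnected.union' (hC s hs).2
        (isPreconnected_iff_ordConnected.2 (hC s hs).1) (isPreconnected_iff_ordConnected.2 hI)⟩
      exact Set.union_subset ((Set.subset_biUnion_of_mem (u := fun s : Set ℝ => s) hs).trans
        Set.subset_union_right) Set.subset_union_left

/-- A union of `m` intervals is a disjoint union of at most `m` intervals. -/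
theorem few_disjoint (m : ℕ) : ∀ J : Set ℝ, Few m J →
    ∃ S : Finset (Set ℝ), S.card ≤ m ∧ (∀ s ∈ S, s.OrdConnected) ∧
      (S : Set (Set ℝ)).PairwiseDisjoint id ∧ J = ⋃ s ∈ S, s := by
  classical
  induction m with
  | zero =>
    rintro J ⟨P, hP, rfl⟩
    refine ⟨∅, le_rfl, by simp, by simp, by simp⟩
  | succ m ih =>
    rintro J ⟨P, hP, rfl⟩
    obtain ⟨S, h1, h2, h3, h4⟩ := ih (⋃ i : Fin m, P i.succ) ⟨fun i => P i.succ,
      fun i => hP _, rfl⟩
    have hu : (⋃ i, P i) = P 0 ∪ ⋃ i : Fin m, P i.succ := by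
      ext x
      simp only [Set.mem_iUnion, Set.mem_union]
      exact Fin.exists_fin_succ
    rw [hu, h4]
    set S1 := S.filter fun s => (s ∩ P 0).Nonempty with hS1
    set S2 := S.filter fun s => ¬ (s ∩ P 0).Nonempty with hS2
    set I := P 0 ∪ ⋃ s ∈ (S1 : Set (Set ℝ)), s with hI
    have m1 : ∀ s, s ∈ S1 ↔ s ∈ S ∧ (s ∩ P 0).Nonempty := fun s => Finset.mem_filter
    have m2 : ∀ s, s ∈ S2 ↔ s ∈ S ∧ ¬ (s ∩ P 0).Nonempty := fun s => Finset.mem_filter
    have hIc : I.OrdConnected := ordConnected_union (hP 0) _ fun s hs =>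
      ⟨h2 s ((m1 s).1 hs).1, ((m1 s).1 hs).2⟩
    have hd : ∀ s ∈ S2, Disjoint I s := by
      intro s hs
      rw [Set.disjoint_left]
      rintro x (hx | hx) hxs
      · exact ((m2 s).1 hs).2 ⟨x, hxs, hx⟩
      · rw [Set.mem_iUnion₂] at hx
        obtain ⟨t, ht, hxt⟩ := hx
        have hne : t ≠ s := fun h => ((m2 s).1 hs).2 (h ▸ ((m1 t).1 ht).2)
        exact Set.disjoint_left.1 (h3 ((m1 t).1 ht).1 ((m2 s).1 hs).1 hne) hxt hxs
    refine ⟨insert I S2, ?_, ?_, ?_, ?_⟩
    · exact (Finset.card_insert_le _ _).trans (Nat.succ_le_succ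
        ((Finset.card_filter_le _ _).trans h1))
    · intro s hs
      rw [Finset.mem_insert] at hs
      rcases hs with rfl | hs
      · exact hIc
      · exact h2 s ((m2 s).1 hs).1
    · intro s hs t ht hne
      rw [Finset.mem_coe, Finset.mem_insert] at hs ht
      rcases hs with hs | hs
      · rcases ht with ht | ht
        · exact absurd (hs.trans ht.symm) hne
        · rw [hs]
          exact hd t ht
      · rcases ht with ht | ht
        · rw [ht]
          exact (hd s hs).symm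
        · exact h3 ((m2 s).1 hs).1 ((m2 t).1 ht).1 hne
    · ext x
      simp only [Set.mem_union, Set.mem_iUnion, Finset.mem_insert, exists_prop, hI,
        Finset.mem_coe, m1, m2]
      constructor
      · rintro (hx | ⟨s, hs, hx⟩)
        · exact ⟨_, Or.inl rfl, Or.inl hx⟩
        · by_cases hn : (s ∩ P 0).Nonempty
          · refine ⟨_, Or.inl rfl, Or.inr ?_⟩
            exact Set.mem_iUnion₂.2 ⟨s, ⟨hs, hn⟩, hx⟩
          · exact ⟨s, Or.inr ⟨hs, hn⟩, hx⟩
      · rintro ⟨s, hs | hs, hx⟩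
        · rw [hs] at hx
          rcases hx with hx | hx
          · exact Or.inl hx
          · obtain ⟨t, ht, hxt⟩ := Set.mem_iUnion₂.1 hx
            exact Or.inr ⟨t, ht.1, hxt⟩
        · exact Or.inr ⟨s, hs.1, hx⟩

/-- A continuously differentiable function is bounded by its Sobolev norm. -/
theorem sup_le {k : ℝ → ℝ} (hk : ContDiff ℝ 1 k) {x : ℝ} (hx : x ∈ Icc (-1 : ℝ) 1) :
    |k x| ≤ ∫ s in Icc (-1 : ℝ) 1, (|k s| + |deriv k s|) := by
  have hkc : Continuous k := hk.continuous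
  have hdc : Continuous (deriv k) := hk.continuous_deriv le_rfl
  have hkd : Differentiable ℝ k := hk.differentiable (by simp)
  have i1 : IntegrableOn (fun s => |k s|) (Icc (-1 : ℝ) 1) :=
    hkc.abs.continuousOn.integrableOn_compact isCompact_Icc
  have i2 : IntegrableOn (fun s => |deriv k s|) (Icc (-1 : ℝ) 1) :=
    hdc.abs.continuousOn.integrableOn_compact isCompact_Icc
  set D := ∫ s in Icc (-1 : ℝ) 1, |deriv k s| with hD
  have hD0 : 0 ≤ D := setIntegral_nonneg measurableSet_Icc fun s _ => abs_nonneg _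
  have h1 : ∀ y ∈ Icc (-1 : ℝ) 1, |k x| - D ≤ |k y| := by
    intro y hy
    have h2 : ∫ s in y..x, deriv k s = k x - k y :=
      intervalIntegral.integral_deriv_eq_sub (fun s _ => hkd s)
        (hdc.intervalIntegrable _ _)
    have h3 : ‖∫ s in y..x, deriv k s‖ ≤ D := by
      refine (intervalIntegral.norm_integral_le_integral_norm_uIoc).trans ?_
      refine setIntegral_mono_set i2 (ae_of_all _ fun s => abs_nonneg _) ?_
      refine LE.le.eventuallyLE ?_
      intro s hs
      have hs' := Set.uIoc_subset_uIcc hs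
      exact (Set.ordConnected_Icc.uIcc_subset hy hx) hs'
    rw [h2, Real.norm_eq_abs] at h3
    have h4 := abs_sub_abs_le_abs_sub (k x) (k y)
    linarith
  have h5 : ∫ _ in Icc (-1 : ℝ) 1, (|k x| - D) ≤ ∫ s in Icc (-1 : ℝ) 1, |k s| :=
    setIntegral_mono_on (integrableOn_const (by simp)) i1 measurableSet_Icc h1
  rw [setIntegral_const, smul_eq_mul, Real.volume_real_Icc_of_le (by norm_num)] at h5
  have h6 : 0 ≤ ∫ s in Icc (-1 : ℝ) 1, |k s| :=
    setIntegral_nonneg measurableSet_Icc fun s _ => abs_nonneg _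
  rw [integral_add i1 i2]
  linarith

/-- Integration by parts on one interval. -/
theorem ibp_Icc {a b : ℝ} (hab : a ≤ b) {k φ θ : ℝ → ℝ} {V M : ℝ} (hk : ContDiff ℝ 1 k)
    (hφ : ContDiff ℝ 1 φ) (hθ : ContDiff ℝ 1 θ) (hV : ∀ s ∈ Ioo a b, |deriv θ s| ≤ V)
    (ha : |k a| ≤ M) (hb : |k b| ≤ M) :
    ‖∫ s in a..b, ((k s * deriv φ s : ℝ) : ℂ) * Complex.exp (Complex.I * ((φ s + θ s : ℝ) : ℂ))‖ ≤
      2 * M + ∫ s in Ioc a b, (|deriv k s| + V * |k s|) := by
  have hkc : Continuous k := hk.continuous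
  have hdk : Continuous (deriv k) := hk.continuous_deriv le_rfl
  have hφc : Continuous φ := hφ.continuous
  have hdφ : Continuous (deriv φ) := hφ.continuous_deriv le_rfl
  have hθc : Continuous θ := hθ.continuous
  have hdθ : Continuous (deriv θ) := hθ.continuous_deriv le_rfl
  set e : ℝ → ℂ := fun s => Complex.exp (Complex.I * ((φ s + θ s : ℝ) : ℂ)) with he
  have hec : Continuous e := by
    rw [he]
    fun_prop
  have hen : ∀ s, ‖e s‖ = 1 := by
    intro s
    rw [he]
    beta_reduce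
    rw [mul_comm]
    exact Complex.norm_exp_ofReal_mul_I _
  have hed : ∀ s, HasDerivAt e (e s * (Complex.I * ((deriv φ s + deriv θ s : ℝ) : ℂ))) s := by
    intro s
    have h1 : HasDerivAt (fun s => φ s + θ s) (deriv φ s + deriv θ s) s :=
      ((hφ.differentiable (by simp)) s).hasDerivAt.add ((hθ.differentiable (by simp)) s).hasDerivAt
    exact (h1.ofReal_comp.const_mul Complex.I).cexp
  have hG : ∀ s, HasDerivAt (fun s => ((k s : ℝ) : ℂ) * e s)
      (((deriv k s : ℝ) : ℂ) * e s + ((k s : ℝ) : ℂ) *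
        (e s * (Complex.I * ((deriv φ s + deriv θ s : ℝ) : ℂ)))) s := by
    intro s
    have h1 : HasDerivAt k (deriv k s) s := ((hk.differentiable (by simp)) s).hasDerivAt
    exact h1.ofReal_comp.mul (hed s)
  have c1 : Continuous fun s => ((k s * deriv φ s : ℝ) : ℂ) * e s := by fun_prop
  have c2 : Continuous fun s => ((deriv k s : ℝ) : ℂ) * e s +
      Complex.I * ((k s * deriv θ s : ℝ) : ℂ) * e s := by fun_prop
  have c0 : Continuous fun s => Complex.I * (((k s * deriv φ s : ℝ) : ℂ) * e s) := by fun_prop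
  have h1 : ∫ s in a..b, (Complex.I * (((k s * deriv φ s : ℝ) : ℂ) * e s) +
      (((deriv k s : ℝ) : ℂ) * e s + Complex.I * ((k s * deriv θ s : ℝ) : ℂ) * e s)) =
      ((k b : ℝ) : ℂ) * e b - ((k a : ℝ) : ℂ) * e a := by
    have h2 := intervalIntegral.integral_eq_sub_of_hasDerivAt (a := a) (b := b)
      (f := fun s => ((k s : ℝ) : ℂ) * e s)
      (f' := fun s => Complex.I * (((k s * deriv φ s : ℝ) : ℂ) * e s) +
      (((deriv k s : ℝ) : ℂ) * e s + Complex.I * ((k s * deriv θ s : ℝ) : ℂ) * e s))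
      (fun s _ => by
        refine (hG s).congr_deriv ?_
        push_cast
        ring) ((c0.add c2).intervalIntegrable _ _)
    exact h2
  rw [intervalIntegral.integral_add (c0.intervalIntegrable _ _)
    (c2.intervalIntegrable _ _), intervalIntegral.integral_const_mul] at h1
  have h3 : ‖∫ s in a..b, ((k s * deriv φ s : ℝ) : ℂ) * e s‖ =
      ‖Complex.I * ∫ s in a..b, ((k s * deriv φ s : ℝ) : ℂ) * e s‖ := by
    rw [norm_mul, Complex.norm_I, one_mul]
  have h4 : ‖∫ s in a..b, (((deriv k s : ℝ) : ℂ) * e s +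
      Complex.I * ((k s * deriv θ s : ℝ) : ℂ) * e s)‖ ≤
      ∫ s in Ioc a b, (|deriv k s| + V * |k s|) := by
    rw [intervalIntegral.integral_of_le hab]
    refine (norm_integral_le_integral_norm _).trans ?_
    rw [integral_Ioc_eq_integral_Ioo, integral_Ioc_eq_integral_Ioo]
    refine setIntegral_mono_on ?_ ?_ measurableSet_Ioo fun s hs => ?_
    · exact (c2.norm.continuousOn.integrableOn_compact isCompact_Icc).mono_set Ioo_subset_Icc_self
    · have c3 : Continuous fun s => |deriv k s| + V * |k s| := by fun_prop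
      exact (c3.continuousOn.integrableOn_compact isCompact_Icc).mono_set Ioo_subset_Icc_self
    · refine (norm_add_le _ _).trans ?_
      rw [norm_mul, norm_mul, norm_mul, hen, Complex.norm_I, mul_one, mul_one, one_mul,
        Complex.norm_real, Complex.norm_real, Real.norm_eq_abs, Real.norm_eq_abs, abs_mul]
      have h5 := mul_le_mul_of_nonneg_left (hV s hs) (abs_nonneg (k s))
      linarith
  have h6 : ‖((k b : ℝ) : ℂ) * e b - ((k a : ℝ) : ℂ) * e a‖ ≤ 2 * M := by
    refine (norm_sub_le _ _).trans ?_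
    rw [norm_mul, norm_mul, hen, hen, mul_one, mul_one, Complex.norm_real, Complex.norm_real,
      Real.norm_eq_abs, Real.norm_eq_abs]
    linarith
  rw [h3, eq_sub_of_add_eq h1]
  exact (norm_sub_le _ _).trans (add_le_add h6 h4)

/-- Integration by parts on one interval of arbitrary kind. -/
theorem ibp_ord {P : Set ℝ} (hP : P.OrdConnected) (hP1 : P ⊆ Icc (-1) 1) {k φ θ : ℝ → ℝ}
    {V M : ℝ} (hk : ContDiff ℝ 1 k) (hφ : ContDiff ℝ 1 φ) (hθ : ContDiff ℝ 1 θ)
    (hV : ∀ s ∈ P, |deriv θ s| ≤ V) (hM : ∀ s ∈ Icc (-1 : ℝ) 1, |k s| ≤ M) :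
    ‖∫ s in P, ((k s * deriv φ s : ℝ) : ℂ) * Complex.exp (Complex.I * ((φ s + θ s : ℝ) : ℂ))‖ ≤
      2 * M + ∫ s in P, (|deriv k s| + V * |k s|) := by
  have hM0 : 0 ≤ M := (abs_nonneg (k 0)).trans (hM 0 (by norm_num))
  rcases P.eq_empty_or_nonempty with h0 | hne
  · rw [h0, setIntegral_empty, setIntegral_empty, norm_zero]
    linarith
  have hbb : BddBelow P := ⟨-1, fun x hx => (hP1 hx).1⟩
  have hba : BddAbove P := ⟨1, fun x hx => (hP1 hx).2⟩
  set a := sInf P with ha
  set b := sSup P with hb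
  have hab : a ≤ b := Real.sInf_le_sSup P hbb hba
  have ha1 : a ∈ Icc (-1 : ℝ) 1 := by
    obtain ⟨x, hx⟩ := hne
    exact ⟨le_csInf ⟨x, hx⟩ fun y hy => (hP1 hy).1, (csInf_le hbb hx).trans (hP1 hx).2⟩
  have hb1 : b ∈ Icc (-1 : ℝ) 1 := by
    obtain ⟨x, hx⟩ := hne
    exact ⟨(hP1 hx).1.trans (le_csSup hba hx), csSup_le ⟨x, hx⟩ fun y hy => (hP1 hy).2⟩
  have hsub : Ioo a b ⊆ P := by
    rintro x ⟨hx1, hx2⟩
    obtain ⟨y, hy, hyx⟩ := exists_lt_of_csInf_lt hne hx1
    obtain ⟨z, hz, hxz⟩ := exists_lt_of_lt_csSup hne hx2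
    exact hP.out hy hz ⟨hyx.le, hxz.le⟩
  have hsup : P ⊆ Icc a b := fun x hx => ⟨csInf_le hbb hx, le_csSup hba hx⟩
  have hae : P =ᵐ[volume] Ioc a b := by
    have e1 : Ioo a b =ᵐ[volume] Icc a b := Ioo_ae_eq_Icc
    have e2 : P =ᵐ[volume] Icc a b :=
      Filter.EventuallyLE.antisymm (LE.le.eventuallyLE hsup)
        (e1.symm.le.trans (LE.le.eventuallyLE hsub))
    exact e2.trans Ioc_ae_eq_Icc.symm
  rw [setIntegral_congr_set hae, setIntegral_congr_set hae, ← intervalIntegral.integral_of_le hab]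
  exact ibp_Icc hab hk hφ hθ (fun s hs => hV s (hsub hs)) (hM a ha1) (hM b hb1)

end IBP1_

/-- Integration by parts on a union of few intervals. -/
theorem t_ibp1 : T_IBP1 := by
  intro m J k φ θ V hJ hJ1 hk hφ hθ hV0 hV
  have hkc : Continuous k := hk.continuous
  have hdk : Continuous (deriv k) := hk.continuous_deriv le_rfl
  have hφc : Continuous φ := hφ.continuous
  have hdφ : Continuous (deriv φ) := hφ.continuous_deriv le_rfl
  have hθc : Continuous θ := hθ.continuous
  set T := ∫ s in Icc (-1 : ℝ) 1, (|k s| + |deriv k s|) with hT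
  have hT0 : 0 ≤ T := setIntegral_nonneg measurableSet_Icc fun s _ => by positivity
  have cT : Continuous fun s => |k s| + |deriv k s| := by fun_prop
  have iT : IntegrableOn (fun s => |k s| + |deriv k s|) (Icc (-1 : ℝ) 1) :=
    cT.continuousOn.integrableOn_compact isCompact_Icc
  have e1 : ∫⁻ s in Icc (-1) 1, ENNReal.ofReal (|k s| + |deriv k s|) = ENNReal.ofReal T :=
    (ofReal_integral_eq_lintegral_ofReal iT (ae_of_all _ fun s => by positivity)).symm
  rw [e1, ← ENNReal.ofReal_mul (by positivity), ← ofReal_norm]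
  refine ENNReal.ofReal_le_ofReal ?_
  obtain ⟨S, hS1, hS2, hS3, hS4⟩ := IBP1_.few_disjoint m J hJ
  have hsub : ∀ s ∈ S, s ⊆ J := fun s hs => by
    rw [hS4]
    exact Set.subset_biUnion_of_mem (u := fun s : Set ℝ => s) (Finset.mem_coe.2 hs)
  have hJ2 : J ⊆ Icc (-1) 1 := hJ1.trans (Icc_subset_Icc (by norm_num) (by norm_num))
  have c1 : Continuous fun s => ((k s * deriv φ s : ℝ) : ℂ) *
      Complex.exp (Complex.I * ((φ s + θ s : ℝ) : ℂ)) := by fun_prop
  have c2 : Continuous fun s => |deriv k s| + V * |k s| := by fun_prop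
  have i1 : ∀ s ∈ S, IntegrableOn (fun s => ((k s * deriv φ s : ℝ) : ℂ) *
      Complex.exp (Complex.I * ((φ s + θ s : ℝ) : ℂ))) s := fun s hs =>
    (c1.continuousOn.integrableOn_compact isCompact_Icc).mono_set ((hsub s hs).trans hJ2)
  have i2' : IntegrableOn (fun s => |deriv k s| + V * |k s|) (Icc (-1 : ℝ) 1) :=
    c2.continuousOn.integrableOn_compact isCompact_Icc
  have i2 : ∀ s ∈ S, IntegrableOn (fun s => |deriv k s| + V * |k s|) s := fun s hs =>
    i2'.mono_set ((hsub s hs).trans hJ2)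
  have hm : ∀ s ∈ S, MeasurableSet s := fun s hs => (hS2 s hs).measurableSet
  have hd : Set.Pairwise (S : Set (Set ℝ)) (Function.onFun Disjoint fun s : Set ℝ => s) := hS3
  have e2 : ∫ s in J, ((k s * deriv φ s : ℝ) : ℂ) *
      Complex.exp (Complex.I * ((φ s + θ s : ℝ) : ℂ)) = ∑ P ∈ S, ∫ s in P,
      ((k s * deriv φ s : ℝ) : ℂ) * Complex.exp (Complex.I * ((φ s + θ s : ℝ) : ℂ)) := by
    rw [hS4]
    exact integral_biUnion_finset S hm hd i1
  have e3 : ∫ s in J, (|deriv k s| + V * |k s|) =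
      ∑ P ∈ S, ∫ s in P, (|deriv k s| + V * |k s|) := by
    rw [hS4]
    exact integral_biUnion_finset S hm hd i2
  have hMs : ∀ s ∈ Icc (-1 : ℝ) 1, |k s| ≤ T := fun s hs => IBP1_.sup_le hk hs
  have h1 : ‖∫ s in J, ((k s * deriv φ s : ℝ) : ℂ) *
      Complex.exp (Complex.I * ((φ s + θ s : ℝ) : ℂ))‖ ≤
      2 * m * T + ∫ s in J, (|deriv k s| + V * |k s|) := by
    rw [e2, e3]
    refine (norm_sum_le _ _).trans ((Finset.sum_le_sum fun P hP =>
      IBP1_.ibp_ord (hS2 P hP) ((hsub P hP).trans hJ2) hk hφ hθ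
        (fun s hs => hV s (hsub P hP hs)) hMs).trans ?_)
    rw [Finset.sum_add_distrib, Finset.sum_const, nsmul_eq_mul]
    have h2 : (S.card : ℝ) ≤ m := by exact_mod_cast hS1
    have h3 : (S.card : ℝ) * (2 * T) ≤ m * (2 * T) := mul_le_mul_of_nonneg_right h2 (by positivity)
    linarith
  have h4 : ∫ s in J, (|deriv k s| + V * |k s|) ≤
      ∫ s in Icc (-1 : ℝ) 1, (|deriv k s| + V * |k s|) :=
    setIntegral_mono_set i2' (ae_of_all _ fun s => by positivity)
      (LE.le.eventuallyLE hJ2)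
  have h5 : ∫ s in Icc (-1 : ℝ) 1, (|deriv k s| + V * |k s|) ≤ (1 + V) * T := by
    rw [hT, ← integral_const_mul]
    refine setIntegral_mono_on i2' (iT.const_mul _) measurableSet_Icc fun s _ => ?_
    nlinarith [abs_nonneg (k s), abs_nonneg (deriv k s),
      mul_nonneg hV0 (abs_nonneg (deriv k s))]
  have h6 : (0 : ℝ) ≤ m := Nat.cast_nonneg m
  nlinarith [mul_nonneg (mul_nonneg h6 hV0) hT0]

end Pool.Agent.Chirp
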