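import Mathlib
import Pool.Agent.Chirp.Targets

/-!
# Polynomial chirps: integration by parts in the first variable
-/

namespace Pool.Agent.Chirp

open MeasureTheory Set Filter
open scoped ENNReal NNReal
open Pool.Agent.Restr (E QQ)
open Pool.Agent.H27.Fib (Few ind vr)

namespace IBP2_

theorem contDiff_line {f : ℝ × ℝ → ℝ} (hf : ContDiff ℝ 1 f) (y : ℝ) :
    ContDiff ℝ 1 (fun s => f (s, y)) :=
  hf.comp (contDiff_id.prodMk contDiff_const)

theorem continuous_d1 {f : ℝ × ℝ → ℝ} (hf : ContDiff ℝ 1 f) : Continuous (d1 f) :=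
  (contDiff_d1 (k := 0) (by simpa using hf)).continuous

end IBP2_

open IBP2_ in
theorem t_ibp2 (h : T_IBP1) : T_IBP2 := by
  intro m A k F θ V hA hAQ hfew hk hF hθ hV hθV
  obtain ⟨g, hg⟩ : ∃ g : ℝ × ℝ → ℂ, g = fun x => ((k x * d1 F x : ℝ) : ℂ) *
    Complex.exp (Complex.I * ((F x + θ x : ℝ) : ℂ)) := ⟨_, rfl⟩
  have hgc : Continuous g := by
    have h1 := continuous_d1 hF
    have h2 := hk.continuous
    have h3 := hF.continuous
    have h4 := hθ.continuous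
    rw [hg]
    fun_prop
  have hcomp : IsCompact (Icc (-(1 / 2) : ℝ) (1 / 2) ×ˢ Icc (-(1 / 2) : ℝ) (1 / 2)) :=
    isCompact_Icc.prod isCompact_Icc
  have hAQ' : A ⊆ Icc (-(1 / 2) : ℝ) (1 / 2) ×ˢ Icc (-(1 / 2) : ℝ) (1 / 2) := hAQ
  have hint : IntegrableOn g A :=
    (hgc.continuousOn.integrableOn_compact hcomp).mono_set hAQ'
  have hint' : Integrable (A.indicator g) := (integrable_indicator_iff hA).2 hint
  have e1 : ∫ x in A, g x = ∫ y, ∫ x, A.indicator g (x, y) := by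
    rw [← integral_indicator hA]
    exact integral_prod_symm _ hint'
  have e2 : ∀ y, ∫ x, A.indicator g (x, y) = ∫ x in {x : ℝ | (x, y) ∈ A}, g (x, y) := by
    intro y
    have hm : MeasurableSet {x : ℝ | (x, y) ∈ A} := measurable_prodMk_right hA
    rw [← integral_indicator hm]
    rfl
  have hmeas : Measurable fun x : ℝ × ℝ => ENNReal.ofReal (|k x| + |d1 k x|) := by
    have h1 := continuous_d1 hk
    have h2 := hk.continuous
    exact (ENNReal.continuous_ofReal.comp (h2.abs.add h1.abs)).measurable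
  have hbd : ∀ᵐ y : ℝ, ‖∫ x in {x : ℝ | (x, y) ∈ A}, g (x, y)‖ₑ ≤
      (Icc (-1 : ℝ) 1).indicator (fun y => ENNReal.ofReal ((2 * m + 1) * (1 + V)) *
        ∫⁻ x in Icc (-1) 1, ENNReal.ofReal (|k (x, y)| + |d1 k (x, y)|)) y := by
    filter_upwards [hfew] with y hy
    by_cases hy1 : y ∈ Icc (-(1 / 2) : ℝ) (1 / 2)
    · have hy2 : y ∈ Icc (-1 : ℝ) 1 := ⟨by linarith [hy1.1], by linarith [hy1.2]⟩
      rw [indicator_of_mem hy2, hg]
      exact h m {x : ℝ | (x, y) ∈ A} (fun s => k (s, y)) (fun s => F (s, y)) (fun s => θ (s, y)) V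
        hy (fun x hx => (hAQ' hx).1) (contDiff_line hk y) (contDiff_line hF y)
        (contDiff_line hθ y) hV (fun s hs => hθV (s, y) hs)
    · have he : {x : ℝ | (x, y) ∈ A} = ∅ := by
        apply eq_empty_of_forall_notMem
        intro x hx
        exact hy1 (hAQ' hx).2
      rw [he, setIntegral_empty, enorm_zero]
      exact zero_le
  have hgoal : ‖∫ x in A, ((k x * d1 F x : ℝ) : ℂ) *
      Complex.exp (Complex.I * ((F x + θ x : ℝ) : ℂ))‖ₑ = ‖∫ x in A, g x‖ₑ := by rw [hg]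
  rw [hgoal]
  calc ‖∫ x in A, g x‖ₑ = ‖∫ y, ∫ x in {x : ℝ | (x, y) ∈ A}, g (x, y)‖ₑ := by
        rw [e1]
        simp only [e2]
    _ ≤ ∫⁻ y, ‖∫ x in {x : ℝ | (x, y) ∈ A}, g (x, y)‖ₑ := enorm_integral_le_lintegral_enorm _
    _ ≤ ∫⁻ y, (Icc (-1 : ℝ) 1).indicator (fun y => ENNReal.ofReal ((2 * m + 1) * (1 + V)) *
        ∫⁻ x in Icc (-1) 1, ENNReal.ofReal (|k (x, y)| + |d1 k (x, y)|)) y := lintegral_mono_ae hbd
    _ = ∫⁻ y in Icc (-1 : ℝ) 1, ENNReal.ofReal ((2 * m + 1) * (1 + V)) *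
        ∫⁻ x in Icc (-1) 1, ENNReal.ofReal (|k (x, y)| + |d1 k (x, y)|) :=
        lintegral_indicator measurableSet_Icc _
    _ = ENNReal.ofReal ((2 * m + 1) * (1 + V)) * ∫⁻ y in Icc (-1 : ℝ) 1,
        ∫⁻ x in Icc (-1) 1, ENNReal.ofReal (|k (x, y)| + |d1 k (x, y)|) :=
        lintegral_const_mul' _ _ ENNReal.ofReal_ne_top
    _ = ENNReal.ofReal ((2 * m + 1) * (1 + V)) *
        ∫⁻ x in Sq, ENNReal.ofReal (|k x| + |d1 k x|) := by
        congr 1
        unfold Sq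
        rw [Measure.volume_eq_prod, ← Measure.prod_restrict, lintegral_prod_symm' _ hmeas]

end Pool.Agent.Chirp
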