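import Mathlib
import Pool.Agent.Chirp.Targets

/-!
# CHP-ITER: partial derivatives and iterated derivatives
-/

set_option autoImplicit false

namespace Pool.Agent.Chirp

namespace ITER_

/-- the derivative of an iterated derivative applied to fixed vectors -/
theorem fderiv_iter {m : ℕ} {ψ : ℝ × ℝ → ℝ} (hψ : ContDiff ℝ (m + 1 : ℕ) ψ)
    (v : Fin m → ℝ × ℝ) (x : ℝ × ℝ) :
    DifferentiableAt ℝ (fun y => iteratedFDeriv ℝ m ψ y v) x ∧
      ∀ w : ℝ × ℝ, fderiv ℝ (fun y => iteratedFDeriv ℝ m ψ y v) x w =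
        iteratedFDeriv ℝ (m + 1) ψ x (Fin.cons w v) := by
  have h1 : DifferentiableAt ℝ (iteratedFDeriv ℝ m ψ) x :=
    (hψ.differentiable_iteratedFDeriv (by exact_mod_cast Nat.lt_succ_self m)) x
  have h2 := h1.hasFDerivAt
  have h3 : HasFDerivAt (fun y => iteratedFDeriv ℝ m ψ y v)
      ((ContinuousMultilinearMap.apply ℝ (fun _ : Fin m => ℝ × ℝ) ℝ v).comp
        (fderiv ℝ (iteratedFDeriv ℝ m ψ) x)) x :=
    (ContinuousMultilinearMap.apply ℝ (fun _ : Fin m => ℝ × ℝ) ℝ v).hasFDerivAt.comp x h2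
  refine ⟨h3.differentiableAt, ?_⟩
  intro w
  rw [h3.fderiv, iteratedFDeriv_succ_apply_left]
  simp

theorem key (k : ℕ) (ψ : ℝ × ℝ → ℝ) (hψ : ContDiff ℝ k ψ) (m : ℕ) :
    m ≤ k → ∀ i j : ℕ, i + j = m → ∃ v : Fin m → ℝ × ℝ, (∀ l, ‖v l‖ ≤ 1) ∧
      ∀ x, (d1^[i] (d2^[j] ψ)) x = iteratedFDeriv ℝ m ψ x v := by
  induction m with
  | zero =>
    intro _ i j hij
    have hi : i = 0 := by omega
    have hj : j = 0 := by omega
    subst hi hj
    exact ⟨fun l => Fin.elim0 l, fun l => Fin.elim0 l, fun x => by simp⟩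
  | succ m ih =>
    intro hm i j hij
    have hψm : ContDiff ℝ (m + 1 : ℕ) ψ := hψ.of_le (by exact_mod_cast hm)
    rcases Nat.eq_zero_or_pos i with hi | hi
    · subst hi
      have hj : j = m + 1 := by omega
      subst hj
      obtain ⟨v, hv, he⟩ := ih (by omega) 0 m (by omega)
      refine ⟨Fin.cons (0, 1) v, ?_, ?_⟩
      · intro l
        refine Fin.cases ?_ (fun l => ?_) l
        · simp [Prod.norm_def]
        · simpa using hv l
      · intro x
        have h1 : (d2^[m] ψ) = fun y => iteratedFDeriv ℝ m ψ y v := funext fun y => he y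
        obtain ⟨h2, h3⟩ := fderiv_iter hψm v x
        have h4 : (d1^[0] (d2^[m + 1] ψ)) x = d2 (d2^[m] ψ) x := by
          rw [Function.iterate_succ']
          rfl
        rw [h4, h1, d2_eq h2, h3]
    · obtain ⟨i', rfl⟩ := Nat.exists_eq_succ_of_ne_zero hi.ne'
      obtain ⟨v, hv, he⟩ := ih (by omega) i' j (by omega)
      refine ⟨Fin.cons (1, 0) v, ?_, ?_⟩
      · intro l
        refine Fin.cases ?_ (fun l => ?_) l
        · simp [Prod.norm_def]
        · simpa using hv l
      · intro x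
        have h1 : (d1^[i'] (d2^[j] ψ)) = fun y => iteratedFDeriv ℝ m ψ y v :=
          funext fun y => he y
        obtain ⟨h2, h3⟩ := fderiv_iter hψm v x
        have h4 : (d1^[i'.succ] (d2^[j] ψ)) x = d1 (d1^[i'] (d2^[j] ψ)) x := by
          rw [Function.iterate_succ']
          rfl
        rw [h4, h1, d1_eq h2, h3]

end ITER_

open ITER_ in
/-- Partial derivatives and iterated derivatives. -/
theorem t_iter : T_ITER := by
  intro k ψ i j hψ hij x
  obtain ⟨v, hv, he⟩ := key k ψ hψ k le_rfl i j hij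
  rw [he x, ← Real.norm_eq_abs]
  refine ((iteratedFDeriv ℝ k ψ x).le_opNorm v).trans ?_
  refine mul_le_of_le_one_right (norm_nonneg _) ?_
  exact Finset.prod_le_one (fun l _ => norm_nonneg _) (fun l _ => hv l)

end Pool.Agent.Chirp
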