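import Mathlib
import Pool.Agent.Chirp.Targets

/-!
# Polynomial chirps: linear algebra of the Hessian (job CHP-LIN)
-/

namespace Pool.Agent.Chirp

theorem LIN_.alg (a b c s : ℝ) (hs : 0 < s)
    (hq : s ^ 2 / 4 ≤ (a * c - b ^ 2) ^ 2 / (a ^ 2 + 2 * b ^ 2 + c ^ 2)) :
    a ^ 2 + 2 * b ^ 2 + c ^ 2 ≠ 0 ∧ s ^ 2 / 2 ≤ |a * c - b ^ 2| ∧
      √(a ^ 2 + 2 * b ^ 2 + c ^ 2) ≤ 2 / s * |a * c - b ^ 2| ∧
      ∀ v w : ℝ, |v| ≤ 2 / s * (|v * b - w * a| + |v * c - w * b|) := by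
  have hm : a ^ 2 + 2 * b ^ 2 + c ^ 2 ≠ 0 := by
    intro h
    rw [h, div_zero] at hq
    nlinarith [sq_nonneg s, pow_pos hs 2]
  have hm0 : 0 ≤ a ^ 2 + 2 * b ^ 2 + c ^ 2 := by positivity
  have hmp : 0 < a ^ 2 + 2 * b ^ 2 + c ^ 2 := lt_of_le_of_ne hm0 (Ne.symm hm)
  have h1 : s ^ 2 / 4 * (a ^ 2 + 2 * b ^ 2 + c ^ 2) ≤ (a * c - b ^ 2) ^ 2 := by
    rwa [le_div_iff₀ hmp] at hq
  have hs2 : 0 < s ^ 2 := pow_pos hs 2
  have ht2 : 0 < (a * c - b ^ 2) ^ 2 := lt_of_lt_of_le (by positivity) h1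
  have ht : 0 < |a * c - b ^ 2| := by
    rw [abs_pos]
    intro h
    rw [h] at ht2
    norm_num at ht2
  have h2 : 2 * |a * c - b ^ 2| ≤ a ^ 2 + 2 * b ^ 2 + c ^ 2 := by
    rcases abs_cases (a * c - b ^ 2) with h | h
    · rw [h.1]; nlinarith [sq_nonneg (a - c), sq_nonneg b]
    · rw [h.1]; nlinarith [sq_nonneg (a + c), sq_nonneg b]
  have habs : (a * c - b ^ 2) ^ 2 = |a * c - b ^ 2| ^ 2 := (sq_abs _).symm
  have h3 : s ^ 2 / 2 ≤ |a * c - b ^ 2| := by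
    rw [habs] at h1
    by_contra hcon
    push Not at hcon
    have e1 : s ^ 2 / 4 * (2 * |a * c - b ^ 2|) ≤ s ^ 2 / 4 * (a ^ 2 + 2 * b ^ 2 + c ^ 2) :=
      mul_le_mul_of_nonneg_left h2 (by positivity)
    have e2 : |a * c - b ^ 2| ^ 2 < s ^ 2 / 2 * |a * c - b ^ 2| := by
      rw [sq]
      exact mul_lt_mul_of_pos_right hcon ht
    nlinarith
  have h4 : √(a ^ 2 + 2 * b ^ 2 + c ^ 2) ≤ 2 / s * |a * c - b ^ 2| := by
    rw [Real.sqrt_le_left (by positivity)]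
    have e : (2 / s * |a * c - b ^ 2|) ^ 2 = 4 / s ^ 2 * (a * c - b ^ 2) ^ 2 := by
      rw [mul_pow, sq_abs, div_pow]
      norm_num
    rw [e]
    have e2 : 4 / s ^ 2 * (s ^ 2 / 4 * (a ^ 2 + 2 * b ^ 2 + c ^ 2)) =
        a ^ 2 + 2 * b ^ 2 + c ^ 2 := by
      field_simp
    rw [← e2]
    exact mul_le_mul_of_nonneg_left h1 (by positivity)
  refine ⟨hm, h3, h4, fun v w => ?_⟩
  have hid : (a * c - b ^ 2) * v = a * (v * c - w * b) - b * (v * b - w * a) := by ring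
  have ha : |a| ≤ √(a ^ 2 + 2 * b ^ 2 + c ^ 2) := by
    apply Real.abs_le_sqrt
    nlinarith [sq_nonneg b, sq_nonneg c]
  have hb : |b| ≤ √(a ^ 2 + 2 * b ^ 2 + c ^ 2) := by
    apply Real.abs_le_sqrt
    nlinarith [sq_nonneg a, sq_nonneg c, sq_nonneg b]
  have h5 : |a * c - b ^ 2| * |v| ≤
      |a * c - b ^ 2| * (2 / s * (|v * b - w * a| + |v * c - w * b|)) := by
    calc |a * c - b ^ 2| * |v| = |a * (v * c - w * b) - b * (v * b - w * a)| := by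
          rw [← abs_mul, hid]
      _ ≤ |a * (v * c - w * b)| + |b * (v * b - w * a)| := abs_sub _ _
      _ = |a| * |v * c - w * b| + |b| * |v * b - w * a| := by rw [abs_mul, abs_mul]
      _ ≤ √(a ^ 2 + 2 * b ^ 2 + c ^ 2) * |v * c - w * b| +
          √(a ^ 2 + 2 * b ^ 2 + c ^ 2) * |v * b - w * a| := by
          gcongr
      _ = √(a ^ 2 + 2 * b ^ 2 + c ^ 2) * (|v * b - w * a| + |v * c - w * b|) := by ring
      _ ≤ 2 / s * |a * c - b ^ 2| * (|v * b - w * a| + |v * c - w * b|) := by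
          gcongr
      _ = _ := by ring
  exact le_of_mul_le_mul_left h5 ht

theorem t_lin : T_LIN := by
  intro F x s hs hx
  have hq : s ^ 2 / 4 ≤ qF F x := hx.1
  exact LIN_.alg (aa F x) (bb F x) (cc F x) s hs hq

end Pool.Agent.Chirp
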