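import Mathlib
import Pool.Agent.Chirp.Targets

/-!
# MP_5ab805_an, job CHP-LINE: zeros of a polynomial on a horizontal line
-/

open Polynomial

namespace Pool.Agent.Chirp

namespace LINE_

/-- the restriction of a polynomial with coefficients `c` to the line of height `y` -/
noncomputable def q (d : ℕ) (c : ℕ × ℕ → ℝ) (y : ℝ) : ℝ[X] :=
  ∑ p ∈ SD d, C (c p * y ^ p.2) * X ^ p.1

theorem q_eval (d : ℕ) (c : ℕ × ℕ → ℝ) (y s : ℝ) :
    (q d c y).eval s = ∑ p ∈ SD d, c p * (s ^ p.1 * y ^ p.2) := by
  unfold q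
  rw [eval_finsetSum]
  refine Finset.sum_congr rfl fun p _ => ?_
  simp only [eval_mul, eval_C, eval_pow, eval_X]
  ring

theorem q_deg (d : ℕ) (c : ℕ × ℕ → ℝ) (y : ℝ) : (q d c y).natDegree ≤ d := by
  unfold q
  refine natDegree_sum_le_of_forall_le _ _ fun p hp => ?_
  have h := mem_SD.1 hp
  exact (natDegree_C_mul_X_pow_le _ _).trans (by omega)

end LINE_

theorem t_line : T_LINE := by
  intro d f y hf
  obtain ⟨c, hc⟩ := hf
  have hev : ∀ s, f (s, y) = (LINE_.q d c y).eval s := by
    intro s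
    rw [hc, LINE_.q_eval]
  by_cases h0 : LINE_.q d c y = 0
  · left
    intro s
    rw [hev, h0]
    simp
  · right
    have hset : {s | f (s, y) = 0} = ((LINE_.q d c y).roots.toFinset : Set ℝ) := by
      ext s
      simp only [Set.mem_ofPred_eq, Finset.mem_coe, Multiset.mem_toFinset, mem_roots h0,
        IsRoot.def, hev]
    rw [hset, Set.encard_coe_eq_coe_finsetCard]
    exact_mod_cast (Multiset.toFinset_card_le _).trans
      ((card_roots' _).trans (LINE_.q_deg d c y))

end Pool.Agent.Chirp
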