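import Mathlib
import Pool.Agent.Chirp.Targets

/-!
# MP_5ab805_an, job CHP-LPQ: changes of variables on a horizontal line
-/

namespace Pool.Agent.Chirp

open MeasureTheory Set Filter
open scoped ENNReal NNReal

namespace LPQ_

/-- a continuous function restricted to a horizontal line -/
theorem cont_line {f : ℝ × ℝ → ℝ} (hf : Continuous f) (y : ℝ) :
    Continuous (fun s : ℝ => f (s, y)) := hf.comp (by fun_prop)

end LPQ_

theorem t_lp (h1 : T_AREA1) (h2 : T_LINE) : T_LP := by
  intro n f y g hf hg
  have hc : Continuous (fun s : ℝ => d1 f (s, y)) := LPQ_.cont_line hf.d1.continuous y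
  set S : Set ℝ := {s | d1 f (s, y) ≠ 0} with hS
  have hSo : IsOpen S := isOpen_ne_fun hc continuous_const
  have hSm : MeasurableSet S := hSo.measurableSet
  have hder : ∀ s, HasDerivAt (fun r : ℝ => f (r, y)) (d1 f (s, y)) s := fun s =>
    hasDerivAt_d1 (x := (s, y)) (hf.differentiableAt (s, y))
  have key := h1 (fun s => f (s, y)) (fun s => d1 f (s, y)) S n g hSm
    (fun s _ => hder s) (fun s hs => hs) (fun a => by
      rcases h2 n (fun x => f x - a) y (hf.sub (isPol_const a n)) with h | h
      · have he : {s | s ∈ S ∧ f (s, y) = a} = ∅ := by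
          rw [Set.eq_empty_iff_forall_notMem]
          rintro s ⟨hs, -⟩
          apply hs
          have hconst : (fun r : ℝ => f (r, y)) = fun _ => a := by
            funext r
            have := h r
            beta_reduce at this
            linarith
          have h3 := (hder s).deriv
          rw [hconst, deriv_const] at h3
          exact h3.symm
        rw [he, Set.encard_empty]
        exact zero_le
      · refine le_trans (Set.encard_le_encard ?_) h
        rintro s ⟨-, hs⟩
        show f (s, y) - a = 0
        rw [hs, sub_self]) hg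
  refine le_trans (le_of_eq ?_) key
  rw [← lintegral_indicator hSm]
  refine lintegral_congr fun s => ?_
  by_cases hs : s ∈ S
  · rw [Set.indicator_of_mem hs]
  · rw [Set.indicator_of_notMem hs]
    have h0 : d1 f (s, y) = 0 := by
      by_contra h
      exact hs h
    rw [h0, abs_zero, ENNReal.ofReal_zero, zero_mul]

theorem t_lq (h1 : T_AREA1) (h2 : T_LINE) : T_LQ := by
  intro n F y g hF hg
  have hn2c : Continuous (fun s : ℝ => n2 F (s, y)) := LPQ_.cont_line hF.n2.continuous y
  have hd : Measurable (fun s : ℝ => d1 (qF F) (s, y)) := by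
    have h := measurable_deriv (fun r : ℝ => qF F (r, y))
    exact h
  set N : Set ℝ := {s | n2 F (s, y) ≠ 0} with hN
  have hNo : IsOpen N := isOpen_ne_fun hn2c continuous_const
  set S : Set ℝ := N ∩ {s | d1 (qF F) (s, y) ≠ 0} with hS
  have hSm : MeasurableSet S :=
    hNo.measurableSet.inter (hd (measurableSet_singleton (0 : ℝ)).compl)
  have hder : ∀ s ∈ N, HasDerivAt (fun r : ℝ => qF F (r, y)) (d1 (qF F) (s, y)) s := fun s hs =>
    hasDerivAt_d1 (x := (s, y))
      ((contDiffAt_qF (k := 1) hF (x := (s, y)) hs).differentiableAt (by simp))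
  have hR : ∀ a : ℝ, IsPol (4 * n) (fun x => dt F x * dt F x - a * n2 F x) := fun a =>
    ((hF.dt.mul hF.dt).mono (by omega)).sub ((hF.n2.smul a).mono (by omega))
  have key := h1 (fun s => qF F (s, y)) (fun s => d1 (qF F) (s, y)) S (4 * n) g hSm
    (fun s hs => hder s hs.1) (fun s hs => hs.2) (fun a => by
      rcases h2 (4 * n) _ y (hR a) with h | h
      · have he : {s | s ∈ S ∧ qF F (s, y) = a} = ∅ := by
          rw [Set.eq_empty_iff_forall_notMem]
          rintro s ⟨hs, -⟩
          apply hs.2
          have hev : (fun r : ℝ => qF F (r, y)) =ᶠ[nhds s] fun _ => a := by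
            filter_upwards [hNo.mem_nhds hs.1] with r hr
            have h3 := h r
            beta_reduce at h3
            unfold qF
            rw [div_eq_iff hr]
            linarith
          have h4 := (hder s hs.1).deriv
          rw [hev.deriv_eq, deriv_const] at h4
          exact h4.symm
        rw [he, Set.encard_empty]
        exact zero_le
      · refine le_trans (Set.encard_le_encard ?_) h
        rintro s ⟨hs, hq⟩
        show dt F (s, y) * dt F (s, y) - a * n2 F (s, y) = 0
        unfold qF at hq
        rw [div_eq_iff hs.1] at hq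
        linarith) hg
  refine le_trans (le_of_eq ?_) key
  rw [← lintegral_indicator hSm, ← lintegral_indicator hNo.measurableSet]
  refine lintegral_congr fun s => ?_
  by_cases hs : s ∈ S
  · rw [Set.indicator_of_mem hs, Set.indicator_of_mem hs.1]
  · rw [Set.indicator_of_notMem hs]
    by_cases hsN : s ∈ N
    · rw [Set.indicator_of_mem hsN]
      have h0 : d1 (qF F) (s, y) = 0 := by
        by_contra h
        exact hs ⟨hsN, h⟩
      rw [h0, abs_zero, ENNReal.ofReal_zero, zero_mul]
    · rw [Set.indicator_of_notMem hsN]

end Pool.Agent.Chirp
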