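import Mathlib
import Pool.Agent.Chirp.Targets

/-!
# MP_5ab805_an, job CHP-RE: the restricted estimate
-/

namespace Pool.Agent.Chirp

open MeasureTheory Set Filter
open scoped ENNReal NNReal
open Pool.Agent.Restr (E QQ)
open Pool.Agent.H27.Fib (Few ind vr ofReal_vr vr_nonneg vr_le_one vol_le_one)

namespace RE_

theorem abs_chi (b : ℕ) (r : ℝ) : |chi b r| ≤ 1 := by
  unfold chi
  split_ifs
  · rw [abs_of_nonneg (hh_nonneg r)]
    exact hh_le_one r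
  · exact abs_eta_le _

theorem meas_chi (b : ℕ) : Measurable (chi b) := by
  have h1 : Measurable hh := (hh_contDiff (k := 0)).continuous.measurable
  have h2 : Measurable eta := (eta_contDiff (k := 0)).continuous.measurable
  by_cases hb : b = 0
  · have e : chi b = hh := by
      funext r
      unfold chi
      rw [if_pos hb]
    rw [e]
    exact h1
  · have e : chi b = fun r => eta (r / (2 ^ b) ^ 2) := by
      funext r
      unfold chi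
      rw [if_neg hb]
    rw [e]
    exact h2.comp (by fun_prop)

theorem meas_qF {n : ℕ} {P : ℝ × ℝ → ℝ} (hP : IsPol n P) :
    Measurable (fun z : (ℝ × ℝ × ℝ) × (ℝ × ℝ) => qF (Ph P z.1) z.2) := by
  have e : (fun z : (ℝ × ℝ × ℝ) × (ℝ × ℝ) => qF (Ph P z.1) z.2) =
      fun z => qv (aa P z.2) (bb P z.2) (cc P z.2) z.1.2.2 := funext fun z => hP.qF_Ph z.1 z.2
  rw [e]
  unfold qv
  have ha := hP.aa.continuous
  have hb := hP.bb.continuous
  have hc := hP.cc.continuous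
  exact (Continuous.measurable (by fun_prop)).div (Continuous.measurable (by fun_prop))

theorem meas_Eb {n : ℕ} {P θ : ℝ × ℝ → ℝ} (hP : IsPol n P) (hθ : ContDiff ℝ 1 θ)
    (A : Set (ℝ × ℝ)) (b : ℕ) : Measurable (Eb P θ A b) := by
  have hPc := hP.continuous
  have hθc := hθ.continuous
  have : StronglyMeasurable (fun ξ : ℝ × ℝ × ℝ => ∫ x in A,
      ((chi b (qF (Ph P ξ) x) : ℝ) : ℂ) *
        Complex.exp (Complex.I * ((Ph P ξ x + θ x : ℝ) : ℂ))) := by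
    apply StronglyMeasurable.integral_prod_right
      (f := fun (ξ : ℝ × ℝ × ℝ) (x : ℝ × ℝ) => ((chi b (qF (Ph P ξ) x) : ℝ) : ℂ) *
        Complex.exp (Complex.I * ((Ph P ξ x + θ x : ℝ) : ℂ)))
    apply Measurable.stronglyMeasurable
    refine Measurable.mul ?_ ?_
    · exact Complex.measurable_ofReal.comp ((meas_chi b).comp (meas_qF hP))
    · apply Continuous.measurable
      have : Continuous (fun z : (ℝ × ℝ × ℝ) × (ℝ × ℝ) => Ph P z.1 z.2 + θ z.2) := by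
        unfold Ph
        fun_prop
      exact Complex.continuous_exp.comp (continuous_const.mul
        (Complex.continuous_ofReal.comp this))
  exact this.measurable

theorem norm_Eb_le (P θ : ℝ × ℝ → ℝ) {A : Set (ℝ × ℝ)} (hA : A ⊆ QQ) (b : ℕ)
    (ξ : ℝ × ℝ × ℝ) : ‖Eb P θ A b ξ‖ ≤ vr A := by
  have hfin : volume A < ⊤ := (vol_le_one hA).trans_lt ENNReal.one_lt_top
  have h := norm_setIntegral_le_of_norm_le_const (μ := (volume : Measure (ℝ × ℝ)))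
    (f := fun x => ((chi b (qF (Ph P ξ) x) : ℝ) : ℂ) *
        Complex.exp (Complex.I * ((Ph P ξ x + θ x : ℝ) : ℂ))) (C := 1) hfin (by
      intro x _
      rw [norm_mul, Complex.norm_real, Real.norm_eq_abs, mul_comm Complex.I,
        Complex.norm_exp_ofReal_mul_I, mul_one]
      exact abs_chi b _)
  rw [one_mul] at h
  exact h

/-- elementary interpolation -/
theorem interp {q δ x M v : ℝ} (_ : 3 < q) (hδ : 0 < δ) (hδ1 : δ ≤ (q - 3) / 3)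
    (hx : 0 ≤ x) (hM : x ≤ M) (hv : x ≤ v) :
    x ^ q ≤ M ^ (1 + δ) * v ^ (q - 3 - δ) * x ^ 2 := by
  rcases hx.eq_or_lt with h0 | h0
  · rw [← h0, Real.zero_rpow (by linarith)]
    simp
  · have e : x ^ q = x ^ (1 + δ) * x ^ (q - 3 - δ) * x ^ 2 := by
      rw [← Real.rpow_natCast x 2, ← Real.rpow_add h0, ← Real.rpow_add h0]
      congr 1
      push_cast
      ring
    rw [e]
    have h1 : x ^ (1 + δ) ≤ M ^ (1 + δ) := Real.rpow_le_rpow hx hM (by linarith)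
    have h2 : x ^ (q - 3 - δ) ≤ v ^ (q - 3 - δ) := Real.rpow_le_rpow hx hv (by linarith)
    have h3 : 0 ≤ M ^ (1 + δ) := Real.rpow_nonneg (hx.trans hM) _
    have h4 : 0 ≤ x ^ (q - 3 - δ) := Real.rpow_nonneg hx _
    exact mul_le_mul_of_nonneg_right (mul_le_mul h1 h2 h4 h3) (sq_nonneg x)

theorem enorm_interp {q δ M v : ℝ} (z : ℂ) (hq : 3 < q) (hδ : 0 < δ) (hδ1 : δ ≤ (q - 3) / 3)
    (hM : ‖z‖ ≤ M) (hv : ‖z‖ ≤ v) :
    ‖z‖ₑ ^ q ≤ ENNReal.ofReal (M ^ (1 + δ) * v ^ (q - 3 - δ)) * ‖z‖ₑ ^ 2 := by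
  have h0 := norm_nonneg z
  rw [← ofReal_norm, ENNReal.ofReal_rpow_of_nonneg h0 (by linarith), ← ENNReal.ofReal_pow h0,
    ← ENNReal.ofReal_mul (mul_nonneg (Real.rpow_nonneg (h0.trans hM) _)
      (Real.rpow_nonneg (h0.trans hv) _))]
  exact ENNReal.ofReal_le_ofReal (interp hq hδ hδ1 h0 hM hv)

/-- the weights -/
noncomputable def fb (δ : ℝ) (b : ℕ) : ℝ := (1 + b) ^ (1 + δ) * (2 : ℝ) ^ (-(δ / 2) * b)

theorem fb_nonneg (δ : ℝ) (b : ℕ) : 0 ≤ fb δ b := by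
  unfold fb
  positivity

theorem fb_summable {δ : ℝ} (hδ : 0 < δ) : Summable (fb δ) := by
  obtain ⟨k, hk⟩ := exists_nat_ge (1 + δ)
  set r : ℝ := (2 : ℝ) ^ (-(δ / 2)) with hr
  have hr0 : 0 < r := by positivity
  have hr1 : r < 1 := Real.rpow_lt_one_of_one_lt_of_neg (by norm_num) (by linarith)
  have h1 : Summable (fun n : ℕ => (n : ℝ) ^ k * r ^ n) :=
    summable_pow_mul_geometric_of_norm_lt_one k (by rw [Real.norm_of_nonneg hr0.le]; exact hr1)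
  have h2 : Summable (fun n : ℕ => ((n + 1 : ℕ) : ℝ) ^ k * r ^ (n + 1)) :=
    (summable_nat_add_iff 1).2 h1
  have h3 := h2.mul_right r⁻¹
  refine Summable.of_nonneg_of_le (fb_nonneg δ) (fun b => ?_) h3
  have e1 : ((b + 1 : ℕ) : ℝ) ^ k * r ^ (b + 1) * r⁻¹ = ((b : ℝ) + 1) ^ k * r ^ b := by
    rw [pow_succ]
    push_cast
    field_simp
  rw [e1]
  unfold fb
  have e2 : (2 : ℝ) ^ (-(δ / 2) * b) = r ^ b := by
    rw [hr, Real.rpow_mul (by norm_num), Real.rpow_natCast]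
  rw [e2]
  refine mul_le_mul_of_nonneg_right ?_ (by positivity)
  rw [← Real.rpow_natCast ((b : ℝ) + 1) k, add_comm (1 : ℝ) (b : ℝ)]
  refine Real.rpow_le_rpow_of_exponent_le ?_ hk
  have : (0 : ℝ) ≤ b := Nat.cast_nonneg b
  linarith

/-- the algebra of the constants -/
theorem const_b (q δ : ℝ) {K v : ℝ} (hK : 0 ≤ K) (hv : 0 ≤ v) (b : ℕ) :
    (2 : ℝ) ^ (δ / 2 * b) * ((K * ((1 + b) / 2 ^ b)) ^ (1 + δ) * v ^ (q - 3 - δ)
      * (4 * Real.pi ^ 2 * (4 * 2 ^ b)) * v)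
      ≤ (16 * Real.pi ^ 2 * (K ^ (1 + δ) * v ^ (q - 2 - δ))) * fb δ b := by
  have hb : (0 : ℝ) < 1 + b := by positivity
  have h2b : (0 : ℝ) < 2 ^ b := by positivity
  have e1 : (K * ((1 + b) / 2 ^ b)) ^ (1 + δ)
      = K ^ (1 + δ) * ((1 + b) ^ (1 + δ) / ((2 : ℝ) ^ b) ^ (1 + δ)) := by
    rw [Real.mul_rpow hK (by positivity), Real.div_rpow hb.le h2b.le]
  have e2 : (2 : ℝ) ^ b = (2 : ℝ) ^ (b : ℝ) := (Real.rpow_natCast 2 b).symm
  have e3 : v ^ (q - 3 - δ) * v ≤ v ^ (q - 2 - δ) := by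
    rcases hv.eq_or_lt with h0 | h0
    · rw [← h0]
      rw [mul_zero]
      exact Real.rpow_nonneg le_rfl _
    · refine le_of_eq ?_
      have : v ^ (q - 2 - δ) = v ^ (q - 3 - δ) * v ^ (1 : ℝ) := by
        rw [← Real.rpow_add h0]
        congr 1
        ring
      rw [this, Real.rpow_one]
  have e4 : (2 : ℝ) ^ (δ / 2 * b) * (2 ^ b / ((2 : ℝ) ^ b) ^ (1 + δ))
      = (2 : ℝ) ^ (-(δ / 2) * b) := by
    rw [e2, ← Real.rpow_mul (by norm_num), ← Real.rpow_sub (by norm_num),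
      ← Real.rpow_add (by norm_num)]
    congr 1
    ring
  have hKp : 0 ≤ K ^ (1 + δ) := Real.rpow_nonneg hK _
  calc (2 : ℝ) ^ (δ / 2 * b) * ((K * ((1 + b) / 2 ^ b)) ^ (1 + δ) * v ^ (q - 3 - δ)
      * (4 * Real.pi ^ 2 * (4 * 2 ^ b)) * v)
      = 16 * Real.pi ^ 2 * K ^ (1 + δ) * (1 + b) ^ (1 + δ)
          * ((2 : ℝ) ^ (δ / 2 * b) * (2 ^ b / ((2 : ℝ) ^ b) ^ (1 + δ)))
          * (v ^ (q - 3 - δ) * v) := by
        rw [e1]
        ring
    _ = 16 * Real.pi ^ 2 * K ^ (1 + δ) * (1 + b) ^ (1 + δ) * (2 : ℝ) ^ (-(δ / 2) * b)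
          * (v ^ (q - 3 - δ) * v) := by rw [e4]
    _ ≤ 16 * Real.pi ^ 2 * K ^ (1 + δ) * (1 + b) ^ (1 + δ) * (2 : ℝ) ^ (-(δ / 2) * b)
          * v ^ (q - 2 - δ) := mul_le_mul_of_nonneg_left e3 (by positivity)
    _ = _ := by
        unfold fb
        ring

end RE_

open RE_ in
theorem t_re (h1 : T_SUP) (h2 : T_SUM) (h3 : T_TL2) (h4 : T_HOL) : T_RE := by
  intro q δ hq hδ hδ1
  obtain ⟨C0, hC0, hsup⟩ := h1
  obtain ⟨CH, hhol⟩ := h4 q (δ / 2) (by linarith) (by positivity)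
  set C1 : ℝ := max C0 1 with hC1
  have hC11 : 1 ≤ C1 := le_max_right _ _
  set S : ℝ := ∑' b, fb δ b with hS
  have hS0 : 0 ≤ S := tsum_nonneg (fb_nonneg δ)
  refine ⟨CH * Real.toNNReal (16 * Real.pi ^ 2 * C1 ^ (1 + δ) * S), ?_⟩
  intro n m P θ V A hn hm hP hθ hV hA hAQ hfew hd
  set G : ℝ := (n : ℝ) ^ 2 * m * (1 + V) with hG
  have hn1 : (1 : ℝ) ≤ n := by exact_mod_cast (by omega : 1 ≤ n)
  have hm1 : (1 : ℝ) ≤ m := by exact_mod_cast hm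
  have hG1 : 1 ≤ G := by
    rw [hG]
    have : (1 : ℝ) ≤ (n : ℝ) ^ 2 := one_le_pow₀ hn1
    have h' : (1 : ℝ) ≤ (n : ℝ) ^ 2 * m := by nlinarith
    nlinarith
  set v : ℝ := vr A with hvdef
  have hv0 : 0 ≤ v := vr_nonneg A
  have hv1 : v ≤ 1 := vr_le_one hAQ
  set K : ℝ := C1 * G with hK
  have hK1 : 1 ≤ K := by rw [hK]; nlinarith
  have hK0 : 0 ≤ K := by linarith
  -- sup bound
  have hM : ∀ b ξ, ‖Eb P θ A b ξ‖ ≤ K * ((1 + b) / 2 ^ b) := by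
    intro b ξ
    by_cases hb : b = 0
    · subst hb
      have := norm_Eb_le P θ hAQ 0 ξ
      have h' : K * ((1 + ((0 : ℕ) : ℝ)) / 2 ^ 0) = K := by norm_num
      rw [h']
      linarith
    · have hs1 : (1 : ℝ) ≤ 2 ^ b := one_le_pow₀ (by norm_num)
      have h := hsup n m (Ph P ξ) θ V A (2 ^ b) (by omega) hm (hP.Ph hn ξ) hθ hV hA hAQ hfew hd hs1
      have e : Eb P θ A b ξ = ∫ x in A, ((ec (Ph P ξ) (2 ^ b) x : ℝ) : ℂ) *
          Complex.exp (Complex.I * ((Ph P ξ x + θ x : ℝ) : ℂ)) := by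
        unfold Eb ec chi
        simp only [if_neg hb]
      rw [e]
      refine h.trans ?_
      have hlog : Real.log ((2 : ℝ) ^ b) ≤ b := by
        rw [Real.log_pow]
        have : Real.log 2 ≤ 1 := by
          have := Real.log_two_lt_d9
          linarith
        have hb0 : (0 : ℝ) ≤ b := Nat.cast_nonneg b
        nlinarith
      have h2b : (0 : ℝ) < 2 ^ b := by positivity
      have hlog0 : 0 ≤ Real.log ((2 : ℝ) ^ b) := Real.log_nonneg hs1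
      have e2 : C0 * (n : ℝ) ^ 2 * m * (1 + V) = C0 * G := by rw [hG]; ring
      rw [e2, mul_div_assoc]
      refine mul_le_mul ?_ ?_ (by positivity) hK0
      · rw [hK]
        exact mul_le_mul_of_nonneg_right (le_max_left _ _) (by linarith)
      · exact div_le_div_of_nonneg_right (by linarith) h2b.le
  -- integral of a piece
  have hint : ∀ b : ℕ, ENNReal.ofReal ((2 : ℝ) ^ (δ / 2 * b)) * ∫⁻ ξ, ‖Eb P θ A b ξ‖ₑ ^ q ≤
      ENNReal.ofReal (16 * Real.pi ^ 2 * (K ^ (1 + δ) * v ^ (q - 2 - δ))) *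
        ENNReal.ofReal (fb δ b) := by
    intro b
    have hMb0 : 0 ≤ K * ((1 + (b : ℝ)) / 2 ^ b) := by positivity
    have hc0 : 0 ≤ (K * ((1 + (b : ℝ)) / 2 ^ b)) ^ (1 + δ) * v ^ (q - 3 - δ) :=
      mul_nonneg (Real.rpow_nonneg hMb0 _) (Real.rpow_nonneg hv0 _)
    have g1 : ∫⁻ ξ, ‖Eb P θ A b ξ‖ₑ ^ q ≤
        ENNReal.ofReal ((K * ((1 + (b : ℝ)) / 2 ^ b)) ^ (1 + δ) * v ^ (q - 3 - δ)) *
          (ENNReal.ofReal (4 * Real.pi ^ 2 * (4 * 2 ^ b)) * volume A) := by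
      calc ∫⁻ ξ, ‖Eb P θ A b ξ‖ₑ ^ q ≤ ∫⁻ ξ,
            ENNReal.ofReal ((K * ((1 + (b : ℝ)) / 2 ^ b)) ^ (1 + δ) * v ^ (q - 3 - δ)) *
              ‖Eb P θ A b ξ‖ₑ ^ 2 :=
            lintegral_mono fun ξ => enorm_interp _ hq hδ hδ1 (hM b ξ) (norm_Eb_le P θ hAQ b ξ)
        _ = ENNReal.ofReal ((K * ((1 + (b : ℝ)) / 2 ^ b)) ^ (1 + δ) * v ^ (q - 3 - δ)) *
              ∫⁻ ξ, ‖Eb P θ A b ξ‖ₑ ^ 2 := lintegral_const_mul' _ _ ENNReal.ofReal_ne_top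
        _ ≤ _ := mul_le_mul_right (h3 n P θ A b hn hP hθ hA hAQ) _
    refine (mul_le_mul_right g1 _).trans ?_
    rw [← ofReal_vr hAQ, ← hvdef, ← ENNReal.ofReal_mul (by positivity),
      ← ENNReal.ofReal_mul hc0, ← ENNReal.ofReal_mul (by positivity),
      ← ENNReal.ofReal_mul (by positivity)]
    refine ENNReal.ofReal_le_ofReal (le_trans (le_of_eq ?_) (const_b q δ hK0 hv0 b))
    ring
  -- the sum
  have hKG : 16 * Real.pi ^ 2 * (K ^ (1 + δ) * v ^ (q - 2 - δ)) * S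
      ≤ (16 * Real.pi ^ 2 * C1 ^ (1 + δ) * S) * (G ^ (q / 3) * v ^ (q - 2 - δ)) := by
    have g1 : K ^ (1 + δ) = C1 ^ (1 + δ) * G ^ (1 + δ) := by
      rw [hK, Real.mul_rpow (by linarith) (by linarith)]
    have g2 : G ^ (1 + δ) ≤ G ^ (q / 3) :=
      Real.rpow_le_rpow_of_exponent_le hG1 (by linarith)
    have g3 : 0 ≤ v ^ (q - 2 - δ) := Real.rpow_nonneg hv0 _
    have g4 : 0 ≤ C1 ^ (1 + δ) := Real.rpow_nonneg (by linarith) _
    rw [g1]
    calc 16 * Real.pi ^ 2 * (C1 ^ (1 + δ) * G ^ (1 + δ) * v ^ (q - 2 - δ)) * S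
        = (16 * Real.pi ^ 2 * C1 ^ (1 + δ) * S * v ^ (q - 2 - δ)) * G ^ (1 + δ) := by ring
      _ ≤ (16 * Real.pi ^ 2 * C1 ^ (1 + δ) * S * v ^ (q - 2 - δ)) * G ^ (q / 3) :=
          mul_le_mul_of_nonneg_left g2 (by positivity)
      _ = _ := by ring
  calc ∫⁻ ξ, ‖E (fun x => ch P θ x * ind A x) ξ‖ₑ ^ q
      ≤ ∫⁻ ξ, (∑' b : ℕ, ‖Eb P θ A b ξ‖ₑ) ^ q := by
        refine lintegral_mono fun ξ => ?_
        exact ENNReal.rpow_le_rpow (h2 n P θ A ξ hn hP hθ hA hAQ) (by linarith)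
    _ ≤ ∫⁻ ξ, CH * ∑' b : ℕ, ENNReal.ofReal ((2 : ℝ) ^ (δ / 2 * b)) * ‖Eb P θ A b ξ‖ₑ ^ q :=
        lintegral_mono fun ξ => hhol _
    _ = CH * ∫⁻ ξ, ∑' b : ℕ, ENNReal.ofReal ((2 : ℝ) ^ (δ / 2 * b)) * ‖Eb P θ A b ξ‖ₑ ^ q :=
        lintegral_const_mul' _ _ ENNReal.coe_ne_top
    _ = CH * ∑' b : ℕ, ∫⁻ ξ, ENNReal.ofReal ((2 : ℝ) ^ (δ / 2 * b)) * ‖Eb P θ A b ξ‖ₑ ^ q := by
        rw [lintegral_tsum fun b => (((meas_Eb hP hθ A b).enorm.pow_const q).const_mul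
          _).aemeasurable]
    _ ≤ CH * ∑' b : ℕ, ENNReal.ofReal (16 * Real.pi ^ 2 * (K ^ (1 + δ) * v ^ (q - 2 - δ))) *
          ENNReal.ofReal (fb δ b) := by
        refine mul_le_mul_right (ENNReal.tsum_le_tsum fun b => ?_) _
        rw [lintegral_const_mul' _ _ ENNReal.ofReal_ne_top]
        exact hint b
    _ = CH * ENNReal.ofReal (16 * Real.pi ^ 2 * (K ^ (1 + δ) * v ^ (q - 2 - δ)) * S) := by
        rw [ENNReal.tsum_mul_left, ← ENNReal.ofReal_tsum_of_nonneg (fb_nonneg δ)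
          (fb_summable hδ), ← ENNReal.ofReal_mul (by positivity)]
    _ ≤ CH * ENNReal.ofReal ((16 * Real.pi ^ 2 * C1 ^ (1 + δ) * S) *
          (G ^ (q / 3) * v ^ (q - 2 - δ))) :=
        mul_le_mul_right (ENNReal.ofReal_le_ofReal hKG) _
    _ = _ := by
        have : 0 ≤ 16 * Real.pi ^ 2 * C1 ^ (1 + δ) * S := by positivity
        rw [ENNReal.ofReal_mul this, ENNReal.coe_mul]
        exact (mul_assoc _ _ _).symm

end Pool.Agent.Chirp
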