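import Mathlib
import Pool.Agent.Chirp.Targets

/-!
# Polynomial chirps: the extension is the sum of its pieces (CHP-SUM)
-/

namespace Pool.Agent.Chirp

open MeasureTheory Set Filter
open scoped ENNReal NNReal
open Pool.Agent.Restr (E QQ)
open Pool.Agent.H27.Fib (Few ind vr)

namespace SUM_

theorem sum_chi (B : ℕ) (r : ℝ) :
    ∑ b ∈ Finset.range (B + 1), chi b r = hh (r / (2 ^ B) ^ 2) := by
  induction B with
  | zero => simp [chi]
  | succ B ih =>
    rw [Finset.sum_range_succ, ih]
    unfold chi eta
    rw [if_neg (Nat.succ_ne_zero B)]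
    have e : 4 * (r / (2 ^ (B + 1)) ^ 2) = r / (2 ^ B) ^ 2 := by
      rw [pow_succ (2 : ℝ) B]
      have h2 : ((2 : ℝ) ^ B) ≠ 0 := by positivity
      field_simp
      ring
    rw [e]
    ring

theorem abs_chi_le (b : ℕ) (r : ℝ) : |chi b r| ≤ 1 := by
  unfold chi
  split_ifs
  · rw [abs_of_nonneg (hh_nonneg r)]
    exact hh_le_one r
  · exact abs_eta_le _

theorem measurable_chi (b : ℕ) : Measurable (chi b) := by
  have h1 : Measurable hh := (hh_contDiff (k := 0)).continuous.measurable
  have h2 : Measurable eta := (eta_contDiff (k := 0)).continuous.measurable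
  unfold chi
  by_cases hb : b = 0
  · simp only [if_pos hb]
    exact h1
  · simp only [if_neg hb]
    exact h2.comp (measurable_id.div_const _)

theorem measurable_qF {n : ℕ} {F : ℝ × ℝ → ℝ} (hF : IsPol n F) : Measurable (qF F) := by
  unfold qF
  exact (hF.dt.continuous.measurable.pow_const 2).div hF.n2.continuous.measurable

end SUM_

open SUM_ in
theorem t_sum : T_SUM := by
  intro n P θ A ξ hn hP hθ hA hAQ
  have hvA : volume A ≠ ⊤ := by
    refine ne_of_lt (lt_of_le_of_lt (measure_mono hAQ) ?_)
    rw [Pool.Agent.Restr.vol_QQ]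
    exact ENNReal.one_lt_top
  have : IsFiniteMeasure (volume.restrict A) := isFiniteMeasure_restrict.2 hvA
  set e : ℝ × ℝ → ℂ := fun x => Complex.exp (Complex.I * ((Ph P ξ x + θ x : ℝ) : ℂ)) with he
  have hPh : IsPol n (Ph P ξ) := hP.Ph hn ξ
  have hec : Continuous e := by
    have h1 := hPh.continuous
    have h2 := hθ.continuous
    simp only [he]
    fun_prop
  have hen : ∀ x, ‖e x‖ = 1 := by
    intro x
    simp only [he]
    rw [mul_comm]
    exact Complex.norm_exp_ofReal_mul_I _
  have hqm : Measurable (qF (Ph P ξ)) := measurable_qF hPh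
  -- step 1
  have h1 : E (fun x => ch P θ x * ind A x) ξ = ∫ x in A, e x := by
    rw [← integral_indicator hA]
    unfold Pool.Agent.Restr.E
    refine integral_congr_ae (Eventually.of_forall fun x => ?_)
    beta_reduce
    unfold Pool.Agent.H27.Fib.ind
    by_cases hx : x ∈ A
    · rw [indicator_of_mem hx, indicator_of_mem hx, mul_one]
      simp only [he]
      unfold Pool.Agent.Restr.u ch Ph
      rw [← Complex.exp_add]
      congr 1
      push_cast
      ring
    · rw [indicator_of_notMem hx, indicator_of_notMem hx, mul_zero, mul_zero]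
  rw [h1]
  -- integrability
  have hint : ∀ b : ℕ, Integrable (fun x => ((chi b (qF (Ph P ξ) x) : ℝ) : ℂ) * e x)
      (volume.restrict A) := by
    intro b
    refine Integrable.of_bound (C := 1) ?_ (Eventually.of_forall fun x => ?_)
    · exact ((Complex.measurable_ofReal.comp ((measurable_chi b).comp hqm)).mul
        hec.measurable).aestronglyMeasurable
    · rw [norm_mul, hen, mul_one, Complex.norm_real]
      exact abs_chi_le _ _
  have hsum : ∀ B : ℕ, ∑ b ∈ Finset.range (B + 1), Eb P θ A b ξ =
      ∫ x in A, ((hh (qF (Ph P ξ) x / (2 ^ B) ^ 2) : ℝ) : ℂ) * e x := by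
    intro B
    unfold Eb
    rw [← integral_finsetSum _ (fun b _ => hint b)]
    refine integral_congr_ae (Eventually.of_forall fun x => ?_)
    beta_reduce
    rw [← Finset.sum_mul, ← Complex.ofReal_sum, sum_chi]
  have hlim : Tendsto (fun B : ℕ => ∫ x in A, ((hh (qF (Ph P ξ) x / (2 ^ B) ^ 2) : ℝ) : ℂ) * e x)
      atTop (nhds (∫ x in A, e x)) := by
    refine tendsto_integral_of_dominated_convergence (fun _ => (1 : ℝ)) ?_ (integrable_const _)
      ?_ ?_
    · intro B
      have hm : Measurable hh := (hh_contDiff (k := 0)).continuous.measurable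
      exact ((Complex.measurable_ofReal.comp (hm.comp (hqm.div_const _))).mul
        hec.measurable).aestronglyMeasurable
    · intro B
      refine Eventually.of_forall fun x => ?_
      rw [norm_mul, hen, mul_one, Complex.norm_real, Real.norm_eq_abs,
        abs_of_nonneg (hh_nonneg _)]
      exact hh_le_one _
    · refine Eventually.of_forall fun x => ?_
      have hev : ∀ᶠ B : ℕ in atTop, ((hh (qF (Ph P ξ) x / (2 ^ B) ^ 2) : ℝ) : ℂ) * e x = e x := by
        have ht : Tendsto (fun B : ℕ => (2 : ℝ) ^ B) atTop atTop :=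
          tendsto_pow_atTop_atTop_of_one_lt (by norm_num)
        filter_upwards [ht.eventually_ge_atTop (qF (Ph P ξ) x)] with B hB
        have h2 : (1 : ℝ) ≤ 2 ^ B := one_le_pow₀ (by norm_num)
        have h3 : qF (Ph P ξ) x ≤ (2 ^ B) ^ 2 := by nlinarith
        rw [hh_of_le ((div_le_one (by positivity)).2 h3)]
        simp
      exact tendsto_const_nhds.congr' (hev.mono fun B hB => hB.symm)
  have hlim2 := (continuous_enorm.tendsto (∫ x in A, e x)).comp hlim
  refine le_of_tendsto hlim2 (Eventually.of_forall fun B => ?_)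
  simp only [Function.comp]
  rw [← hsum B]
  exact (enorm_sum_le _ _).trans (ENNReal.sum_le_tsum _)

end Pool.Agent.Chirp
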