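import Mathlib
import Pool.Agent.Chirp.Targets

/-!
# The supremum bound at one scale
-/

set_option autoImplicit false

namespace Pool.Agent.Chirp

open MeasureTheory Set Filter
open scoped ENNReal NNReal
open Pool.Agent.Restr (E QQ)
open Pool.Agent.H27.Fib (Few ind vr)

namespace SUP_

/-- The oscillating factor. -/
noncomputable def ee (F θ : ℝ × ℝ → ℝ) (x : ℝ × ℝ) : ℂ :=
  Complex.exp (Complex.I * ((F x + θ x : ℝ) : ℂ))

theorem ee_cont {F θ : ℝ × ℝ → ℝ} (hF : Continuous F) (hθ : Continuous θ) :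
    Continuous (ee F θ) := by
  unfold ee
  fun_prop

theorem norm_ee (F θ : ℝ × ℝ → ℝ) (x : ℝ × ℝ) : ‖ee F θ x‖ = 1 := by
  unfold ee
  rw [mul_comm, Complex.norm_exp_ofReal_mul_I]

theorem isCompact_QQ : IsCompact QQ := isCompact_Icc.prod isCompact_Icc

theorem intOn {f : ℝ × ℝ → ℂ} (hf : Continuous f) {A : Set (ℝ × ℝ)} (hA : A ⊆ QQ) :
    IntegrableOn f A := (hf.continuousOn.integrableOn_compact isCompact_QQ).mono_set hA

theorem norm_le_of {z : ℂ} {B : ℝ} (hB : 0 ≤ B) (h : ‖z‖ₑ ≤ ENNReal.ofReal B) : ‖z‖ ≤ B := by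
  rw [← ofReal_norm] at h
  exact (ENNReal.ofReal_le_ofReal_iff hB).1 h

theorem dir1 (h : T_IBP2) {m : ℕ} {F θ : ℝ × ℝ → ℝ} {V : ℝ} {A : Set (ℝ × ℝ)}
    (hF : ContDiff ℝ 1 F) (hθ : ContDiff ℝ 1 θ) (hV : 0 ≤ V) (hA : MeasurableSet A) (hQ : A ⊆ QQ)
    (hf : ∀ᵐ y : ℝ, Few m {x : ℝ | (x, y) ∈ A}) (hθV : ∀ x ∈ A, |d1 θ x| ≤ V)
    (k : ℝ × ℝ → ℝ) (hk : ContDiff ℝ 1 k) (B : ℝ) (hB : 0 ≤ B)
    (hkB : ∫⁻ x in Sq, ENNReal.ofReal (|k x| + |d1 k x|) ≤ ENNReal.ofReal B) :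
    ‖∫ x in A, ((k x * d1 F x : ℝ) : ℂ) * ee F θ x‖ ≤ (2 * m + 1) * (1 + V) * B := by
  refine norm_le_of (by positivity) ?_
  calc _ ≤ ENNReal.ofReal ((2 * m + 1) * (1 + V)) *
        ∫⁻ x in Sq, ENNReal.ofReal (|k x| + |d1 k x|) := h m A k F θ V hA hQ hf hk hF hθ hV hθV
    _ ≤ ENNReal.ofReal ((2 * m + 1) * (1 + V)) * ENNReal.ofReal B := by gcongr
    _ = _ := by rw [← ENNReal.ofReal_mul (by positivity)]

theorem sw_emb : MeasurableEmbedding sw :=
  (MeasurableEquiv.prodComm : ℝ × ℝ ≃ᵐ ℝ × ℝ).measurableEmbedding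

theorem contDiff_sw {k : WithTop ℕ∞} : ContDiff ℝ k sw := by
  unfold sw
  fun_prop

theorem dir2 (h : T_IBP2) {m : ℕ} {F θ : ℝ × ℝ → ℝ} {V : ℝ} {A : Set (ℝ × ℝ)}
    (hF : ContDiff ℝ 1 F) (hθ : ContDiff ℝ 1 θ) (hV : 0 ≤ V) (hA : MeasurableSet A) (hQ : A ⊆ QQ)
    (hf : ∀ᵐ x : ℝ, Few m {y : ℝ | (x, y) ∈ A}) (hθV : ∀ x ∈ A, |d2 θ x| ≤ V)
    (k : ℝ × ℝ → ℝ) (hk : ContDiff ℝ 1 (fun x => k (sw x))) (B : ℝ) (hB : 0 ≤ B)
    (hkB : ∫⁻ x in Sq, ENNReal.ofReal (|k (sw x)| + |d1 (fun x => k (sw x)) x|) ≤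
      ENNReal.ofReal B) :
    ‖∫ x in A, ((k x * d2 F x : ℝ) : ℂ) * ee F θ x‖ ≤ (2 * m + 1) * (1 + V) * B := by
  have h1 := dir1 h (F := fun x => F (sw x)) (θ := fun x => θ (sw x)) (A := sw ⁻¹' A)
    (hF.comp contDiff_sw) (hθ.comp contDiff_sw) hV (mp_sw.measurable hA)
    (fun x hx => by
      have h2 : sw x ∈ QQ := hQ hx
      exact ⟨h2.2, h2.1⟩) hf (fun x hx => by
      rw [d1_sw]; exact hθV _ hx) (fun x => k (sw x)) hk B hB hkB
  have h2 := mp_sw.setIntegral_preimage_emb sw_emb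
    (fun x => ((k x * d2 F x : ℝ) : ℂ) * ee F θ x) A
  rw [← h2]
  exact h1

theorem dec (F : ℝ × ℝ → ℝ) {s : ℝ} (hs : 0 < s) (x : ℝ × ℝ) :
    ec F s x = nr F s x + ((1 / s) * (kn1 F s x * d1 F x) + (1 / s) * (kn2 F s x * d2 F x) +
      kf F s x * d1 F x + kg2 F s x * d2 F x) := by
  have hr : ∀ r : ℝ, rho r * r = 1 - kap r := by
    intro r
    unfold rho
    by_cases h : r = 0
    · subst h
      rw [kap_of_le (by simp)]
      simp
    · field_simp
  have e1 : rho (d1 F x / s) / s * d1 F x = 1 - kap (d1 F x / s) := by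
    rw [← hr]; ring
  have e2 : rho (d2 F x / s) / s * d2 F x = 1 - kap (d2 F x / s) := by
    rw [← hr]; ring
  have hp : 0 < s + (d1 F x ^ 2 + d2 F x ^ 2) := by positivity
  have e3 : ww F s x + (1 / s) * (ww F s x * (d1 F x ^ 2 + d2 F x ^ 2)) = 1 := by
    unfold ww
    field_simp
  unfold kn1 kn2 kf kg2 nr
  calc ec F s x = ec F s x * (kap (d1 F x / s) * kap (d2 F x / s)) *
        (ww F s x + (1 / s) * (ww F s x * (d1 F x ^ 2 + d2 F x ^ 2))) +
        (ec F s x * (1 - kap (d1 F x / s)) +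
          ec F s x * kap (d1 F x / s) * (1 - kap (d2 F x / s))) := by rw [e3]; ring
    _ = _ := by rw [← e1, ← e2]; ring

theorem kn1_sw {n : ℕ} {F : ℝ × ℝ → ℝ} (hF : IsPol n F) (s : ℝ) :
    (fun x => kn2 F s (sw x)) = kn1 (fun x => F (sw x)) s := by
  funext x
  unfold kn1 kn2 nr ec ww
  rw [hF.qF_sw, d1_sw, d2_sw]
  ring

theorem kg_sw {n : ℕ} {F : ℝ × ℝ → ℝ} (hF : IsPol n F) (s : ℝ) :
    (fun x => kg2 F s (sw x)) = kg (fun x => F (sw x)) s := by
  funext x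
  unfold kg kg2 ec
  rw [hF.qF_sw, d1_sw, d2_sw]

end SUP_

open SUP_ in
theorem t_sup (h1 : T_IBP2) (h2 : T_NEAR0) (h3 : T_NEAR) (h4 : T_FAR) : T_SUP := by
  obtain ⟨C0, hC0, H0⟩ := h2
  obtain ⟨C1, hC1, H1⟩ := h3
  obtain ⟨C2, hC2, H2⟩ := h4
  refine ⟨C0 + 6 * C1 + 6 * C2, by positivity, ?_⟩
  intro n m F θ V A s hn hm hF hθ hV hA hQ hAx hθV hs
  have hs0 : 0 < s := by linarith
  have hL : 0 ≤ Real.log s := Real.log_nonneg hs
  have hn' : (1 : ℝ) ≤ n := by exact_mod_cast hn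
  have hm' : (1 : ℝ) ≤ m := by exact_mod_cast hm
  obtain ⟨k1c, k1b⟩ := H1 n F s hn hF hs
  obtain ⟨k2c, k2b⟩ := H1 n (fun x => F (sw x)) s hn hF.sw hs
  obtain ⟨kfc, -, kfb, -⟩ := H2 n F s hn hF hs
  obtain ⟨-, kgc, -, kgb⟩ := H2 n (fun x => F (sw x)) s hn hF.sw hs
  rw [← kn1_sw hF] at k2c k2b
  rw [← kg_sw hF] at kgc kgb
  have hF1 : ContDiff ℝ 1 F := hF.contDiff
  -- continuity of the amplitudes
  have c1 : Continuous (kn1 F s) := k1c.continuous
  have c2 : Continuous (kn2 F s) := by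
    have := k2c.continuous.comp (contDiff_sw (k := 0)).continuous
    simpa [Function.comp_def, sw_sw] using this
  have c3 : Continuous (kf F s) := kfc.continuous
  have c4 : Continuous (kg2 F s) := by
    have := kgc.continuous.comp (contDiff_sw (k := 0)).continuous
    simpa [Function.comp_def, sw_sw] using this
  have cd1 : Continuous (d1 F) := hF.d1.continuous
  have cd2 : Continuous (d2 F) := hF.d2.continuous
  have ce : Continuous (ee F θ) := ee_cont hF.continuous hθ.continuous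
  -- the four terms
  have b1 := dir1 h1 (m := m) hF1 hθ hV hA hQ hAx.1 (fun x hx => (hθV x hx).1) (kn1 F s) k1c
    (C1 * n ^ 2 * (1 + Real.log s)) (by positivity)
    ((lintegral_mono_set' (s := Sq) (t := univ) (Eventually.of_forall fun x _ => mem_univ x)).trans
      (by rw [Measure.restrict_univ]; exact k1b))
  have b2 := dir2 h1 (m := m) hF1 hθ hV hA hQ hAx.2 (fun x hx => (hθV x hx).2) (kn2 F s) k2c
    (C1 * n ^ 2 * (1 + Real.log s)) (by positivity)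
    ((lintegral_mono_set' (s := Sq) (t := univ) (Eventually.of_forall fun x _ => mem_univ x)).trans
      (by rw [Measure.restrict_univ]; exact k2b))
  have b3 := dir1 h1 (m := m) hF1 hθ hV hA hQ hAx.1 (fun x hx => (hθV x hx).1) (kf F s) kfc
    (C2 * n / s) (by positivity) kfb
  have b4 := dir2 h1 (m := m) hF1 hθ hV hA hQ hAx.2 (fun x hx => (hθV x hx).2) (kg2 F s) kgc
    (C2 * n / s) (by positivity) kgb
  -- the sum of the four terms
  set a : ℝ × ℝ → ℂ := fun x => ((1 / s : ℝ) : ℂ) * (((kn1 F s x * d1 F x : ℝ) : ℂ) * ee F θ x) +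
    ((1 / s : ℝ) : ℂ) * (((kn2 F s x * d2 F x : ℝ) : ℂ) * ee F θ x) +
    ((kf F s x * d1 F x : ℝ) : ℂ) * ee F θ x + ((kg2 F s x * d2 F x : ℝ) : ℂ) * ee F θ x with ha
  have i1 : IntegrableOn (fun x => ((kn1 F s x * d1 F x : ℝ) : ℂ) * ee F θ x) A :=
    intOn (by fun_prop) hQ
  have i2 : IntegrableOn (fun x => ((kn2 F s x * d2 F x : ℝ) : ℂ) * ee F θ x) A :=
    intOn (by fun_prop) hQ
  have i3 : IntegrableOn (fun x => ((kf F s x * d1 F x : ℝ) : ℂ) * ee F θ x) A :=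
    intOn (by fun_prop) hQ
  have i4 : IntegrableOn (fun x => ((kg2 F s x * d2 F x : ℝ) : ℂ) * ee F θ x) A :=
    intOn (by fun_prop) hQ
  have ia : IntegrableOn a A := by
    refine (((i1.const_mul _).add (i2.const_mul _)).add i3).add i4
  have na : ‖∫ x in A, a x‖ ≤ (1 / s) * ((2 * m + 1) * (1 + V) * (C1 * n ^ 2 * (1 + Real.log s))) +
      (1 / s) * ((2 * m + 1) * (1 + V) * (C1 * n ^ 2 * (1 + Real.log s))) +
      (2 * m + 1) * (1 + V) * (C2 * n / s) + (2 * m + 1) * (1 + V) * (C2 * n / s) := by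
    have e : ∫ x in A, a x = ((1 / s : ℝ) : ℂ) *
        (∫ x in A, ((kn1 F s x * d1 F x : ℝ) : ℂ) * ee F θ x) +
        ((1 / s : ℝ) : ℂ) * (∫ x in A, ((kn2 F s x * d2 F x : ℝ) : ℂ) * ee F θ x) +
        (∫ x in A, ((kf F s x * d1 F x : ℝ) : ℂ) * ee F θ x) +
        ∫ x in A, ((kg2 F s x * d2 F x : ℝ) : ℂ) * ee F θ x := by
      have j1 : IntegrableOn (fun x => ((1 / s : ℝ) : ℂ) *
          (((kn1 F s x * d1 F x : ℝ) : ℂ) * ee F θ x)) A := i1.const_mul _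
      have j2 : IntegrableOn (fun x => ((1 / s : ℝ) : ℂ) *
          (((kn2 F s x * d2 F x : ℝ) : ℂ) * ee F θ x)) A := i2.const_mul _
      have j12 : IntegrableOn (fun x => ((1 / s : ℝ) : ℂ) *
          (((kn1 F s x * d1 F x : ℝ) : ℂ) * ee F θ x) + ((1 / s : ℝ) : ℂ) *
          (((kn2 F s x * d2 F x : ℝ) : ℂ) * ee F θ x)) A := j1.add j2
      have j123 : IntegrableOn (fun x => ((1 / s : ℝ) : ℂ) *
          (((kn1 F s x * d1 F x : ℝ) : ℂ) * ee F θ x) + ((1 / s : ℝ) : ℂ) *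
          (((kn2 F s x * d2 F x : ℝ) : ℂ) * ee F θ x) +
          ((kf F s x * d1 F x : ℝ) : ℂ) * ee F θ x) A := j12.add i3
      rw [ha, integral_add j123 i4, integral_add j12 i3, integral_add j1 j2,
        integral_const_mul, integral_const_mul]
    rw [e]
    refine (norm_add_le _ _).trans (add_le_add ((norm_add_le _ _).trans (add_le_add
      ((norm_add_le _ _).trans (add_le_add ?_ ?_)) b3)) b4)
    · rw [norm_mul, Complex.norm_real, Real.norm_of_nonneg (by positivity)]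
      gcongr
    · rw [norm_mul, Complex.norm_real, Real.norm_of_nonneg (by positivity)]
      gcongr
  -- the first term
  have hdec : ∀ x, ((ec F s x : ℝ) : ℂ) * ee F θ x = ((nr F s x : ℝ) : ℂ) * ee F θ x + a x := by
    intro x
    rw [ha, dec F hs0 x]
    push_cast
    ring
  have key : ‖∫ x in A, ((ec F s x : ℝ) : ℂ) * ee F θ x‖ ≤
      C0 * n ^ 2 * (1 + Real.log s) / s + ‖∫ x in A, a x‖ := by
    by_cases hi : IntegrableOn (fun x => ((ec F s x : ℝ) : ℂ) * ee F θ x) A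
    · have hin : IntegrableOn (fun x => ((nr F s x : ℝ) : ℂ) * ee F θ x) A := by
        have h5 := hi.sub ia
        refine h5.congr (Eventually.of_forall fun x => ?_)
        simp only [Pi.sub_apply]
        rw [hdec x]
        ring
      have e : ∫ x in A, ((ec F s x : ℝ) : ℂ) * ee F θ x =
          (∫ x in A, ((nr F s x : ℝ) : ℂ) * ee F θ x) + ∫ x in A, a x := by
        rw [← integral_add hin ia]
        exact integral_congr_ae (Eventually.of_forall hdec)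
      rw [e]
      refine (norm_add_le _ _).trans (add_le_add ?_ le_rfl)
      refine norm_le_of (by positivity) ?_
      refine (enorm_integral_le_lintegral_enorm _).trans ?_
      refine le_trans ?_ (H0 n F s hn hF hs)
      refine (setLIntegral_le_lintegral A _).trans ?_
      refine lintegral_mono fun x => ?_
      rw [← ofReal_norm]
      apply ENNReal.ofReal_le_ofReal
      rw [norm_mul, norm_ee, mul_one, Complex.norm_real, Real.norm_eq_abs]
    · rw [integral_undef hi, norm_zero]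
      positivity
  have fin : ‖∫ x in A, ((ec F s x : ℝ) : ℂ) * ee F θ x‖ ≤
      (C0 + 6 * C1 + 6 * C2) * n ^ 2 * m * (1 + V) * (1 + Real.log s) / s := by
    refine key.trans ((add_le_add le_rfl na).trans ?_)
    have e : C0 * n ^ 2 * (1 + Real.log s) / s +
        ((1 / s) * ((2 * m + 1) * (1 + V) * (C1 * n ^ 2 * (1 + Real.log s))) +
      (1 / s) * ((2 * m + 1) * (1 + V) * (C1 * n ^ 2 * (1 + Real.log s))) +
      (2 * m + 1) * (1 + V) * (C2 * n / s) + (2 * m + 1) * (1 + V) * (C2 * n / s)) =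
      (C0 * n ^ 2 * (1 + Real.log s) + 2 * ((2 * m + 1) * (1 + V) *
        (C1 * n ^ 2 * (1 + Real.log s))) + 2 * ((2 * m + 1) * (1 + V) * (C2 * n))) / s := by
      ring
    rw [e]
    refine div_le_div_of_nonneg_right ?_ hs0.le
    set L := Real.log s
    have q1 : (2 * (m : ℝ) + 1) ≤ 3 * m := by linarith
    have q2 : (n : ℝ) ≤ n ^ 2 * (1 + L) := by nlinarith
    have q3 : (1 : ℝ) ≤ m * (1 + V) := by nlinarith
    have t1 : C0 * n ^ 2 * (1 + L) ≤ C0 * n ^ 2 * (1 + L) * (m * (1 + V)) :=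
      le_mul_of_one_le_right (by positivity) q3
    have t2 : 2 * ((2 * (m : ℝ) + 1) * (1 + V) * (C1 * n ^ 2 * (1 + L))) ≤
        2 * ((3 * m) * (1 + V) * (C1 * n ^ 2 * (1 + L))) := by gcongr
    have t3 : 2 * ((2 * (m : ℝ) + 1) * (1 + V) * (C2 * n)) ≤
        2 * ((3 * m) * (1 + V) * (C2 * (n ^ 2 * (1 + L)))) := by gcongr
    nlinarith
  exact fin

end Pool.Agent.Chirp
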