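import Mathlib
import Pool.Agent.Chirp.Targets

/-!
# Polynomial chirps: Taylor polynomials on squares
-/

namespace Pool.Agent.Chirp

open MeasureTheory Set Filter
open scoped ENNReal NNReal

namespace TAY_

/-- Taylor polynomial at `(a, b)` with the terms of order less than `k`. -/
noncomputable def Tp (a b : ℝ) (k : ℕ) (f : ℝ × ℝ → ℝ) (x : ℝ × ℝ) : ℝ :=
  ∑ i ∈ Finset.range k, ∑ j ∈ Finset.range (k - i),
    (d1^[i] (d2^[j] f)) (a, b) *
      (((x.1 - a) ^ i / (i.factorial : ℝ)) * ((x.2 - b) ^ j / (j.factorial : ℝ)))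

theorem comm : ∀ (j : ℕ) (f : ℝ × ℝ → ℝ), ContDiff ℝ (j + 1 : ℕ) f →
    d2^[j] (d1 f) = d1 (d2^[j] f) := by
  intro j
  induction j with
  | zero => intro f _; rfl
  | succ j ih =>
    intro f hf
    have h2 : ContDiff ℝ 2 f := hf.of_le (by
      have : (2 : ℕ) ≤ j + 1 + 1 := by omega
      exact_mod_cast this)
    rw [Function.iterate_succ_apply, Function.iterate_succ_apply, ← d_comm h2]
    exact ih (d2 f) (contDiff_d2 hf)

theorem isPow1 (a : ℝ) : ∀ i : ℕ, IsPol i (fun x => (x.1 - a) ^ i) := by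
  intro i
  induction i with
  | zero => exact (isPol_const 1 0).congr fun x => pow_zero _
  | succ i ih =>
    have h := ih.mul ((isPol_fst (d := 1) le_rfl).sub (isPol_const a 1))
    exact h.congr fun x => pow_succ _ _

theorem isPow2 (b : ℝ) : ∀ j : ℕ, IsPol j (fun x => (x.2 - b) ^ j) := by
  intro j
  induction j with
  | zero => exact (isPol_const 1 0).congr fun x => pow_zero _
  | succ j ih =>
    have h := ih.mul ((isPol_snd (d := 1) le_rfl).sub (isPol_const b 1))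
    exact h.congr fun x => pow_succ _ _

theorem isPol_Tp (a b : ℝ) (k : ℕ) (f : ℝ × ℝ → ℝ) : IsPol k (Tp a b (k + 1) f) := by
  unfold Tp
  refine isPol_sum _ fun i hi => isPol_sum _ fun j hj => ?_
  rw [Finset.mem_range] at hi hj
  have h := (((isPow1 a i).mul (isPow2 b j)).mono (show i + j ≤ k by omega)).smul
    ((d1^[i] (d2^[j] f)) (a, b) / ((i.factorial : ℝ) * (j.factorial : ℝ)))
  refine h.congr fun x => ?_
  have h1 : (i.factorial : ℝ) ≠ 0 := by exact_mod_cast Nat.factorial_ne_zero i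
  have h2 : (j.factorial : ℝ) ≠ 0 := by exact_mod_cast Nat.factorial_ne_zero j
  field_simp

theorem Tp_self (a b : ℝ) (k : ℕ) (f : ℝ × ℝ → ℝ) : Tp a b (k + 1) f (a, b) = f (a, b) := by
  unfold Tp
  rw [Finset.sum_eq_single_of_mem 0 (Finset.mem_range.2 (Nat.succ_pos k))]
  · rw [Finset.sum_eq_single_of_mem 0 (Finset.mem_range.2 (by omega))]
    · simp
    · intro j _ hj
      simp [hj]
  · intro i _ hi
    refine Finset.sum_eq_zero fun j _ => ?_
    simp [hi]

theorem fac_div (u : ℝ) (i : ℕ) :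
    ((i + 1 : ℕ) : ℝ) * u ^ (i + 1 - 1) / ((i + 1).factorial : ℝ) = u ^ i / (i.factorial : ℝ) := by
  have h1 : (i.factorial : ℝ) ≠ 0 := by exact_mod_cast Nat.factorial_ne_zero i
  have h2 : ((i + 1 : ℕ) : ℝ) ≠ 0 := by exact_mod_cast Nat.succ_ne_zero i
  rw [Nat.factorial_succ, Nat.cast_mul, Nat.add_sub_cancel, mul_div_mul_left _ _ h2]

theorem hasDerivAt_pow_div (a : ℝ) (i : ℕ) (s : ℝ) :
    HasDerivAt (fun t : ℝ => (t - a) ^ i / (i.factorial : ℝ))
      ((i : ℝ) * (s - a) ^ (i - 1) / (i.factorial : ℝ)) s := by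
  have h := (((hasDerivAt_id s).sub_const a).pow i).div_const (i.factorial : ℝ)
  refine h.congr_deriv ?_
  simp

theorem Tp_d1 (a b : ℝ) (k : ℕ) (f : ℝ × ℝ → ℝ) (hf : ContDiff ℝ (k + 1 : ℕ) f) (x : ℝ × ℝ) :
    HasDerivAt (fun s => Tp a b (k + 1) f (s, x.2)) (Tp a b k (d1 f) x) x.1 := by
  have h1 : HasDerivAt (fun s => Tp a b (k + 1) f (s, x.2))
      (∑ i ∈ Finset.range (k + 1), ∑ j ∈ Finset.range (k + 1 - i),
        (d1^[i] (d2^[j] f)) (a, b) *
          (((i : ℝ) * (x.1 - a) ^ (i - 1) / (i.factorial : ℝ)) *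
            ((x.2 - b) ^ j / (j.factorial : ℝ)))) x.1 := by
    unfold Tp
    refine HasDerivAt.fun_sum fun i _ => HasDerivAt.fun_sum fun j _ => ?_
    exact ((hasDerivAt_pow_div a i x.1).mul_const
      ((x.2 - b) ^ j / (j.factorial : ℝ))).const_mul ((d1^[i] (d2^[j] f)) (a, b))
  refine h1.congr_deriv ?_
  rw [Finset.sum_range_succ']
  have h0 : ∑ j ∈ Finset.range (k + 1 - 0), (d1^[0] (d2^[j] f)) (a, b) *
          ((((0 : ℕ) : ℝ) * (x.1 - a) ^ (0 - 1) / (Nat.factorial 0 : ℝ)) *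
            ((x.2 - b) ^ j / (j.factorial : ℝ))) = 0 :=
    Finset.sum_eq_zero fun j _ => by
      rw [Nat.cast_zero, zero_mul, zero_div, zero_mul, mul_zero]
  rw [h0, add_zero]
  unfold Tp
  refine Finset.sum_congr rfl fun i hi => ?_
  rw [Finset.mem_range] at hi
  rw [Nat.add_sub_add_right]
  refine Finset.sum_congr rfl fun j hj => ?_
  rw [Finset.mem_range] at hj
  rw [fac_div, Function.iterate_succ_apply, comm j f (hf.of_le (by
    have : j + 1 ≤ k + 1 := by omega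
    exact_mod_cast this))]

theorem Tp_d2 (a b : ℝ) (k : ℕ) (f : ℝ × ℝ → ℝ) (x : ℝ × ℝ) :
    HasDerivAt (fun s => Tp a b (k + 1) f (x.1, s)) (Tp a b k (d2 f) x) x.2 := by
  have h1 : HasDerivAt (fun s => Tp a b (k + 1) f (x.1, s))
      (∑ i ∈ Finset.range (k + 1), ∑ j ∈ Finset.range (k + 1 - i),
        (d1^[i] (d2^[j] f)) (a, b) *
          (((x.1 - a) ^ i / (i.factorial : ℝ)) *
            ((j : ℝ) * (x.2 - b) ^ (j - 1) / (j.factorial : ℝ)))) x.2 := by
    unfold Tp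
    refine HasDerivAt.fun_sum fun i _ => HasDerivAt.fun_sum fun j _ => ?_
    exact ((hasDerivAt_pow_div b j x.2).const_mul
      ((x.1 - a) ^ i / (i.factorial : ℝ))).const_mul ((d1^[i] (d2^[j] f)) (a, b))
  refine h1.congr_deriv ?_
  have hz : ∀ i : ℕ, (d1^[i] (d2^[0] f)) (a, b) *
          (((x.1 - a) ^ i / (i.factorial : ℝ)) *
            (((0 : ℕ) : ℝ) * (x.2 - b) ^ (0 - 1) / (Nat.factorial 0 : ℝ))) = 0 := fun i => by
    rw [Nat.cast_zero, zero_mul, zero_div, mul_zero, mul_zero]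
  rw [Finset.sum_range_succ]
  have h0 : ∑ j ∈ Finset.range (k + 1 - k), (d1^[k] (d2^[j] f)) (a, b) *
          (((x.1 - a) ^ k / (k.factorial : ℝ)) *
            ((j : ℝ) * (x.2 - b) ^ (j - 1) / (j.factorial : ℝ))) = 0 := by
    have : k + 1 - k = 1 := by omega
    rw [this, Finset.sum_range_one]
    exact hz k
  rw [h0, add_zero]
  unfold Tp
  refine Finset.sum_congr rfl fun i hi => ?_
  rw [Finset.mem_range] at hi
  have : k + 1 - i = (k - i) + 1 := by omega
  rw [this, Finset.sum_range_succ', hz i, add_zero]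
  refine Finset.sum_congr rfl fun j hj => ?_
  rw [fac_div, Function.iterate_succ_apply]

theorem mvt {g g' : ℝ → ℝ} {a r K : ℝ} (hK : 0 ≤ K)
    (hg : ∀ s, |s - a| ≤ r → HasDerivAt g (g' s) s) (hb : ∀ s, |s - a| ≤ r → |g' s| ≤ K)
    {s : ℝ} (hs : |s - a| ≤ r) : |g s - g a| ≤ K * r := by
  have hr : 0 ≤ r := (abs_nonneg _).trans hs
  have hm : ∀ t, t ∈ Icc (a - r) (a + r) → |t - a| ≤ r := fun t ht => by
    rw [abs_le]
    exact ⟨by linarith [ht.1], by linarith [ht.2]⟩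
  have hm' : ∀ t, |t - a| ≤ r → t ∈ Icc (a - r) (a + r) := fun t ht => by
    rw [abs_le] at ht
    exact ⟨by linarith [ht.1], by linarith [ht.2]⟩
  have h := Convex.norm_image_sub_le_of_norm_hasDerivWithin_le (f := g) (f' := g') (C := K)
    (s := Icc (a - r) (a + r)) (x := a) (y := s)
    (fun t ht => (hg t (hm t ht)).hasDerivWithinAt)
    (fun t ht => by rw [Real.norm_eq_abs]; exact hb t (hm t ht)) (convex_Icc _ _)
    (hm' a (by rw [sub_self, abs_zero]; exact hr)) (hm' s hs)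
  rw [Real.norm_eq_abs, Real.norm_eq_abs] at h
  exact h.trans (mul_le_mul_of_nonneg_left hs hK)

theorem rem (a b r M : ℝ) (hr : 0 ≤ r) (hM : 0 ≤ M) : ∀ (k : ℕ) (f : ℝ × ℝ → ℝ),
    ContDiff ℝ (k : ℕ) f →
    (∀ i j : ℕ, i + j = k → ∀ x : ℝ × ℝ, |x.1 - a| ≤ r → |x.2 - b| ≤ r →
      |(d1^[i] (d2^[j] f)) x| ≤ M) →
    ∀ x : ℝ × ℝ, |x.1 - a| ≤ r → |x.2 - b| ≤ r → |f x - Tp a b k f x| ≤ (2 * r) ^ k * M := by
  intro k
  induction k with
  | zero =>
    intro f _ h x h1 h2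
    have h3 := h 0 0 rfl x h1 h2
    unfold Tp
    simpa using h3
  | succ k ih =>
    intro f hf h x h1 h2
    have hdf : Differentiable ℝ f := hf.differentiable (by simp)
    have hK : 0 ≤ (2 * r) ^ k * M := by positivity
    have e1 := ih (d1 f) (contDiff_d1 hf) (fun i j hij y hy1 hy2 => by
      have h3 := h (i + 1) j (by omega) y hy1 hy2
      rw [comm j f (hf.of_le (by
        have : j + 1 ≤ k + 1 := by omega
        exact_mod_cast this)), ← Function.iterate_succ_apply]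
      exact h3)
    have e2 := ih (d2 f) (contDiff_d2 hf) (fun i j hij y hy1 hy2 => by
      have h3 := h i (j + 1) (by omega) y hy1 hy2
      rw [← Function.iterate_succ_apply]
      exact h3)
    have a1 : |(f (x.1, b) - Tp a b (k + 1) f (x.1, b)) -
        (f (a, b) - Tp a b (k + 1) f (a, b))| ≤ (2 * r) ^ k * M * r := by
      refine mvt (g := fun s => f (s, b) - Tp a b (k + 1) f (s, b))
        (g' := fun s => d1 f (s, b) - Tp a b k (d1 f) (s, b)) hK (fun s _ => ?_)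
        (fun s hs => e1 (s, b) hs (by rw [sub_self, abs_zero]; exact hr)) h1
      exact (hasDerivAt_d1 (x := (s, b)) (hdf _)).sub (Tp_d1 a b k f hf (s, b))
    have a2 : |(f (x.1, x.2) - Tp a b (k + 1) f (x.1, x.2)) -
        (f (x.1, b) - Tp a b (k + 1) f (x.1, b))| ≤ (2 * r) ^ k * M * r := by
      refine mvt (g := fun s => f (x.1, s) - Tp a b (k + 1) f (x.1, s))
        (g' := fun s => d2 f (x.1, s) - Tp a b k (d2 f) (x.1, s)) hK (fun s _ => ?_)
        (fun s hs => e2 (x.1, s) h1 hs) h2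
      exact (hasDerivAt_d2 (x := (x.1, s)) (hdf _)).sub (Tp_d2 a b k f (x.1, s))
    rw [Tp_self, sub_self, sub_zero] at a1
    have e3 : (2 * r) ^ (k + 1) * M = (2 * r) ^ k * M * r + (2 * r) ^ k * M * r := by
      rw [pow_succ]
      ring
    rw [e3]
    have e4 : f x - Tp a b (k + 1) f x =
        ((f (x.1, x.2) - Tp a b (k + 1) f (x.1, x.2)) -
          (f (x.1, b) - Tp a b (k + 1) f (x.1, b))) +
        (f (x.1, b) - Tp a b (k + 1) f (x.1, b)) := by
      rw [sub_add_cancel]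
    rw [e4]
    exact (abs_add_le _ _).trans (add_le_add a2 a1)

end TAY_

open TAY_

theorem t_tay : T_TAY := by
  intro k ψ a b r M hψ hr hM h
  refine ⟨Tp a b (k + 1) ψ, isPol_Tp a b k ψ, fun x h1 h2 => ?_⟩
  have hd : DifferentiableAt ℝ ψ x := (hψ.differentiable (by simp)) x
  have hP := (isPol_Tp a b k ψ).differentiableAt x
  have f1 : d1 (Tp a b (k + 1) ψ) x = Tp a b k (d1 ψ) x := (Tp_d1 a b k ψ hψ x).deriv
  have f2 : d2 (Tp a b (k + 1) ψ) x = Tp a b k (d2 ψ) x := (Tp_d2 a b k ψ x).deriv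
  rw [d1_sub hd hP, d2_sub hd hP, f1, f2]
  constructor
  · refine rem a b r M hr hM k (d1 ψ) (contDiff_d1 hψ) (fun i j hij y hy1 hy2 => ?_) x h1 h2
    have h3 := h (i + 1) j (by omega) y hy1 hy2
    rw [comm j ψ (hψ.of_le (by
      have : j + 1 ≤ k + 1 := by omega
      exact_mod_cast this)), ← Function.iterate_succ_apply]
    exact h3
  · refine rem a b r M hr hM k (d2 ψ) (contDiff_d2 hψ) (fun i j hij y hy1 hy2 => ?_) x h1 h2
    have h3 := h i (j + 1) (by omega) y hy1 hy2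
    rw [← Function.iterate_succ_apply]
    exact h3

end Pool.Agent.Chirp
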