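import Mathlib
import Pool.Agent.Chirp.Targets

/-!
# CHP-TL2: the L² norm of a piece
-/

namespace Pool.Agent.Chirp

open MeasureTheory Set Filter
open scoped ENNReal NNReal
open Pool.Agent.Restr (E QQ u L2_slice norm_u enorm_u)
open Pool.Agent.H27.Fib (Few ind vr measurable_ind)

namespace TL2_

theorem measurable_chi (b : ℕ) : Measurable (chi b) := by
  unfold chi
  by_cases hb : b = 0
  · simp only [hb, if_true]
    exact (hh_contDiff (k := 0)).continuous.measurable
  · simp only [hb, if_false]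
    exact ((eta_contDiff (k := 0)).continuous.comp (continuous_id.div_const _)).measurable

theorem abs_chi_le (b : ℕ) (r : ℝ) : |chi b r| ≤ 1 := by
  unfold chi
  by_cases hb : b = 0
  · rw [if_pos hb, abs_of_nonneg (hh_nonneg r)]
    exact hh_le_one r
  · rw [if_neg hb]
    exact abs_eta_le _

theorem chi_supp (b : ℕ) (r : ℝ) (h : chi b r ≠ 0) : r ≤ 2 * ((2 : ℝ) ^ b) ^ 2 := by
  unfold chi at h
  by_cases hb : b = 0
  · rw [if_pos hb] at h
    rw [hb]
    by_contra hcon
    push Not at hcon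
    exact h (hh_of_ge (by norm_num at hcon; linarith))
  · rw [if_neg hb] at h
    by_contra hcon
    push Not at hcon
    apply h
    apply eta_of_ge
    rw [le_div_iff₀ (by positivity)]
    linarith

theorem measurable_qv {P : ℝ × ℝ → ℝ} {n : ℕ} (hP : IsPol n P) :
    Measurable (fun p : (ℝ × ℝ) × ℝ => qv (aa P p.1) (bb P p.1) (cc P p.1) p.2) := by
  have h1 := hP.aa.continuous
  have h2 := hP.bb.continuous
  have h3 := hP.cc.continuous
  unfold qv
  apply Measurable.div
  · apply Continuous.measurable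
    fun_prop
  · apply Continuous.measurable
    fun_prop

/-- the function at time `t` -/
noncomputable def G (P θ : ℝ × ℝ → ℝ) (A : Set (ℝ × ℝ)) (b : ℕ) (t : ℝ) (x : ℝ × ℝ) : ℂ :=
  ((chi b (qv (aa P x) (bb P x) (cc P x) t) : ℝ) : ℂ) * (ch P θ x * ind A x)

theorem continuous_ch {P θ : ℝ × ℝ → ℝ} (hP : Continuous P) (hθ : Continuous θ) :
    Continuous (ch P θ) := by
  unfold ch
  fun_prop

theorem measurable_G {P θ : ℝ × ℝ → ℝ} {n : ℕ} (hP : IsPol n P) (hθ : Continuous θ)
    {A : Set (ℝ × ℝ)} (hA : MeasurableSet A) (b : ℕ) :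
    Measurable (fun p : (ℝ × ℝ) × ℝ => G P θ A b p.2 p.1) := by
  unfold G
  apply Measurable.mul
  · exact Complex.measurable_ofReal.comp ((measurable_chi b).comp (measurable_qv hP))
  · exact ((continuous_ch hP.continuous hθ).measurable.mul (measurable_ind hA)).comp
      measurable_fst

theorem Eb_eq {P θ : ℝ × ℝ → ℝ} {n : ℕ} (hP : IsPol n P) {A : Set (ℝ × ℝ)}
    (hA : MeasurableSet A) (b : ℕ) (ξ : ℝ × ℝ × ℝ) :
    Eb P θ A b ξ = E (G P θ A b ξ.2.2) ξ := by
  unfold Eb E
  rw [← integral_indicator hA]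
  refine integral_congr_ae (Eventually.of_forall fun x => ?_)
  beta_reduce
  by_cases hx : x ∈ A
  · rw [indicator_of_mem hx, hP.qF_Ph]
    unfold G ind
    rw [indicator_of_mem hx, mul_one, mul_left_comm]
    congr 1
    unfold ch Ph u
    rw [← Complex.exp_add]
    congr 1
    push_cast
    ring
  · rw [indicator_of_notMem hx]
    unfold G ind
    rw [indicator_of_notMem hx]
    ring

theorem measurable_Eb {P θ : ℝ × ℝ → ℝ} {n : ℕ} (hP : IsPol n P) (hθ : Continuous θ)
    {A : Set (ℝ × ℝ)} (hA : MeasurableSet A) (b : ℕ) : Measurable (Eb P θ A b) := by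
  have h1 : Eb P θ A b = fun ξ => ∫ x : ℝ × ℝ,
      u (ξ.1 * x.1 + (ξ.2.1 * x.2 + ξ.2.2 * (x.1 ^ 2 + x.2 ^ 2))) * G P θ A b ξ.2.2 x := by
    funext ξ
    rw [Eb_eq hP hA]
    rfl
  rw [h1]
  have hu : Continuous u := by unfold u; fun_prop
  have h2 : Measurable (fun p : (ℝ × ℝ × ℝ) × (ℝ × ℝ) =>
      u (p.1.1 * p.2.1 + (p.1.2.1 * p.2.2 + p.1.2.2 * (p.2.1 ^ 2 + p.2.2 ^ 2))) *
        G P θ A b p.1.2.2 p.2) := by
    apply Measurable.mul
    · apply Continuous.measurable
      exact hu.comp (by fun_prop)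
    · have h3 := (measurable_G hP hθ hA b).comp
        (by fun_prop : Measurable fun p : (ℝ × ℝ × ℝ) × (ℝ × ℝ) => (p.2, p.1.2.2))
      exact h3
  exact (h2.stronglyMeasurable.integral_prod_right (ν := volume)).measurable

theorem enorm_G_le (P θ : ℝ × ℝ → ℝ) (A : Set (ℝ × ℝ)) (b : ℕ) (t : ℝ) (x : ℝ × ℝ) :
    ‖G P θ A b t x‖ₑ ^ 2 ≤ A.indicator (fun x => {t : ℝ | qv (aa P x) (bb P x) (cc P x) t ≤
      2 * ((2 : ℝ) ^ b) ^ 2}.indicator (fun _ => (1 : ℝ≥0∞)) t) x := by
  by_cases hx : x ∈ A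
  · rw [indicator_of_mem hx]
    by_cases hc : chi b (qv (aa P x) (bb P x) (cc P x) t) = 0
    · unfold G
      rw [hc]
      simp
    · have h1 := chi_supp b _ hc
      rw [indicator_of_mem (show t ∈ {t : ℝ | qv (aa P x) (bb P x) (cc P x) t ≤
        2 * ((2 : ℝ) ^ b) ^ 2} from h1)]
      have h2 : ‖G P θ A b t x‖ₑ ≤ 1 := by
        unfold G ind ch
        rw [indicator_of_mem hx, mul_one, enorm_mul]
        have h3 : ‖Complex.exp (Complex.I * ((P x + θ x : ℝ) : ℂ))‖ₑ = 1 := by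
          rw [← ofReal_norm, mul_comm, Complex.norm_exp_ofReal_mul_I, ENNReal.ofReal_one]
        rw [h3, mul_one, ← ofReal_norm, Complex.norm_real, Real.norm_eq_abs]
        exact ENNReal.ofReal_le_one.mpr (abs_chi_le b _)
      calc ‖G P θ A b t x‖ₑ ^ 2 ≤ 1 ^ 2 := by gcongr
        _ = 1 := one_pow 2
  · rw [indicator_of_notMem hx]
    unfold G ind
    rw [indicator_of_notMem hx]
    simp

end TL2_

open TL2_ in
theorem t_tl2 (h : T_EIG) : T_TL2 := by
  intro n P θ A b hn hP hθ hA hAQ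
  have hθc : Continuous θ := hθ.continuous
  have hN : Measurable (fun ξ => ‖Eb P θ A b ξ‖ₑ ^ 2) := (measurable_Eb hP hθc hA b).enorm.pow_const 2
  have hGm := measurable_G hP hθc hA b
  have hG2 : Measurable (fun q : ℝ × (ℝ × ℝ) => ‖G P θ A b q.1 q.2‖ₑ ^ 2) := by
    have h3 := hGm.comp (by fun_prop : Measurable fun q : ℝ × (ℝ × ℝ) => (q.2, q.1))
    exact h3.enorm.pow_const 2
  have hre : ∫⁻ ξ, ‖Eb P θ A b ξ‖ₑ ^ 2 =
      ∫⁻ t, ∫⁻ s, ∫⁻ a, ‖Eb P θ A b (a, s, t)‖ₑ ^ 2 := by
    rw [Measure.volume_eq_prod (α := ℝ) (β := ℝ × ℝ), lintegral_prod_symm _ hN.aemeasurable]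
    have hm1 : Measurable (fun y : ℝ × ℝ => ∫⁻ x, ‖Eb P θ A b (x, y)‖ₑ ^ 2) :=
      Measurable.lintegral_prod_right' (f := fun q : (ℝ × ℝ) × ℝ => ‖Eb P θ A b (q.2, q.1)‖ₑ ^ 2)
        (hN.comp (by fun_prop : Measurable fun q : (ℝ × ℝ) × ℝ => (q.2, q.1)))
    rw [Measure.volume_eq_prod, lintegral_prod_symm _ hm1.aemeasurable]
  rw [hre]
  calc ∫⁻ t, ∫⁻ s, ∫⁻ a, ‖Eb P θ A b (a, s, t)‖ₑ ^ 2
      ≤ ∫⁻ t, (ENNReal.ofReal (4 * Real.pi ^ 2) * ∫⁻ x, ‖G P θ A b t x‖ₑ ^ 2) := by
        refine lintegral_mono fun t => ?_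
        have hf : Measurable (G P θ A b t) := by
          have h3 := hGm.comp (by fun_prop : Measurable fun x : ℝ × ℝ => (x, t))
          exact h3
        refine le_trans (le_of_eq ?_) (L2_slice hf t)
        have e1 : ∀ a s : ℝ, Eb P θ A b (a, s, t) = E (G P θ A b t) (a, s, t) := fun a s =>
          Eb_eq hP hA b (a, s, t)
        simp only [e1]
        have hm : Measurable (fun w : ℝ × ℝ => ‖E (G P θ A b t) (w.1, w.2, t)‖ₑ ^ 2) := by
          have h5 : (fun w : ℝ × ℝ => ‖E (G P θ A b t) (w.1, w.2, t)‖ₑ ^ 2) =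
              fun w : ℝ × ℝ => ‖Eb P θ A b (w.1, w.2, t)‖ₑ ^ 2 := by
            funext w
            rw [e1]
          rw [h5]
          have h3 := hN.comp (by fun_prop : Measurable fun w : ℝ × ℝ => (w.1, w.2, t))
          exact h3
        rw [Measure.volume_eq_prod, lintegral_prod_symm _ hm.aemeasurable]
    _ = ENNReal.ofReal (4 * Real.pi ^ 2) * ∫⁻ t, ∫⁻ x, ‖G P θ A b t x‖ₑ ^ 2 := by
        rw [lintegral_const_mul]
        exact Measurable.lintegral_prod_right' (f := fun q : ℝ × (ℝ × ℝ) =>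
          ‖G P θ A b q.1 q.2‖ₑ ^ 2) hG2
    _ = ENNReal.ofReal (4 * Real.pi ^ 2) * ∫⁻ x, ∫⁻ t, ‖G P θ A b t x‖ₑ ^ 2 := by
        congr 1
        rw [lintegral_lintegral_swap]
        exact hG2.aemeasurable
    _ ≤ ENNReal.ofReal (4 * Real.pi ^ 2) *
          ∫⁻ x, A.indicator (fun _ => ENNReal.ofReal (4 * 2 ^ b)) x := by
        gcongr with x
        calc ∫⁻ t, ‖G P θ A b t x‖ₑ ^ 2
            ≤ ∫⁻ t, A.indicator (fun x => {t : ℝ | qv (aa P x) (bb P x) (cc P x) t ≤
              2 * ((2 : ℝ) ^ b) ^ 2}.indicator (fun _ => (1 : ℝ≥0∞)) t) x :=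
              lintegral_mono fun t => enorm_G_le P θ A b t x
          _ ≤ A.indicator (fun _ => ENNReal.ofReal (4 * 2 ^ b)) x := by
              by_cases hx : x ∈ A
              · simp only [indicator_of_mem hx]
                rw [lintegral_indicator_const₀, one_mul]
                · exact h _ _ _ _ (by positivity)
                · have h6 : Measurable (fun t : ℝ => qv (aa P x) (bb P x) (cc P x) t) := by
                    have h7 := (measurable_qv hP).comp
                      (by fun_prop : Measurable fun t : ℝ => (x, t))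
                    exact h7
                  exact (measurableSet_le h6 measurable_const).nullMeasurableSet
              · simp only [indicator_of_notMem hx]
                simp
    _ = ENNReal.ofReal (4 * Real.pi ^ 2 * (4 * 2 ^ b)) * volume A := by
        rw [lintegral_indicator hA, setLIntegral_const, ← mul_assoc,
          ← ENNReal.ofReal_mul (by positivity)]

end Pool.Agent.Chirp
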