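import Mathlib
import Pool.Agent.Chirp.Targets

/-!
# Total variation of the cut-offs on horizontal lines
-/

set_option autoImplicit false

namespace Pool.Agent.Chirp

open MeasureTheory Set Filter
open scoped ENNReal NNReal

namespace TV_

theorem scale (h : ℝ → ℝ≥0∞) (hm : Measurable h) (c : ℝ) (hc : 0 < c) :
    ∫⁻ v, ENNReal.ofReal (1 / c) * h (v / c) = ∫⁻ v, h v := by
  have h1 : (1 / c) ≠ 0 := by positivity
  conv_rhs => rw [← Real.smul_map_volume_mul_left h1]
  rw [lintegral_smul_measure, lintegral_map hm (measurable_const_mul _),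
    lintegral_const_mul _ (by fun_prop), abs_of_pos (by positivity)]
  simp only [smul_eq_mul]
  congr 1
  refine lintegral_congr fun v => ?_
  congr 1
  ring

theorem scale_abs (h : ℝ → ℝ) (hm : Measurable h) (c : ℝ) (hc : 0 < c) :
    ∫⁻ v, ENNReal.ofReal (|h (v / c)| / c) = ∫⁻ v, ENNReal.ofReal |h v| := by
  rw [← scale (fun v => ENNReal.ofReal |h v|) (by fun_prop) c hc]
  refine lintegral_congr fun v => ?_
  rw [← ENNReal.ofReal_mul (by positivity)]
  congr 1
  ring

theorem dc {f : ℝ × ℝ → ℝ} {x : ℝ × ℝ} (hf : DifferentiableAt ℝ f x) (s : ℝ) :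
    DifferentiableAt ℝ (fun x => f x / s) x := by
  simpa [div_eq_mul_inv] using hf.mul_const s⁻¹

end TV_

open TV_ in
theorem t_tv (h1 : T_LP) (h2 : T_LQ) (h3 : T_BUMP) (h4 : T_EC) : T_TV := by
  obtain ⟨hrho, -, -, -, C, hC, -, -, -, hE, hK, hR⟩ := h3
  refine ⟨4 * C, by positivity, fun n F s y hF hs => ⟨?_, ?_, ?_⟩⟩
  · have hs0 : (0 : ℝ) < s := by linarith
    obtain ⟨-, -, -, e1, e2⟩ := h4 n F s hF hs0
    have hm : Measurable (deriv eta) := measurable_deriv eta
    have hms : MeasurableSet {r : ℝ | n2 F (r, y) ≠ 0} := by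
      have hc : Continuous fun r : ℝ => n2 F (r, y) :=
        hF.n2.continuous.comp (by fun_prop)
      exact (isOpen_ne_fun hc continuous_const).measurableSet
    calc ∫⁻ r, ENNReal.ofReal |d1 (ec F s) (r, y)|
        = ∫⁻ r in {r : ℝ | n2 F (r, y) ≠ 0}, ENNReal.ofReal |d1 (ec F s) (r, y)| := by
          rw [← lintegral_indicator hms]
          refine lintegral_congr fun r => ?_
          by_cases hr : n2 F (r, y) = 0
          · rw [e2 _ hr, indicator_of_notMem (show r ∉ {r : ℝ | n2 F (r, y) ≠ 0} from
              fun h => h hr)]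
            simp
          · rw [indicator_of_mem (show r ∈ {r : ℝ | n2 F (r, y) ≠ 0} from hr)]
      _ = ∫⁻ r in {r : ℝ | n2 F (r, y) ≠ 0}, ENNReal.ofReal |d1 (qF F) (r, y)| *
            (fun v => ENNReal.ofReal (|deriv eta (v / s ^ 2)| / s ^ 2)) (qF F (r, y)) := by
          refine setLIntegral_congr_fun hms fun r hr => ?_
          beta_reduce
          rw [e1 _ hr, ← ENNReal.ofReal_mul (abs_nonneg _)]
          congr 1
          rw [abs_mul, abs_div, abs_of_pos (show (0 : ℝ) < s ^ 2 by positivity)]
          ring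
      _ ≤ (4 * n : ℕ) * ∫⁻ v, ENNReal.ofReal (|deriv eta (v / s ^ 2)| / s ^ 2) :=
          h2 n F y _ hF (by fun_prop)
      _ = (4 * n : ℕ) * ∫⁻ v, ENNReal.ofReal |deriv eta v| := by
          rw [scale_abs _ hm _ (by positivity)]
      _ ≤ (4 * n : ℕ) * ENNReal.ofReal C := by gcongr
      _ = ENNReal.ofReal (4 * C * n) := by
          rw [← ENNReal.ofReal_natCast, ← ENNReal.ofReal_mul (by positivity)]
          congr 1
          push_cast
          ring
  · have hs0 : (0 : ℝ) < s := by linarith
    have hm : Measurable (deriv kap) := measurable_deriv kap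
    calc ∫⁻ r, ENNReal.ofReal |d1 (fun x => kap (d2 F x / s)) (r, y)|
        = ∫⁻ r, ENNReal.ofReal |d1 (d2 F) (r, y)| *
            (fun v => ENNReal.ofReal (|deriv kap (v / s)| / s)) (d2 F (r, y)) := by
          refine lintegral_congr fun r => ?_
          beta_reduce
          rw [d1_comp (β := kap) (f := fun x => d2 F x / s)
            ((kap_contDiff (k := 1)).differentiable (by simp) _)
            (dc (hF.d2.differentiableAt (r, y)) s), d1_div_const,
            ← ENNReal.ofReal_mul (abs_nonneg _)]
          congr 1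
          rw [abs_mul, abs_div, abs_of_pos hs0]
          ring
      _ ≤ n * ∫⁻ v, ENNReal.ofReal (|deriv kap (v / s)| / s) :=
          h1 n (d2 F) y _ hF.d2 (by fun_prop)
      _ = n * ∫⁻ v, ENNReal.ofReal |deriv kap v| := by
          rw [scale_abs _ hm _ (by positivity)]
      _ ≤ n * ENNReal.ofReal C := by gcongr
      _ ≤ ENNReal.ofReal (4 * C * n) := by
          rw [← ENNReal.ofReal_natCast, ← ENNReal.ofReal_mul (by positivity)]
          apply ENNReal.ofReal_le_ofReal
          have : (0 : ℝ) ≤ n * C := by positivity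
          nlinarith
  · have hs0 : (0 : ℝ) < s := by linarith
    have hm : Measurable (deriv rho) := measurable_deriv rho
    calc ∫⁻ r, ENNReal.ofReal |d1 (fun x => rho (d1 F x / s)) (r, y)|
        = ∫⁻ r, ENNReal.ofReal |d1 (d1 F) (r, y)| *
            (fun v => ENNReal.ofReal (|deriv rho (v / s)| / s)) (d1 F (r, y)) := by
          refine lintegral_congr fun r => ?_
          beta_reduce
          rw [d1_comp (β := rho) (f := fun x => d1 F x / s)
            (hrho.differentiable (by simp) _)
            (dc (hF.d1.differentiableAt (r, y)) s), d1_div_const,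
            ← ENNReal.ofReal_mul (abs_nonneg _)]
          congr 1
          rw [abs_mul, abs_div, abs_of_pos hs0]
          ring
      _ ≤ n * ∫⁻ v, ENNReal.ofReal (|deriv rho (v / s)| / s) :=
          h1 n (d1 F) y _ hF.d1 (by fun_prop)
      _ = n * ∫⁻ v, ENNReal.ofReal |deriv rho v| := by
          rw [scale_abs _ hm _ (by positivity)]
      _ ≤ n * ENNReal.ofReal C := by gcongr
      _ ≤ ENNReal.ofReal (4 * C * n) := by
          rw [← ENNReal.ofReal_natCast, ← ENNReal.ofReal_mul (by positivity)]
          apply ENNReal.ofReal_le_ofReal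
          have : (0 : ℝ) ≤ n * C := by positivity
          nlinarith

end Pool.Agent.Chirp
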