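import Mathlib
import Pool.Agent.Chirp.Targets

/-!
# Polynomial chirps: CHP-W
-/

namespace Pool.Agent.Chirp

open MeasureTheory Set Filter
open scoped ENNReal NNReal

namespace W_

/-- the square `|y₁|, |y₂| ≤ 2 s` -/
def Bs (s : ℝ) : Set (ℝ × ℝ) := {y : ℝ × ℝ | |y.1| ≤ 2 * s ∧ |y.2| ≤ 2 * s}

theorem Bs_eq (s : ℝ) : Bs s = Icc (-(2 * s)) (2 * s) ×ˢ Icc (-(2 * s)) (2 * s) := by
  ext y
  unfold Bs
  simp only [mem_ofPred_eq, mem_prod, mem_Icc, abs_le]

theorem Bs_meas (s : ℝ) : MeasurableSet (Bs s) := by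
  rw [Bs_eq]
  exact measurableSet_Icc.prod measurableSet_Icc

theorem Bs_vol {s : ℝ} (hs : 0 ≤ s) :
    ∫⁻ y in Bs s, ENNReal.ofReal ((fun _ => (1 : ℝ)) y) = ENNReal.ofReal (16 * s ^ 2) := by
  simp only [ENNReal.ofReal_one, lintegral_one, Measure.restrict_apply_univ]
  rw [Bs_eq, Measure.volume_eq_prod, Measure.prod_prod, Real.volume_Icc,
    ← ENNReal.ofReal_mul (by linarith)]
  congr 1
  ring

theorem UB_meas {n : ℕ} {F : ℝ × ℝ → ℝ} (hF : IsPol n F) (s : ℝ) :
    MeasurableSet (U F s ∩ BX F s) := by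
  have hq : Measurable (qF F) := by
    have h1 : Measurable (dt F) := hF.dt.continuous.measurable
    have h2 : Measurable (n2 F) := hF.n2.continuous.measurable
    exact (h1.pow_const 2).div h2
  have hd1 : Measurable (fun x => |d1 F x|) := hF.d1.continuous.abs.measurable
  have hd2 : Measurable (fun x => |d2 F x|) := hF.d2.continuous.abs.measurable
  refine MeasurableSet.inter ?_ ?_
  · exact (measurableSet_le measurable_const hq).inter (measurableSet_le hq measurable_const)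
  · exact (measurableSet_le hd1 measurable_const).inter (measurableSet_le hd2 measurable_const)

/-- change of variables by the gradient -/
theorem key (h1 : T_AY) {n : ℕ} {F : ℝ × ℝ → ℝ} {s : ℝ} (hF : IsPol n F)
    (G : ℝ × ℝ → ℝ) (hGm : Measurable G) (φ : ℝ × ℝ → ℝ) (κ M : ℝ) (hκ : 0 ≤ κ) (_hM : 0 ≤ M)
    (hφ : ∀ x ∈ U F s ∩ BX F s, φ x ≤ κ * (|dt F x| * G (d1 F x, d2 F x)))
    (hG : ∫⁻ y in Bs s, ENNReal.ofReal (G y) ≤ ENNReal.ofReal M) :
    ∫⁻ x in U F s ∩ BX F s, ENNReal.ofReal (φ x) ≤ ENNReal.ofReal (κ * (n ^ 2 * M)) := by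
  set g : ℝ × ℝ → ℝ≥0∞ := (Bs s).indicator (fun y => ENNReal.ofReal (G y)) with hg
  have hgm : Measurable g := hGm.ennreal_ofReal.indicator (Bs_meas s)
  have hpt : ∀ x ∈ U F s ∩ BX F s, ENNReal.ofReal (φ x) ≤
      ENNReal.ofReal κ * (ENNReal.ofReal |dt F x| * g (d1 F x, d2 F x)) := by
    intro x hx
    have h2 : g (d1 F x, d2 F x) = ENNReal.ofReal (G (d1 F x, d2 F x)) :=
      indicator_of_mem (show (d1 F x, d2 F x) ∈ Bs s from hx.2) _
    rw [h2, ← ENNReal.ofReal_mul (abs_nonneg _), ← ENNReal.ofReal_mul hκ]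
    exact ENNReal.ofReal_le_ofReal (hφ x hx)
  calc ∫⁻ x in U F s ∩ BX F s, ENNReal.ofReal (φ x)
      ≤ ∫⁻ x in U F s ∩ BX F s,
          ENNReal.ofReal κ * (ENNReal.ofReal |dt F x| * g (d1 F x, d2 F x)) :=
        setLIntegral_mono' (UB_meas hF s) hpt
    _ ≤ ∫⁻ x, ENNReal.ofReal κ * (ENNReal.ofReal |dt F x| * g (d1 F x, d2 F x)) :=
        setLIntegral_le_lintegral _ _
    _ = ENNReal.ofReal κ * ∫⁻ x, ENNReal.ofReal |dt F x| * g (d1 F x, d2 F x) :=
        lintegral_const_mul' _ _ ENNReal.ofReal_ne_top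
    _ ≤ ENNReal.ofReal κ * ((n * n : ℕ) * ∫⁻ y, g y) := by
        gcongr
        exact h1 n F g hF hgm
    _ ≤ ENNReal.ofReal κ * ((n * n : ℕ) * ENNReal.ofReal M) := by
        gcongr
        rw [hg, lintegral_indicator (Bs_meas s)]
        exact hG
    _ = ENNReal.ofReal (κ * (n ^ 2 * M)) := by
        rw [ENNReal.ofReal_mul hκ, ENNReal.ofReal_mul (by positivity), ← ENNReal.ofReal_natCast]
        congr 3
        push_cast
        ring

end W_

open W_

theorem t_w (h1 : T_AY) (h2 : T_LIN) (h3 : T_G) : T_W := by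
  obtain ⟨C, hC, hG⟩ := h3
  refine ⟨2 * C + 32, by linarith, ?_⟩
  intro n F s hF hs
  obtain ⟨g1, g2, -⟩ := hG s hs
  have hs0 : 0 < s := by linarith
  have hlog : 0 ≤ Real.log s := Real.log_nonneg hs
  have hn : (0 : ℝ) ≤ (n : ℝ) ^ 2 := by positivity
  have hden : ∀ x : ℝ × ℝ, 0 < s + (x.1 ^ 2 + x.2 ^ 2) := fun x => by positivity
  have hG1m : Measurable (fun y : ℝ × ℝ => s / (s + (y.1 ^ 2 + y.2 ^ 2))) := by
    fun_prop
  have hG2m : Measurable (fun y : ℝ × ℝ => s / (s + (y.1 ^ 2 + y.2 ^ 2)) * |y.1|) :=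
    hG1m.mul (continuous_fst.abs.measurable)
  have hww : ∀ x, 0 ≤ ww F s x := fun x => by
    unfold ww
    positivity
  have hdt : ∀ x ∈ U F s ∩ BX F s, 1 ≤ 2 / s ^ 2 * |dt F x| := by
    intro x hx
    have h5 := (h2 F x s hs0 hx.1).2.1
    have h6 : 2 / s ^ 2 * (s ^ 2 / 2) = 1 := by field_simp
    rw [← h6]
    exact mul_le_mul_of_nonneg_left h5 (by positivity)
  have hn2 : ∀ x ∈ U F s ∩ BX F s, √(n2 F x) ≤ 2 / s * |dt F x| :=
    fun x hx => (h2 F x s hs0 hx.1).2.2.1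
  refine ⟨?_, ?_, ?_, ?_⟩
  · refine (key h1 hF (fun y => s / (s + (y.1 ^ 2 + y.2 ^ 2))) hG1m (ww F s) (2 / s ^ 2)
      (C * s * (1 + Real.log s)) (by positivity) (by positivity) ?_ g1).trans
      (ENNReal.ofReal_le_ofReal ?_)
    · intro x hx
      change ww F s x ≤ 2 / s ^ 2 * (|dt F x| * ww F s x)
      have := mul_le_mul_of_nonneg_right (hdt x hx) (hww x)
      linarith
    · have e1 : 2 / s ^ 2 * (n ^ 2 * (C * s * (1 + Real.log s))) =
          (2 * C) * (n ^ 2 * (1 + Real.log s) / s) := by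
        field_simp
      have e2 : (2 * C + 32) * n ^ 2 * (1 + Real.log s) / s =
          (2 * C + 32) * (n ^ 2 * (1 + Real.log s) / s) := by ring
      rw [e1, e2]
      exact mul_le_mul_of_nonneg_right (by linarith) (by positivity)
  · refine (key h1 hF (fun y => s / (s + (y.1 ^ 2 + y.2 ^ 2)) * |y.1|) hG2m
      (fun x => ww F s x * |d1 F x|) (2 / s ^ 2)
      (C * s ^ 2) (by positivity) (by positivity) ?_ g2).trans
      (ENNReal.ofReal_le_ofReal ?_)
    · intro x hx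
      change ww F s x * |d1 F x| ≤ 2 / s ^ 2 * (|dt F x| * (ww F s x * |d1 F x|))
      have := mul_le_mul_of_nonneg_right (hdt x hx) (mul_nonneg (hww x) (abs_nonneg (d1 F x)))
      linarith
    · have e1 : 2 / s ^ 2 * (n ^ 2 * (C * s ^ 2)) = (2 * C) * n ^ 2 := by
        field_simp
      rw [e1]
      exact mul_le_mul_of_nonneg_right (by linarith) (by positivity)
  · refine (key h1 hF (fun y => s / (s + (y.1 ^ 2 + y.2 ^ 2))) hG1m
      (fun x => ww F s x * √(n2 F x)) (2 / s)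
      (C * s * (1 + Real.log s)) (by positivity) (by positivity) ?_ g1).trans
      (ENNReal.ofReal_le_ofReal ?_)
    · intro x hx
      change ww F s x * √(n2 F x) ≤ 2 / s * (|dt F x| * ww F s x)
      have := mul_le_mul_of_nonneg_right (hn2 x hx) (hww x)
      linarith
    · have e1 : 2 / s * (n ^ 2 * (C * s * (1 + Real.log s))) =
          (2 * C) * (n ^ 2 * (1 + Real.log s)) := by
        field_simp
      have e2 : (2 * C + 32) * n ^ 2 * (1 + Real.log s) =
          (2 * C + 32) * (n ^ 2 * (1 + Real.log s)) := by ring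
      rw [e1, e2]
      exact mul_le_mul_of_nonneg_right (by linarith) (by positivity)
  · refine (key h1 hF (fun _ => (1 : ℝ)) measurable_const
      (fun x => √(n2 F x)) (2 / s) (16 * s ^ 2) (by positivity) (by positivity) ?_
      (Bs_vol hs0.le).le).trans (ENNReal.ofReal_le_ofReal ?_)
    · intro x hx
      have := hn2 x hx
      linarith
    · have e1 : 2 / s * (n ^ 2 * (16 * s ^ 2)) = 32 * (n ^ 2 * s) := by
        field_simp
        ring
      have e2 : (2 * C + 32) * n ^ 2 * s = (2 * C + 32) * (n ^ 2 * s) := by ring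
      rw [e1, e2]
      exact mul_le_mul_of_nonneg_right (by linarith) (by positivity)

end Pool.Agent.Chirp
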