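import Mathlib
import Pool.Agent.Chirp.Targets

/-!
# CHP-W4: weighted integral over `U ∩ BX` with the derivative of `qF F`
-/

set_option autoImplicit false

namespace Pool.Agent.Chirp

open MeasureTheory Set Filter
open scoped ENNReal NNReal

namespace W4_

/-- The majorant in one variable. -/
noncomputable def mm (s r : ℝ) : ℝ := if r = 0 then √s else min (√s) (s / |r|)

theorem mm_nonneg {s : ℝ} (hs : 0 ≤ s) (r : ℝ) : 0 ≤ mm s r := by
  unfold mm
  split_ifs
  · exact Real.sqrt_nonneg _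
  · exact le_min (Real.sqrt_nonneg _) (div_nonneg hs (abs_nonneg _))

theorem measurable_mm (s : ℝ) : Measurable (mm s) := by
  unfold mm
  refine Measurable.ite (measurableSet_singleton (0 : ℝ)) measurable_const ?_
  exact measurable_const.min (measurable_const.div continuous_abs.measurable)

theorem ww_le {s y1 y2 : ℝ} (hs : 0 < s) :
    s / (s + (y1 ^ 2 + y2 ^ 2)) * |y1| ≤ mm s y1 ∧ s / (s + (y1 ^ 2 + y2 ^ 2)) * |y1| ≤ mm s y2 := by
  have hD : 0 < s + (y1 ^ 2 + y2 ^ 2) := by positivity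
  have hq : √s * √s = s := Real.mul_self_sqrt hs.le
  have hq0 : 0 < √s := Real.sqrt_pos.2 hs
  have h1 : s / (s + (y1 ^ 2 + y2 ^ 2)) * |y1| ≤ √s := by
    rw [div_mul_eq_mul_div, div_le_iff₀ hD]
    have h2 : 2 * (√s * |y1|) ≤ s + y1 ^ 2 := by
      have := sq_nonneg (√s - |y1|)
      have h3 := sq_abs y1
      nlinarith
    have h4 : s * |y1| = √s * (√s * |y1|) := by rw [← mul_assoc, hq]
    rw [h4]
    apply mul_le_mul_of_nonneg_left _ hq0.le
    have h5 : 0 ≤ √s * |y1| := by positivity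
    nlinarith [sq_nonneg y2]
  constructor
  · unfold mm
    split_ifs with h0
    · exact h1
    · refine le_min h1 ?_
      have ha : 0 < |y1| := abs_pos.2 h0
      rw [div_mul_eq_mul_div, div_le_div_iff₀ hD ha, mul_assoc]
      apply mul_le_mul_of_nonneg_left _ hs.le
      rw [abs_mul_abs_self]
      nlinarith [sq_nonneg y2]
  · unfold mm
    split_ifs with h0
    · exact h1
    · refine le_min h1 ?_
      have ha : 0 < |y2| := abs_pos.2 h0
      rw [div_mul_eq_mul_div, div_le_div_iff₀ hD ha, mul_assoc]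
      apply mul_le_mul_of_nonneg_left _ hs.le
      have h3 := sq_abs y1
      have h4 := sq_abs y2
      nlinarith [sq_nonneg (|y1| - |y2|), abs_nonneg y1, abs_nonneg y2]

/-- The majorant in two variables. -/
noncomputable def gg (s : ℝ) (z : ℝ × ℝ) : ℝ≥0∞ :=
  (Icc (s ^ 2 / 4) (2 * s ^ 2)).indicator (fun _ => (1 : ℝ≥0∞)) z.1 *
    {r : ℝ | |r| ≤ 2 * s}.indicator (fun r => ENNReal.ofReal (mm s r)) z.2

theorem meas_set (s : ℝ) : MeasurableSet {r : ℝ | |r| ≤ 2 * s} :=
  measurableSet_le continuous_abs.measurable measurable_const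

theorem measurable_a (s : ℝ) :
    Measurable ((Icc (s ^ 2 / 4) (2 * s ^ 2)).indicator (fun _ => (1 : ℝ≥0∞))) :=
  measurable_const.indicator measurableSet_Icc

theorem measurable_b (s : ℝ) :
    Measurable ({r : ℝ | |r| ≤ 2 * s}.indicator (fun r => ENNReal.ofReal (mm s r))) :=
  (measurable_mm s).ennreal_ofReal.indicator (meas_set s)

theorem measurable_gg (s : ℝ) : Measurable (gg s) :=
  ((measurable_a s).comp measurable_fst).mul ((measurable_b s).comp measurable_snd)

theorem lint_gg {C s : ℝ} (hs : 1 ≤ s)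
    (h : ∫⁻ v in {v : ℝ | |v| ≤ 2 * s}, ENNReal.ofReal (min (√s) (s / |v|)) ≤
      ENNReal.ofReal (C * s * (1 + Real.log s))) :
    ∫⁻ z, gg s z ≤ ENNReal.ofReal (2 * s ^ 2) * ENNReal.ofReal (C * s * (1 + Real.log s)) := by
  unfold gg
  rw [Measure.volume_eq_prod, lintegral_prod_mul (measurable_a s).aemeasurable
    (measurable_b s).aemeasurable]
  refine mul_le_mul' ?_ ?_
  · rw [lintegral_indicator measurableSet_Icc, setLIntegral_const, one_mul, Real.volume_Icc]
    apply ENNReal.ofReal_le_ofReal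
    nlinarith [sq_nonneg s]
  · rw [lintegral_indicator (meas_set s)]
    refine le_trans (le_of_eq ?_) h
    refine lintegral_congr_ae ?_
    refine ae_restrict_of_ae ?_
    have h0 : ∀ᵐ r : ℝ, r ≠ 0 := by
      have : volume ({0} : Set ℝ) = 0 := Real.volume_singleton
      exact compl_mem_ae_iff.2 this
    filter_upwards [h0] with r hr
    unfold mm
    rw [if_neg hr]

theorem measurable_qF {d : ℕ} {F : ℝ × ℝ → ℝ} (hF : IsPol d F) : Measurable (qF F) :=
  (hF.dt.continuous.measurable.pow_const 2).div hF.n2.continuous.measurable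

theorem isOpen_O {d : ℕ} {F : ℝ × ℝ → ℝ} (hF : IsPol d F) : IsOpen {x | n2 F x ≠ 0} :=
  isOpen_ne_fun hF.n2.continuous continuous_const

theorem contOn_fd {d : ℕ} {F : ℝ × ℝ → ℝ} (hF : IsPol d F) :
    ContinuousOn (fderiv ℝ (qF F)) {x | n2 F x ≠ 0} := by
  have h : ContDiffOn ℝ 1 (qF F) {x | n2 F x ≠ 0} := fun x hx =>
    (contDiffAt_qF hF hx).contDiffWithinAt
  exact h.continuousOn_fderiv_of_isOpen (isOpen_O hF) le_rfl

theorem contOn_d1 {d : ℕ} {F : ℝ × ℝ → ℝ} (hF : IsPol d F) :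
    ContinuousOn (d1 (qF F)) {x | n2 F x ≠ 0} := by
  have h : ContinuousOn (fun x => fderiv ℝ (qF F) x (1, 0)) {x | n2 F x ≠ 0} :=
    (contOn_fd hF).clm_apply continuousOn_const
  refine h.congr fun x hx => ?_
  exact d1_eq ((contDiffAt_qF hF (k := 1) hx).differentiableAt (by simp))

theorem contOn_d2 {d : ℕ} {F : ℝ × ℝ → ℝ} (hF : IsPol d F) :
    ContinuousOn (d2 (qF F)) {x | n2 F x ≠ 0} := by
  have h : ContinuousOn (fun x => fderiv ℝ (qF F) x (0, 1)) {x | n2 F x ≠ 0} :=
    (contOn_fd hF).clm_apply continuousOn_const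
  refine h.congr fun x hx => ?_
  exact d2_eq ((contDiffAt_qF hF (k := 1) hx).differentiableAt (by simp))

end W4_

theorem t_w4 (h1 : T_AQ) (h2 : T_LIN) (h3 : T_G) : T_W4 := by
  obtain ⟨C, hC, hG⟩ := h3
  refine ⟨32 * C, by positivity, ?_⟩
  intro n F s hF hs
  have hs0 : 0 < s := by linarith
  obtain ⟨-, -, hG3⟩ := hG s hs
  have hlog : 0 ≤ Real.log s := Real.log_nonneg hs
  set O : Set (ℝ × ℝ) := {x | n2 F x ≠ 0} with hO
  set J1 : ℝ × ℝ → ℝ := fun x => d1 (qF F) x * bb F x - d2 (qF F) x * aa F x with hJ1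
  set J2 : ℝ × ℝ → ℝ := fun x => d1 (qF F) x * cc F x - d2 (qF F) x * bb F x with hJ2
  obtain ⟨hA1, hA2⟩ := h1 n F (W4_.gg s) hF (W4_.measurable_gg s)
  -- measurability
  have hmU : MeasurableSet (U F s ∩ BX F s) := by
    refine MeasurableSet.inter (MeasurableSet.inter ?_ ?_) (MeasurableSet.inter ?_ ?_)
    · exact measurableSet_le measurable_const (W4_.measurable_qF hF)
    · exact measurableSet_le (W4_.measurable_qF hF) measurable_const
    · exact measurableSet_le (continuous_abs.comp hF.d1.continuous).measurable measurable_const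
    · exact measurableSet_le (continuous_abs.comp hF.d2.continuous).measurable measurable_const
  have hsub : U F s ∩ BX F s ⊆ O := fun x hx => (h2 F x s hs0 hx.1).1
  have hJ1c : ContinuousOn J1 O :=
    ((W4_.contOn_d1 hF).mul hF.bb.continuous.continuousOn).sub
      ((W4_.contOn_d2 hF).mul hF.aa.continuous.continuousOn)
  have hmO : MeasurableSet O := (W4_.isOpen_O hF).measurableSet
  have hmA : AEMeasurable (fun x => ENNReal.ofReal |J1 x| * W4_.gg s (qF F x, d1 F x))
      (volume.restrict O) := by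
    refine AEMeasurable.mul ?_ ?_
    · exact (continuous_abs.comp_continuousOn hJ1c).aemeasurable hmO |>.ennreal_ofReal
    · exact ((W4_.measurable_gg s).comp
        ((W4_.measurable_qF hF).prodMk hF.d1.continuous.measurable)).aemeasurable
  -- pointwise bound
  have hpt : ∀ x ∈ U F s ∩ BX F s,
      ENNReal.ofReal (ww F s x * |d1 F x| * (|d1 (qF F) x| / s ^ 2)) ≤
      ENNReal.ofReal (2 / s ^ 3) * (ENNReal.ofReal |J1 x| * W4_.gg s (qF F x, d1 F x) +
        ENNReal.ofReal |J2 x| * W4_.gg s (qF F x, d2 F x)) := by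
    intro x hx
    obtain ⟨hxU, hxB⟩ := hx
    obtain ⟨-, -, -, hl⟩ := h2 F x s hs0 hxU
    have hv := hl (d1 (qF F) x) (d2 (qF F) x)
    have hg1 : W4_.gg s (qF F x, d1 F x) = ENNReal.ofReal (W4_.mm s (d1 F x)) := by
      unfold W4_.gg
      simp only
      rw [indicator_of_mem (show qF F x ∈ Icc (s ^ 2 / 4) (2 * s ^ 2) from ⟨hxU.1, hxU.2⟩),
        indicator_of_mem (show d1 F x ∈ {r : ℝ | |r| ≤ 2 * s} from hxB.1), one_mul]
    have hg2 : W4_.gg s (qF F x, d2 F x) = ENNReal.ofReal (W4_.mm s (d2 F x)) := by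
      unfold W4_.gg
      simp only
      rw [indicator_of_mem (show qF F x ∈ Icc (s ^ 2 / 4) (2 * s ^ 2) from ⟨hxU.1, hxU.2⟩),
        indicator_of_mem (show d2 F x ∈ {r : ℝ | |r| ≤ 2 * s} from hxB.2), one_mul]
    obtain ⟨hw1, hw2⟩ := W4_.ww_le (y1 := d1 F x) (y2 := d2 F x) hs0
    have hm1 := W4_.mm_nonneg hs0.le (d1 F x)
    have hm2 := W4_.mm_nonneg hs0.le (d2 F x)
    rw [hg1, hg2, ← ENNReal.ofReal_mul (abs_nonneg _), ← ENNReal.ofReal_mul (abs_nonneg _),
      ← ENNReal.ofReal_add (mul_nonneg (abs_nonneg _) hm1) (mul_nonneg (abs_nonneg _) hm2),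
      ← ENNReal.ofReal_mul (by positivity)]
    apply ENNReal.ofReal_le_ofReal
    have hww : ww F s x = s / (s + (d1 F x ^ 2 + d2 F x ^ 2)) := rfl
    have hw0 : 0 ≤ ww F s x * |d1 F x| := by
      rw [hww]
      positivity
    have hw1' : ww F s x * |d1 F x| ≤ W4_.mm s (d1 F x) := hw1
    have hw2' : ww F s x * |d1 F x| ≤ W4_.mm s (d2 F x) := hw2
    have hv' : |d1 (qF F) x| ≤ 2 / s * (|J1 x| + |J2 x|) := hv
    calc ww F s x * |d1 F x| * (|d1 (qF F) x| / s ^ 2)
        ≤ ww F s x * |d1 F x| * ((2 / s * (|J1 x| + |J2 x|)) / s ^ 2) := by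
          apply mul_le_mul_of_nonneg_left _ hw0
          exact div_le_div_of_nonneg_right hv' (by positivity)
      _ = 2 / s ^ 3 * (|J1 x| * (ww F s x * |d1 F x|) + |J2 x| * (ww F s x * |d1 F x|)) := by
          field_simp
      _ ≤ 2 / s ^ 3 * (|J1 x| * W4_.mm s (d1 F x) + |J2 x| * W4_.mm s (d2 F x)) := by
          apply mul_le_mul_of_nonneg_left _ (by positivity)
          exact add_le_add (mul_le_mul_of_nonneg_left hw1' (abs_nonneg _))
            (mul_le_mul_of_nonneg_left hw2' (abs_nonneg _))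
  have hgg := W4_.lint_gg hs hG3
  set K : ℝ≥0∞ := ENNReal.ofReal (2 * s ^ 2) * ENNReal.ofReal (C * s * (1 + Real.log s)) with hK
  calc ∫⁻ x in U F s ∩ BX F s, ENNReal.ofReal (ww F s x * |d1 F x| * (|d1 (qF F) x| / s ^ 2))
      ≤ ∫⁻ x in U F s ∩ BX F s, ENNReal.ofReal (2 / s ^ 3) *
        (ENNReal.ofReal |J1 x| * W4_.gg s (qF F x, d1 F x) +
        ENNReal.ofReal |J2 x| * W4_.gg s (qF F x, d2 F x)) :=
        setLIntegral_mono' hmU hpt
    _ ≤ ∫⁻ x in O, ENNReal.ofReal (2 / s ^ 3) *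
        (ENNReal.ofReal |J1 x| * W4_.gg s (qF F x, d1 F x) +
        ENNReal.ofReal |J2 x| * W4_.gg s (qF F x, d2 F x)) := lintegral_mono_set hsub
    _ = ENNReal.ofReal (2 / s ^ 3) *
        ((∫⁻ x in O, ENNReal.ofReal |J1 x| * W4_.gg s (qF F x, d1 F x)) +
        ∫⁻ x in O, ENNReal.ofReal |J2 x| * W4_.gg s (qF F x, d2 F x)) := by
        rw [lintegral_const_mul' _ _ ENNReal.ofReal_ne_top, lintegral_add_left' hmA]
    _ ≤ ENNReal.ofReal (2 / s ^ 3) * ((4 * n * n : ℕ) * K + (4 * n * n : ℕ) * K) := by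
        apply mul_le_mul' le_rfl
        exact add_le_add (hA1.trans (mul_le_mul' le_rfl hgg)) (hA2.trans (mul_le_mul' le_rfl hgg))
    _ = ENNReal.ofReal (32 * C * n ^ 2 * (1 + Real.log s)) := by
        have hn : ((4 * n * n : ℕ) : ℝ≥0∞) = ENNReal.ofReal (4 * n * n) := by
          rw [← ENNReal.ofReal_natCast]
          congr 1
          push_cast
          ring
        have hp1 : 0 ≤ 2 * s ^ 2 := by positivity
        have hp2 : 0 ≤ C * s * (1 + Real.log s) := by positivity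
        have hp3 : (0 : ℝ) ≤ 4 * n * n := by positivity
        have hp4 : (0 : ℝ) ≤ 2 / s ^ 3 := by positivity
        rw [hn, hK, ← ENNReal.ofReal_mul hp1, ← ENNReal.ofReal_mul hp3,
          ← ENNReal.ofReal_add (by positivity) (by positivity), ← ENNReal.ofReal_mul hp4]
        congr 1
        field_simp
        ring

end Pool.Agent.Chirp
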