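import Mathlib
import Pool.Agent.Chirp.Final3
import Pool.Agent.Chirp.J_AREA0
import Pool.Agent.Chirp.J_AREA1
import Pool.Agent.Chirp.J_AREA2
import Pool.Agent.Chirp.J_BEZ
import Pool.Agent.Chirp.J_LINE
import Pool.Agent.Chirp.J_AY
import Pool.Agent.Chirp.J_AQ
import Pool.Agent.Chirp.J_LPQ
import Pool.Agent.Chirp.J_LIN
import Pool.Agent.Chirp.J_G
import Pool.Agent.Chirp.J_W
import Pool.Agent.Chirp.J_W4
import Pool.Agent.Chirp.J_BUMP
import Pool.Agent.Chirp.J_EC
import Pool.Agent.Chirp.J_NEAR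
import Pool.Agent.Chirp.J_TV
import Pool.Agent.Chirp.J_FAR
import Pool.Agent.Chirp.J_IBP1
import Pool.Agent.Chirp.J_IBP2
import Pool.Agent.Chirp.J_SUP
import Pool.Agent.Chirp.J_EIG
import Pool.Agent.Chirp.J_SUM
import Pool.Agent.Chirp.J_TL2
import Pool.Agent.Chirp.J_HOL
import Pool.Agent.Chirp.J_RE
import Pool.Agent.Chirp.J_TAY
import Pool.Agent.Chirp.J_ITER

/-!
# Polynomial chirps: assembly
-/

namespace Pool.Agent.Chirp

theorem area2 : T_AREA2 := t_area2 t_area0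
theorem ay : T_AY := t_ay area2 t_bez
theorem aq : T_AQ := t_aq area2 t_bez
theorem lp : T_LP := t_lp t_area1 t_line
theorem lq : T_LQ := t_lq t_area1 t_line
theorem w : T_W := t_w ay t_lin t_g
theorem w4 : T_W4 := t_w4 aq t_lin t_g
theorem near0 : T_NEAR0 := t_near0 w
theorem near : T_NEAR := t_near w w4 t_bump t_ec
theorem tv : T_TV := t_tv lp lq t_bump t_ec
theorem far : T_FAR := t_far tv t_bump t_ec
theorem ibp2 : T_IBP2 := t_ibp2 t_ibp1
theorem sup : T_SUP := t_sup ibp2 near0 near far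
theorem tl2 : T_TL2 := t_tl2 t_eig
theorem re : T_RE := t_re sup t_sum tl2 t_hol

end Pool.Agent.Chirp
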