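import Mathlib
import Pool.Agent.Chirp.Targets

/-!
# Polynomial chirps: the near part
-/

set_option autoImplicit false

namespace Pool.Agent.Chirp

open MeasureTheory Set Filter
open scoped ENNReal NNReal

namespace NEAR_

theorem mem_U_of_ec {F : ℝ × ℝ → ℝ} {s : ℝ} (hs : 0 < s) {x : ℝ × ℝ} (h : ec F s x ≠ 0) :
    x ∈ U F s := by
  unfold ec at h
  have hs2 : 0 < s ^ 2 := by positivity
  constructor
  · by_contra hc
    push Not at hc
    apply h
    apply eta_of_le
    rw [div_le_iff₀ hs2]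
    linarith
  · by_contra hc
    push Not at hc
    apply h
    apply eta_of_ge
    rw [le_div_iff₀ hs2]
    linarith

theorem abs_le_of_kap {s y : ℝ} (hs : 0 < s) (h : kap (y / s) ≠ 0) : |y| ≤ 2 * s := by
  by_contra hc
  push Not at hc
  apply h
  apply kap_of_ge
  rw [abs_div, abs_of_pos hs, le_div_iff₀ hs]
  exact hc.le

theorem abs_kap (r : ℝ) : |kap r| ≤ 1 := by
  rw [abs_of_nonneg (kap_nonneg r)]
  exact kap_le_one r

theorem abs_ec (F : ℝ × ℝ → ℝ) (s : ℝ) (x : ℝ × ℝ) : |ec F s x| ≤ 1 := abs_eta_le _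

theorem den_pos {F : ℝ × ℝ → ℝ} {s : ℝ} (hs : 0 < s) (x : ℝ × ℝ) :
    0 < s + (d1 F x ^ 2 + d2 F x ^ 2) := by positivity

theorem ww_nonneg {F : ℝ × ℝ → ℝ} {s : ℝ} (hs : 0 < s) (x : ℝ × ℝ) : 0 ≤ ww F s x :=
  div_nonneg hs.le (den_pos hs x).le

/-- the cut-off of the gradient -/
noncomputable def K (F : ℝ × ℝ → ℝ) (s : ℝ) (x : ℝ × ℝ) : ℝ :=
  kap (d1 F x / s) * kap (d2 F x / s)

/-- the weighted derivative -/
noncomputable def G (F : ℝ × ℝ → ℝ) (s : ℝ) (x : ℝ × ℝ) : ℝ := ww F s x * d1 F x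

theorem mem_BX_of_K {F : ℝ × ℝ → ℝ} {s : ℝ} (hs : 0 < s) {x : ℝ × ℝ} (h : K F s x ≠ 0) :
    x ∈ BX F s := by
  unfold K at h
  exact ⟨abs_le_of_kap hs (left_ne_zero_of_mul h), abs_le_of_kap hs (right_ne_zero_of_mul h)⟩

theorem abs_K (F : ℝ × ℝ → ℝ) (s : ℝ) (x : ℝ × ℝ) : |K F s x| ≤ 1 := by
  unfold K
  rw [abs_mul]
  exact mul_le_one₀ (abs_kap _) (abs_nonneg _) (abs_kap _)

theorem kn1_eq (F : ℝ × ℝ → ℝ) (s : ℝ) :
    kn1 F s = fun x => ec F s x * K F s x * G F s x := by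
  funext x
  unfold kn1 nr K G
  ring

theorem abs_nr_le {F : ℝ × ℝ → ℝ} {s : ℝ} (hs : 0 < s) (x : ℝ × ℝ) :
    |nr F s x| ≤ (U F s ∩ BX F s).indicator (fun x => ww F s x) x := by
  by_cases hx : nr F s x = 0
  · rw [hx, abs_zero]
    exact indicator_nonneg (fun y _ => ww_nonneg hs y) x
  have h1 : ec F s x ≠ 0 := fun h => hx (by unfold nr; rw [h, zero_mul, zero_mul])
  have h2 : K F s x ≠ 0 := fun h => hx (by
    unfold nr
    unfold K at h
    rw [h, mul_zero, zero_mul])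
  have hm : x ∈ U F s ∩ BX F s := ⟨mem_U_of_ec hs h1, mem_BX_of_K hs h2⟩
  rw [indicator_of_mem hm]
  have h3 : nr F s x = ec F s x * K F s x * ww F s x := rfl
  rw [h3, abs_mul, abs_mul, abs_of_nonneg (ww_nonneg hs x)]
  have h4 := abs_ec F s x
  have h5 := abs_K F s x
  have h6 : |ec F s x| * |K F s x| ≤ 1 := mul_le_one₀ h4 (abs_nonneg _) h5
  have h7 := ww_nonneg (F := F) hs x
  nlinarith

/-- `ww` is smooth. -/
theorem contDiff_ww {n : ℕ} {F : ℝ × ℝ → ℝ} (hF : IsPol n F) {s : ℝ} (hs : 0 < s) :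
    ContDiff ℝ 1 (ww F s) := by
  have h1 : ContDiff ℝ 1 (d1 F) := hF.d1.contDiff
  have h2 : ContDiff ℝ 1 (d2 F) := hF.d2.contDiff
  exact contDiff_const.div (contDiff_const.add ((h1.pow 2).add (h2.pow 2)))
    fun x => (den_pos hs x).ne'

theorem contDiff_kap {n : ℕ} {f : ℝ × ℝ → ℝ} (hf : IsPol n f) (s : ℝ) :
    ContDiff ℝ 1 (fun x => kap (f x / s)) := by
  have h : ContDiff ℝ 1 kap := by
    have := kap_contDiff (k := 1)
    exact_mod_cast this
  exact h.comp (hf.contDiff.div_const s)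

theorem contDiff_K {n : ℕ} {F : ℝ × ℝ → ℝ} (hF : IsPol n F) (s : ℝ) : ContDiff ℝ 1 (K F s) :=
  (contDiff_kap hF.d1 s).mul (contDiff_kap hF.d2 s)

theorem contDiff_G {n : ℕ} {F : ℝ × ℝ → ℝ} (hF : IsPol n F) {s : ℝ} (hs : 0 < s) :
    ContDiff ℝ 1 (G F s) := (contDiff_ww hF hs).mul hF.d1.contDiff

theorem d1_kap {n : ℕ} {f : ℝ × ℝ → ℝ} (hf : IsPol n f) (s : ℝ) (x : ℝ × ℝ) :
    d1 (fun x => kap (f x / s)) x = deriv kap (f x / s) * (d1 f x / s) := by
  have h : ContDiff ℝ 1 kap := by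
    have := kap_contDiff (k := 1)
    exact_mod_cast this
  have h1 : DifferentiableAt ℝ kap (f x / s) := h.differentiable (by simp) _
  have h2 : DifferentiableAt ℝ (fun x => f x / s) x :=
    (ContDiff.div_const (hf.contDiff (k := 1)) s).differentiable (by simp) x
  rw [d1_comp (f := fun x => f x / s) h1 h2, d1_div_const]

theorem d1_K {n : ℕ} {F : ℝ × ℝ → ℝ} (hF : IsPol n F) (s : ℝ) (x : ℝ × ℝ) :
    d1 (K F s) x = deriv kap (d1 F x / s) * (aa F x / s) * kap (d2 F x / s) +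
      kap (d1 F x / s) * (deriv kap (d2 F x / s) * (bb F x / s)) := by
  have h1 := (contDiff_kap hF.d1 s).differentiable (by simp) x
  have h2 := (contDiff_kap hF.d2 s).differentiable (by simp) x
  have h3 : d1 (K F s) x = d1 (fun y => kap (d1 F y / s)) x * kap (d2 F x / s) +
      kap (d1 F x / s) * d1 (fun y => kap (d2 F y / s)) x := d1_mul h1 h2
  rw [h3, d1_kap hF.d1, d1_kap hF.d2]
  rfl

theorem d1_G {n : ℕ} {F : ℝ × ℝ → ℝ} (hF : IsPol n F) {s : ℝ} (hs : 0 < s) (x : ℝ × ℝ) :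
    d1 (G F s) x = -(s * (2 * d1 F x * aa F x + 2 * d2 F x * bb F x)) /
      (s + (d1 F x ^ 2 + d2 F x ^ 2)) ^ 2 * d1 F x + ww F s x * aa F x := by
  have h1 : HasDerivAt (fun t => d1 F (t, x.2)) (aa F x) x.1 :=
    hasDerivAt_d1 (hF.d1.differentiableAt x)
  have h2 : HasDerivAt (fun t => d2 F (t, x.2)) (bb F x) x.1 :=
    hasDerivAt_d1 (hF.d2.differentiableAt x)
  have h3 : HasDerivAt (fun t => s + (d1 F (t, x.2) ^ 2 + d2 F (t, x.2) ^ 2))
      (2 * d1 F x * aa F x + 2 * d2 F x * bb F x) x.1 := by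
    have h4 := ((h1.pow 2).add (h2.pow 2)).const_add s
    refine h4.congr_deriv ?_
    simp
  have hd : s + (d1 F (x.1, x.2) ^ 2 + d2 F (x.1, x.2) ^ 2) ≠ 0 := (den_pos hs x).ne'
  have h5 := ((hasDerivAt_const x.1 s).div h3 hd).mul h1
  have h6 : d1 (G F s) x = _ := h5.deriv
  rw [h6]
  simp only [zero_mul, zero_sub]
  rfl

theorem aa_le (F : ℝ × ℝ → ℝ) (x : ℝ × ℝ) : |aa F x| ≤ √(n2 F x) := by
  apply Real.abs_le_sqrt
  unfold n2
  nlinarith [sq_nonneg (bb F x), sq_nonneg (cc F x)]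

theorem bb_le (F : ℝ × ℝ → ℝ) (x : ℝ × ℝ) : |bb F x| ≤ √(n2 F x) := by
  apply Real.abs_le_sqrt
  unfold n2
  nlinarith [sq_nonneg (aa F x), sq_nonneg (cc F x), sq_nonneg (bb F x)]

/-- `|y₁| |(y₁ a + y₂ b)| ≤ |y|² N` if `a² + b² ≤ N²` -/
theorem aux_cs (y1 y2 a b N : ℝ) (hN : 0 ≤ N) (h : a ^ 2 + b ^ 2 ≤ N ^ 2) :
    |(y1 * a + y2 * b) * y1| ≤ (y1 ^ 2 + y2 ^ 2) * N := by
  have h1 : (y1 * a + y2 * b) ^ 2 ≤ (y1 ^ 2 + y2 ^ 2) * N ^ 2 := by
    nlinarith [sq_nonneg (y1 * b - y2 * a), sq_nonneg y1, sq_nonneg y2,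
      mul_nonneg (add_nonneg (sq_nonneg y1) (sq_nonneg y2)) (sub_nonneg.2 h)]
  have h2 : ((y1 * a + y2 * b) * y1) ^ 2 ≤ ((y1 ^ 2 + y2 ^ 2) * N) ^ 2 := by
    have h3 : ((y1 * a + y2 * b) * y1) ^ 2 = (y1 * a + y2 * b) ^ 2 * y1 ^ 2 := by ring
    have h4 : ((y1 ^ 2 + y2 ^ 2) * N) ^ 2 = ((y1 ^ 2 + y2 ^ 2) * N ^ 2) * (y1 ^ 2 + y2 ^ 2) := by
      ring
    rw [h3, h4]
    exact mul_le_mul h1 (by nlinarith [sq_nonneg y2]) (sq_nonneg _) (by positivity)
  exact abs_le_of_sq_le_sq h2 (by positivity)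

theorem abs_d1_G {n : ℕ} {F : ℝ × ℝ → ℝ} (hF : IsPol n F) {s : ℝ} (hs : 0 < s) (x : ℝ × ℝ) :
    |d1 (G F s) x| ≤ 3 * (ww F s x * √(n2 F x)) := by
  rw [d1_G hF hs]
  have hD := den_pos (F := F) hs x
  have hN := Real.sqrt_nonneg (n2 F x)
  have hN2 : aa F x ^ 2 + bb F x ^ 2 ≤ √(n2 F x) ^ 2 := by
    rw [Real.sq_sqrt (n2_nonneg F x)]
    unfold n2
    nlinarith [sq_nonneg (bb F x), sq_nonneg (cc F x)]
  have h1 := aux_cs (d1 F x) (d2 F x) (aa F x) (bb F x) _ hN hN2
  have h2 : |-(s * (2 * d1 F x * aa F x + 2 * d2 F x * bb F x)) /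
      (s + (d1 F x ^ 2 + d2 F x ^ 2)) ^ 2 * d1 F x| ≤ 2 * (ww F s x * √(n2 F x)) := by
    have h3 : -(s * (2 * d1 F x * aa F x + 2 * d2 F x * bb F x)) /
      (s + (d1 F x ^ 2 + d2 F x ^ 2)) ^ 2 * d1 F x =
      -(2 * s * ((d1 F x * aa F x + d2 F x * bb F x) * d1 F x) /
      (s + (d1 F x ^ 2 + d2 F x ^ 2)) ^ 2) := by
      field_simp
    rw [h3, abs_neg, abs_div, abs_of_pos (show (0 : ℝ) < (s + (d1 F x ^ 2 + d2 F x ^ 2)) ^ 2 by
      positivity), abs_mul, abs_of_pos (show (0 : ℝ) < 2 * s by positivity)]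
    unfold ww
    rw [div_le_iff₀ (by positivity)]
    have h4 : 2 * (s / (s + (d1 F x ^ 2 + d2 F x ^ 2)) * √(n2 F x)) *
        (s + (d1 F x ^ 2 + d2 F x ^ 2)) ^ 2 =
        2 * s * ((s + (d1 F x ^ 2 + d2 F x ^ 2)) * √(n2 F x)) := by
      field_simp
    rw [h4]
    apply mul_le_mul_of_nonneg_left _ (by positivity)
    refine h1.trans ?_
    exact mul_le_mul_of_nonneg_right (by linarith) hN
  have h5 : |ww F s x * aa F x| ≤ ww F s x * √(n2 F x) := by
    rw [abs_mul, abs_of_nonneg (ww_nonneg hs x)]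
    exact mul_le_mul_of_nonneg_left (aa_le F x) (ww_nonneg hs x)
  have h6 := abs_add_le (-(s * (2 * d1 F x * aa F x + 2 * d2 F x * bb F x)) /
      (s + (d1 F x ^ 2 + d2 F x ^ 2)) ^ 2 * d1 F x) (ww F s x * aa F x)
  linarith

/-- if one of the two derivatives is at least `s` then `|G| ≤ 1` -/
theorem abs_G_le {F : ℝ × ℝ → ℝ} {s : ℝ} (hs : 0 < s) (x : ℝ × ℝ)
    (h : s ≤ |d1 F x| ∨ s ≤ |d2 F x|) : |G F s x| ≤ 1 := by
  unfold G ww
  have hD := den_pos (F := F) hs x
  rw [abs_mul, abs_div, abs_of_pos hs, abs_of_pos hD, div_mul_eq_mul_div, div_le_one hD]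
  have h1 := sq_abs (d1 F x)
  have h2 := sq_abs (d2 F x)
  have h3 := abs_nonneg (d1 F x)
  have h4 := abs_nonneg (d2 F x)
  rw [← h1, ← h2]
  rcases h with h | h
  · nlinarith
  · nlinarith [sq_nonneg (|d1 F x| - |d2 F x|)]

end NEAR_

open NEAR_

theorem t_near0 (h : T_W) : T_NEAR0 := by
  obtain ⟨C, hC, hW⟩ := h
  refine ⟨C, hC, fun n F s hn hF hs => ?_⟩
  have hs0 : 0 < s := by linarith
  refine le_trans ?_ (hW n F s hF hs).1
  calc ∫⁻ x, ENNReal.ofReal |nr F s x|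
      ≤ ∫⁻ x, (U F s ∩ BX F s).indicator (fun x => ENNReal.ofReal (ww F s x)) x := by
        refine lintegral_mono fun x => ?_
        refine (ENNReal.ofReal_le_ofReal (abs_nr_le hs0 x)).trans ?_
        by_cases hx : x ∈ U F s ∩ BX F s
        · rw [indicator_of_mem hx, indicator_of_mem hx]
        · rw [indicator_of_notMem hx, indicator_of_notMem hx, ENNReal.ofReal_zero]
    _ ≤ _ := lintegral_indicator_le _ _

namespace NEAR_

theorem pw {C : ℝ} (hC : 0 < C) (hB1 : ∀ r, deriv kap r ≠ 0 → 1 ≤ |r| ∧ |r| ≤ 2)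
    (hB2 : ∀ r, |deriv eta r| ≤ C) (hB3 : ∀ r, |deriv kap r| ≤ C) (hEC : T_EC) {n : ℕ}
    {F : ℝ × ℝ → ℝ} (hF : IsPol n F) {s : ℝ} (hs : 1 ≤ s) (x : ℝ × ℝ) :
    |kn1 F s x| + |d1 (kn1 F s) x| ≤ (U F s ∩ BX F s).indicator (fun x =>
      ww F s x * |d1 F x| + (2 * C / s * √(n2 F x) + (3 * (ww F s x * √(n2 F x)) +
        C * (ww F s x * |d1 F x| * (|d1 (qF F) x| / s ^ 2))))) x := by
  have hs0 : 0 < s := by linarith
  obtain ⟨e1, e2, e3, e4, e5⟩ := hEC n F s hF hs0
  have hdec := e1.differentiable (by simp) x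
  have hdK := (contDiff_K hF s).differentiable (by simp) x
  have hdG := (contDiff_G hF hs0).differentiable (by simp) x
  have hdec' : DifferentiableAt ℝ (ec F s) x := hdec
  have hd : d1 (kn1 F s) x = (d1 (ec F s) x * K F s x + ec F s x * d1 (K F s) x) * G F s x +
      ec F s x * K F s x * d1 (G F s) x := by
    rw [kn1_eq]
    have h1 := d1_mul (hdec'.mul hdK) hdG
    have h2 := d1_mul hdec' hdK
    have h3 : d1 (fun y => ec F s y * K F s y * G F s y) x =
        d1 (fun y => ec F s y * K F s y) x * G F s x + ec F s x * K F s x * d1 (G F s) x := h1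
    rw [h3, h2]
  have hk : kn1 F s x = ec F s x * K F s x * G F s x := by rw [kn1_eq]
  have hKder : ∀ x, x ∉ BX F s → K F s x = 0 ∧ d1 (K F s) x = 0 := by
    intro x hx
    refine ⟨by_contra fun h => hx (mem_BX_of_K hs0 h), ?_⟩
    rw [d1_K hF]
    have hx' : ¬ (|d1 F x| ≤ 2 * s) ∨ ¬ (|d2 F x| ≤ 2 * s) := by
      by_contra hc
      push Not at hc
      exact hx ⟨hc.1, hc.2⟩
    have hkey : ∀ y : ℝ, ¬ (|y| ≤ 2 * s) → kap (y / s) = 0 ∧ deriv kap (y / s) = 0 := by
      intro y hy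
      refine ⟨by_contra fun h => hy (abs_le_of_kap hs0 h), ?_⟩
      by_contra h
      have h1 := (hB1 _ h).2
      rw [abs_div, abs_of_pos hs0, div_le_iff₀ hs0] at h1
      exact hy h1
    rcases hx' with hx' | hx'
    · obtain ⟨h1, h2⟩ := hkey _ hx'
      rw [h1, h2]
      ring
    · obtain ⟨h1, h2⟩ := hkey _ hx'
      rw [h1, h2]
      ring
  by_cases hx : x ∈ U F s ∩ BX F s
  swap
  · rw [indicator_of_notMem hx]
    by_cases hU : x ∈ U F s
    · have hB : x ∉ BX F s := fun h => hx ⟨hU, h⟩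
      obtain ⟨h1, h2⟩ := hKder x hB
      rw [hk, hd, h1, h2]
      simp
    · have h1 : ec F s x = 0 := by_contra fun h => hU (e2 x h)
      have h2 : d1 (ec F s) x = 0 := by_contra fun h => hU (e3 x h)
      rw [hk, hd, h1, h2]
      simp
  · rw [indicator_of_mem hx]
    have hw := ww_nonneg (F := F) hs0 x
    have hec := abs_ec F s x
    have hK := abs_K F s x
    have hecn := abs_nonneg (ec F s x)
    have hKn := abs_nonneg (K F s x)
    have hG : |G F s x| = ww F s x * |d1 F x| := by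
      unfold G
      rw [abs_mul, abs_of_nonneg hw]
    have hGn := abs_nonneg (G F s x)
    -- kn1
    have b1 : |kn1 F s x| ≤ ww F s x * |d1 F x| := by
      rw [hk, abs_mul, abs_mul, ← hG]
      have h6 : |ec F s x| * |K F s x| ≤ 1 := mul_le_one₀ hec hKn hK
      nlinarith
    -- n2 ≠ 0
    have hn2 : n2 F x ≠ 0 := by
      intro h0
      have h1 := hx.1.1
      unfold qF at h1
      rw [h0, div_zero] at h1
      have : 0 < s ^ 2 := by positivity
      linarith
    have b2 : |d1 (ec F s) x * K F s x * G F s x| ≤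
        C * (ww F s x * |d1 F x| * (|d1 (qF F) x| / s ^ 2)) := by
      rw [abs_mul, abs_mul, e4 x hn2, abs_mul, abs_div, abs_of_pos (show (0 : ℝ) < s ^ 2 by
        positivity), hG]
      have h1 := hB2 (qF F x / s ^ 2)
      have h2 : 0 ≤ |d1 (qF F) x| / s ^ 2 := by positivity
      have h3 : |deriv eta (qF F x / s ^ 2)| * (|d1 (qF F) x| / s ^ 2) ≤
        C * (|d1 (qF F) x| / s ^ 2) := mul_le_mul_of_nonneg_right h1 h2
      have h4 : |deriv eta (qF F x / s ^ 2)| * (|d1 (qF F) x| / s ^ 2) * |K F s x| ≤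
        C * (|d1 (qF F) x| / s ^ 2) * 1 :=
        mul_le_mul h3 hK hKn (by positivity)
      have h5 : 0 ≤ ww F s x * |d1 F x| := by positivity
      have h6 := mul_le_mul_of_nonneg_right h4 h5
      calc _ ≤ _ := h6
        _ = _ := by ring
    have b3 : |ec F s x * d1 (K F s) x * G F s x| ≤ 2 * C / s * √(n2 F x) := by
      rw [abs_mul, abs_mul]
      have hN := Real.sqrt_nonneg (n2 F x)
      -- the two terms
      have h1 : |deriv kap (d1 F x / s) * (aa F x / s) * kap (d2 F x / s)| * |G F s x| ≤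
          C / s * √(n2 F x) := by
        by_cases h0 : deriv kap (d1 F x / s) = 0
        · rw [h0, zero_mul, zero_mul, abs_zero, zero_mul]
          positivity
        have h2 := (hB1 _ h0).1
        rw [abs_div, abs_of_pos hs0, le_div_iff₀ hs0, one_mul] at h2
        have h3 := abs_G_le (F := F) hs0 x (Or.inl h2)
        rw [abs_mul, abs_mul, abs_div, abs_of_pos hs0]
        have h4 : |deriv kap (d1 F x / s)| * (|aa F x| / s) ≤ C * (√(n2 F x) / s) :=
          mul_le_mul (hB3 _) (div_le_div_of_nonneg_right (aa_le F x) hs0.le) (by positivity)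
            hC.le
        have h5 : |deriv kap (d1 F x / s)| * (|aa F x| / s) * |kap (d2 F x / s)| ≤
            C * (√(n2 F x) / s) * 1 := mul_le_mul h4 (abs_kap _) (abs_nonneg _) (by positivity)
        have h6 : |deriv kap (d1 F x / s)| * (|aa F x| / s) * |kap (d2 F x / s)| * |G F s x| ≤
            C * (√(n2 F x) / s) * 1 * 1 := mul_le_mul h5 h3 hGn (by positivity)
        calc _ ≤ _ := h6
          _ = _ := by ring
      have h1' : |kap (d1 F x / s) * (deriv kap (d2 F x / s) * (bb F x / s))| * |G F s x| ≤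
          C / s * √(n2 F x) := by
        by_cases h0 : deriv kap (d2 F x / s) = 0
        · rw [h0, zero_mul, mul_zero, abs_zero, zero_mul]
          positivity
        have h2 := (hB1 _ h0).1
        rw [abs_div, abs_of_pos hs0, le_div_iff₀ hs0, one_mul] at h2
        have h3 := abs_G_le (F := F) hs0 x (Or.inr h2)
        rw [abs_mul, abs_mul, abs_div, abs_of_pos hs0]
        have h4 : |deriv kap (d2 F x / s)| * (|bb F x| / s) ≤ C * (√(n2 F x) / s) :=
          mul_le_mul (hB3 _) (div_le_div_of_nonneg_right (bb_le F x) hs0.le) (by positivity)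
            hC.le
        have h5 : |kap (d1 F x / s)| * (|deriv kap (d2 F x / s)| * (|bb F x| / s)) ≤
            1 * (C * (√(n2 F x) / s)) := mul_le_mul (abs_kap _) h4 (by positivity) (by norm_num)
        have h6 : |kap (d1 F x / s)| * (|deriv kap (d2 F x / s)| * (|bb F x| / s)) * |G F s x| ≤
            1 * (C * (√(n2 F x) / s)) * 1 := mul_le_mul h5 h3 hGn (by positivity)
        calc _ ≤ _ := h6
          _ = _ := by ring
      have h7 : |d1 (K F s) x| * |G F s x| ≤ 2 * C / s * √(n2 F x) := by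
        rw [d1_K hF]
        have h8 := abs_add_le (deriv kap (d1 F x / s) * (aa F x / s) * kap (d2 F x / s))
          (kap (d1 F x / s) * (deriv kap (d2 F x / s) * (bb F x / s)))
        have h9 := mul_le_mul_of_nonneg_right h8 hGn
        rw [add_mul] at h9
        calc _ ≤ _ := h9
          _ ≤ C / s * √(n2 F x) + C / s * √(n2 F x) := add_le_add h1 h1'
          _ = _ := by ring
      rw [mul_assoc]
      have h10 : 0 ≤ |d1 (K F s) x| * |G F s x| := by positivity
      nlinarith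
    have b4 : |ec F s x * K F s x * d1 (G F s) x| ≤ 3 * (ww F s x * √(n2 F x)) := by
      rw [abs_mul, abs_mul]
      have h1 := abs_d1_G hF hs0 x
      have h6 : |ec F s x| * |K F s x| ≤ 1 := mul_le_one₀ hec hKn hK
      have h7 := abs_nonneg (d1 (G F s) x)
      nlinarith
    have b5 : |d1 (kn1 F s) x| ≤ |d1 (ec F s) x * K F s x * G F s x| +
        |ec F s x * d1 (K F s) x * G F s x| + |ec F s x * K F s x * d1 (G F s) x| := by
      rw [hd, add_mul]
      refine (abs_add_le _ _).trans ?_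
      exact add_le_add_left (abs_add_le _ _) _
    linarith

end NEAR_

theorem t_near (h1 : T_W) (h2 : T_W4) (h3 : T_BUMP) (h4 : T_EC) : T_NEAR := by
  obtain ⟨CW, hCW, hW⟩ := h1
  obtain ⟨C4, hC4, hW4⟩ := h2
  obtain ⟨-, -, -, hB1, Cb, hCb, hB2, hB3, -⟩ := h3
  refine ⟨CW + (2 * Cb * CW + (3 * CW + Cb * C4)), by positivity, fun n F s hn hF hs => ?_⟩
  have hs0 : 0 < s := by linarith
  have hlog : 0 ≤ Real.log s := Real.log_nonneg hs
  refine ⟨?_, ?_⟩
  · rw [kn1_eq]
    exact ((h4 n F s hF hs0).1.mul (contDiff_K hF s)).mul (contDiff_G hF hs0)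
  obtain ⟨w1, w2, w3, w5⟩ := hW n F s hF hs
  have w4 := hW4 n F s hF hs
  set V : Set (ℝ × ℝ) := U F s ∩ BX F s with hV
  have hwc : Continuous (ww F s) := (contDiff_ww hF hs0).continuous
  have hd1c : Continuous (d1 F) := hF.d1.continuous
  have hnc : Continuous (fun x => √(n2 F x)) := Real.continuous_sqrt.comp hF.n2.continuous
  have m1 : Measurable fun x => ENNReal.ofReal (ww F s x * |d1 F x|) :=
    (hwc.mul hd1c.abs).measurable.ennreal_ofReal
  have m2 : Measurable fun x => ENNReal.ofReal (√(n2 F x)) := hnc.measurable.ennreal_ofReal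
  have m3 : Measurable fun x => ENNReal.ofReal (ww F s x * √(n2 F x)) :=
    (hwc.mul hnc).measurable.ennreal_ofReal
  calc ∫⁻ x, ENNReal.ofReal (|kn1 F s x| + |d1 (kn1 F s) x|)
      ≤ ∫⁻ x, V.indicator (fun x => ENNReal.ofReal (ww F s x * |d1 F x|) +
          (ENNReal.ofReal (2 * Cb / s) * ENNReal.ofReal (√(n2 F x)) +
          (ENNReal.ofReal 3 * ENNReal.ofReal (ww F s x * √(n2 F x)) +
          ENNReal.ofReal Cb * ENNReal.ofReal
            (ww F s x * |d1 F x| * (|d1 (qF F) x| / s ^ 2))))) x := by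
        refine lintegral_mono fun x => ?_
        refine (ENNReal.ofReal_le_ofReal (pw hCb hB1 hB2 hB3 h4 hF hs x)).trans ?_
        by_cases hx : x ∈ V
        · rw [indicator_of_mem hx, indicator_of_mem hx]
          have hw := ww_nonneg (F := F) hs0 x
          have hN := Real.sqrt_nonneg (n2 F x)
          rw [← ENNReal.ofReal_mul (by positivity), ← ENNReal.ofReal_mul (by positivity),
            ← ENNReal.ofReal_mul (by positivity), ← ENNReal.ofReal_add (by positivity)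
            (by positivity), ← ENNReal.ofReal_add (by positivity) (by positivity),
            ← ENNReal.ofReal_add (by positivity) (by positivity)]
        · rw [indicator_of_notMem hx, indicator_of_notMem hx, ENNReal.ofReal_zero]
    _ ≤ ∫⁻ x in V, (ENNReal.ofReal (ww F s x * |d1 F x|) +
          (ENNReal.ofReal (2 * Cb / s) * ENNReal.ofReal (√(n2 F x)) +
          (ENNReal.ofReal 3 * ENNReal.ofReal (ww F s x * √(n2 F x)) +
          ENNReal.ofReal Cb * ENNReal.ofReal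
            (ww F s x * |d1 F x| * (|d1 (qF F) x| / s ^ 2))))) := lintegral_indicator_le _ _
    _ = (∫⁻ x in V, ENNReal.ofReal (ww F s x * |d1 F x|)) +
          (ENNReal.ofReal (2 * Cb / s) * (∫⁻ x in V, ENNReal.ofReal (√(n2 F x))) +
          (ENNReal.ofReal 3 * (∫⁻ x in V, ENNReal.ofReal (ww F s x * √(n2 F x))) +
          ENNReal.ofReal Cb * ∫⁻ x in V, ENNReal.ofReal
            (ww F s x * |d1 F x| * (|d1 (qF F) x| / s ^ 2)))) := by
        rw [lintegral_add_left m1, lintegral_add_left (m2.const_mul _),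
          lintegral_add_left (m3.const_mul _), lintegral_const_mul _ m2,
          lintegral_const_mul _ m3, lintegral_const_mul' _ _ ENNReal.ofReal_ne_top]
    _ ≤ ENNReal.ofReal (CW * n ^ 2) +
          (ENNReal.ofReal (2 * Cb / s) * ENNReal.ofReal (CW * n ^ 2 * s) +
          (ENNReal.ofReal 3 * ENNReal.ofReal (CW * n ^ 2 * (1 + Real.log s)) +
          ENNReal.ofReal Cb * ENNReal.ofReal (C4 * n ^ 2 * (1 + Real.log s)))) := by
        gcongr
    _ = ENNReal.ofReal (CW * n ^ 2 + (2 * Cb / s * (CW * n ^ 2 * s) +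
          (3 * (CW * n ^ 2 * (1 + Real.log s)) + Cb * (C4 * n ^ 2 * (1 + Real.log s))))) := by
        rw [← ENNReal.ofReal_mul (by positivity), ← ENNReal.ofReal_mul (by positivity),
            ← ENNReal.ofReal_mul (by positivity), ← ENNReal.ofReal_add (by positivity)
            (by positivity), ← ENNReal.ofReal_add (by positivity) (by positivity),
            ← ENNReal.ofReal_add (by positivity) (by positivity)]
    _ ≤ _ := by
        apply ENNReal.ofReal_le_ofReal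
        have h5 : 2 * Cb / s * (CW * n ^ 2 * s) = 2 * Cb * CW * n ^ 2 := by
          field_simp
        rw [h5]
        have h6 : CW * (n : ℝ) ^ 2 ≤ CW * (n : ℝ) ^ 2 * (1 + Real.log s) := by
          have h7 : 0 ≤ CW * (n : ℝ) ^ 2 := by positivity
          nlinarith
        have h8 : 2 * Cb * CW * (n : ℝ) ^ 2 ≤ 2 * Cb * CW * (n : ℝ) ^ 2 * (1 + Real.log s) := by
          have h7 : 0 ≤ 2 * Cb * CW * (n : ℝ) ^ 2 := by positivity
          nlinarith
        nlinarith

end Pool.Agent.Chirp
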